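import Pool.Agent.H78.CeHomotopy

/-!
# The nerve of a group is a Kan complex
-/

set_option autoImplicit false

open CategoryTheory Limits Simplicial Opposite MonoidalCategory SSet

namespace Pool.Agent.H78.Ce

open Pool.Agent.H68.Ce

variable {G : Type} [Group G]

/-- extension of a function on the edges of the horn by one -/
noncomputable def extv {m : ℕ} {i : Fin (m + 1)} (t : (Λ[m, i] : SSet.{0}) ⟶ BG G)
    (e : Δ[m] _⦋1⦌) : G := by
  classical
  exact if h : e ∈ (Λ[m, i] : (Δ[m] : SSet.{0}).Subcomplex).obj _ then val t ⟨e, h⟩ else 1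

theorem extv_of_mem {m : ℕ} {i : Fin (m + 1)} (t : (Λ[m, i] : SSet.{0}) ⟶ BG G)
    (e : Δ[m] _⦋1⦌) (h : e ∈ (Λ[m, i] : (Δ[m] : SSet.{0}).Subcomplex).obj _) :
    extv t e = val t ⟨e, h⟩ := by
  unfold extv
  rw [dif_pos h]

theorem extv_triangle {m : ℕ} {i : Fin (m + 1)} (t : (Λ[m, i] : SSet.{0}) ⟶ BG G)
    (a b c : Fin (m + 1)) (hab : a ≤ b) (hbc : b ≤ c)
    (h : ∃ j, j ≠ i ∧ j ≠ a ∧ j ≠ b ∧ j ≠ c) :
    extv t (stdSimplex.edge m a c (hab.trans hbc)) =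
      extv t (stdSimplex.edge m b c hbc) * extv t (stdSimplex.edge m a b hab) := by
  obtain ⟨j, hji, hja, hjb, hjc⟩ := h
  have hs : stdSimplex.triangle a b c hab hbc ∈
      (Λ[m, i] : (Δ[m] : SSet.{0}).Subcomplex).obj (op ⦋2⦌) := by
    rw [mem_horn_iff_notMem_range]
    refine ⟨j, hji, ?_⟩
    rintro ⟨k, hk⟩
    fin_cases k
    · exact hja hk.symm
    · exact hjb hk.symm
    · exact hjc hk.symm
  have hc := val_isCoc t ⟨_, hs⟩
  have e1 : (Δ[m] : SSet.{0}).δ 1 (stdSimplex.triangle a b c hab hbc) =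
      stdSimplex.edge m a c (hab.trans hbc) := by
    apply DFunLike.ext
    intro k
    fin_cases k <;> rfl
  have e0 : (Δ[m] : SSet.{0}).δ 0 (stdSimplex.triangle a b c hab hbc) =
      stdSimplex.edge m b c hbc := by
    apply DFunLike.ext
    intro k
    fin_cases k <;> rfl
  have e2 : (Δ[m] : SSet.{0}).δ 2 (stdSimplex.triangle a b c hab hbc) =
      stdSimplex.edge m a b hab := by
    apply DFunLike.ext
    intro k
    fin_cases k <;> rfl
  have m1 : (Δ[m] : SSet.{0}).δ 1 (stdSimplex.triangle a b c hab hbc) ∈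
      (Λ[m, i] : (Δ[m] : SSet.{0}).Subcomplex).obj (op ⦋1⦌) :=
    (Λ[m, i] : (Δ[m] : SSet.{0}).Subcomplex).map (SimplexCategory.δ (1 : Fin 3)).op hs
  have m0 : (Δ[m] : SSet.{0}).δ 0 (stdSimplex.triangle a b c hab hbc) ∈
      (Λ[m, i] : (Δ[m] : SSet.{0}).Subcomplex).obj (op ⦋1⦌) :=
    (Λ[m, i] : (Δ[m] : SSet.{0}).Subcomplex).map (SimplexCategory.δ (0 : Fin 3)).op hs
  have m2 : (Δ[m] : SSet.{0}).δ 2 (stdSimplex.triangle a b c hab hbc) ∈
      (Λ[m, i] : (Δ[m] : SSet.{0}).Subcomplex).obj (op ⦋1⦌) :=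
    (Λ[m, i] : (Δ[m] : SSet.{0}).Subcomplex).map (SimplexCategory.δ (2 : Fin 3)).op hs
  rw [← e1, ← e0, ← e2, extv_of_mem t _ m1, extv_of_mem t _ m0, extv_of_mem t _ m2]
  exact hc

/-- the potential on the vertices of the horn -/
noncomputable def pot {m : ℕ} {i : Fin (m + 1)} (t : (Λ[m, i] : SSet.{0}) ⟶ BG G)
    (v : Fin (m + 1)) : G :=
  if h : i ≤ v then extv t (stdSimplex.edge m i v h)
    else (extv t (stdSimplex.edge m v i (le_of_lt (not_le.mp h))))⁻¹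

theorem extv_eq {m : ℕ} {i : Fin (m + 1)} (t : (Λ[m, i] : SSet.{0}) ⟶ BG G)
    (a b : Fin (m + 1)) (hab : a ≤ b) (h : ∃ j, j ≠ i ∧ j ≠ a ∧ j ≠ b) :
    extv t (stdSimplex.edge m a b hab) = pot t b * (pot t a)⁻¹ := by
  obtain ⟨j, hji, hja, hjb⟩ := h
  unfold pot
  by_cases hia : i ≤ a
  · rw [dif_pos hia, dif_pos (hia.trans hab)]
    have := extv_triangle t i a b hia hab ⟨j, hji, hji, hja, hjb⟩
    rw [this]
    group
  · rw [dif_neg hia]
    have hai : a ≤ i := le_of_lt (not_le.mp hia)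
    by_cases hib : i ≤ b
    · rw [dif_pos hib]
      have := extv_triangle t a i b hai hib ⟨j, hji, hja, hji, hjb⟩
      rw [this]
      group
    · rw [dif_neg hib]
      have hbi : b ≤ i := le_of_lt (not_le.mp hib)
      have := extv_triangle t a b i hab hbi ⟨j, hji, hja, hjb, hji⟩
      rw [this]
      group

theorem horn_lift {m : ℕ} {i : Fin (m + 1)} (t : (Λ[m, i] : SSet.{0}) ⟶ BG G) :
    ∃ l : Δ[m] ⟶ BG G, Λ[m, i].ι ≫ l = t := by
  have hone : IsCoc (fun _ : (Δ[m] : SSet.{0}) _⦋1⦌ => (1 : G)) := by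
    intro s
    simp
  refine ⟨ofCoc _ (hone.gauge (fun v => pot t (v 0))), ?_⟩
  apply hom_ext
  intro e
  obtain ⟨e, he⟩ := e
  refine (val_comp (Λ[m, i] : (Δ[m] : SSet.{0}).Subcomplex).ι _ _).trans ?_
  refine (val_ofCoc _ _ _).trans ?_
  have hle : e 0 ≤ e 1 := stdSimplex.monotone_apply e (by decide)
  have hee : e = stdSimplex.edge m (e 0) (e 1) hle := by
    apply DFunLike.ext
    intro k
    fin_cases k <;> rfl
  have h1 := extv_of_mem t e he
  rw [← h1]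
  change pot t (e 1) * 1 * (pot t (e 0))⁻¹ = _
  rw [mul_one]
  rw [mem_horn_iff_notMem_range] at he
  obtain ⟨j, hj, hj'⟩ := he
  have h2 := extv_eq t (e 0) (e 1) hle ⟨j, hj, fun h => hj' ⟨0, h.symm⟩, fun h => hj' ⟨1, h.symm⟩⟩
  rw [← hee] at h2
  exact h2.symm

open HomotopicalAlgebra in
open modelCategoryQuillen in
theorem kan_BG (G : Type) [Group G] : SSet.KanComplex (BG G) := by
  refine (isFibrant_iff _).2 ⟨?_⟩
  rw [fibrations_eq]
  intro _ _ _ hf
  simp only [J, MorphismProperty.iSup_iff] at hf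
  obtain ⟨n, ⟨i⟩⟩ := hf
  refine ⟨fun {t _} _ ↦ ?_⟩
  obtain ⟨φ, hφ⟩ := horn_lift t
  exact ⟨⟨{
    l := φ
    fac_left := hφ
    fac_right := by subsingleton }⟩⟩

end Pool.Agent.H78.Ce
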