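import Pool.Agent.H78.CeCochain
import Pool.Agent.H78.CeKan

/-!
# The classifying space of a finite `p`-group is `p`-complete
-/

set_option autoImplicit false

open CategoryTheory Limits Simplicial Opposite

namespace Pool.Agent.H78.Ce

open Pool.Agent.H68.Ce

section faces

variable (X : SSet.{0}) (t : X _⦋3⦌)

theorem f3_00 : X.δ 0 (X.δ 1 t) = X.δ 0 (X.δ 0 t) := by
  have := SSet.δ_comp_δ_self_apply (S := X) (i := (0 : Fin 3)) t
  simpa using this.symm

theorem f3_10 : X.δ 0 (X.δ 2 t) = X.δ 1 (X.δ 0 t) := by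
  have := SSet.δ_comp_δ_apply (S := X) (i := (0 : Fin 3)) (j := 1) (by decide) t
  simpa using this

theorem f3_20 : X.δ 0 (X.δ 3 t) = X.δ 2 (X.δ 0 t) := by
  have := SSet.δ_comp_δ_apply (S := X) (i := (0 : Fin 3)) (j := 2) (by decide) t
  simpa using this

theorem f3_11 : X.δ 1 (X.δ 2 t) = X.δ 1 (X.δ 1 t) := by
  have := SSet.δ_comp_δ_self_apply (S := X) (i := (1 : Fin 3)) t
  simpa using this.symm

theorem f3_21 : X.δ 1 (X.δ 3 t) = X.δ 2 (X.δ 1 t) := by
  have := SSet.δ_comp_δ_apply (S := X) (i := (1 : Fin 3)) (j := 2) (by decide) t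
  simpa using this

theorem f3_22 : X.δ 2 (X.δ 3 t) = X.δ 2 (X.δ 2 t) := by
  have := SSet.δ_comp_δ_self_apply (S := X) (i := (2 : Fin 3)) t
  simpa using this.symm

end faces

section cob

variable {k : Type} [Field k] {X : SSet.{0}}

theorem cob_zero (φ : X _⦋0⦌ → k) (e : X _⦋1⦌) : cob φ e = φ (X.δ 0 e) - φ (X.δ 1 e) := by
  unfold cob
  simp [Fin.sum_univ_two]
  ring

theorem cob_one (φ : X _⦋1⦌ → k) (s : X _⦋2⦌) :
    cob φ s = φ (X.δ 0 s) - φ (X.δ 1 s) + φ (X.δ 2 s) := by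
  unfold cob
  simp [Fin.sum_univ_three]
  ring

theorem cob_two (φ : X _⦋2⦌ → k) (t : X _⦋3⦌) :
    cob φ t = φ (X.δ 0 t) - φ (X.δ 1 t) + φ (X.δ 2 t) - φ (X.δ 3 t) := by
  unfold cob
  simp [Fin.sum_univ_four]
  ring

end cob

variable {A B : SSet.{0}} (f : A ⟶ B)

/-- essential surjectivity of pulling back cocycles along `f` -/
def ES (P : Type) [Group P] : Prop :=
  ∀ a : A _⦋1⦌ → P, IsCoc a → ∃ c : B _⦋1⦌ → P, IsCoc c ∧ ∃ b : A _⦋0⦌ → P,
    ∀ e, a e * b (A.δ 1 e) = b (A.δ 0 e) * c (f.app _ e)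

/-- fullness of pulling back cocycles along `f` -/
def FF (P : Type) [Group P] : Prop :=
  ∀ c c' : B _⦋1⦌ → P, IsCoc c → IsCoc c' → ∀ b' : A _⦋0⦌ → P,
    (∀ e, c' (f.app _ e) * b' (A.δ 1 e) = b' (A.δ 0 e) * c (f.app _ e)) →
    ∃ b : B _⦋0⦌ → P, (∀ e, c' e * b (B.δ 1 e) = b (B.δ 0 e) * c e) ∧
      ∀ v, b (f.app _ v) = b' v

section ext

variable {k : Type} [Field k] {P Q : Type} [Group P] [Group Q] (π : P →* Q)
  (hπ : Function.Surjective π) (ι : k → P) (hadd : ∀ a b, ι (a + b) = ι a * ι b)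
  (hinj : Function.Injective ι) (hcomm : ∀ a g, g * ι a = ι a * g) (hπι : ∀ a, π (ι a) = 1)
  (hker : ∀ g, π g = 1 → ∃ a, ι a = g)

include hπ hadd hinj hcomm hπι hker

theorem FF_step (hf0 : IsIso (SSet.homologyMap f (ModuleCat.of k k) 0))
    (hf1 : IsIso (SSet.homologyMap f (ModuleCat.of k k) 1)) (hQ : FF f Q) : FF f P := by
  have hdiff : ∀ g h : P, π g = π h → ∃ a, g = ι a * h := by
    intro g h hgh
    obtain ⟨a, ha⟩ := hker (g * h⁻¹) (by rw [map_mul, map_inv, hgh, mul_inv_cancel])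
    exact ⟨a, by rw [ha]; group⟩
  intro c c' hc hc' b' hb'
  obtain ⟨bb, hbb, hbb'⟩ := hQ (fun e => π (c e)) (fun e => π (c' e))
    (fun s => by
      change π _ = π _ * π _
      rw [hc s, map_mul])
    (fun s => by
      change π _ = π _ * π _
      rw [hc' s, map_mul]) (fun v => π (b' v)) (fun e => by
      change π _ * π _ = π _ * π _
      rw [← map_mul, hb', map_mul])
  obtain ⟨σ, hσ⟩ := hπ.hasRightInverse
  let β : B _⦋0⦌ → P := fun v => σ (bb v)
  have hβ : ∀ v, π (β v) = bb v := fun v => hσ _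
  have hφ : ∀ e : B _⦋1⦌, ∃ φ : k, c' e * β (B.δ 1 e) = ι φ * (β (B.δ 0 e) * c e) := by
    intro e
    apply hdiff
    rw [map_mul, map_mul, hβ, hβ]
    exact hbb e
  choose φ hφ using hφ
  have hζ : ∀ v : A _⦋0⦌, ∃ ζ : k, b' v = ι ζ * β (f.app _ v) := by
    intro v
    apply hdiff
    rw [hβ, hbb']
  choose ζ hζ using hζ
  have hφc : ∀ s : B _⦋2⦌, φ (B.δ 1 s) = φ (B.δ 2 s) + φ (B.δ 0 s) := by
    intro s
    apply hinj
    rw [hadd]
    have h1 := hφ (B.δ 1 s)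
    have h0 := hφ (B.δ 0 s)
    have h2 := hφ (B.δ 2 s)
    rw [hc' s, hc s, face_01, ← face_12] at h1
    rw [face_02] at h2
    have h3 : c' (B.δ 0 s) * c' (B.δ 2 s) * β (B.δ 1 (B.δ 2 s)) =
        ι (φ (B.δ 2 s)) * ι (φ (B.δ 0 s)) * (β (B.δ 0 (B.δ 0 s)) *
          (c (B.δ 0 s) * c (B.δ 2 s))) := by
      calc c' (B.δ 0 s) * c' (B.δ 2 s) * β (B.δ 1 (B.δ 2 s))
          = c' (B.δ 0 s) * (c' (B.δ 2 s) * β (B.δ 1 (B.δ 2 s))) := by group
        _ = c' (B.δ 0 s) * ι (φ (B.δ 2 s)) * (β (B.δ 1 (B.δ 0 s)) * c (B.δ 2 s)) := by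
            rw [h2]; group
        _ = ι (φ (B.δ 2 s)) * (c' (B.δ 0 s) * β (B.δ 1 (B.δ 0 s))) * c (B.δ 2 s) := by
            rw [hcomm]; group
        _ = _ := by rw [h0]; group
    rw [h1] at h3
    exact mul_right_cancel h3
  have hfφ : ∀ e : A _⦋1⦌, φ (f.app _ e) = cob ζ e := by
    intro e
    rw [cob_zero]
    have h1 := hb' e
    have h2 := hφ (f.app _ e)
    rw [hζ, hζ, SSet.δ_naturality_apply, SSet.δ_naturality_apply] at h1
    have h3 : ι (ζ (A.δ 1 e) + φ (f.app _ e)) = ι (ζ (A.δ 0 e)) := by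
      have : ι (ζ (A.δ 1 e)) * ι (φ (f.app _ e)) * (β (B.δ 0 (f.app _ e)) * c (f.app _ e)) =
          ι (ζ (A.δ 0 e)) * (β (B.δ 0 (f.app _ e)) * c (f.app _ e)) := by
        rw [mul_assoc, ← h2, ← mul_assoc, ← mul_assoc, ← h1, ← hcomm, mul_assoc]
      rw [hadd]
      exact mul_right_cancel this
    have h4 := hinj h3
    rw [← h4]
    ring
  obtain ⟨η, hη⟩ := cochain_inj f 0 hf1 φ (fun s => by
    rw [cob_one, hφc]; ring) ζ hfφ
  obtain ⟨ξ', hξ', hξf⟩ := cochain_surj_zero f hf0 (fun v => ζ v - η (f.app _ v)) (fun e => by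
    have h1 := hfφ e
    rw [hη (f.app _ e), cob_zero, cob_zero, ← SSet.δ_naturality_apply,
      ← SSet.δ_naturality_apply] at h1
    rw [cob_zero]
    linear_combination -h1)
  refine ⟨fun v => ι (ξ' v + η v) * β v, fun e => ?_, fun v => ?_⟩
  · have h1 : ξ' (B.δ 1 e) + η (B.δ 1 e) + φ e = ξ' (B.δ 0 e) + η (B.δ 0 e) := by
      have h2 := hξ' e
      have h3 := hη e
      rw [cob_zero] at h2 h3
      rw [h3]
      linear_combination -h2
    calc c' e * (ι (ξ' (B.δ 1 e) + η (B.δ 1 e)) * β (B.δ 1 e))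
        = ι (ξ' (B.δ 1 e) + η (B.δ 1 e)) * (c' e * β (B.δ 1 e)) := by
          rw [← mul_assoc, hcomm]; group
      _ = ι (ξ' (B.δ 1 e) + η (B.δ 1 e)) * ι (φ e) * (β (B.δ 0 e) * c e) := by
          rw [hφ]; group
      _ = _ := by rw [← hadd, h1]; group
  · change ι (ξ' (f.app _ v) + η (f.app _ v)) * β (f.app _ v) = b' v
    rw [hξf, hζ v]
    congr 2
    ring

theorem ES_step (hf1 : IsIso (SSet.homologyMap f (ModuleCat.of k k) 1))
    (hf2 : IsIso (SSet.homologyMap f (ModuleCat.of k k) 2)) (hQ : ES f Q) : ES f P := by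
  have hdiff : ∀ g h : P, π g = π h → ∃ a, g = ι a * h := by
    intro g h hgh
    obtain ⟨a, ha⟩ := hker (g * h⁻¹) (by rw [map_mul, map_inv, hgh, mul_inv_cancel])
    exact ⟨a, by rw [ha]; group⟩
  intro a ha
  obtain ⟨cb, hcb, bb, hbb⟩ := hQ (fun e => π (a e)) (fun s => by
      change π _ = π _ * π _
      rw [ha s, map_mul])
  obtain ⟨σ, hσ⟩ := hπ.hasRightInverse
  let b0 : A _⦋0⦌ → P := fun v => σ (bb v)
  have hb0 : ∀ v, π (b0 v) = bb v := fun v => hσ _
  let a' : A _⦋1⦌ → P := fun e => (b0 (A.δ 0 e))⁻¹ * a e * b0 (A.δ 1 e)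
  have ha'c : IsCoc a' := by
    have h1 := ha.gauge (fun v => (b0 v)⁻¹)
    have h2 : gauge (fun v => (b0 v)⁻¹) a = a' := by
      funext e
      simp only [gauge, a', inv_inv]
    rw [← h2]
    exact h1
  have ha'π : ∀ e, π (a' e) = cb (f.app _ e) := by
    intro e
    have := hbb e
    simp only [a', map_mul, map_inv, hb0]
    rw [mul_assoc, this]
    group
  let γ : B _⦋1⦌ → P := fun e => σ (cb e)
  have hγ : ∀ e, π (γ e) = cb e := fun e => hσ _
  have hω : ∀ s : B _⦋2⦌, ∃ ω : k, γ (B.δ 0 s) * γ (B.δ 2 s) = ι ω * γ (B.δ 1 s) := by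
    intro s
    apply hdiff
    rw [map_mul, hγ, hγ, hγ]
    exact (hcb s).symm
  choose ω hω using hω
  have hωc : ∀ t : B _⦋3⦌, cob ω t = 0 := by
    intro t
    rw [cob_two]
    have h0 := hω (B.δ 0 t)
    have h1 := hω (B.δ 1 t)
    have h2 := hω (B.δ 2 t)
    have h3 := hω (B.δ 3 t)
    rw [f3_00] at h1
    rw [f3_10, f3_11] at h2
    rw [f3_20, f3_22, f3_21] at h3
    have e1 : γ (B.δ 0 (B.δ 0 t)) * γ (B.δ 2 (B.δ 0 t)) * γ (B.δ 2 (B.δ 2 t)) =
        ι (ω (B.δ 0 t) + ω (B.δ 2 t)) * γ (B.δ 1 (B.δ 1 t)) := by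
      rw [h0, mul_assoc, h2, hadd]; group
    have e2 : γ (B.δ 0 (B.δ 0 t)) * γ (B.δ 2 (B.δ 0 t)) * γ (B.δ 2 (B.δ 2 t)) =
        ι (ω (B.δ 3 t) + ω (B.δ 1 t)) * γ (B.δ 1 (B.δ 1 t)) := by
      rw [mul_assoc, h3, ← mul_assoc, hcomm, mul_assoc, h1, hadd]; group
    rw [e1] at e2
    have e3 := hinj (mul_right_cancel e2)
    linear_combination e3
  have hχ : ∀ e : A _⦋1⦌, ∃ χ : k, γ (f.app _ e) = ι χ * a' e := by
    intro e
    apply hdiff
    rw [hγ, ha'π]
  choose χ hχ using hχ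
  have hωf : ∀ s, ω (f.app _ s) = cob χ s := by
    intro s
    rw [cob_one]
    have h0 := hω (f.app _ s)
    rw [← SSet.δ_naturality_apply, ← SSet.δ_naturality_apply, ← SSet.δ_naturality_apply,
      hχ, hχ, hχ, ha'c s] at h0
    have h1 : ι (χ (A.δ 0 s)) * a' (A.δ 0 s) * (ι (χ (A.δ 2 s)) * a' (A.δ 2 s)) =
        ι (χ (A.δ 0 s) + χ (A.δ 2 s)) * (a' (A.δ 0 s) * a' (A.δ 2 s)) := by
      calc ι (χ (A.δ 0 s)) * a' (A.δ 0 s) * (ι (χ (A.δ 2 s)) * a' (A.δ 2 s))
          = ι (χ (A.δ 0 s)) * (a' (A.δ 0 s) * ι (χ (A.δ 2 s))) * a' (A.δ 2 s) := by group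
        _ = _ := by rw [hcomm, hadd]; group
    rw [h1, ← mul_assoc (ι (ω _)), ← hadd] at h0
    have h2 := hinj (mul_right_cancel h0)
    linear_combination -h2
  obtain ⟨η, hη⟩ := cochain_inj f 1 hf2 ω hωc χ hωf
  have hξc : ∀ s, cob (fun e => χ e - η (f.app _ e)) s = 0 := by
    intro s
    have h1 := hωf s
    rw [hη, cob_one, cob_one, ← SSet.δ_naturality_apply, ← SSet.δ_naturality_apply,
      ← SSet.δ_naturality_apply] at h1
    rw [cob_one]
    linear_combination -h1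
  obtain ⟨ψ, hψ, ζ, hζ⟩ := cochain_surj f 0 hf1 _ hξc
  refine ⟨fun e => ι (-ψ e - η e) * γ e, fun s => ?_, fun v => ι (-ζ v) * b0 v, fun e => ?_⟩
  · have h1 := hω s
    have h2 := hψ s
    have h3 := hη s
    rw [cob_one] at h2 h3
    have h4 : -ψ (B.δ 1 s) - η (B.δ 1 s) =
        (-ψ (B.δ 0 s) - η (B.δ 0 s)) + (-ψ (B.δ 2 s) - η (B.δ 2 s)) + ω s := by
      rw [h3]
      linear_combination h2
    calc ι (-ψ (B.δ 1 s) - η (B.δ 1 s)) * γ (B.δ 1 s)
        = ι (-ψ (B.δ 0 s) - η (B.δ 0 s)) * ι (-ψ (B.δ 2 s) - η (B.δ 2 s)) *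
            (ι (ω s) * γ (B.δ 1 s)) := by
          rw [h4, hadd, hadd]; group
      _ = ι (-ψ (B.δ 0 s) - η (B.δ 0 s)) * (ι (-ψ (B.δ 2 s) - η (B.δ 2 s)) *
            γ (B.δ 0 s)) * γ (B.δ 2 s) := by
          rw [← h1]; group
      _ = _ := by rw [← hcomm (-ψ (B.δ 2 s) - η (B.δ 2 s))]; group
  · have h1 := hζ e
    rw [cob_zero] at h1
    have h2 : -ψ (f.app _ e) - η (f.app _ e) = ζ (A.δ 0 e) - ζ (A.δ 1 e) - χ e := by
      linear_combination h1
    have h3 : a e = b0 (A.δ 0 e) * a' e * (b0 (A.δ 1 e))⁻¹ := by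
      simp only [a']
      group
    have h5 : -ζ (A.δ 1 e) = -ζ (A.δ 0 e) + (ζ (A.δ 0 e) - ζ (A.δ 1 e) - χ e) + χ e := by ring
    calc a e * (ι (-ζ (A.δ 1 e)) * b0 (A.δ 1 e))
        = ι (-ζ (A.δ 1 e)) * (a e * b0 (A.δ 1 e)) := by
          rw [← mul_assoc, hcomm]; group
      _ = ι (-ζ (A.δ 1 e)) * (b0 (A.δ 0 e) * a' e) := by
          rw [h3]; group
      _ = ι (-ζ (A.δ 0 e)) * ι (ζ (A.δ 0 e) - ζ (A.δ 1 e) - χ e) * (ι (χ e) *
            b0 (A.δ 0 e)) * a' e := by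
          rw [h5, hadd, hadd]; group
      _ = ι (-ζ (A.δ 0 e)) * (ι (ζ (A.δ 0 e) - ζ (A.δ 1 e) - χ e) *
            b0 (A.δ 0 e)) * (ι (χ e) * a' e) := by
          rw [← hcomm (χ e)]; group
      _ = ι (-ζ (A.δ 0 e)) * b0 (A.δ 0 e) * (ι (ζ (A.δ 0 e) - ζ (A.δ 1 e) - χ e) *
            γ (f.app _ e)) := by
          rw [← hcomm (ζ (A.δ 0 e) - ζ (A.δ 1 e) - χ e), ← hχ]; group
      _ = _ := by rw [← h2]

end ext

theorem trivial_case (P : Type) [Group P] [Subsingleton P] : ES f P ∧ FF f P := by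
  refine ⟨fun a _ => ⟨fun _ => 1, fun s => by simp, fun _ => 1, fun e => Subsingleton.elim _ _⟩,
    fun c c' _ _ b' _ => ⟨fun _ => 1, fun e => Subsingleton.elim _ _,
      fun v => Subsingleton.elim _ _⟩⟩

/-- the induction over finite `p`-groups -/
theorem main_induction (p : ℕ) [hp : Fact p.Prime] (hf : ModPEquiv p f) :
    ∀ (n : ℕ) (P : Type) [Group P] [Finite P], Nat.card P = n → IsPGroup p P →
      ES f P ∧ FF f P := by
  intro n
  induction n using Nat.strong_induction_on with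
  | _ n ih =>
  intro P _ _ hn hP
  rcases subsingleton_or_nontrivial P with h | h
  · exact trivial_case f P
  · have hfield0 := hf 0
    have hfield1 := hf 1
    have hfield2 := hf 2
    have : Nontrivial (Subgroup.center P) := hP.center_nontrivial
    have hcen : IsPGroup p (Subgroup.center P) := hP.to_subgroup _
    obtain ⟨z, hz⟩ : ∃ z : Subgroup.center P, orderOf z = p := by
      apply exists_prime_orderOf_dvd_card' p
      obtain ⟨m, hm, hm'⟩ := hcen.nontrivial_iff_card.mp inferInstance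
      rw [hm']
      exact dvd_pow_self p hm.ne'
    have hz' : orderOf (z : P) = p := by rw [Subgroup.orderOf_coe, hz]
    have hzc : ∀ g : P, g * (z : P) = z * g := fun g =>
      (Subgroup.mem_center_iff.mp z.2 g)
    let N : Subgroup P := Subgroup.zpowers (z : P)
    have hNn : N.Normal := by
      refine ⟨fun x hx g => ?_⟩
      obtain ⟨m, rfl⟩ := Subgroup.mem_zpowers_iff.mp hx
      have : Commute g ((z : P) ^ m) := (show Commute g (z : P) from hzc g).zpow_right m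
      rw [this.eq, mul_inv_cancel_right]
      exact hx
    have hcard : Nat.card (P ⧸ N) < n := by
      have h1 := Subgroup.card_eq_card_quotient_mul_card_subgroup N
      have h2 : Nat.card N = p := by rw [Nat.card_zpowers, hz']
      have h3 : 0 < Nat.card (P ⧸ N) := Nat.card_pos
      rw [← hn, h1, h2]
      have := hp.out.two_le
      nlinarith
    obtain ⟨hES, hFF⟩ := ih _ hcard (P ⧸ N) rfl (hP.to_quotient N)
    let ι : ZMod p → P := fun a => (z : P) ^ a.val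
    have hadd : ∀ a b, ι (a + b) = ι a * ι b := by
      intro a b
      simp only [ι]
      rw [← pow_add, ZMod.val_add]
      conv_rhs => rw [← pow_mod_orderOf, hz']
    have hinj : Function.Injective ι := by
      intro a b hab
      simp only [ι] at hab
      have := pow_injOn_Iio_orderOf (x := (z : P)) (by rw [hz']; exact ZMod.val_lt a)
        (by rw [hz']; exact ZMod.val_lt b) hab
      exact ZMod.val_injective p this
    have hcomm : ∀ a g, g * ι a = ι a * g := fun a g =>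
      ((show Commute g (z : P) from hzc g).pow_right a.val).eq
    have hπι : ∀ a, QuotientGroup.mk' N (ι a) = 1 := by
      intro a
      rw [QuotientGroup.mk'_apply, QuotientGroup.eq_one_iff]
      exact Subgroup.npow_mem_zpowers _ _
    have hker : ∀ g, QuotientGroup.mk' N g = 1 → ∃ a, ι a = g := by
      intro g hg
      rw [QuotientGroup.mk'_apply, QuotientGroup.eq_one_iff] at hg
      obtain ⟨m, rfl⟩ := Subgroup.mem_zpowers_iff.mp hg
      refine ⟨(m : ZMod p), ?_⟩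
      simp only [ι]
      rw [← zpow_natCast, ZMod.val_intCast]
      conv_rhs => rw [← zpow_mod_orderOf, hz']
    exact ⟨ES_step f (QuotientGroup.mk' N) (QuotientGroup.mk'_surjective N) ι hadd hinj hcomm
        hπι hker hfield1 hfield2 hES,
      FF_step f (QuotientGroup.mk' N) (QuotientGroup.mk'_surjective N) ι hadd hinj hcomm
        hπι hker hfield0 hfield1 hFF⟩

/-- The classifying space of a finite `p`-group is `p`-complete. -/
theorem pComplete_BG (p : ℕ) [Fact p.Prime] (P : Type) [Group P] [Finite P]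
    (hP : IsPGroup p P) : PComplete p (BG P) where
  kan := kan_BG P
  ext {A B} f hf u := by
    obtain ⟨hES, -⟩ := main_induction f p hf _ P rfl hP
    obtain ⟨c, hc, b, hb⟩ := hES (val u) (val_isCoc u)
    refine ⟨ofCoc c hc, homotopy_of_gauge _ _ b fun e => ?_⟩
    rw [val_comp, val_ofCoc]
    exact hb e
  uniq {A B} f hf v v' := by
    rintro ⟨H⟩
    obtain ⟨-, hFF⟩ := main_induction f p hf _ P rfl hP
    obtain ⟨b', hb'⟩ := gauge_of_homotopy _ _ H
    obtain ⟨b, hb, -⟩ := hFF (val v) (val v') (val_isCoc v) (val_isCoc v') b' hb'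
    exact homotopy_of_gauge _ _ b hb

end Pool.Agent.H78.Ce
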