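import Mathlib
import Pool.Agent.H78.DET.GLemma

/-! Module G of THEOREM DET (MP_0edd48_al, statement of helper76): normal form in the group
`⟨a,b,c⟩` for `n = 3`. -/

namespace Pool.Agent.H78.IADetG

open scoped commutatorElement
open Subgroup

/-- The normal form element attached to `p, q` and an exponent vector. -/
def N {G : Type*} [Group G] (p q : G) (α : Fin 4 → ℤ) : G :=
  ⁅p, q⁆ ^ (α 0) * (q * ⁅p, q⁆ * q⁻¹) ^ (α 1) * (q ^ (2:ℤ) * ⁅p, q⁆ * q ^ (-2:ℤ)) ^ (α 2) *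
    (q ^ (3:ℤ) * ⁅p, q⁆ * q ^ (-3:ℤ)) ^ (α 3)

variable {G : Type*} [Group G]

/-- the shifts of the commutator -/
def sh (p q : G) (i : ℤ) : G := q ^ i * ⁅p, q⁆ * q ^ (-i)

theorem N_eq (p q : G) (α : Fin 4 → ℤ) :
    N p q α = sh p q 0 ^ (α 0) * sh p q 1 ^ (α 1) * sh p q 2 ^ (α 2) * sh p q 3 ^ (α 3) := by
  simp [N, sh]

theorem sh_zero (p q : G) : sh p q 0 = ⁅p, q⁆ := by simp [sh]

theorem sh_conj (p q : G) (i : ℤ) : q * sh p q i * q⁻¹ = sh p q (i + 1) := by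
  unfold sh; group

theorem sh_conj' (p q : G) (i : ℤ) : q⁻¹ * sh p q i * q = sh p q (i - 1) := by
  unfold sh; group

theorem sh_conj_pow (p q : G) (i m : ℤ) : q ^ m * sh p q i * q ^ (-m) = sh p q (i + m) := by
  unfold sh; group

section pair

variable {p q : G} (h : ∀ m : ℤ, Commute (p * q) (q ^ m * (p * q) * q ^ (-m)))

include h in
theorem w_comm (i j : ℤ) :
    Commute (q ^ i * (p * q) * q ^ (-i)) (q ^ j * (p * q) * q ^ (-j)) := by
  have h1 := h (j - i)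
  have h2 : (p * q) * (q ^ (j - i) * (p * q) * q ^ (-(j - i))) =
    (q ^ (j - i) * (p * q) * q ^ (-(j - i))) * (p * q) := h1.eq
  show _ * _ = _ * _
  calc q ^ i * (p * q) * q ^ (-i) * (q ^ j * (p * q) * q ^ (-j))
      = q ^ i * ((p * q) * (q ^ (j - i) * (p * q) * q ^ (-(j - i)))) * q ^ (-i) := by group
    _ = q ^ i * ((q ^ (j - i) * (p * q) * q ^ (-(j - i))) * (p * q)) * q ^ (-i) := by rw [h2]
    _ = q ^ j * (p * q) * q ^ (-j) * (q ^ i * (p * q) * q ^ (-i)) := by group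

theorem sh_eq (p q : G) (i : ℤ) : sh p q i =
    (q ^ i * (p * q) * q ^ (-i)) * (q ^ (i + 1) * (p * q) * q ^ (-(i + 1)))⁻¹ := by
  unfold sh; rw [commutatorElement_def]; group

include h in
theorem sh_comm (i j : ℤ) : Commute (sh p q i) (sh p q j) := by
  rw [sh_eq, sh_eq]
  exact ((w_comm h i j).mul_right (w_comm h i (j + 1)).inv_right).mul_left
    (((w_comm h (i + 1) j).mul_right (w_comm h (i + 1) (j + 1)).inv_right).inv_left)

include h in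
theorem sh_comm_w (i : ℤ) : Commute (p * q) (sh p q i) := by
  have h0 : (q ^ (0:ℤ) * (p * q) * q ^ (-(0:ℤ))) = p * q := by group
  rw [sh_eq, ← h0]
  have := (w_comm h 0 i).mul_right (w_comm h 0 (i + 1)).inv_right
  rw [h0] at this ⊢
  exact this

include h in
theorem sh_conj_p (i : ℤ) : p * sh p q i * p⁻¹ = sh p q (i - 1) := by
  have h1 := (sh_comm_w h (i - 1)).eq
  calc p * sh p q i * p⁻¹ = p * (q * sh p q (i - 1) * q⁻¹) * p⁻¹ := by
        rw [sh_conj, sub_add_cancel]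
    _ = ((p * q) * sh p q (i - 1)) * (p * q)⁻¹ := by group
    _ = (sh p q (i - 1) * (p * q)) * (p * q)⁻¹ := by rw [h1]
    _ = sh p q (i - 1) := by group

include h in
theorem sh_conj_p' (i : ℤ) : p⁻¹ * sh p q i * p = sh p q (i + 1) := by
  have := sh_conj_p h (i + 1)
  rw [add_sub_cancel_right] at this
  rw [← this]; group

include h in
theorem sh_conj_p_pow (i m : ℤ) : p ^ m * sh p q i * p ^ (-m) = sh p q (i - m) := by
  induction m using Int.induction_on generalizing i with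
  | zero => simp
  | succ k ih =>
    have h1 := ih (i - 1)
    have h2 := sh_conj_p h i
    calc p ^ ((k:ℤ) + 1) * sh p q i * p ^ (-((k:ℤ) + 1))
        = p ^ (k:ℤ) * (p * sh p q i * p⁻¹) * p ^ (-(k:ℤ)) := by group
      _ = p ^ (k:ℤ) * sh p q (i - 1) * p ^ (-(k:ℤ)) := by rw [h2]
      _ = sh p q (i - 1 - k) := h1
      _ = sh p q (i - (k + 1)) := by congr 1; ring
  | pred k ih =>
    have h1 := ih (i + 1)
    have h2 := sh_conj_p' h i
    calc p ^ (-(k:ℤ) - 1) * sh p q i * p ^ (-(-(k:ℤ) - 1))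
        = p ^ (-(k:ℤ)) * (p⁻¹ * sh p q i * p) * p ^ (-(-(k:ℤ))) := by group
      _ = p ^ (-(k:ℤ)) * sh p q (i + 1) * p ^ (-(-(k:ℤ))) := by rw [h2]
      _ = sh p q (i + 1 - -k) := h1
      _ = sh p q (i - (-(k:ℤ) - 1)) := by congr 1; ring

include h in
theorem w_weak : Commute (p * q) (q * p) := by
  have := h 1
  have e : q ^ (1:ℤ) * (p * q) * q ^ (-(1:ℤ)) = q * p := by group
  rwa [e] at this

theorem poly_shift
    (hp : ⁅p, q⁆ * (q * ⁅p, q⁆ * q⁻¹) =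
      (q ^ (3:ℤ) * ⁅p, q⁆ * q ^ (-3:ℤ)) * (q ^ (4:ℤ) * ⁅p, q⁆ * q ^ (-4:ℤ))) (i : ℤ) :
    sh p q i * sh p q (i + 1) = sh p q (i + 3) * sh p q (i + 4) := by
  unfold sh
  calc q ^ i * ⁅p, q⁆ * q ^ (-i) * (q ^ (i + 1) * ⁅p, q⁆ * q ^ (-(i + 1)))
      = q ^ i * (⁅p, q⁆ * (q * ⁅p, q⁆ * q⁻¹)) * q ^ (-i) := by group
    _ = q ^ i * ((q ^ (3:ℤ) * ⁅p, q⁆ * q ^ (-3:ℤ)) * (q ^ (4:ℤ) * ⁅p, q⁆ * q ^ (-4:ℤ))) *
        q ^ (-i) := by rw [hp]
    _ = _ := by group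

include h in
theorem N_add (α β : Fin 4 → ℤ) : N p q (α + β) = N p q α * N p q β := by
  rw [N_eq, N_eq, N_eq]
  have c := sh_comm h
  have z : ∀ i j : ℤ, ∀ m n : ℤ, Commute (sh p q i ^ m) (sh p q j ^ n) :=
    fun i j m n => ((c i j).zpow_left m).zpow_right n
  simp only [Pi.add_apply, zpow_add]
  have e1 := (((z 0 0 (β 0) (β 0))))
  calc sh p q 0 ^ α 0 * sh p q 0 ^ β 0 * (sh p q 1 ^ α 1 * sh p q 1 ^ β 1) *
        (sh p q 2 ^ α 2 * sh p q 2 ^ β 2) * (sh p q 3 ^ α 3 * sh p q 3 ^ β 3)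
      = sh p q 0 ^ α 0 * sh p q 1 ^ α 1 * (sh p q 0 ^ β 0 * sh p q 1 ^ β 1) *
        (sh p q 2 ^ α 2 * sh p q 2 ^ β 2) * (sh p q 3 ^ α 3 * sh p q 3 ^ β 3) := by
        rw [(z 0 1 (β 0) (α 1)).mul_mul_mul_comm]
    _ = sh p q 0 ^ α 0 * sh p q 1 ^ α 1 * sh p q 2 ^ α 2 *
        (sh p q 0 ^ β 0 * sh p q 1 ^ β 1 * sh p q 2 ^ β 2) *
        (sh p q 3 ^ α 3 * sh p q 3 ^ β 3) := by
        rw [((z 0 2 (β 0) (α 2)).mul_left (z 1 2 (β 1) (α 2))).mul_mul_mul_comm]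
    _ = sh p q 0 ^ α 0 * sh p q 1 ^ α 1 * sh p q 2 ^ α 2 * sh p q 3 ^ α 3 *
        (sh p q 0 ^ β 0 * sh p q 1 ^ β 1 * sh p q 2 ^ β 2 * sh p q 3 ^ β 3) := by
        rw [(((z 0 3 (β 0) (α 3)).mul_left (z 1 3 (β 1) (α 3))).mul_left
          (z 2 3 (β 2) (α 3))).mul_mul_mul_comm]

theorem N_zero : N p q 0 = 1 := by simp [N]

/-- The subgroup of all normal form elements. -/
def M (h : ∀ m : ℤ, Commute (p * q) (q ^ m * (p * q) * q ^ (-m))) : Subgroup G where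
  carrier := Set.range (N p q)
  one_mem' := ⟨0, N_zero⟩
  mul_mem' := by
    rintro _ _ ⟨α, rfl⟩ ⟨β, rfl⟩
    exact ⟨α + β, N_add h α β⟩
  inv_mem' := by
    rintro _ ⟨α, rfl⟩
    refine ⟨-α, ?_⟩
    apply eq_inv_of_mul_eq_one_left
    rw [← N_add h, neg_add_cancel, N_zero]

theorem sh_mem (hp : ⁅p, q⁆ * (q * ⁅p, q⁆ * q⁻¹) =
      (q ^ (3:ℤ) * ⁅p, q⁆ * q ^ (-3:ℤ)) * (q ^ (4:ℤ) * ⁅p, q⁆ * q ^ (-4:ℤ))) (i : ℤ) :
    sh p q i ∈ M h := by
  have m0 : sh p q 0 ∈ M h := ⟨![1, 0, 0, 0], by rw [N_eq]; simp⟩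
  have m1 : sh p q 1 ∈ M h := ⟨![0, 1, 0, 0], by rw [N_eq]; simp⟩
  have m2 : sh p q 2 ∈ M h := ⟨![0, 0, 1, 0], by rw [N_eq]; simp⟩
  have m3 : sh p q 3 ∈ M h := ⟨![0, 0, 0, 1], by rw [N_eq]; simp⟩
  have key : ∀ i : ℤ, sh p q i ∈ M h ∧ sh p q (i + 1) ∈ M h ∧ sh p q (i + 2) ∈ M h ∧
      sh p q (i + 3) ∈ M h := by
    intro i
    induction i using Int.induction_on with
    | zero => exact ⟨m0, m1, m2, m3⟩
    | succ k ih =>
      obtain ⟨i0, i1, i2, i3⟩ := ih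
      refine ⟨i1, ?_, ?_, ?_⟩
      · rw [add_assoc]; exact i2
      · rw [add_assoc]; exact i3
      · have e := poly_shift hp (k:ℤ)
        have e2 : sh p q ((k:ℤ) + 4) = (sh p q ((k:ℤ) + 3))⁻¹ * (sh p q k * sh p q (k + 1)) := by
          rw [e]; group
        rw [add_assoc]
        show sh p q ((k:ℤ) + (1 + 3)) ∈ M h
        norm_num
        rw [e2]
        exact (M h).mul_mem ((M h).inv_mem i3) ((M h).mul_mem i0 i1)
    | pred k ih =>
      obtain ⟨i0, i1, i2, i3⟩ := ih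
      have e := poly_shift hp (-(k:ℤ) - 1)
      have a1 : -(k:ℤ) - 1 + 1 = -k := by ring
      have a2 : -(k:ℤ) - 1 + 2 = -k + 1 := by ring
      have a3 : -(k:ℤ) - 1 + 3 = -k + 2 := by ring
      have a4 : -(k:ℤ) - 1 + 4 = -k + 3 := by ring
      rw [a1, a3, a4] at e
      rw [a1, a2, a3]
      refine ⟨?_, i0, i1, i2⟩
      have e2 : sh p q (-(k:ℤ) - 1) = (sh p q (-k + 2) * sh p q (-k + 3)) * (sh p q (-(k:ℤ)))⁻¹ := by
        rw [← e]; group
      rw [e2]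
      exact (M h).mul_mem ((M h).mul_mem i2 i3) ((M h).inv_mem i0)
  exact (key i).1

end pair

/-- A subgroup element in `M` commutes with `y` as soon as all shifts do. -/
theorem M_comm {p q : G} (h : ∀ m : ℤ, Commute (p * q) (q ^ m * (p * q) * q ^ (-m))) {y : G}
    (hy : ∀ i, Commute (sh p q i) y) : ∀ x ∈ M h, Commute x y := by
  rintro _ ⟨α, rfl⟩
  rw [N_eq]
  exact ((((hy 0).zpow_left _).mul_left ((hy 1).zpow_left _)).mul_left
    ((hy 2).zpow_left _)).mul_left ((hy 3).zpow_left _)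

/-- Conjugation maps `M` into a subgroup as soon as the shifts go there. -/
theorem M_conj {p q : G} (h : ∀ m : ℤ, Commute (p * q) (q ^ m * (p * q) * q ^ (-m))) {u : G}
    {K : Subgroup G} (hy : ∀ i, u * sh p q i * u⁻¹ ∈ K) : ∀ x ∈ M h, u * x * u⁻¹ ∈ K := by
  rintro _ ⟨α, rfl⟩
  rw [N_eq]
  have hz : ∀ i m : ℤ, u * sh p q i ^ m * u⁻¹ ∈ K := by
    intro i m
    rw [← conj_zpow]
    exact K.zpow_mem (hy i) m
  have : u * (sh p q 0 ^ α 0 * sh p q 1 ^ α 1 * sh p q 2 ^ α 2 * sh p q 3 ^ α 3) * u⁻¹ =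
    (u * sh p q 0 ^ α 0 * u⁻¹) * (u * sh p q 1 ^ α 1 * u⁻¹) * (u * sh p q 2 ^ α 2 * u⁻¹) *
      (u * sh p q 3 ^ α 3 * u⁻¹) := by group
  rw [this]
  exact K.mul_mem (K.mul_mem (K.mul_mem (hz _ _) (hz _ _)) (hz _ _)) (hz _ _)

/-- Normal form modulo a normalised subgroup containing the commutators. -/
theorem nf_mod {a b c : G} (L : Subgroup G)
    (ha : ∀ x ∈ L, a * x * a⁻¹ ∈ L ∧ a⁻¹ * x * a ∈ L)
    (hb : ∀ x ∈ L, b * x * b⁻¹ ∈ L ∧ b⁻¹ * x * b ∈ L)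
    (hc : ∀ x ∈ L, c * x * c⁻¹ ∈ L ∧ c⁻¹ * x * c ∈ L)
    (hab : ⁅a, b⁆ ∈ L) (hac : ⁅a, c⁆ ∈ L) (hbc : ⁅b, c⁆ ∈ L) :
    ∀ g ∈ closure ({a, b, c} : Set G), ∃ x y z : ℤ, ∃ l ∈ L, g = a ^ x * b ^ y * c ^ z * l := by
  have mem_norm : ∀ u : G, (∀ x ∈ L, u * x * u⁻¹ ∈ L ∧ u⁻¹ * x * u ∈ L) → u ∈ normalizer (L : Set G) := by
    intro u hu
    rw [mem_normalizer_iff]
    intro x
    refine ⟨fun hx => (hu x hx).1, fun hx => ?_⟩
    have := (hu _ hx).2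
    have e : u⁻¹ * (u * x * u⁻¹) * u = x := by group
    rwa [e] at this
  have na := mem_norm a ha
  have nb := mem_norm b hb
  have nc := mem_norm c hc
  obtain ⟨P, hP⟩ : ∃ P : Subgroup G, P = normalizer (L : Set G) := ⟨_, rfl⟩
  rw [← hP] at na nb nc
  have hLP : L ≤ P := by rw [hP]; exact le_normalizer
  have hnorm : (L.subgroupOf P).Normal := by rw [hP]; infer_instance
  let π := QuotientGroup.mk' (L.subgroupOf P)
  obtain ⟨A, hA⟩ : ∃ A, A = π ⟨a, na⟩ := ⟨_, rfl⟩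
  obtain ⟨B, hB⟩ : ∃ B, B = π ⟨b, nb⟩ := ⟨_, rfl⟩
  obtain ⟨C, hC⟩ : ∃ C, C = π ⟨c, nc⟩ := ⟨_, rfl⟩
  have cm : ∀ (u v : G) (hu : u ∈ P) (hv : v ∈ P), ⁅u, v⁆ ∈ L →
      Commute (π ⟨u, hu⟩) (π ⟨v, hv⟩) := by
    intro u v hu hv huv
    rw [← commutatorElement_eq_one_iff_commute, ← map_commutatorElement]
    show (QuotientGroup.mk' (L.subgroupOf P)) _ = 1
    rw [← MonoidHom.mem_ker, QuotientGroup.ker_mk', mem_subgroupOf]
    exact huv
  have cAB : Commute A B := by rw [hA, hB]; exact cm _ _ _ _ hab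
  have cAC : Commute A C := by rw [hA, hC]; exact cm _ _ _ _ hac
  have cBC : Commute B C := by rw [hB, hC]; exact cm _ _ _ _ hbc
  intro g hg
  have hgP : closure ({a, b, c} : Set G) ≤ P := by
    rw [closure_le]
    rintro u (rfl | rfl | rfl)
    · exact na
    · exact nb
    · exact nc
  have key : ∀ (hg' : g ∈ P), ∃ x y z : ℤ, π ⟨g, hg'⟩ = A ^ x * B ^ y * C ^ z := by
    induction hg using closure_induction with
    | mem u hu =>
      intro hg'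
      rcases hu with rfl | rfl | rfl
      · exact ⟨1, 0, 0, by rw [hA]; simp⟩
      · exact ⟨0, 1, 0, by rw [hB]; simp⟩
      · exact ⟨0, 0, 1, by rw [hC]; simp⟩
    | one => exact fun _ => ⟨0, 0, 0, by simp; rfl⟩
    | mul u v hu hv h1 h2 =>
      intro hg'
      obtain ⟨x, y, z, e1⟩ := h1 (hgP hu)
      obtain ⟨x', y', z', e2⟩ := h2 (hgP hv)
      refine ⟨x + x', y + y', z + z', ?_⟩
      have : π ⟨u * v, hg'⟩ = π ⟨u, hgP hu⟩ * π ⟨v, hgP hv⟩ := by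
        rw [← map_mul]; rfl
      rw [this, e1, e2, zpow_add, zpow_add, zpow_add]
      have q1 : Commute (B ^ y) (A ^ x') := (cAB.symm.zpow_left _).zpow_right _
      have q2 : Commute (C ^ z) (A ^ x' * B ^ y') :=
        (((cAC.symm.zpow_left _).zpow_right _)).mul_right ((cBC.symm.zpow_left _).zpow_right _)
      rw [q2.mul_mul_mul_comm, q1.mul_mul_mul_comm]
    | inv u hu h1 =>
      intro hg'
      obtain ⟨x, y, z, e1⟩ := h1 (hgP hu)
      refine ⟨-x, -y, -z, ?_⟩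
      have : π ⟨u⁻¹, hg'⟩ = (π ⟨u, hgP hu⟩)⁻¹ := by
        rw [← map_inv]; rfl
      rw [this, e1, zpow_neg, zpow_neg, zpow_neg, mul_inv_rev, mul_inv_rev]
      have q1 : Commute (B ^ y)⁻¹ (A ^ x)⁻¹ := by
        exact (((cAB.symm.zpow_left _).zpow_right _)).inv_inv
      have q2 : Commute (C ^ z)⁻¹ ((A ^ x)⁻¹ * (B ^ y)⁻¹) :=
        ((((cAC.symm.zpow_left _).zpow_right _)).inv_inv).mul_right
          (((cBC.symm.zpow_left _).zpow_right _).inv_inv)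
      rw [q1.eq, q2.eq]
  obtain ⟨x, y, z, e⟩ := key (hgP hg)
  refine ⟨x, y, z, (a ^ x * b ^ y * c ^ z)⁻¹ * g, ?_, by group⟩
  have e2 : π (⟨a, na⟩ ^ x * ⟨b, nb⟩ ^ y * ⟨c, nc⟩ ^ z) = π ⟨g, hgP hg⟩ := by
    rw [e, hA, hB, hC, map_mul, map_mul, map_zpow, map_zpow, map_zpow]
  have e3 := (QuotientGroup.eq (s := L.subgroupOf P)).1 e2
  rw [mem_subgroupOf] at e3
  simpa using e3

/-- all the commutation facts of `⟨a,b,c⟩` -/
theorem all_comm (a b c : G)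
    (hab : ∀ m : ℤ, Commute (a * b) (b ^ m * (a * b) * b ^ (-m)))
    (hac : ∀ m : ℤ, Commute (a * c) (c ^ m * (a * c) * c ^ (-m)))
    (hbc : ∀ m : ℤ, Commute (b * c) (c ^ m * (b * c) * c ^ (-m)))
    (ta : Commute a ⁅b, c⁆) (tb : Commute b ⁅a, c⁆) (tc : Commute c ⁅a, b⁆) :
    (∀ i, Commute a (sh b c i)) ∧ (∀ i, Commute b (sh a c i)) ∧ (∀ i, Commute c (sh a b i)) ∧
    (∀ i j, Commute (sh a b i) (sh a c j)) ∧ (∀ i j, Commute (sh a b i) (sh b c j)) ∧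
    (∀ i j, Commute (sh a c i) (sh b c j)) := by
  have wab := w_weak hab
  have wac := w_weak hac
  have wbc := w_weak hbc
  have inv_comm : ∀ u x y : G, Commute u ⁅x, y⁆ → Commute u ⁅y, x⁆ := by
    intro u x y hu
    have : ⁅y, x⁆ = (⁅x, y⁆)⁻¹ := by simp only [commutatorElement_def]; group
    rw [this]; exact hu.inv_right
  obtain ⟨cef, ceg, cfg⟩ := _root_.H78.DET.comm_pairwise ta tb tc wab wac wbc
  have Ta : ∀ i, Commute a (sh b c i) := by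
    intro i
    have := _root_.H78.DET.comm_conj ta tb tc wab wac wbc (c ^ i)
      (zpow_mem (subset_closure (by simp)) i)
    unfold sh; rwa [zpow_neg]
  have Tb : ∀ i, Commute b (sh a c i) := by
    intro i
    have := _root_.H78.DET.comm_conj tb ta (inv_comm _ _ _ tc) wab.symm wbc wac (c ^ i)
      (zpow_mem (subset_closure (by simp)) i)
    unfold sh; rwa [zpow_neg]
  have Tc : ∀ i, Commute c (sh a b i) := by
    intro i
    have := _root_.H78.DET.comm_conj tc (inv_comm _ _ _ ta) (inv_comm _ _ _ tb) wac.symm wbc.symm wab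
      (b ^ i) (zpow_mem (subset_closure (by simp)) i)
    unfold sh; rwa [zpow_neg]
  -- conjugation transport
  have tr : ∀ (u x y x' y' : G), u * x * u⁻¹ = x' → u * y * u⁻¹ = y' → Commute x y →
      Commute x' y' := by
    rintro u x y _ _ rfl rfl h
    exact (Commute.conj_iff u).2 h
  have fixz : ∀ (u x : G) (m : ℤ), Commute u x → u ^ m * x * (u ^ m)⁻¹ = x := by
    intro u x m h
    have := (h.zpow_left m).eq
    rw [this]; group
  have g0 := sh_zero a b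
  have f0 := sh_zero a c
  have e0 := sh_zero b c
  have E1 : ∀ i j, Commute (sh a b i) (sh a c j) := by
    intro i j
    -- start: g0, f0; conjugate by c^j: g0, f_j; conjugate by b^i: g_i, f_j
    have s0 : Commute (sh a b 0) (sh a c 0) := by rw [g0, f0]; exact cfg.symm
    have s1 : Commute (sh a b 0) (sh a c j) :=
      tr (c ^ j) _ _ _ _ (fixz _ _ _ (Tc 0)) (by
        have := sh_conj_pow a c 0 j
        rwa [zero_add, zpow_neg] at this) s0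
    exact tr (b ^ i) _ _ _ _ (by
        have := sh_conj_pow a b 0 i
        rwa [zero_add, zpow_neg] at this) (fixz _ _ _ (Tb j)) s1
  have E2 : ∀ i j, Commute (sh a b i) (sh b c j) := by
    intro i j
    -- g0,e0; conj by c^j: g0,e_j; conj by a^(-i): g_i, e_j
    have s0 : Commute (sh a b 0) (sh b c 0) := by rw [g0, e0]; exact ceg.symm
    have s1 : Commute (sh a b 0) (sh b c j) :=
      tr (c ^ j) _ _ _ _ (fixz _ _ _ (Tc 0)) (by
        have := sh_conj_pow b c 0 j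
        rwa [zero_add, zpow_neg] at this) s0
    exact tr (a ^ (-i)) _ _ _ _ (by
        have := sh_conj_p_pow hab 0 (-i)
        rw [zero_sub, neg_neg] at this
        rw [← this]; group) (fixz _ _ _ (Ta j)) s1
  have E3 : ∀ i j, Commute (sh a c i) (sh b c j) := by
    intro i j
    -- f0,e0; conj by b^(-j): f0,e_j; conj by a^(-i): f_i,e_j
    have s0 : Commute (sh a c 0) (sh b c 0) := by rw [f0, e0]; exact cef.symm
    have s1 : Commute (sh a c 0) (sh b c j) :=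
      tr (b ^ (-j)) _ _ _ _ (fixz _ _ _ (Tb 0)) (by
        have := sh_conj_p_pow hbc 0 (-j)
        rw [zero_sub, neg_neg] at this
        rw [← this]; group) s0
    exact tr (a ^ (-i)) _ _ _ _ (by
        have := sh_conj_p_pow hac 0 (-i)
        rw [zero_sub, neg_neg] at this
        rw [← this]; group) (fixz _ _ _ (Ta j)) s1
  exact ⟨Ta, Tb, Tc, E1, E2, E3⟩

/-- **Normal form in `⟨a,b,c⟩`.** -/
theorem normal_form {G : Type*} [Group G] (a b c : G)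
    (hab : ∀ m : ℤ, Commute (a * b) (b ^ m * (a * b) * b ^ (-m)))
    (hac : ∀ m : ℤ, Commute (a * c) (c ^ m * (a * c) * c ^ (-m)))
    (hbc : ∀ m : ℤ, Commute (b * c) (c ^ m * (b * c) * c ^ (-m)))
    (pab : ⁅a, b⁆ * (b * ⁅a, b⁆ * b⁻¹) =
      (b ^ (3:ℤ) * ⁅a, b⁆ * b ^ (-3:ℤ)) * (b ^ (4:ℤ) * ⁅a, b⁆ * b ^ (-4:ℤ)))
    (pac : ⁅a, c⁆ * (c * ⁅a, c⁆ * c⁻¹) =
      (c ^ (3:ℤ) * ⁅a, c⁆ * c ^ (-3:ℤ)) * (c ^ (4:ℤ) * ⁅a, c⁆ * c ^ (-4:ℤ)))
    (pbc : ⁅b, c⁆ * (c * ⁅b, c⁆ * c⁻¹) =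
      (c ^ (3:ℤ) * ⁅b, c⁆ * c ^ (-3:ℤ)) * (c ^ (4:ℤ) * ⁅b, c⁆ * c ^ (-4:ℤ)))
    (ta : Commute a ⁅b, c⁆) (tb : Commute b ⁅a, c⁆) (tc : Commute c ⁅a, b⁆) :
    ∀ g ∈ Subgroup.closure ({a, b, c} : Set G), ∃ (x y z : ℤ) (α β γ : Fin 4 → ℤ),
      g = a ^ x * b ^ y * c ^ z * (N a b α) * (N a c β) * (N b c γ) := by
  obtain ⟨Ta, Tb, Tc, E1, E2, E3⟩ := all_comm a b c hab hac hbc ta tb tc
  have Mab := sh_mem hab pab
  have Mac := sh_mem hac pac
  have Mbc := sh_mem hbc pbc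
  -- the three subgroups commute
  have C1 : ∀ x ∈ M hab, ∀ y ∈ M hac, Commute x y := by
    intro x hx y hy
    exact M_comm hab (fun i => (M_comm hac (fun j => (E1 i j).symm) y hy).symm) x hx
  have C2 : ∀ x ∈ M hab, ∀ y ∈ M hbc, Commute x y := by
    intro x hx y hy
    exact M_comm hab (fun i => (M_comm hbc (fun j => (E2 i j).symm) y hy).symm) x hx
  have C3 : ∀ x ∈ M hac, ∀ y ∈ M hbc, Commute x y := by
    intro x hx y hy
    exact M_comm hac (fun i => (M_comm hbc (fun j => (E3 i j).symm) y hy).symm) x hx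
  -- the abelian subgroup
  let L : Subgroup G :=
    { carrier := {g | ∃ x ∈ M hab, ∃ y ∈ M hac, ∃ z ∈ M hbc, g = x * y * z}
      one_mem' := ⟨1, one_mem _, 1, one_mem _, 1, one_mem _, by simp⟩
      mul_mem' := by
        rintro _ _ ⟨x, hx, y, hy, z, hz, rfl⟩ ⟨x', hx', y', hy', z', hz', rfl⟩
        refine ⟨x * x', mul_mem hx hx', y * y', mul_mem hy hy', z * z', mul_mem hz hz', ?_⟩
        rw [((C2 _ hx' _ hz).symm.mul_right (C3 _ hy' _ hz).symm).mul_mul_mul_comm,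
          (C1 _ hx' _ hy).symm.mul_mul_mul_comm]
      inv_mem' := by
        rintro _ ⟨x, hx, y, hy, z, hz, rfl⟩
        refine ⟨x⁻¹, inv_mem hx, y⁻¹, inv_mem hy, z⁻¹, inv_mem hz, ?_⟩
        have q1 := (C1 _ (inv_mem hx) _ (inv_mem hy)).symm
        have q2 := ((C2 _ (inv_mem hx) _ (inv_mem hz)).symm.mul_right
          (C3 _ (inv_mem hy) _ (inv_mem hz)).symm)
        rw [mul_inv_rev, mul_inv_rev, q1.eq, q2.eq] }
  have L1 : ∀ x ∈ M hab, x ∈ L := fun x hx =>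
    ⟨x, hx, 1, one_mem _, 1, one_mem _, by simp⟩
  have L2 : ∀ x ∈ M hac, x ∈ L := fun x hx =>
    ⟨1, one_mem _, x, hx, 1, one_mem _, by simp⟩
  have L3 : ∀ x ∈ M hbc, x ∈ L := fun x hx =>
    ⟨1, one_mem _, 1, one_mem _, x, hx, by simp⟩
  have conjL : ∀ u : G, (∀ i, u * sh a b i * u⁻¹ ∈ L) → (∀ i, u * sh a c i * u⁻¹ ∈ L) →
      (∀ i, u * sh b c i * u⁻¹ ∈ L) → ∀ x ∈ L, u * x * u⁻¹ ∈ L := by
    rintro u h1 h2 h3 _ ⟨x, hx, y, hy, z, hz, rfl⟩
    have : u * (x * y * z) * u⁻¹ = (u * x * u⁻¹) * (u * y * u⁻¹) * (u * z * u⁻¹) := by group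
    rw [this]
    exact mul_mem (mul_mem (M_conj hab h1 x hx) (M_conj hac h2 y hy)) (M_conj hbc h3 z hz)
  have fix : ∀ u x : G, Commute u x → u * x * u⁻¹ = x := by
    intro u x h; rw [h.eq]; group
  have sa : ∀ x ∈ L, a * x * a⁻¹ ∈ L := by
    apply conjL
    · intro i; rw [sh_conj_p hab]; exact L1 _ (Mab _)
    · intro i; rw [sh_conj_p hac]; exact L2 _ (Mac _)
    · intro i; rw [fix _ _ (Ta i)]; exact L3 _ (Mbc _)
  have sa' : ∀ x ∈ L, a⁻¹ * x * a ∈ L := by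
    have := conjL a⁻¹
    simp only [inv_inv] at this
    apply this
    · intro i; rw [sh_conj_p' hab]; exact L1 _ (Mab _)
    · intro i; rw [sh_conj_p' hac]; exact L2 _ (Mac _)
    · intro i
      have := fix _ _ (Ta i).inv_left
      rw [inv_inv] at this
      rw [this]; exact L3 _ (Mbc _)
  have sb : ∀ x ∈ L, b * x * b⁻¹ ∈ L := by
    apply conjL
    · intro i; rw [sh_conj]; exact L1 _ (Mab _)
    · intro i; rw [fix _ _ (Tb i)]; exact L2 _ (Mac _)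
    · intro i; rw [sh_conj_p hbc]; exact L3 _ (Mbc _)
  have sb' : ∀ x ∈ L, b⁻¹ * x * b ∈ L := by
    have := conjL b⁻¹
    simp only [inv_inv] at this
    apply this
    · intro i; rw [sh_conj']; exact L1 _ (Mab _)
    · intro i
      have := fix _ _ (Tb i).inv_left
      rw [inv_inv] at this
      rw [this]; exact L2 _ (Mac _)
    · intro i; rw [sh_conj_p' hbc]; exact L3 _ (Mbc _)
  have sc : ∀ x ∈ L, c * x * c⁻¹ ∈ L := by
    apply conjL
    · intro i; rw [fix _ _ (Tc i)]; exact L1 _ (Mab _)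
    · intro i; rw [sh_conj]; exact L2 _ (Mac _)
    · intro i; rw [sh_conj]; exact L3 _ (Mbc _)
  have sc' : ∀ x ∈ L, c⁻¹ * x * c ∈ L := by
    have := conjL c⁻¹
    simp only [inv_inv] at this
    apply this
    · intro i
      have := fix _ _ (Tc i).inv_left
      rw [inv_inv] at this
      rw [this]; exact L1 _ (Mab _)
    · intro i; rw [sh_conj']; exact L2 _ (Mac _)
    · intro i; rw [sh_conj']; exact L3 _ (Mbc _)
  intro g hg
  obtain ⟨x, y, z, l, ⟨u, ⟨α, rfl⟩, v, ⟨β, rfl⟩, w, ⟨γ, rfl⟩, rfl⟩, e⟩ :=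
    nf_mod L (fun x hx => ⟨sa x hx, sa' x hx⟩) (fun x hx => ⟨sb x hx, sb' x hx⟩)
      (fun x hx => ⟨sc x hx, sc' x hx⟩)
      (by rw [← sh_zero]; exact L1 _ (Mab _)) (by rw [← sh_zero]; exact L2 _ (Mac _))
      (by rw [← sh_zero]; exact L3 _ (Mbc _)) g hg
  exact ⟨x, y, z, α, β, γ, by rw [e]; group⟩

/-- All the factors of `N a b α`, `N a c β`, `N b c γ` commute. -/
theorem N_commute {G : Type*} [Group G] (a b c : G)
    (hab : ∀ m : ℤ, Commute (a * b) (b ^ m * (a * b) * b ^ (-m)))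
    (hac : ∀ m : ℤ, Commute (a * c) (c ^ m * (a * c) * c ^ (-m)))
    (hbc : ∀ m : ℤ, Commute (b * c) (c ^ m * (b * c) * c ^ (-m)))
    (ta : Commute a ⁅b, c⁆) (tb : Commute b ⁅a, c⁆) (tc : Commute c ⁅a, b⁆) :
    (∀ i j, Commute (sh a b i) (sh a b j)) ∧ (∀ i j, Commute (sh a c i) (sh a c j)) ∧
    (∀ i j, Commute (sh b c i) (sh b c j)) ∧
    (∀ i j, Commute (sh a b i) (sh a c j)) ∧ (∀ i j, Commute (sh a b i) (sh b c j)) ∧
    (∀ i j, Commute (sh a c i) (sh b c j)) := by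
  obtain ⟨_, _, _, E1, E2, E3⟩ := all_comm a b c hab hac hbc ta tb tc
  exact ⟨sh_comm hab, sh_comm hac, sh_comm hbc, E1, E2, E3⟩

end Pool.Agent.H78.IADetG
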