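import Pool.Agent.H78.CeDual

/-!
# Explicit cochains of simplicial sets and mod `p` equivalences
-/

set_option autoImplicit false

open CategoryTheory Limits Simplicial Opposite

namespace Pool.Agent.H78.Ce

open Pool.Agent.H68.Ce

variable {k : Type} [Field k] {X Y : SSet.{0}}

/-- the basis chain of a simplex -/
noncomputable def bc (k : Type) [Field k] (X : SSet.{0}) {n : ℕ} (x : X _⦋n⦌) :
    (X.chainComplex (ModuleCat.of k k)).X n :=
  (X.ιChainComplex (R := ModuleCat.of k k) x).hom (1 : k)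

/-- the functional on chains attached to a cochain -/
noncomputable def ofFun {n : ℕ} (φ : X _⦋n⦌ → k) :
    (X.chainComplex (ModuleCat.of k k)).X n →ₗ[k] k :=
  ((X.isColimitChainComplexXCofan (ModuleCat.of k k) n).desc
    (Cofan.mk (ModuleCat.of k k)
      (fun x => ModuleCat.ofHom (LinearMap.toSpanSingleton k k (φ x))))).hom

theorem ofFun_bc {n : ℕ} (φ : X _⦋n⦌ → k) (x : X _⦋n⦌) : ofFun φ (bc k X x) = φ x := by
  have := (X.isColimitChainComplexXCofan (ModuleCat.of k k) n).fac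
    (Cofan.mk (ModuleCat.of k k)
      (fun x => ModuleCat.ofHom (LinearMap.toSpanSingleton k k (φ x)))) ⟨x⟩
  have := ConcreteCategory.congr_hom this (1 : k)
  refine this.trans ?_
  change (1 : k) • φ x = φ x
  rw [one_smul]

theorem lin_ext {n : ℕ} {M : Type} [AddCommGroup M] [Module k M]
    (α β : (X.chainComplex (ModuleCat.of k k)).X n →ₗ[k] M)
    (h : ∀ x, α (bc k X x) = β (bc k X x)) : α = β := by
  have : ModuleCat.ofHom α = ModuleCat.ofHom β := by
    apply SSet.chainComplex_hom_ext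
    intro x
    apply ModuleCat.hom_ext
    apply LinearMap.ext_ring
    exact h x
  exact congrArg ModuleCat.Hom.hom this

theorem map_bc (f : X ⟶ Y) {n : ℕ} (x : X _⦋n⦌) :
    (SSet.chainComplexMap f (ModuleCat.of k k)).f n (bc k X x) = bc k Y (f.app _ x) := by
  have := SSet.ι_chainComplexMap_f X Y f (ModuleCat.of k k) x
  exact ConcreteCategory.congr_hom this (1 : k)

theorem d_bc {n : ℕ} (x : X _⦋n + 1⦌) :
    (X.chainComplex (ModuleCat.of k k)).d (n + 1) n (bc k X x) =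
      ∑ i : Fin (n + 2), ((-1 : ℤ) ^ i.val) • bc k X (X.δ i x) := by
  have := SSet.ιChainComplex_d (X := X) (R := ModuleCat.of k k) x
  have := ConcreteCategory.congr_hom this (1 : k)
  refine this.trans ?_
  simp [bc]

theorem ofFun_comp_map (f : X ⟶ Y) {n : ℕ} (φ : Y _⦋n⦌ → k)
    (z : (X.chainComplex (ModuleCat.of k k)).X n) :
    ofFun φ ((SSet.chainComplexMap f (ModuleCat.of k k)).f n z) =
      ofFun (fun x => φ (f.app _ x)) z := by
  have : ofFun φ ∘ₗ ((SSet.chainComplexMap f (ModuleCat.of k k)).f n).hom =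
      ofFun (fun x => φ (f.app _ x)) := by
    apply lin_ext
    intro x
    rw [ofFun_bc]
    change ofFun φ ((SSet.chainComplexMap f (ModuleCat.of k k)).f n (bc k X x)) = _
    rw [map_bc, ofFun_bc]
  exact LinearMap.congr_fun this z

theorem ofFun_d {n : ℕ} (φ : X _⦋n⦌ → k) (z : (X.chainComplex (ModuleCat.of k k)).X (n + 1)) :
    ofFun φ ((X.chainComplex (ModuleCat.of k k)).d (n + 1) n z) =
      ofFun (fun x => ∑ i : Fin (n + 2), ((-1 : ℤ) ^ i.val) • φ (X.δ i x)) z := by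
  have : ofFun φ ∘ₗ ((X.chainComplex (ModuleCat.of k k)).d (n + 1) n).hom =
      ofFun (fun x => ∑ i : Fin (n + 2), ((-1 : ℤ) ^ i.val) • φ (X.δ i x)) := by
    apply lin_ext
    intro x
    rw [ofFun_bc]
    change ofFun φ ((X.chainComplex (ModuleCat.of k k)).d (n + 1) n (bc k X x)) = _
    rw [d_bc, map_sum]
    refine Finset.sum_congr rfl fun i _ => ?_
    rw [map_zsmul, ofFun_bc]
  exact LinearMap.congr_fun this z

theorem ofFun_surj {n : ℕ} (α : (X.chainComplex (ModuleCat.of k k)).X n →ₗ[k] k) :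
    α = ofFun (fun x => α (bc k X x)) := by
  apply lin_ext
  intro x
  rw [ofFun_bc]

theorem ofFun_inj {n : ℕ} {φ ψ : X _⦋n⦌ → k} (h : ofFun φ = ofFun ψ) : φ = ψ := by
  funext x
  rw [← ofFun_bc (k := k) φ x, h, ofFun_bc]

theorem ofFun_zero {n : ℕ} : (ofFun (fun _ : X _⦋n⦌ => (0 : k))) = 0 := by
  apply lin_ext
  intro x
  rw [ofFun_bc]
  rfl

variable {A B : SSet.{0}} (f : A ⟶ B)

/-- the coboundary of a cochain -/
def cob {n : ℕ} (φ : X _⦋n⦌ → k) (x : X _⦋n + 1⦌) : k :=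
  ∑ i : Fin (n + 2), ((-1 : ℤ) ^ i.val) • φ (X.δ i x)

theorem cochain_inj (m : ℕ)
    (hf : IsIso (SSet.homologyMap f (ModuleCat.of k k) (m + 1)))
    (ω : B _⦋m + 1⦌ → k) (hω : ∀ t, cob ω t = 0) (χ : A _⦋m⦌ → k)
    (h : ∀ s, ω (f.app _ s) = cob χ s) :
    ∃ η : B _⦋m⦌ → k, ∀ s, ω s = cob η s := by
  obtain ⟨χ', hχ'⟩ := dual_inj (SSet.chainComplexMap f (ModuleCat.of k k)) m hf (ofFun ω)
    (by
      intro y
      rw [ofFun_d]
      have : (fun x => ∑ i : Fin (m + 1 + 2), ((-1 : ℤ) ^ i.val) • ω (B.δ i x)) = fun _ => 0 :=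
        funext hω
      rw [this, ofFun_zero]
      rfl) (ofFun χ)
    (by
      intro x
      rw [ofFun_comp_map, ofFun_d]
      congr 2
      funext s
      exact h s)
  refine ⟨fun x => χ' (bc k B x), fun s => ?_⟩
  have := hχ' (bc k B s)
  rw [ofFun_bc, ofFun_surj χ', ofFun_d, ofFun_bc] at this
  exact this

theorem cochain_surj_zero
    (hf : IsIso (SSet.homologyMap f (ModuleCat.of k k) 0))
    (ξ : A _⦋0⦌ → k) (hξ : ∀ t, cob ξ t = 0) :
    ∃ η : B _⦋0⦌ → k, (∀ s, cob η s = 0) ∧ ∀ v, η (f.app _ v) = ξ v := by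
  obtain ⟨β, hβ, hβ'⟩ := dual_surj (SSet.chainComplexMap f (ModuleCat.of k k)) 0 0 (by simp) hf
    (ofFun ξ) (by
      intro y
      rw [ofFun_d]
      have : (fun x => ∑ i : Fin (0 + 2), ((-1 : ℤ) ^ i.val) • ξ (A.δ i x)) = fun _ => 0 :=
        funext hξ
      rw [this, ofFun_zero]
      rfl)
  refine ⟨fun x => β (bc k B x), fun s => ?_, fun v => ?_⟩
  · have := hβ (bc k B s)
    rw [ofFun_surj β, ofFun_d, ofFun_bc] at this
    exact this
  · have := hβ' (bc k A v) (by
      rw [HomologicalComplex.shape _ _ _ (by simp)]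
      rfl)
    rw [map_bc, ofFun_bc] at this
    exact this

theorem cochain_surj (m : ℕ)
    (hf : IsIso (SSet.homologyMap f (ModuleCat.of k k) (m + 1)))
    (ξ : A _⦋m + 1⦌ → k) (hξ : ∀ t, cob ξ t = 0) :
    ∃ ψ : B _⦋m + 1⦌ → k, (∀ s, cob ψ s = 0) ∧
      ∃ ζ : A _⦋m⦌ → k, ∀ e, ξ e = ψ (f.app _ e) + cob ζ e := by
  obtain ⟨β, hβ, hβ'⟩ := dual_surj (SSet.chainComplexMap f (ModuleCat.of k k)) (m + 1) m
    (by simp) hf
    (ofFun ξ) (by
      intro y
      rw [ofFun_d]
      have : (fun x => ∑ i : Fin (m + 1 + 2), ((-1 : ℤ) ^ i.val) • ξ (A.δ i x)) = fun _ => 0 :=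
        funext hξ
      rw [this, ofFun_zero]
      rfl)
  obtain ⟨χ, hχ⟩ := factor_of_ker ((A.chainComplex (ModuleCat.of k k)).d (m + 1) m).hom
    (ofFun ξ - β ∘ₗ ((SSet.chainComplexMap f (ModuleCat.of k k)).f (m + 1)).hom)
    (by
      intro v hv
      have := hβ' v hv
      simp only [LinearMap.sub_apply, LinearMap.comp_apply]
      exact sub_eq_zero.mpr this.symm)
  refine ⟨fun x => β (bc k B x), fun s => ?_, fun x => χ (bc k A x), fun e => ?_⟩
  · have := hβ (bc k B s)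
    rw [ofFun_surj β, ofFun_d, ofFun_bc] at this
    exact this
  · have h1 := LinearMap.congr_fun hχ (bc k A e)
    have h2 : χ ((A.chainComplex (ModuleCat.of k k)).d (m + 1) m (bc k A e)) =
        cob (fun x => χ (bc k A x)) e := by
      conv_lhs => rw [ofFun_surj χ]
      rw [ofFun_d, ofFun_bc]
      rfl
    have h3 : β ((SSet.chainComplexMap f (ModuleCat.of k k)).f (m + 1) (bc k A e)) =
        β (bc k B (f.app _ e)) := by
      rw [map_bc]
    have h4 : ofFun ξ (bc k A e) - β ((SSet.chainComplexMap f (ModuleCat.of k k)).f (m + 1)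
      (bc k A e)) = χ ((A.chainComplex (ModuleCat.of k k)).d (m + 1) m (bc k A e)) := h1
    rw [h2, h3, ofFun_bc] at h4
    rw [← h4]
    ring

end Pool.Agent.H78.Ce
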