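import Pool.Agent.H68.CeDefs

/-!
# Maps into the classifying space of a group as cocycles

For a simplicial set `X` and a group `G`, maps `X ⟶ BG G` are the same as functions
`c` on the edges of `X` with `c (δ 1 s) = c (δ 0 s) * c (δ 2 s)` for each triangle `s`.
-/

set_option autoImplicit false

open CategoryTheory Limits Simplicial Opposite MonoidalCategory

namespace Pool.Agent.H78.Ce

open Pool.Agent.H68.Ce

variable {X Y : SSet.{0}} {G : Type} [Group G]

/-- the cocycle condition for a function on edges -/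
def IsCoc (c : X _⦋1⦌ → G) : Prop :=
  ∀ s : X _⦋2⦌, c (X.δ 1 s) = c (X.δ 0 s) * c (X.δ 2 s)

/-- an `n`-simplex of `X` mapped to `BG`, as composable arrows -/
def simp (u : X ⟶ BG G) {n : ℕ} (s : X _⦋n⦌) : ComposableArrows (SingleObj G) n :=
  u.app (op ⦋n⦌) s

/-- the value of a map to `BG` on an edge -/
def val (u : X ⟶ BG G) (e : X _⦋1⦌) : G :=
  (simp u e).map (homOfLE (Fin.zero_le 1))

theorem map_eq_val (u : X ⟶ BG G) {n : ℕ} (s : X _⦋n⦌) (i j : Fin (n + 1)) (h : i ≤ j) :
    ((simp u s).map (homOfLE h) : G) =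
      val u (X.map (SimplexCategory.mkOfLe i j h).op s) := by
  have := ConcreteCategory.congr_hom (u.naturality (SimplexCategory.mkOfLe i j h).op) s
  unfold val simp
  erw [this]
  rfl

theorem val_isCoc (u : X ⟶ BG G) : IsCoc (val u) := by
  intro s
  have h0 := map_eq_val u s 1 2 (by decide)
  have h1 := map_eq_val u s 0 2 (by decide)
  have h2 := map_eq_val u s 0 1 (by decide)
  have e0 : (SimplexCategory.mkOfLe (1 : Fin 3) 2 (by decide)) = SimplexCategory.δ 0 := by
    ext i; fin_cases i <;> rfl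
  have e1 : (SimplexCategory.mkOfLe (0 : Fin 3) 2 (by decide)) = SimplexCategory.δ 1 := by
    ext i; fin_cases i <;> rfl
  have e2 : (SimplexCategory.mkOfLe (0 : Fin 3) 1 (by decide)) = SimplexCategory.δ 2 := by
    ext i; fin_cases i <;> rfl
  rw [e0] at h0
  rw [e1] at h1
  rw [e2] at h2
  change val u (X.map (SimplexCategory.δ 1).op s) = val u (X.map (SimplexCategory.δ 0).op s) *
    val u (X.map (SimplexCategory.δ 2).op s)
  rw [← h0, ← h1, ← h2]
  have hc : homOfLE (show (0 : Fin 3) ≤ 2 by decide) =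
    homOfLE (show (0 : Fin 3) ≤ 1 by decide) ≫ homOfLE (show (1 : Fin 3) ≤ 2 by decide) := rfl
  exact (congrArg (simp u s).map hc).trans ((simp u s).map_comp _ _)

theorem hom_ext {u v : X ⟶ BG G} (h : ∀ e, val u e = val v e) : u = v := by
  apply NatTrans.ext
  funext Δ
  obtain ⟨Δ⟩ := Δ
  induction Δ using SimplexCategory.rec with
  | _ n =>
  ext s
  change simp u s = simp v s
  refine CategoryTheory.Functor.ext (fun _ => rfl) ?_
  intro i j f
  have hij : i ≤ j := leOfHom f
  have hf : f = homOfLE hij := rfl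
  have : ((simp u s).map f : G) = (simp v s).map f := by
    rw [hf]
    rw [map_eq_val, map_eq_val, h]
  simp only [eqToHom_refl, Category.id_comp, Category.comp_id]
  exact this

theorem IsCoc.degenerate {c : X _⦋1⦌ → G} (hc : IsCoc c) (v : X _⦋0⦌) : c (X.σ 0 v) = 1 := by
  have h := hc (X.σ 0 (X.σ 0 v))
  have e1 : X.δ 1 (X.σ 0 (X.σ 0 v)) = X.σ 0 v := by
    have := SSet.δ_comp_σ_succ_apply (S := X) (i := (0 : Fin 2)) (X.σ 0 v)
    simpa using this
  have e0 : X.δ 0 (X.σ 0 (X.σ 0 v)) = X.σ 0 v := by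
    have := SSet.δ_comp_σ_self_apply (S := X) (i := (0 : Fin 2)) (X.σ 0 v)
    simpa using this
  have e2 : X.δ 2 (X.σ 0 (X.σ 0 v)) = X.σ 0 v := by
    have h3 : X.σ 0 (X.σ 0 v) = X.σ 1 (X.σ 0 v) := by
      have := SSet.σ_comp_σ_apply (S := X) (i := (0 : Fin 1)) (j := (0 : Fin 1)) (le_refl _) v
      simpa using this
    rw [h3]
    have := SSet.δ_comp_σ_succ_apply (S := X) (i := (1 : Fin 2)) (X.σ 0 v)
    simpa using this
  rw [e0, e1, e2] at h
  exact (left_eq_mul.mp h)

/-- the functor `Fin (n+1) ⥤ SingleObj G` attached to an `n`-simplex and a cocycle -/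
def cocFunctor (c : X _⦋1⦌ → G) (hc : IsCoc c) {n : ℕ} (s : X _⦋n⦌) :
    ComposableArrows (SingleObj G) n where
  obj _ := SingleObj.star G
  map {i j} f := c (X.map (SimplexCategory.mkOfLe i j (leOfHom f)).op s)
  map_id i := by
    have h : SimplexCategory.mkOfLe i i (le_refl i) =
        SimplexCategory.σ 0 ≫ SimplexCategory.const ⦋0⦌ ⦋n⦌ i := by
      ext k; fin_cases k <;> rfl
    change c (X.map (SimplexCategory.mkOfLe i i (le_refl i)).op s) = 1
    rw [h, op_comp, X.map_comp]
    exact hc.degenerate _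
  map_comp {i j k} f g := by
    have hij : i ≤ j := leOfHom f
    have hjk : j ≤ k := leOfHom g
    have e1 : SimplexCategory.mkOfLe i k (hij.trans hjk) =
        SimplexCategory.δ 1 ≫ SimplexCategory.mkOfLeComp i j k hij hjk := by
      ext l; fin_cases l <;> rfl
    have e0 : SimplexCategory.mkOfLe j k hjk =
        SimplexCategory.δ 0 ≫ SimplexCategory.mkOfLeComp i j k hij hjk := by
      ext l; fin_cases l <;> rfl
    have e2 : SimplexCategory.mkOfLe i j hij =
        SimplexCategory.δ 2 ≫ SimplexCategory.mkOfLeComp i j k hij hjk := by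
      ext l; fin_cases l <;> rfl
    change c (X.map (SimplexCategory.mkOfLe i k (hij.trans hjk)).op s) =
      c (X.map (SimplexCategory.mkOfLe j k hjk).op s) *
      c (X.map (SimplexCategory.mkOfLe i j hij).op s)
    rw [e0, e1, e2, op_comp, op_comp, op_comp, X.map_comp, X.map_comp, X.map_comp]
    exact hc _

/-- the map to `BG` attached to a cocycle -/
def ofCoc (c : X _⦋1⦌ → G) (hc : IsCoc c) : X ⟶ BG G where
  app Δ := ↾fun s => cocFunctor c hc (n := Δ.unop.len) s
  naturality Δ Δ' f := by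
    ext s
    refine CategoryTheory.Functor.ext (fun _ => rfl) ?_
    intro i j g
    simp only [eqToHom_refl, Category.id_comp, Category.comp_id]
    change c (X.map _ (X.map f s)) = c (X.map _ s)
    rw [← Functor.map_comp_apply]
    have : f ≫ (SimplexCategory.mkOfLe (n := Δ'.unop.len) i j (leOfHom g)).op =
      (SimplexCategory.mkOfLe (n := Δ.unop.len) (f.unop.toOrderHom i) (f.unop.toOrderHom j)
        (f.unop.toOrderHom.monotone (leOfHom g))).op := by
      apply Quiver.Hom.unop_inj
      ext l; fin_cases l <;> rfl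
    rw [this]
    rfl

theorem val_ofCoc (c : X _⦋1⦌ → G) (hc : IsCoc c) (e : X _⦋1⦌) : val (ofCoc c hc) e = c e := by
  change c (X.map (SimplexCategory.mkOfLe 0 1 _).op e) = c e
  have : (SimplexCategory.mkOfLe (0 : Fin 2) 1 (by decide)) = 𝟙 _ := by
    ext l; fin_cases l <;> rfl
  rw [this]
  simp

end Pool.Agent.H78.Ce
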