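import Pool.Agent.H68.CeDefs

/-!
# Duality between chains and cochains over a field
-/

set_option autoImplicit false

open CategoryTheory Limits

namespace Pool.Agent.H78.Ce

variable {k : Type} [Field k]

/-- a functional vanishing on the kernel factors -/
theorem factor_of_ker {V W : Type} [AddCommGroup V] [Module k V] [AddCommGroup W] [Module k W]
    (d : V →ₗ[k] W) (β : V →ₗ[k] k) (h : ∀ v, d v = 0 → β v = 0) :
    ∃ χ : W →ₗ[k] k, β = χ ∘ₗ d := by
  have : β ∈ LinearMap.range d.dualMap := by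
    rw [LinearMap.range_dualMap_eq_dualAnnihilator_ker]
    rw [Submodule.mem_dualAnnihilator]
    intro w hw
    exact h w hw
  obtain ⟨χ, hχ⟩ := this
  exact ⟨χ, hχ.symm⟩

variable {K L : ChainComplex (ModuleCat.{0} k) ℕ} (φ : K ⟶ L)

theorem homology_inj (i j l : ℕ) (hi : (ComplexShape.down ℕ).prev j = i)
    (hl : (ComplexShape.down ℕ).next j = l)
    (hφ : IsIso (HomologicalComplex.homologyMap φ j)) (x : K.X j) (hx : K.d j l x = 0)
    (y : L.X i) (hy : φ.f j x = L.d i j y) : ∃ x₁ : K.X i, x = K.d i j x₁ := by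
  have hm : Mono (HomologicalComplex.homologyMap φ j) := inferInstance
  rw [HomologicalComplex.mono_homologyMap_iff_up_to_refinements φ i j l hi hl] at hm
  have h := hm (A := ModuleCat.of k k) (ModuleCat.ofHom (LinearMap.toSpanSingleton k _ x))
    (by
      ext
      simp [hx]) (ModuleCat.ofHom (LinearMap.toSpanSingleton k _ y))
    (by
      ext
      simp [hy])
  obtain ⟨A', π, hπ, x₁, hx₁⟩ := h
  rw [ModuleCat.epi_iff_surjective] at hπ
  obtain ⟨a, ha⟩ := hπ (1 : k)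
  refine ⟨x₁ a, ?_⟩
  have := ConcreteCategory.congr_hom hx₁ a
  simpa [ha] using this

theorem homology_surj (i j l : ℕ) (hi : (ComplexShape.down ℕ).prev j = i)
    (hl : (ComplexShape.down ℕ).next j = l)
    (hφ : IsIso (HomologicalComplex.homologyMap φ j)) (y : L.X j) (hy : L.d j l y = 0) :
    ∃ x : K.X j, K.d j l x = 0 ∧ ∃ y₁ : L.X i, y = φ.f j x + L.d i j y₁ := by
  have hm : Epi (HomologicalComplex.homologyMap φ j) := inferInstance
  rw [HomologicalComplex.epi_homologyMap_iff_up_to_refinements φ i j l hi hl] at hm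
  have h := hm (A := ModuleCat.of k k) (ModuleCat.ofHom (LinearMap.toSpanSingleton k _ y))
    (by
      ext
      simp [hy])
  obtain ⟨A', π, hπ, x₁, hx₁, y₁, hy₁⟩ := h
  rw [ModuleCat.epi_iff_surjective] at hπ
  obtain ⟨a, ha⟩ := hπ (1 : k)
  refine ⟨x₁ a, ?_, y₁ a, ?_⟩
  · have := ConcreteCategory.congr_hom hx₁ a
    simpa using this
  · have := ConcreteCategory.congr_hom hy₁ a
    simpa [ha] using this

theorem dual_inj (m : ℕ) (hφ : IsIso (HomologicalComplex.homologyMap φ (m + 1)))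
    (β : L.X (m + 1) →ₗ[k] k) (hβ : ∀ y, β (L.d (m + 2) (m + 1) y) = 0)
    (χ : K.X m →ₗ[k] k) (h : ∀ x, β (φ.f (m + 1) x) = χ (K.d (m + 1) m x)) :
    ∃ χ' : L.X m →ₗ[k] k, ∀ y, β y = χ' (L.d (m + 1) m y) := by
  obtain ⟨χ', hχ'⟩ := factor_of_ker (L.d (m + 1) m).hom β (by
    intro v hv
    obtain ⟨x, hx, y₁, hy₁⟩ := homology_surj φ (m + 2) (m + 1) m (by simp) (by simp) hφ v hv
    rw [hy₁, map_add, hβ, h, hx, map_zero, add_zero])
  refine ⟨χ', fun y => ?_⟩
  rw [hχ']
  rfl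

theorem dual_surj (n l : ℕ) (hl : (ComplexShape.down ℕ).next n = l)
    (hφ : IsIso (HomologicalComplex.homologyMap φ n))
    (α : K.X n →ₗ[k] k) (hα : ∀ x, α (K.d (n + 1) n x) = 0) :
    ∃ β : L.X n →ₗ[k] k, (∀ y, β (L.d (n + 1) n y) = 0) ∧
      ∀ x, K.d n l x = 0 → β (φ.f n x) = α x := by
  let Z : Submodule k (K.X n) := LinearMap.ker (K.d n l).hom
  let T : (Z × L.X (n + 1)) →ₗ[k] L.X n :=
    LinearMap.coprod ((φ.f n).hom ∘ₗ Z.subtype) (L.d (n + 1) n).hom
  obtain ⟨β, hβ⟩ := factor_of_ker T ((α ∘ₗ Z.subtype) ∘ₗ LinearMap.fst k _ _) (by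
    rintro ⟨⟨z, hz⟩, y⟩ h
    simp only [T, LinearMap.coprod_apply, LinearMap.comp_apply, Submodule.subtype_apply] at h
    simp only [LinearMap.comp_apply, Submodule.subtype_apply, LinearMap.fst_apply]
    obtain ⟨x₁, hx₁⟩ := homology_inj φ (n + 1) n l (by simp) hl hφ z hz (-y) (by
      rw [map_neg]
      exact eq_neg_of_add_eq_zero_left h)
    rw [hx₁, hα])
  refine ⟨β, fun y => ?_, fun x hx => ?_⟩
  · have := LinearMap.congr_fun hβ (0, y)
    simpa [T] using this.symm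
  · have := LinearMap.congr_fun hβ (⟨x, hx⟩, 0)
    simpa [T] using this.symm

end Pool.Agent.H78.Ce
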