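import Pool.Agent.H78.CeCocycle

/-!
# Homotopies of maps into the classifying space of a group
-/

set_option autoImplicit false

open CategoryTheory Limits Simplicial Opposite MonoidalCategory

namespace Pool.Agent.H78.Ce

open Pool.Agent.H68.Ce

variable {X Y : SSet.{0}} {G : Type} [Group G]

/-- gauge transformation of a cocycle -/
def gauge (b : X _⦋0⦌ → G) (c : X _⦋1⦌ → G) (e : X _⦋1⦌) : G :=
  b (X.δ 0 e) * c e * (b (X.δ 1 e))⁻¹

theorem face_01 (X : SSet.{0}) (s : X _⦋2⦌) : X.δ 0 (X.δ 1 s) = X.δ 0 (X.δ 0 s) := by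
  have := SSet.δ_comp_δ_self_apply (S := X) (i := (0 : Fin 2)) s
  simpa using this.symm

theorem face_02 (X : SSet.{0}) (s : X _⦋2⦌) : X.δ 0 (X.δ 2 s) = X.δ 1 (X.δ 0 s) := by
  have := SSet.δ_comp_δ_apply (S := X) (i := (0 : Fin 2)) (j := 1) (by decide) s
  simpa using this

theorem face_12 (X : SSet.{0}) (s : X _⦋2⦌) : X.δ 1 (X.δ 2 s) = X.δ 1 (X.δ 1 s) := by
  have := SSet.δ_comp_δ_self_apply (S := X) (i := (1 : Fin 2)) s
  simpa using this.symm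

theorem IsCoc.gauge {c : X _⦋1⦌ → G} (hc : IsCoc c) (b : X _⦋0⦌ → G) :
    IsCoc (gauge b c) := by
  intro s
  have h := hc s
  have h1 := face_01 X s
  have h2 := face_02 X s
  have h3 := face_12 X s
  unfold Ce.gauge
  rw [h1, h2, h3, h]
  group

theorem val_comp (f : X ⟶ Y) (u : Y ⟶ BG G) (e : X _⦋1⦌) :
    val (f ≫ u) e = val u (f.app _ e) := rfl

theorem IsCoc.comp {c : Y _⦋1⦌ → G} (hc : IsCoc c) (f : X ⟶ Y) :
    IsCoc (fun e : X _⦋1⦌ => c (f.app _ e)) := by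
  intro s
  have := hc (f.app _ s)
  rw [← SSet.δ_naturality_apply, ← SSet.δ_naturality_apply, ← SSet.δ_naturality_apply] at this
  exact this

/-- the second coordinate of a vertex of the cylinder -/
def cylb (b : X _⦋0⦌ → G) (v : (X ⊗ Δ[1]) _⦋0⦌) : G :=
  if (show Δ[1] _⦋0⦌ from v.2) 0 = 0 then 1 else b v.1

theorem homotopy_of_gauge (u u' : X ⟶ BG G) (b : X _⦋0⦌ → G)
    (hb : ∀ e, val u' e * b (X.δ 1 e) = b (X.δ 0 e) * val u e) :
    Nonempty (SSet.Homotopy u u') := by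
  have hc : IsCoc (fun e : (X ⊗ Δ[1]) _⦋1⦌ => val u e.1) := by
    have := (val_isCoc u).comp (CartesianMonoidalCategory.fst X Δ[1])
    exact this
  refine ⟨⟨ofCoc _ (hc.gauge (cylb b)), ?_, ?_, ?_⟩⟩
  · apply hom_ext
    intro e
    rw [val_comp, val_ofCoc]
    have h0 : cylb b ((X ⊗ Δ[1]).δ 0 (SSet.ι₀.app _ e)) = 1 := rfl
    have h1 : cylb b ((X ⊗ Δ[1]).δ 1 (SSet.ι₀.app _ e)) = 1 := rfl
    unfold gauge
    rw [h0, h1]
    simp
  · apply hom_ext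
    intro e
    rw [val_comp, val_ofCoc]
    have h0 : cylb b ((X ⊗ Δ[1]).δ 0 (SSet.ι₁.app _ e)) = b (X.δ 0 e) := rfl
    have h1 : cylb b ((X ⊗ Δ[1]).δ 1 (SSet.ι₁.app _ e)) = b (X.δ 1 e) := rfl
    unfold gauge
    rw [h0, h1]
    change b (X.δ 0 e) * val u e * (b (X.δ 1 e))⁻¹ = val u' e
    rw [← hb]
    simp
  · apply hom_ext
    intro e
    exact (show False from e.1.2).elim

theorem gauge_of_homotopy (u u' : X ⟶ BG G) (H : SSet.Homotopy u u') :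
    ∃ b : X _⦋0⦌ → G, ∀ e, val u' e * b (X.δ 1 e) = b (X.δ 0 e) * val u e := by
  refine ⟨fun v => val H.h (X.σ 0 v, SSet.stdSimplex.objMk₁ (1 : Fin 3)), fun e => ?_⟩
  have hc := val_isCoc H.h
  have h1 := hc (X.σ 1 e, SSet.stdSimplex.objMk₁ (2 : Fin 4))
  have h2 := hc (X.σ 0 e, SSet.stdSimplex.objMk₁ (1 : Fin 4))
  have hu : val u e = val H.h (SSet.ι₀.app _ e) := by
    rw [← val_comp, H.h₀]
  have hu' : val u' e = val H.h (SSet.ι₁.app _ e) := by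
    rw [← val_comp, H.h₁]
  have key : ∀ (x y : X _⦋1⦌) (p q : Δ[1] _⦋1⦌), x = y → p = q →
      val H.h (x, p) = val H.h (y, q) := by
    rintro x _ p _ rfl rfl
    rfl
  have a1 : (X ⊗ Δ[1]).δ 1 (X.σ 1 e, SSet.stdSimplex.objMk₁ (2 : Fin 4)) =
      (e, SSet.stdSimplex.objMk₁ (1 : Fin 3)) := by
    refine Prod.ext ?_ ?_
    · change X.δ 1 (X.σ 1 e) = e
      simpa using SSet.δ_comp_σ_self_apply (S := X) (1 : Fin 2) e
    · change Δ[1].δ 1 (SSet.stdSimplex.objMk₁ (2 : Fin 4)) = SSet.stdSimplex.objMk₁ (1 : Fin 3)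
      rw [SSet.stdSimplex.δ_objMk₁_of_lt _ _ (by decide)]
      rfl
  have a0 : (X ⊗ Δ[1]).δ 0 (X.σ 1 e, SSet.stdSimplex.objMk₁ (2 : Fin 4)) =
      (X.σ 0 (X.δ 0 e), SSet.stdSimplex.objMk₁ (1 : Fin 3)) := by
    refine Prod.ext ?_ ?_
    · change X.δ 0 (X.σ 1 e) = X.σ 0 (X.δ 0 e)
      simpa using SSet.δ_comp_σ_of_le_apply (S := X) (i := (0 : Fin 2)) (j := (0 : Fin 1))
        (by decide) e
    · change Δ[1].δ 0 (SSet.stdSimplex.objMk₁ (2 : Fin 4)) = SSet.stdSimplex.objMk₁ (1 : Fin 3)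
      rw [SSet.stdSimplex.δ_objMk₁_of_lt _ _ (by decide)]
      rfl
  have a2 : (X ⊗ Δ[1]).δ 2 (X.σ 1 e, SSet.stdSimplex.objMk₁ (2 : Fin 4)) =
      SSet.ι₀.app _ e := by
    refine Prod.ext ?_ ?_
    · change X.δ 2 (X.σ 1 e) = e
      simpa using SSet.δ_comp_σ_succ_apply (S := X) (1 : Fin 2) e
    · apply DFunLike.ext
      intro k
      fin_cases k <;> rfl
  have b1 : (X ⊗ Δ[1]).δ 1 (X.σ 0 e, SSet.stdSimplex.objMk₁ (1 : Fin 4)) =
      (e, SSet.stdSimplex.objMk₁ (1 : Fin 3)) := by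
    refine Prod.ext ?_ ?_
    · change X.δ 1 (X.σ 0 e) = e
      simpa using SSet.δ_comp_σ_succ_apply (S := X) (0 : Fin 2) e
    · change Δ[1].δ 1 (SSet.stdSimplex.objMk₁ (1 : Fin 4)) = SSet.stdSimplex.objMk₁ (1 : Fin 3)
      rw [SSet.stdSimplex.δ_objMk₁_of_le _ _ (by decide)]
      rfl
  have b0 : (X ⊗ Δ[1]).δ 0 (X.σ 0 e, SSet.stdSimplex.objMk₁ (1 : Fin 4)) =
      SSet.ι₁.app _ e := by
    refine Prod.ext ?_ ?_
    · change X.δ 0 (X.σ 0 e) = e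
      simpa using SSet.δ_comp_σ_self_apply (S := X) (0 : Fin 2) e
    · apply DFunLike.ext
      intro k
      fin_cases k <;> rfl
  have b2 : (X ⊗ Δ[1]).δ 2 (X.σ 0 e, SSet.stdSimplex.objMk₁ (1 : Fin 4)) =
      (X.σ 0 (X.δ 1 e), SSet.stdSimplex.objMk₁ (1 : Fin 3)) := by
    refine Prod.ext ?_ ?_
    · change X.δ 2 (X.σ 0 e) = X.σ 0 (X.δ 1 e)
      simpa using SSet.δ_comp_σ_of_gt_apply (S := X) (i := (1 : Fin 2)) (j := (0 : Fin 1))
        (by decide) e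
    · change Δ[1].δ 2 (SSet.stdSimplex.objMk₁ (1 : Fin 4)) = SSet.stdSimplex.objMk₁ (1 : Fin 3)
      rw [SSet.stdSimplex.δ_objMk₁_of_le _ _ (by decide)]
      rfl
  rw [a0, a1, a2, ← hu] at h1
  rw [b0, b1, b2, ← hu'] at h2
  rw [← h1, ← h2]

end Pool.Agent.H78.Ce
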