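import Mathlib

/-! Module F of THEOREM DET (MP_0edd48_al), general part: the potential function `F` on pairs
with exactly one coordinate divisible by `s`, over an abstract ring with a division algorithm
modulo `s`, and the homomorphism `ψ` it defines on the congruence subgroup `Good s`. -/

namespace Pool.Agent.H78.IADetF

open Matrix

variable {R : Type*} [CommRing R]

def Adm (s x y : R) : Prop := (s ∣ x ∧ ¬ s ∣ y) ∨ (¬ s ∣ x ∧ s ∣ y)

def Good (s : R) (M : Matrix (Fin 2) (Fin 2) R) : Prop :=
  IsUnit M.det ∧ ∀ i j, s ∣ M i j - (1 : Matrix (Fin 2) (Fin 2) R) i j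

theorem Adm.symm {s x y : R} (h : Adm s x y) : Adm s y x := by
  rcases h with ⟨h1, h2⟩ | ⟨h1, h2⟩
  · exact Or.inr ⟨h2, h1⟩
  · exact Or.inl ⟨h2, h1⟩

theorem Adm.shift {s x y : R} (h : Adm s x y) (α : R) : Adm s (x + s * α * y) y := by
  have : s ∣ x + s * α * y ↔ s ∣ x := by
    rw [mul_assoc]
    exact dvd_add_left (Dvd.intro _ rfl)
  unfold Adm at h ⊢
  rwa [this]

theorem Adm.unit {s x y ω ω' : R} (hω : ω * ω' = 1) (h : Adm s x y) : Adm s (ω * x) y := by
  have : s ∣ ω * x ↔ s ∣ x := by
    refine ⟨fun hd => ?_, fun hd => Dvd.dvd.mul_left hd _⟩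
    have := Dvd.dvd.mul_left hd ω'
    rwa [← mul_assoc, mul_comm ω' ω, hω, one_mul] at this
  unfold Adm at h ⊢
  rwa [this]

section rec

variable (s : R) (Nm : R → ℕ) (e : R → R)

open Classical in
/-- the value on pairs with `Nm y < Nm x` -/
noncomputable def g (x y : R) : R :=
  if h : y ≠ 0 ∧ Nm y < Nm x ∧ ∃ α, Nm (x + s * α * y) < Nm y then
    e (-(h.2.2.choose)) * (1 - g y (x + s * h.2.2.choose * y))
  else 0
termination_by Nm x + Nm y
decreasing_by
  have := h.2.2.choose_spec
  have := h.2.1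
  omega

theorem g_zero (x : R) : g s Nm e x 0 = 0 := by
  rw [g]; simp

open Classical in
/-- the potential function -/
noncomputable def F (x y : R) : R :=
  if Nm y < Nm x then g s Nm e x y else 1 - g s Nm e y x

variable {s Nm e}

theorem F_swap (hNs : ∀ x y, Adm s x y → Nm x ≠ Nm y) {x y : R} (h : Adm s x y) :
    F s Nm e x y = 1 - F s Nm e y x := by
  have hne := hNs x y h
  unfold F
  rcases lt_or_gt_of_ne hne with h1 | h1
  · rw [if_neg (by omega), if_pos h1]
  · rw [if_pos h1, if_neg (by omega)]; ring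

/-- Every admissible pair with `y ≠ 0` reduces. -/
theorem F_red (he0 : e 0 = 1) (hNs : ∀ x y, Adm s x y → Nm x ≠ Nm y)
    (cover : ∀ x y, y ≠ 0 → Adm s x y → ∃ α, Nm (x + s * α * y) < Nm y)
    {x y : R} (hy : y ≠ 0) (h : Adm s x y) :
    ∃ α, Nm (x + s * α * y) < Nm y ∧ F s Nm e x y = e (-α) * F s Nm e (x + s * α * y) y := by
  by_cases hxy : Nm x < Nm y
  · refine ⟨0, by simpa using hxy, ?_⟩
    simp [he0]
  · have hne := hNs x y h
    have hlt : Nm y < Nm x := by omega
    have hh : y ≠ 0 ∧ Nm y < Nm x ∧ ∃ α, Nm (x + s * α * y) < Nm y := ⟨hy, hlt, cover x y hy h⟩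
    refine ⟨hh.2.2.choose, hh.2.2.choose_spec, ?_⟩
    have hs := hh.2.2.choose_spec
    have h1 : F s Nm e x y = e (-(hh.2.2.choose)) * (1 - g s Nm e y (x + s * hh.2.2.choose * y)) := by
      unfold F
      rw [if_pos hlt, g, dif_pos hh]
    rw [h1]
    congr 1
    unfold F
    rw [if_neg (by omega)]

theorem F_shift_aux (he0 : e 0 = 1) (headd : ∀ a b, e (a + b) = e a * e b)
    (hN0 : ∀ x, Nm x = 0 ↔ x = 0)
    (hNs : ∀ x y, Adm s x y → Nm x ≠ Nm y)
    (cover : ∀ x y, y ≠ 0 → Adm s x y → ∃ α, Nm (x + s * α * y) < Nm y)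
    (LX : ∀ (f : R → R → R) (y : R), (∀ x z, Adm s x z → f x z = 1 - f z x) →
      (∀ z, Nm z < Nm y → ∀ x α, Adm s x z → f (x + s * α * z) z = e α * f x z) →
      ∀ x1 x2 β, Adm s x2 y → x1 = x2 + s * β * y → Nm x1 < Nm y → Nm x2 < Nm y →
        f x1 y = e β * f x2 y) :
    ∀ (n : ℕ) (y : R), Nm y = n → ∀ x α, Adm s x y →
      F s Nm e (x + s * α * y) y = e α * F s Nm e x y := by
  intro n
  induction n using Nat.strong_induction_on with
  | _ n ih =>
    intro y hyn x α hadm
    by_cases hy : y = 0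
    · subst hy
      have hx : x ≠ 0 := by
        rintro rfl
        exact hNs _ _ hadm rfl
      have hx0 : Nm (0 : R) < Nm x := by
        have h0 : Nm (0 : R) = 0 := (hN0 0).2 rfl
        have h1 : Nm x ≠ 0 := fun h => hx ((hN0 x).1 h)
        omega
      have e0 : x + s * α * 0 = x := by ring
      rw [e0]
      have : F s Nm e x 0 = 0 := by
        unfold F; rw [if_pos hx0, g_zero]
      rw [this, mul_zero]
    · have LX' := LX (F s Nm e) y (fun x z h => F_swap hNs h)
        (fun z hz x α h => ih (Nm z) (by omega) z rfl x α h)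
      obtain ⟨α0, h0, r0⟩ := F_red he0 hNs cover hy hadm
      obtain ⟨α1, h1, r1⟩ := F_red he0 hNs cover hy (hadm.shift α)
      have key := LX' (x + s * α * y + s * α1 * y) (x + s * α0 * y) (α + α1 - α0)
        (hadm.shift α0) (by ring) h1 h0
      rw [r1, key, r0, ← mul_assoc, ← headd, ← mul_assoc, ← headd]
      congr 2
      ring

end rec

/-- affine equivalences -/
def Aff (g : Equiv.Perm R) : Prop := ∃ c d : R, ∀ z, g z = c * z + d

/-- `M` acts on the values of `f` by `g`. -/
def Act (s : R) (f : R → R → R) (M : Matrix (Fin 2) (Fin 2) R) (g : Equiv.Perm R) : Prop :=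
  Aff g ∧ ∀ x y, Adm s x y → Adm s (M 0 0 * x + M 0 1 * y) (M 1 0 * x + M 1 1 * y) ∧
    f (M 0 0 * x + M 0 1 * y) (M 1 0 * x + M 1 1 * y) = g (f x y)

theorem Aff.mul {g h : Equiv.Perm R} (hg : Aff g) (hh : Aff h) : Aff (g * h) := by
  obtain ⟨c, d, e1⟩ := hg
  obtain ⟨c', d', e2⟩ := hh
  exact ⟨c * c', c * d' + d, fun z => by rw [Equiv.Perm.mul_apply, e2, e1]; ring⟩

theorem Act.mul {s : R} {f : R → R → R} {M N : Matrix (Fin 2) (Fin 2) R} {g h : Equiv.Perm R}
    (hM : Act s f M g) (hN : Act s f N h) : Act s f (M * N) (g * h) := by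
  refine ⟨hM.1.mul hN.1, ?_⟩
  intro x y hxy
  obtain ⟨a1, f1⟩ := hN.2 x y hxy
  obtain ⟨a2, f2⟩ := hM.2 _ _ a1
  have e0 : (M * N) 0 0 * x + (M * N) 0 1 * y =
      M 0 0 * (N 0 0 * x + N 0 1 * y) + M 0 1 * (N 1 0 * x + N 1 1 * y) := by
    simp only [Matrix.mul_apply, Fin.sum_univ_two]; ring
  have e1 : (M * N) 1 0 * x + (M * N) 1 1 * y =
      M 1 0 * (N 0 0 * x + N 0 1 * y) + M 1 1 * (N 1 0 * x + N 1 1 * y) := by
    simp only [Matrix.mul_apply, Fin.sum_univ_two]; ring
  rw [e0, e1]
  refine ⟨a2, ?_⟩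
  rw [f2, f1, Equiv.Perm.mul_apply]

/-- The general existence theorem for the homomorphism `ψ`. -/
theorem exists_psi_gen {R : Type*} [CommRing R] (s ω ω' : R) (Nm : R → ℕ) (e : R → R)
    (hω : ω * ω' = 1) (he0 : e 0 = 1) (headd : ∀ a b, e (a + b) = e a * e b)
    (heω : ∀ a, e (ω * a) = e a) (he1 : e 1 = ω)
    (hN0 : ∀ x, Nm x = 0 ↔ x = 0) (hNω : ∀ x, Nm (ω * x) = Nm x)
    (hNs : ∀ x y, Adm s x y → Nm x ≠ Nm y)
    (cover : ∀ x y, y ≠ 0 → Adm s x y → ∃ α, Nm (x + s * α * y) < Nm y)
    (LX : ∀ (f : R → R → R) (y : R), (∀ x z, Adm s x z → f x z = 1 - f z x) →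
      (∀ z, Nm z < Nm y → ∀ x α, Adm s x z → f (x + s * α * z) z = e α * f x z) →
      ∀ x1 x2 β, Adm s x2 y → x1 = x2 + s * β * y → Nm x1 < Nm y → Nm x2 < Nm y →
        f x1 y = e β * f x2 y)
    (hs1 : ¬ s ∣ 1) (hunit : ∀ u, IsUnit u → s ∣ u - 1 → ∃ i : ℕ, u = ω ^ i) :
    ∃ ψ : Matrix (Fin 2) (Fin 2) R → Equiv.Perm R,
      (∀ M N, Good s M → Good s N → ψ (M * N) = ψ M * ψ N) ∧
      (∀ i j : ℕ, ψ !![ω ^ i, 0; 0, ω ^ j] = 1) ∧
      (∀ z, ψ !![1, s; 0, 1] z = ω * z) ∧ (∀ z, ψ !![1, 0; s, 1] z = 1 + ω * (z - 1)) := by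
  classical
  obtain ⟨f, hf⟩ : ∃ f : R → R → R, f = F s Nm e := ⟨_, rfl⟩
  -- F2
  have F2 : ∀ x y, Adm s x y → f x y = 1 - f y x := by
    intro x y h; rw [hf]; exact F_swap hNs h
  -- F3
  have F3 : ∀ x y α, Adm s x y → f (x + s * α * y) y = e α * f x y := by
    intro x y α h; rw [hf]
    exact F_shift_aux he0 headd hN0 hNs cover LX (Nm y) y rfl x α h
  have hN00 : Nm (0 : R) = 0 := (hN0 0).2 rfl
  -- F1
  have F1 : ∀ x, Adm s x 0 → f x 0 = 0 := by
    intro x h
    have hx : x ≠ 0 := by rintro rfl; exact hNs _ _ h rfl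
    have h1 : Nm x ≠ 0 := fun h => hx ((hN0 x).1 h)
    rw [hf]; unfold F; rw [if_pos (by omega), g_zero]
  have hω' : ω' * ω = 1 := by rw [mul_comm]; exact hω
  -- F4
  have F4 : ∀ n : ℕ, ∀ x y, Nm x + Nm y = n → Adm s x y → f (ω * x) y = f x y ∧ f x (ω * y) = f x y := by
    intro n
    induction n using Nat.strong_induction_on with
    | _ n ih =>
      have big : ∀ x y, Nm x + Nm y = n → Nm y < Nm x → Adm s x y →
          f (ω * x) y = f x y ∧ f x (ω * y) = f x y := by
        intro x y hn hlt hadm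
        by_cases hy : y = 0
        · subst hy
          have hω0 : ω * (0 : R) = 0 := mul_zero _
          rw [hω0, F1 _ hadm, F1 _ (hadm.unit hω)]
          exact ⟨rfl, rfl⟩
        · obtain ⟨α, hα⟩ := cover x y hy hadm
          obtain ⟨i1, i2⟩ := ih (Nm (x + s * α * y) + Nm y) (by omega) (x + s * α * y) y rfl
            (hadm.shift α)
          have r0 := F3 x y α hadm
          have r1 := F3 (ω * x) y (ω * α) (hadm.unit hω)
          have r2 := F3 x (ω * y) (ω' * α) ((hadm.symm.unit hω).symm)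
          have q1 : ω * x + s * (ω * α) * y = ω * (x + s * α * y) := by ring
          have q2 : x + s * (ω' * α) * (ω * y) = x + s * α * y := by
            calc x + s * (ω' * α) * (ω * y) = x + s * (ω' * ω) * α * y := by ring
              _ = _ := by rw [hω']; ring
          have q3 : e (ω' * α) = e α := by
            rw [← heω (ω' * α), ← mul_assoc, hω, one_mul]
          rw [q1, heω, i1, r0] at r1
          rw [q2, q3, i2, r0] at r2
          have unit : e (-α) * e α = 1 := by rw [← headd, neg_add_cancel, he0]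
          constructor
          · calc f (ω * x) y = (e (-α) * e α) * f (ω * x) y := by rw [unit, one_mul]
              _ = e (-α) * (e α * f (ω * x) y) := by ring
              _ = e (-α) * (e α * f x y) := by rw [← r1]
              _ = (e (-α) * e α) * f x y := by ring
              _ = f x y := by rw [unit, one_mul]
          · calc f x (ω * y) = (e (-α) * e α) * f x (ω * y) := by rw [unit, one_mul]
              _ = e (-α) * (e α * f x (ω * y)) := by ring
              _ = e (-α) * (e α * f x y) := by rw [← r2]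
              _ = (e (-α) * e α) * f x y := by ring
              _ = f x y := by rw [unit, one_mul]
      intro x y hn hadm
      rcases lt_or_gt_of_ne (hNs x y hadm) with h1 | h1
      · obtain ⟨b1, b2⟩ := big y x (by omega) h1 hadm.symm
        constructor
        · rw [F2 _ _ (hadm.unit hω), b2, ← F2 _ _ hadm]
        · rw [F2 _ _ ((hadm.symm.unit hω).symm), b1, ← F2 _ _ hadm]
      · exact big x y hn h1 hadm
  have F4a : ∀ x y, Adm s x y → f (ω * x) y = f x y := fun x y h => (F4 _ x y rfl h).1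
  have F4b : ∀ x y, Adm s x y → f x (ω * y) = f x y := fun x y h => (F4 _ x y rfl h).2
  have F4a' : ∀ (i : ℕ) x y, Adm s x y → Adm s (ω ^ i * x) y ∧ f (ω ^ i * x) y = f x y := by
    intro i
    induction i with
    | zero => intro x y h; simpa using h
    | succ k ih =>
      intro x y h
      obtain ⟨a, b⟩ := ih x y h
      have q : ω ^ (k + 1) * x = ω * (ω ^ k * x) := by ring
      rw [q]
      exact ⟨a.unit hω, by rw [F4a _ _ a, b]⟩
  have F4b' : ∀ (i : ℕ) x y, Adm s x y → Adm s x (ω ^ i * y) ∧ f x (ω ^ i * y) = f x y := by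
    intro i x y h
    obtain ⟨a, b⟩ := F4a' i y x h.symm
    exact ⟨a.symm, by rw [F2 _ _ a.symm, b, ← F2 _ _ h]⟩
  have unit : ∀ α, e α * e (-α) = 1 := by
    intro α; rw [← headd, add_neg_cancel, he0]
  have unit' : ∀ α, e (-α) * e α = 1 := by
    intro α; rw [← headd, neg_add_cancel, he0]
  -- the three families of permutations
  let gX : R → Equiv.Perm R := fun α =>
    { toFun := fun z => e α * z
      invFun := fun z => e (-α) * z
      left_inv := fun z => by
        show e (-α) * (e α * z) = z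
        rw [← mul_assoc, unit', one_mul]
      right_inv := fun z => by
        show e α * (e (-α) * z) = z
        rw [← mul_assoc, unit, one_mul] }
  let gY : R → Equiv.Perm R := fun α =>
    { toFun := fun z => 1 + e α * (z - 1)
      invFun := fun z => 1 + e (-α) * (z - 1)
      left_inv := fun z => by
        show 1 + e (-α) * (1 + e α * (z - 1) - 1) = z
        calc 1 + e (-α) * (1 + e α * (z - 1) - 1) = 1 + (e (-α) * e α) * (z - 1) := by ring
          _ = z := by rw [unit']; ring
      right_inv := fun z => by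
        show 1 + e α * (1 + e (-α) * (z - 1) - 1) = z
        calc 1 + e α * (1 + e (-α) * (z - 1) - 1) = 1 + (e α * e (-α)) * (z - 1) := by ring
          _ = z := by rw [unit]; ring }
  have ActX : ∀ α, Act s f !![1, s * α; 0, 1] (gX α) := by
    intro α
    refine ⟨⟨e α, 0, fun z => by show e α * z = _; ring⟩, ?_⟩
    intro x y h
    have q0 : (!![1, s * α; 0, 1] : Matrix (Fin 2) (Fin 2) R) 0 0 * x +
        (!![1, s * α; 0, 1] : Matrix (Fin 2) (Fin 2) R) 0 1 * y = x + s * α * y := by
      simp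
    have q1 : (!![1, s * α; 0, 1] : Matrix (Fin 2) (Fin 2) R) 1 0 * x +
        (!![1, s * α; 0, 1] : Matrix (Fin 2) (Fin 2) R) 1 1 * y = y := by
      simp
    rw [q0, q1]
    exact ⟨h.shift α, F3 x y α h⟩
  have ActY : ∀ α, Act s f !![1, 0; s * α, 1] (gY α) := by
    intro α
    refine ⟨⟨e α, 1 - e α, fun z => by show 1 + e α * (z - 1) = _; ring⟩, ?_⟩
    intro x y h
    have q0 : (!![1, 0; s * α, 1] : Matrix (Fin 2) (Fin 2) R) 0 0 * x +
        (!![1, 0; s * α, 1] : Matrix (Fin 2) (Fin 2) R) 0 1 * y = x := by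
      simp
    have q1 : (!![1, 0; s * α, 1] : Matrix (Fin 2) (Fin 2) R) 1 0 * x +
        (!![1, 0; s * α, 1] : Matrix (Fin 2) (Fin 2) R) 1 1 * y = y + s * α * x := by
      simp; ring
    rw [q0, q1]
    have a := h.symm.shift α
    refine ⟨a.symm, ?_⟩
    rw [F2 _ _ a.symm, F3 _ _ _ h.symm]
    show 1 - e α * f y x = 1 + e α * (f x y - 1)
    rw [F2 x y h]; ring
  have ActD : ∀ i j : ℕ, Act s f !![ω ^ i, 0; 0, ω ^ j] 1 := by
    intro i j
    refine ⟨⟨1, 0, fun z => by simp⟩, ?_⟩
    intro x y h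
    have q0 : (!![ω ^ i, 0; 0, ω ^ j] : Matrix (Fin 2) (Fin 2) R) 0 0 * x +
        (!![ω ^ i, 0; 0, ω ^ j] : Matrix (Fin 2) (Fin 2) R) 0 1 * y = ω ^ i * x := by
      simp
    have q1 : (!![ω ^ i, 0; 0, ω ^ j] : Matrix (Fin 2) (Fin 2) R) 1 0 * x +
        (!![ω ^ i, 0; 0, ω ^ j] : Matrix (Fin 2) (Fin 2) R) 1 1 * y = ω ^ j * y := by
      simp
    rw [q0, q1]
    obtain ⟨a, b⟩ := F4a' i x y h
    obtain ⟨a', b'⟩ := F4b' j _ y a
    exact ⟨a', by rw [b', b]; simp⟩
  -- every Good matrix acts
  have key : ∀ n : ℕ, ∀ M : Matrix (Fin 2) (Fin 2) R, Nm (M 0 0) + Nm (M 1 0) = n → Good s M →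
      ∃ g, Act s f M g := by
    intro n
    induction n using Nat.strong_induction_on with
    | _ n ih =>
      intro M hn hM
      have d00 : s ∣ M 0 0 - 1 := by simpa using hM.2 0 0
      have d01 : s ∣ M 0 1 := by simpa using hM.2 0 1
      have d10 : s ∣ M 1 0 := by simpa using hM.2 1 0
      have d11 : s ∣ M 1 1 - 1 := by simpa using hM.2 1 1
      have n00 : ¬ s ∣ M 0 0 := by
        intro h
        apply hs1
        have := dvd_sub h d00
        simpa using this
      have hadm : Adm s (M 0 0) (M 1 0) := Or.inr ⟨n00, d10⟩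
      have hdet := hM.1
      rw [Matrix.det_fin_two] at hdet
      by_cases hr : M 1 0 = 0
      · -- triangular
        rw [hr, mul_zero, sub_zero] at hdet
        have u0 : IsUnit (M 0 0) := isUnit_of_mul_isUnit_left hdet
        have u1 : IsUnit (M 1 1) := isUnit_of_mul_isUnit_right hdet
        obtain ⟨i, hi⟩ := hunit _ u0 d00
        obtain ⟨j, hj⟩ := hunit _ u1 d11
        obtain ⟨q, hq⟩ := d01
        -- M = D * X_α with ω^i * s * α = s q
        refine ⟨1 * gX (ω' ^ i * q), ?_⟩
        have hMeq : M = !![ω ^ i, 0; 0, ω ^ j] * !![1, s * (ω' ^ i * q); 0, 1] := by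
          have hpow : ω ^ i * ω' ^ i = 1 := by rw [← mul_pow, hω, one_pow]
          ext a b
          fin_cases a <;> fin_cases b
          · simp [Matrix.mul_apply, Fin.sum_univ_two, hi]
          · simp [Matrix.mul_apply, Fin.sum_univ_two, hq]
            calc s * q = (ω ^ i * ω' ^ i) * (s * q) := by rw [hpow, one_mul]
              _ = ω ^ i * (s * (ω' ^ i * q)) := by ring
          · simp [Matrix.mul_apply, Fin.sum_univ_two, hr]
          · simp [Matrix.mul_apply, Fin.sum_univ_two, hj]
        rw [hMeq]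
        exact (ActD i j).mul (ActX _)
      · rcases lt_or_gt_of_ne (hNs _ _ hadm) with h1 | h1
        · -- N p < N r : reduce r by p
          have hp : M 0 0 ≠ 0 := by
            intro h0
            exact n00 (by rw [h0]; exact dvd_zero _)
          obtain ⟨α, hα⟩ := cover (M 1 0) (M 0 0) hp hadm.symm
          obtain ⟨M', hM'⟩ : ∃ M' : Matrix (Fin 2) (Fin 2) R, M' = !![1, 0; s * α, 1] * M :=
            ⟨_, rfl⟩
          have e00 : M' 0 0 = M 0 0 := by
            rw [hM']; simp [Matrix.mul_apply, Fin.sum_univ_two]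
          have e01 : M' 0 1 = M 0 1 := by
            rw [hM']; simp [Matrix.mul_apply, Fin.sum_univ_two]
          have e10 : M' 1 0 = M 1 0 + s * α * M 0 0 := by
            rw [hM']; simp [Matrix.mul_apply, Fin.sum_univ_two]; ring
          have e11 : M' 1 1 = M 1 1 + s * α * M 0 1 := by
            rw [hM']; simp [Matrix.mul_apply, Fin.sum_univ_two]; ring
          have hG : Good s M' := by
            refine ⟨?_, ?_⟩
            · rw [hM', Matrix.det_mul]
              have : (!![1, 0; s * α, 1] : Matrix (Fin 2) (Fin 2) R).det = 1 := by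
                rw [Matrix.det_fin_two]; simp
              rw [this, one_mul]; exact hM.1
            · intro i j
              fin_cases i <;> fin_cases j
              · simpa [e00] using d00
              · simpa [e01] using d01
              · simp only [Fin.mk_one, Fin.isValue, Fin.zero_eta, ne_eq, one_ne_zero,
                  not_false_eq_true, Matrix.one_apply_ne, sub_zero, e10]
                exact dvd_add d10 ⟨α * M 0 0, by ring⟩
              · simp only [Fin.mk_one, Fin.isValue, Matrix.one_apply_eq, e11]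
                have : M 1 1 + s * α * M 0 1 - 1 = (M 1 1 - 1) + s * (α * M 0 1) := by ring
                rw [this]
                exact dvd_add d11 (dvd_mul_right _ _)
          obtain ⟨g', hg'⟩ := ih (Nm (M' 0 0) + Nm (M' 1 0)) (by rw [e00, e10]; omega) M' rfl hG
          refine ⟨gY (-α) * g', ?_⟩
          have hMeq : M = !![1, 0; s * (-α), 1] * M' := by
            rw [hM', ← Matrix.mul_assoc]
            have : (!![1, 0; s * (-α), 1] : Matrix (Fin 2) (Fin 2) R) * !![1, 0; s * α, 1] = 1 := by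
              ext a b
              fin_cases a <;> fin_cases b <;> simp [Matrix.mul_apply, Fin.sum_univ_two]
            rw [this, Matrix.one_mul]
          rw [hMeq]
          exact (ActY _).mul hg'
        · obtain ⟨α, hα⟩ := cover (M 0 0) (M 1 0) hr hadm
          obtain ⟨M', hM'⟩ : ∃ M' : Matrix (Fin 2) (Fin 2) R, M' = !![1, s * α; 0, 1] * M :=
            ⟨_, rfl⟩
          have e00 : M' 0 0 = M 0 0 + s * α * M 1 0 := by
            rw [hM']; simp [Matrix.mul_apply, Fin.sum_univ_two]
          have e01 : M' 0 1 = M 0 1 + s * α * M 1 1 := by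
            rw [hM']; simp [Matrix.mul_apply, Fin.sum_univ_two]
          have e10 : M' 1 0 = M 1 0 := by
            rw [hM']; simp [Matrix.mul_apply, Fin.sum_univ_two]
          have e11 : M' 1 1 = M 1 1 := by
            rw [hM']; simp [Matrix.mul_apply, Fin.sum_univ_two]
          have hG : Good s M' := by
            refine ⟨?_, ?_⟩
            · rw [hM', Matrix.det_mul]
              have : (!![1, s * α; 0, 1] : Matrix (Fin 2) (Fin 2) R).det = 1 := by
                rw [Matrix.det_fin_two]; simp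
              rw [this, one_mul]; exact hM.1
            · intro i j
              fin_cases i <;> fin_cases j
              · simp only [Fin.zero_eta, Fin.isValue, Matrix.one_apply_eq, e00]
                have : M 0 0 + s * α * M 1 0 - 1 = (M 0 0 - 1) + s * (α * M 1 0) := by ring
                rw [this]
                exact dvd_add d00 (dvd_mul_right _ _)
              · simp only [Fin.zero_eta, Fin.isValue, Fin.mk_one, ne_eq, zero_ne_one,
                  not_false_eq_true, Matrix.one_apply_ne, sub_zero, e01]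
                exact dvd_add d01 ⟨α * M 1 1, by ring⟩
              · simpa [e10] using d10
              · simpa [e11] using d11
          obtain ⟨g', hg'⟩ := ih (Nm (M' 0 0) + Nm (M' 1 0)) (by rw [e00, e10]; omega) M' rfl hG
          refine ⟨gX (-α) * g', ?_⟩
          have hMeq : M = !![1, s * (-α); 0, 1] * M' := by
            rw [hM', ← Matrix.mul_assoc]
            have : (!![1, s * (-α); 0, 1] : Matrix (Fin 2) (Fin 2) R) * !![1, s * α; 0, 1] = 1 := by
              ext a b
              fin_cases a <;> fin_cases b <;> simp [Matrix.mul_apply, Fin.sum_univ_two]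
            rw [this, Matrix.one_mul]
          rw [hMeq]
          exact (ActX _).mul hg'
  -- uniqueness
  have adm10 : Adm s (1 : R) 0 := Or.inr ⟨hs1, dvd_zero _⟩
  have f10 : f 1 0 = 0 := F1 _ adm10
  have f01 : f 0 1 = 1 := by rw [F2 _ _ adm10.symm, f10]; ring
  have uniq : ∀ M g g', Act s f M g → Act s f M g' → g = g' := by
    rintro M g g' ⟨⟨c, d, hg⟩, a⟩ ⟨⟨c', d', hg'⟩, a'⟩
    have v0 : g 0 = g' 0 := by
      have h1 := (a 1 0 adm10).2
      have h2 := (a' 1 0 adm10).2
      rw [f10] at h1 h2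
      rw [← h1, ← h2]
    have v1 : g 1 = g' 1 := by
      have h1 := (a 0 1 adm10.symm).2
      have h2 := (a' 0 1 adm10.symm).2
      rw [f01] at h1 h2
      rw [← h1, ← h2]
    rw [hg, hg'] at v0 v1
    have hd : d = d' := by simpa using v0
    have hc : c = c' := by
      rw [hd] at v1; simpa using v1
    ext z
    rw [hg, hg', hd, hc]
  refine ⟨fun M => if h : ∃ g, Act s f M g then h.choose else 1, ?_, ?_, ?_, ?_⟩
  · intro M N hM hN
    have h1 := key _ M rfl hM
    have h2 := key _ N rfl hN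
    have h3 : ∃ g, Act s f (M * N) g := ⟨_, h1.choose_spec.mul h2.choose_spec⟩
    show dite _ _ _ = dite _ _ _ * dite _ _ _
    rw [dif_pos h1, dif_pos h2, dif_pos h3]
    exact uniq _ _ _ h3.choose_spec (h1.choose_spec.mul h2.choose_spec)
  · intro i j
    have h : ∃ g, Act s f !![ω ^ i, 0; 0, ω ^ j] g := ⟨_, ActD i j⟩
    show dite _ _ _ = _
    rw [dif_pos h]
    exact uniq _ _ _ h.choose_spec (ActD i j)
  · intro z
    have q : (!![1, s; 0, 1] : Matrix (Fin 2) (Fin 2) R) = !![1, s * 1; 0, 1] := by rw [mul_one]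
    have h : ∃ g, Act s f !![1, s; 0, 1] g := ⟨_, by rw [q]; exact ActX 1⟩
    show (dite _ _ _ : Equiv.Perm R) z = _
    rw [dif_pos h]
    have : h.choose = gX 1 := uniq _ _ _ h.choose_spec (by rw [q]; exact ActX 1)
    rw [this]
    show e 1 * z = ω * z
    rw [he1]
  · intro z
    have q : (!![1, 0; s, 1] : Matrix (Fin 2) (Fin 2) R) = !![1, 0; s * 1, 1] := by rw [mul_one]
    have h : ∃ g, Act s f !![1, 0; s, 1] g := ⟨_, by rw [q]; exact ActY 1⟩
    show (dite _ _ _ : Equiv.Perm R) z = _
    rw [dif_pos h]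
    have : h.choose = gY 1 := uniq _ _ _ h.choose_spec (by rw [q]; exact ActY 1)
    rw [this]
    show 1 + e 1 * (z - 1) = _
    rw [he1]

end Pool.Agent.H78.IADetF
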