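import Mathlib
import Pool.Agent.H76.IADetFin

/-! PRES4 of THEOREM DET (MP_0edd48_al): explicit normal generators (in `T(n)`) of
`C̄(n) ∩ T(n)` for `n ≥ 4`. -/

set_option autoImplicit false

namespace Pool.Agent.H78.IADetPres4

open FreeGroup (of)
open scoped commutatorElement
open Pool.Agent.H76.IADet

variable {n : ℕ}

/-- the abstract situation -/
structure Sys (n : ℕ) (G : Type) [Group G] where
  k : Fin n → Fin n → Fin n → G
  swap : ∀ i j l, i ≠ j → i ≠ l → j ≠ l → k i l j = (k i j l)⁻¹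
  comm : ∀ i j l p s t, i ≠ j → i ≠ l → j ≠ l → p ≠ s → p ≠ t → s ≠ t →
    (p = i ∨ ∃ e, (e = p ∨ e = s ∨ e = t) ∧ e ≠ i ∧ e ≠ j ∧ e ≠ l) →
    Commute (k i j l) (k p s t)
  central : ∀ i j l a b c, i ≠ j → i ≠ l → j ≠ l → a ≠ b → a ≠ c → b ≠ c →
    Commute (k i j l) ⁅k a b c, k b a c⁆
  R4 : ∀ a b c e, a ≠ b → c ≠ a → c ≠ b → e ≠ a → e ≠ b → e ≠ c →
    ⁅k e a c, k a e c⁆ * ⁅k b e c, k e b c⁆ = ⁅k b a c, k a b c⁆
  Ph : Fin n → G →* E n
  Ph_k : ∀ c i j l, i ≠ j → i ≠ l → j ≠ l →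
    Ph c (k i j l) = ⟨fun a b => if b = i ∧ a = j ∧ l = c then 1 else
      if b = i ∧ a = l ∧ j = c then -1 else 0, fun _ => 0⟩

namespace Sys

variable {G : Type} [Group G] (S : Sys n G)

/-- `H_c(i,j)` -/
def H (c i j : Fin n) : G := ⁅S.k i j c, S.k j i c⁆

theorem H_swap (c i j : Fin n) : S.H c j i = (S.H c i j)⁻¹ := by
  rw [H, H, commutatorElement_inv]

/-- value on `H_c(i,j)` -/
theorem Ph_H_self (c : Fin n) {i j : Fin n} (hij : i ≠ j) (hic : i ≠ c) (hjc : j ≠ c) (a : Fin n) :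
    (S.Ph c (S.H c i j)).d a = if a = j then 2 else if a = i then -2 else 0 := by
  rw [H, map_commutatorElement, E.comm_d, S.Ph_k c _ _ _ hij hic hjc,
    S.Ph_k c _ _ _ hij.symm hjc hic]
  simp only [and_true, hic, hjc, and_false, if_false]
  have h1 : ∑ l, (if l = i ∧ a = j then (1 : ℤ) else 0) * (if a = j ∧ l = i then (1 : ℤ) else 0) =
      if a = j then 1 else 0 := by
    rw [Finset.sum_eq_single i]
    · by_cases h : a = j <;> simp [h]
    · intro l _ hl; simp [hl]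
    · intro h; exact absurd (Finset.mem_univ _) h
  have h2 : ∑ l, (if l = j ∧ a = i then (1 : ℤ) else 0) * (if a = i ∧ l = j then (1 : ℤ) else 0) =
      if a = i then 1 else 0 := by
    rw [Finset.sum_eq_single j]
    · by_cases h : a = i <;> simp [h]
    · intro l _ hl; simp [hl]
    · intro h; exact absurd (Finset.mem_univ _) h
  rw [h1, h2]
  by_cases h : a = j
  · subst h; simp [hij.symm]
  · simp only [h, if_false]
    split_ifs <;> norm_num

theorem Ph_H_ne {c c' : Fin n} (hcc : c ≠ c') {i j : Fin n} (hij : i ≠ j) (hic : i ≠ c')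
    (hjc : j ≠ c') (a : Fin n) : (S.Ph c (S.H c' i j)).d a = 0 := by
  rw [H, map_commutatorElement, E.comm_d, S.Ph_k c _ _ _ hij hic hjc,
    S.Ph_k c _ _ _ hij.symm hjc hic]
  have e1 : ¬ (c' = c) := fun h => hcc h.symm
  simp only [e1, and_false, if_false]
  by_cases h1 : j = c
  · have h2 : ¬ (i = c) := fun h => hij (h.trans h1.symm)
    simp [h2]
  · simp [h1]

theorem Ph_H_x (c c' : Fin n) (i j a b : Fin n) : (S.Ph c (S.H c' i j)).x a b = 0 := by
  rw [H, map_commutatorElement, E.comm_x]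

/-- the generators -/
def ku (t : Ix n) : G := S.k t.1.1 t.1.2.1 t.1.2.2

/-- the subgroup generated by the `k_{i;jl}` -/
def KK : Subgroup G := Subgroup.closure (Set.range S.ku)

theorem k_mem {i j l : Fin n} (hij : i ≠ j) (hil : i ≠ l) (hjl : j ≠ l) : S.k i j l ∈ S.KK := by
  rcases lt_or_gt_of_ne hjl with h | h
  · exact Subgroup.subset_closure ⟨⟨(i, j, l), hij, h, hil.symm⟩, rfl⟩
  · have h1 : S.k i l j ∈ S.KK := Subgroup.subset_closure ⟨⟨(i, l, j), hil, h, hij.symm⟩, rfl⟩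
    rw [S.swap i l j hil hij hjl.symm]
    exact inv_mem h1

/-- the commutators -/
def ZZ : Subgroup G :=
  Subgroup.closure {z | ∃ c i j : Fin n, i ≠ j ∧ c ≠ i ∧ c ≠ j ∧ z = S.H c i j}

theorem Z_comm {z g : G} (hz : z ∈ S.ZZ) (hg : g ∈ S.KK) : Commute g z := by
  have h1 : ∀ g ∈ S.KK, ∀ c i j : Fin n, i ≠ j → c ≠ i → c ≠ j → Commute g (S.H c i j) := by
    intro g hg c i j hij hci hcj
    refine Subgroup.closure_induction (p := fun g _ => Commute g (S.H c i j)) ?_ ?_ ?_ ?_ hg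
    · rintro x ⟨⟨⟨a, b, d⟩, h1, h2, h3⟩, rfl⟩
      exact S.central _ _ _ _ _ _ h1 (Ne.symm h3) h2.ne hij hci.symm hcj.symm
    · exact Commute.one_left _
    · intro x y _ _ hx hy; exact hx.mul_left hy
    · intro x _ hx; exact hx.inv_left
  refine Subgroup.closure_induction (p := fun z _ => Commute g z) ?_ ?_ ?_ ?_ hz
  · rintro z ⟨c, i, j, hij, hci, hcj, rfl⟩
    exact h1 g hg c i j hij hci hcj
  · exact Commute.one_right _
  · intro x y _ _ hx hy; exact hx.mul_right hy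
  · intro x _ hx; exact hx.inv_right

theorem comm_gen {i j l p r s : Fin n} (h1 : i ≠ j) (h2 : i ≠ l) (h3 : j ≠ l)
    (h4 : p ≠ r) (h5 : p ≠ s) (h6 : r ≠ s) : ⁅S.k i j l, S.k p r s⁆ ∈ S.ZZ := by
  have key : ∀ {a b c : Fin n}, a ≠ b → c ≠ a → c ≠ b → ⁅S.k a b c, S.k b a c⁆ ∈ S.ZZ :=
    fun {a b c} hab hca hcb => Subgroup.subset_closure ⟨c, a, b, hab, hca, hcb, rfl⟩
  have key2 : ∀ {a b c : Fin n}, a ≠ b → c ≠ a → c ≠ b → ⁅S.k a b c, (S.k b a c)⁻¹⁆ ∈ S.ZZ := by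
    intro a b c hab hca hcb
    have h := S.Z_comm (key hab hca hcb) (S.k_mem hab.symm hcb.symm hca.symm)
    have e : ⁅S.k a b c, (S.k b a c)⁻¹⁆ = (S.k b a c)⁻¹ * ⁅S.k a b c, S.k b a c⁆⁻¹ * S.k b a c := by
      simp only [commutatorElement_def]; group
    rw [e, mul_assoc, h.inv_right.symm.eq, inv_mul_cancel_left]
    exact inv_mem (key hab hca hcb)
  have key3 : ∀ {a b c : Fin n}, a ≠ b → c ≠ a → c ≠ b → ⁅(S.k a b c)⁻¹, S.k b a c⁆ ∈ S.ZZ := by
    intro a b c hab hca hcb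
    have := key2 hab.symm hcb hca
    rw [← commutatorElement_inv]
    exact inv_mem this
  have key4 : ∀ {a b c : Fin n}, a ≠ b → c ≠ a → c ≠ b →
      ⁅(S.k a b c)⁻¹, (S.k b a c)⁻¹⁆ ∈ S.ZZ := by
    intro a b c hab hca hcb
    have h := S.Z_comm (key3 hab hca hcb) (S.k_mem hab.symm hcb.symm hca.symm)
    have e : ⁅(S.k a b c)⁻¹, (S.k b a c)⁻¹⁆ =
        (S.k b a c)⁻¹ * ⁅(S.k a b c)⁻¹, S.k b a c⁆⁻¹ * S.k b a c := by
      simp only [commutatorElement_def]; group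
    rw [e, mul_assoc, h.inv_right.symm.eq, inv_mul_cancel_left]
    exact inv_mem (key3 hab hca hcb)
  by_cases he : ∃ e, (e = p ∨ e = r ∨ e = s) ∧ e ≠ i ∧ e ≠ j ∧ e ≠ l
  · rw [commutatorElement_eq_one_iff_commute.mpr (S.comm _ _ _ _ _ _ h1 h2 h3 h4 h5 h6 (Or.inr he))]
    exact one_mem _
  · push Not at he
    by_cases hip : i = p
    · subst hip
      rw [commutatorElement_eq_one_iff_commute.mpr
        (S.comm _ _ _ _ _ _ h1 h2 h3 h4 h5 h6 (Or.inl rfl))]
      exact one_mem _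
    · have hp : p = j ∨ p = l := by
        by_contra hcon
        push Not at hcon
        exact hcon.2 (he p (Or.inl rfl) (Ne.symm hip) hcon.1)
      have hr : r = i ∨ r = j ∨ r = l := by
        by_contra hcon
        push Not at hcon
        exact hcon.2.2 (he r (Or.inr (Or.inl rfl)) hcon.1 hcon.2.1)
      have hs : s = i ∨ s = j ∨ s = l := by
        by_contra hcon
        push Not at hcon
        exact hcon.2.2 (he s (Or.inr (Or.inr rfl)) hcon.1 hcon.2.1)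
      rcases hp with rfl | rfl
      · -- p = j
        rcases hr with rfl | rfl | rfl
        · rcases hs with rfl | rfl | rfl
          · exact absurd rfl h6
          · exact absurd rfl h5
          · exact key h1 h2.symm h3.symm
        · exact absurd rfl h4
        · rcases hs with rfl | rfl | rfl
          · rw [S.swap p s r h5 h4 h6.symm]
            exact key2 h1 h2.symm h3.symm
          · exact absurd rfl h5
          · exact absurd rfl h6
      · -- p = l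
        rcases hr with rfl | rfl | rfl
        · rcases hs with rfl | rfl | rfl
          · exact absurd rfl h6
          · rw [S.swap r p s h4.symm h6 h5]
            exact key3 h2 h1.symm h3
          · exact absurd rfl h5
        · rcases hs with rfl | rfl | rfl
          · rw [S.swap s p r h5.symm h6.symm h4, S.swap p s r h5 h4 h6.symm]
            exact key4 h2 h1.symm h3
          · exact absurd rfl h6
          · exact absurd rfl h5
        · exact absurd rfl h4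

theorem comm_KK : ⁅S.KK, S.KK⁆ ≤ S.ZZ := by
  rw [Subgroup.commutator_le]
  intro g hg
  have gen : ∀ x ∈ Set.range S.ku, ∀ h ∈ S.KK, ⁅x, h⁆ ∈ S.ZZ := by
    rintro x ⟨⟨⟨a, b, d⟩, h1, h2, h3⟩, rfl⟩ h hh
    refine Subgroup.closure_induction (p := fun h _ => ⁅S.ku ⟨(a, b, d), h1, h2, h3⟩, h⁆ ∈ S.ZZ)
      ?_ ?_ ?_ ?_ hh
    · rintro y ⟨⟨⟨a', b', d'⟩, h1', h2', h3'⟩, rfl⟩
      exact S.comm_gen h1 (Ne.symm h3) h2.ne h1' (Ne.symm h3') h2'.ne
    · rw [commutatorElement_one_right]; exact one_mem _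
    · intro x y hx hy hx' hy'
      have e : ⁅S.ku ⟨(a, b, d), h1, h2, h3⟩, x * y⁆ = ⁅S.ku ⟨(a, b, d), h1, h2, h3⟩, x⁆ *
          (x * ⁅S.ku ⟨(a, b, d), h1, h2, h3⟩, y⁆ * x⁻¹) := by
        simp only [commutatorElement_def]; group
      rw [e, (S.Z_comm hy' hx).eq, mul_inv_cancel_right]
      exact mul_mem hx' hy'
    · intro x hx hx'
      have e : ⁅S.ku ⟨(a, b, d), h1, h2, h3⟩, x⁻¹⁆ =
          x⁻¹ * (⁅S.ku ⟨(a, b, d), h1, h2, h3⟩, x⁆⁻¹ * x) := by
        simp only [commutatorElement_def]; group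
      rw [e, (S.Z_comm hx' hx).inv_right.symm.eq, inv_mul_cancel_left]
      exact inv_mem hx'
  refine Subgroup.closure_induction (p := fun g _ => ∀ h ∈ S.KK, ⁅g, h⁆ ∈ S.ZZ) ?_ ?_ ?_ ?_ hg
  · exact gen
  · intro h _; rw [commutatorElement_one_left]; exact one_mem _
  · intro x y hx hy hx' hy' h hh
    have e : ⁅x * y, h⁆ = (x * ⁅y, h⁆ * x⁻¹) * ⁅x, h⁆ := by
      simp only [commutatorElement_def]; group
    rw [e, (S.Z_comm (hy' h hh) hx).eq, mul_inv_cancel_right]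
    exact mul_mem (hy' h hh) (hx' h hh)
  · intro x hx hx' h hh
    have e : ⁅x⁻¹, h⁆ = x⁻¹ * (⁅x, h⁆⁻¹ * x) := by
      simp only [commutatorElement_def]; group
    rw [e, (S.Z_comm (hx' h hh) hx).inv_right.symm.eq, inv_mul_cancel_left]
    exact inv_mem (hx' h hh)

/-- generators of the commutator subgroup -/
def zu (hn : 4 ≤ n) (t : Jx hn) : G := S.H t.1.1 t.1.2 (bb hn t.1.1)

theorem Z_le (hn : 4 ≤ n) : S.ZZ ≤ Subgroup.closure (Set.range (S.zu hn)) := by
  rw [ZZ, Subgroup.closure_le]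
  rintro z ⟨c, i, j, hij, hci, hcj, rfl⟩
  have hg : ∀ i, i ≠ c → i ≠ bb hn c → S.H c i (bb hn c) ∈ Subgroup.closure (Set.range (S.zu hn)) :=
    fun i h1 h2 => Subgroup.subset_closure ⟨⟨(c, i), h1, h2⟩, rfl⟩
  by_cases h1 : j = bb hn c
  · rw [h1] at hij ⊢
    exact hg i hci.symm hij
  · by_cases h2 : i = bb hn c
    · rw [h2, S.H_swap]
      exact inv_mem (hg j hcj.symm h1)
    · have h3 : S.H c (bb hn c) j * S.H c i (bb hn c) = S.H c i j :=
        S.R4 j i c (bb hn c) hij.symm hcj hci (Ne.symm h1) (Ne.symm h2) (bb_ne hn c)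
      rw [← h3, S.H_swap c j (bb hn c)]
      exact mul_mem (inv_mem (hg j hcj.symm h1)) (hg i hci.symm h2)

theorem zu_mem (hn : 4 ≤ n) (t : Jx hn) : S.zu hn t ∈ S.ZZ :=
  Subgroup.subset_closure ⟨t.1.1, t.1.2, bb hn t.1.1, t.2.2, Ne.symm t.2.1, Ne.symm (bb_ne hn _), rfl⟩

theorem Z_x {z : G} (hz : z ∈ S.ZZ) (c a b : Fin n) : (S.Ph c z).x a b = 0 := by
  refine Subgroup.closure_induction (p := fun z _ => (S.Ph c z).x a b = 0) ?_ ?_ ?_ ?_ hz
  · rintro z ⟨c', i, j, _, _, _, rfl⟩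
    exact S.Ph_H_x c c' i j a b
  · rw [map_one]; rfl
  · intro x y _ _ hx hy; rw [map_mul, E.mul_x, hx, hy, add_zero]
  · intro x _ hx; rw [map_inv, E.inv_x, hx, neg_zero]

theorem Z_KK : S.ZZ ≤ S.KK := by
  rw [ZZ, Subgroup.closure_le]
  rintro z ⟨c, i, j, hij, hci, hcj, rfl⟩
  have h1 := S.k_mem hij hci.symm hcj.symm
  have h2 := S.k_mem hij.symm hcj.symm hci.symm
  rw [H, commutatorElement_def]
  exact mul_mem (mul_mem (mul_mem h1 h2) (inv_mem h1)) (inv_mem h2)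

/-- the group generated by the `k_{i;jl}` is detected by the `Φ_c` -/
theorem det (hn : 4 ≤ n) {g : G} (hg : g ∈ S.KK) (h : ∀ c, S.Ph c g = 1) : g = 1 := by
  -- step 1
  have s1 : g ∈ S.ZZ := by
    apply S.comm_KK
    refine coords S.ku (fun t g => (S.Ph t.1.2.2 g).x t.1.2.1 t.1.1) 1 one_ne_zero ?_ ?_ hg ?_
    · intro t x _ y _
      rw [map_mul, E.mul_x]
    · rintro ⟨⟨i, j, l⟩, h1, h2, h3⟩ ⟨⟨a, b, d⟩, h1', h2', h3'⟩
      change (S.Ph d (S.k i j l)).x b a = _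
      simp only at h1 h2 h3 h1' h2' h3'
      rw [S.Ph_k d _ _ _ h1 (Ne.symm h3) h2.ne]
      simp only [Subtype.mk.injEq, Prod.mk.injEq]
      by_cases e : i = a ∧ j = b ∧ l = d
      · obtain ⟨rfl, rfl, rfl⟩ := e
        simp
      · rw [if_neg e]
        have e1 : ¬ (a = i ∧ b = j ∧ l = d) := fun h => e ⟨h.1.symm, h.2.1.symm, h.2.2⟩
        have e2 : ¬ (a = i ∧ b = l ∧ j = d) := by
          rintro ⟨_, rfl, rfl⟩
          exact absurd h2' (not_lt.mpr h2.le)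
        rw [if_neg e1, if_neg e2]
    · intro t
      rw [h]; rfl
  -- step 2
  have s2 : g ∈ ⁅Subgroup.closure (Set.range (S.zu hn)), Subgroup.closure (Set.range (S.zu hn))⁆ := by
    have hle : Subgroup.closure (Set.range (S.zu hn)) ≤ S.ZZ := by
      rw [Subgroup.closure_le]
      rintro z ⟨t, rfl⟩
      exact S.zu_mem hn t
    refine coords (S.zu hn) (fun t g => (S.Ph t.1.1 g).d t.1.2) (-2) (by norm_num) ?_ ?_
      (S.Z_le hn s1) ?_
    · intro t x hx y hy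
      rw [map_mul, E.mul_d]
      simp only [S.Z_x (hle hx), zero_mul, Finset.sum_const_zero, mul_zero, add_zero]
    · rintro ⟨⟨c, i⟩, h1, h2⟩ ⟨⟨c', i'⟩, h1', h2'⟩
      change (S.Ph c' (S.H c i (bb hn c))).d i' = _
      simp only at h1 h2 h1' h2'
      simp only [Subtype.mk.injEq, Prod.mk.injEq]
      by_cases hc : c = c'
      · subst hc
        rw [S.Ph_H_self c h2 h1 (bb_ne hn c), if_neg h2']
        by_cases hi : i' = i
        · subst hi; simp
        · rw [if_neg hi, if_neg (fun h => hi h.2.symm)]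
      · rw [S.Ph_H_ne (Ne.symm hc) h2 h1 (bb_ne hn c), if_neg (fun h => hc h.1)]
    · intro t
      rw [h]; rfl
  have s3 : ⁅Subgroup.closure (Set.range (S.zu hn)), Subgroup.closure (Set.range (S.zu hn))⁆ ≤ ⊥ := by
    have hle : Subgroup.closure (Set.range (S.zu hn)) ≤ S.ZZ := by
      rw [Subgroup.closure_le]
      rintro z ⟨t, rfl⟩
      exact S.zu_mem hn t
    rw [Subgroup.commutator_le]
    intro x hx y hy
    rw [Subgroup.mem_bot, commutatorElement_eq_one_iff_commute]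
    exact S.Z_comm (hle hy) (S.Z_KK (hle hx))
  exact Subgroup.mem_bot.mp (s3 s2)

end Sys

/-! ### the relators -/

/-- `K_{i;jl}` for arbitrary order of `j, l` -/
def K (i j l : Fin n) : IA n := ⟨B i 1 ⁅of j, of l⁆, R_mem_IA i (comm_mem_D _ _)⟩

/-- the explicit relators -/
def Rel4 (n : ℕ) : Set (IA n) :=
  {r | ∃ i j l p s t : Fin n, i ≠ j ∧ i ≠ l ∧ j ≠ l ∧ p ≠ s ∧ p ≠ t ∧ s ≠ t ∧
      (p = i ∨ ∃ e, (e = p ∨ e = s ∨ e = t) ∧ e ≠ i ∧ e ≠ j ∧ e ≠ l) ∧
      r = ⁅K i j l, K p s t⁆} ∪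
  {r | ∃ i j l a b c : Fin n, i ≠ j ∧ i ≠ l ∧ j ≠ l ∧ a ≠ b ∧ a ≠ c ∧ b ≠ c ∧
      r = ⁅K i j l, ⁅K a b c, K b a c⁆⁆} ∪
  {r | ∃ a b c e : Fin n, a ≠ b ∧ c ≠ a ∧ c ≠ b ∧ e ≠ a ∧ e ≠ b ∧ e ≠ c ∧
      r = ⁅K e a c, K a e c⁆ * ⁅K b e c, K e b c⁆ * ⁅K b a c, K a b c⁆⁻¹}

theorem K_apply_self {i j l : Fin n} (hij : i ≠ j) (hil : i ≠ l) :
    (K i j l).1 (of i) = of i * (of j * of l * (of j)⁻¹ * (of l)⁻¹) := by
  change B i 1 ⁅of j, of l⁆ (of i) = _
  rw [B_self, map_one, one_mul, kill_comm_of (kill_ne hij.symm) (kill_ne hil.symm)]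
  rfl

theorem K_apply_ne {i j l m : Fin n} (h : m ≠ i) : (K i j l).1 (of m) = of m := B_ne h _ _

theorem K_swap (i j l : Fin n) : K i l j = (K i j l)⁻¹ := by
  apply Subtype.ext
  change B i 1 ⁅of l, of j⁆ = (B i 1 ⁅of j, of l⁆)⁻¹
  rw [B_inv, inv_one, commutatorElement_inv]

theorem K_mem_T {i j l : Fin n} (hij : i ≠ j) (hil : i ≠ l) (hjl : j ≠ l) : K i j l ∈ T n := by
  rcases lt_or_gt_of_ne hjl with h | h
  · exact Subgroup.subset_closure ⟨i, j, l, hij, h, hil.symm, K_apply_self hij hil,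
      fun m hm => K_apply_ne hm⟩
  · rw [K_swap i l j]
    exact inv_mem (Subgroup.subset_closure ⟨i, l, j, hil, h, hij.symm, K_apply_self hil hij,
      fun m hm => K_apply_ne hm⟩)

theorem mk_K (i j l : Fin n) : (QuotientGroup.mk (K i j l) : Q n) = k i j l := by
  rw [k, beta, rho, q_of (R_mem_IA i (comm_mem_D _ _))]
  rfl

/-- the relators lie in `C̄(n)` -/
theorem Rel4_le (hn : 4 ≤ n) : Rel4 n ⊆ (Subgroup.normalClosure (C n : Set (IA n)) : Set (IA n)) := by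
  let π : IA n →* Q n := QuotientGroup.mk' _
  have hπ : ∀ i j l : Fin n, π (K i j l) = k i j l := fun i j l => mk_K i j l
  have key : ∀ r : IA n, π r = 1 → r ∈ (Subgroup.normalClosure (C n : Set (IA n)) : Set (IA n)) :=
    fun r hr => (QuotientGroup.eq_one_iff r).1 hr
  rintro r ((⟨i, j, l, p, s, t, h1, h2, h3, h4, h5, h6, h7, rfl⟩ |
    ⟨i, j, l, a, b, c, h1, h2, h3, h4, h5, h6, rfl⟩) | ⟨a, b, c, e, h1, h2, h3, h4, h5, h6, rfl⟩)
  · apply key
    rw [map_commutatorElement, hπ, hπ, commutatorElement_eq_one_iff_commute]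
    rcases h7 with rfl | ⟨e, he, hi, hj, hl⟩
    · exact beta_comm _ _ _ _ _
    · exact comm_k h1 h2 h3 h4 h5 h6 e he hi hj hl
  · apply key
    rw [map_commutatorElement, map_commutatorElement, hπ, hπ, hπ, commutatorElement_eq_one_iff_commute]
    exact H_central hn h4.symm h6.symm h5.symm h1 h2 h3
  · apply key
    rw [map_mul, map_mul, map_inv, map_commutatorElement, map_commutatorElement,
      map_commutatorElement, hπ, hπ, hπ, hπ, hπ, hπ, mul_inv_eq_one]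
    exact R4 hn h1 h2 h3 h4 h5 h6

/-- the normal closure of the relators in `T(n)` -/
def NN (n : ℕ) : Subgroup (T n) := Subgroup.normalClosure {t : T n | (t : IA n) ∈ Rel4 n}

instance : (NN n).Normal := by unfold NN; infer_instance

theorem NN_le (hn : 4 ≤ n) : NN n ≤
    (Subgroup.normalClosure (C n : Set (IA n))).comap (T n).subtype := by
  unfold NN
  apply Subgroup.normalClosure_le_normal
  intro t ht
  exact Rel4_le hn ht

/-- the projection of `T(n)` to the presented quotient -/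
def mkT (n : ℕ) : T n →* T n ⧸ NN n := QuotientGroup.mk' (NN n)

theorem mkT_eq_one {t : T n} (h : (t : IA n) ∈ Rel4 n) : mkT n t = 1 := by
  change (QuotientGroup.mk t : T n ⧸ NN n) = 1
  rw [QuotientGroup.eq_one_iff]
  exact Subgroup.subset_normalClosure h

/-- the generators as elements of `T(n)` -/
def KT (i j l : Fin n) (h : i ≠ j ∧ i ≠ l ∧ j ≠ l) : T n := ⟨K i j l, K_mem_T h.1 h.2.1 h.2.2⟩

/-- the classes of the generators in the presented quotient of `T(n)` -/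
def kT (i j l : Fin n) : T n ⧸ NN n :=
  if h : i ≠ j ∧ i ≠ l ∧ j ≠ l then mkT n (KT i j l h) else 1

theorem kT_eq {i j l : Fin n} (h1 : i ≠ j) (h2 : i ≠ l) (h3 : j ≠ l) :
    kT i j l = mkT n (KT i j l ⟨h1, h2, h3⟩) := by
  unfold kT; rw [dif_pos ⟨h1, h2, h3⟩]

/-- the homomorphism `Φ_c` on the presented quotient -/
noncomputable def PhT (hn : 4 ≤ n) (c : Fin n) : T n ⧸ NN n →* E n :=
  QuotientGroup.lift (NN n) ((Phi c).comp (T n).subtype) (fun t ht => by
    change Phi c (t : IA n) = 1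
    exact Phi_C c (NN_le hn ht))

theorem PhT_mk (hn : 4 ≤ n) (c : Fin n) (t : T n) :
    PhT hn c (mkT n t) = Phi c (t : IA n) := rfl

theorem PhT_kT (hn : 4 ≤ n) (c i j l : Fin n) (h1 : i ≠ j) (h2 : i ≠ l) (h3 : j ≠ l) :
    PhT hn c (kT i j l) = ⟨fun a b => if b = i ∧ a = j ∧ l = c then 1 else
      if b = i ∧ a = l ∧ j = c then -1 else 0, fun _ => 0⟩ := by
  rw [kT_eq h1 h2 h3, PhT_mk]
  exact Phi_T c _ h1 h2 h3 (K_apply_self h1 h2) (fun m hm => K_apply_ne hm)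

/-- the presented quotient as a system -/
noncomputable def sysT (hn : 4 ≤ n) : Sys n (T n ⧸ NN n) where
  k := kT
  swap i j l h1 h2 h3 := by
    rw [kT_eq h1 h2 h3, kT_eq h2 h1 h3.symm, ← map_inv]
    exact congrArg (mkT n) (Subtype.ext (K_swap i j l))
  comm i j l p s t h1 h2 h3 h4 h5 h6 h7 := by
    rw [← commutatorElement_eq_one_iff_commute, kT_eq h1 h2 h3, kT_eq h4 h5 h6,
      ← map_commutatorElement]
    apply mkT_eq_one
    exact Or.inl (Or.inl ⟨i, j, l, p, s, t, h1, h2, h3, h4, h5, h6, h7, rfl⟩)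
  central i j l a b c h1 h2 h3 h4 h5 h6 := by
    rw [← commutatorElement_eq_one_iff_commute, kT_eq h1 h2 h3, kT_eq h4 h5 h6,
      kT_eq h4.symm h6 h5, ← map_commutatorElement, ← map_commutatorElement]
    apply mkT_eq_one
    exact Or.inl (Or.inr ⟨i, j, l, a, b, c, h1, h2, h3, h4, h5, h6, rfl⟩)
  R4 a b c e h1 h2 h3 h4 h5 h6 := by
    rw [← mul_inv_eq_one, kT_eq h4 h6 h2.symm, kT_eq h4.symm h2.symm h6, kT_eq h5.symm h3.symm h6,
      kT_eq h5 h6 h3.symm, kT_eq h1.symm h3.symm h2.symm, kT_eq h1 h2.symm h3.symm,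
      ← map_commutatorElement, ← map_commutatorElement, ← map_commutatorElement, ← map_inv,
      ← map_mul, ← map_mul]
    apply mkT_eq_one
    exact Or.inr ⟨a, b, c, e, h1, h2, h3, h4, h5, h6, rfl⟩
  Ph := PhT hn
  Ph_k := fun c i j l h1 h2 h3 => PhT_kT hn c i j l h1 h2 h3

theorem mk_mem_KK (hn : 4 ≤ n) {φ : IA n} (hφ : φ ∈ T n) :
    mkT n ⟨φ, hφ⟩ ∈ (sysT hn).KK := by
  refine Subgroup.closure_induction (p := fun φ hφ => mkT n ⟨φ, hφ⟩ ∈ (sysT hn).KK) ?_ ?_ ?_ ?_ hφ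
  · rintro φ ⟨i, j, l, hij, hjl, hli, h1, h2⟩
    have hK : φ = K i j l := by
      apply Subtype.ext
      apply aut_ext
      intro m
      by_cases hm : m = i
      · subst hm
        rw [h1, K_apply_self hij hli.symm]
      · rw [h2 m hm, K_apply_ne hm]
    have h3 : kT i j l ∈ (sysT hn).KK := (sysT hn).k_mem hij hli.symm hjl.ne
    rw [kT_eq hij hli.symm hjl.ne] at h3
    subst hK
    exact h3
  · have : mkT n ⟨1, one_mem _⟩ = 1 := map_one (mkT n)
    rw [this]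
    exact one_mem _
  · intro x y hx hy hx' hy'
    have : mkT n ⟨x * y, mul_mem hx hy⟩ = mkT n ⟨x, hx⟩ * mkT n ⟨y, hy⟩ := by
      rw [← map_mul]; rfl
    rw [this]
    exact mul_mem hx' hy'
  · intro x hx hx'
    have : mkT n ⟨x⁻¹, inv_mem hx⟩ = (mkT n ⟨x, hx⟩)⁻¹ := by
      rw [← map_inv]; rfl
    rw [this]
    exact inv_mem hx'

/-- **Explicit normal generators of `C̄(n) ∩ T(n)` for `n ≥ 4`.** -/
theorem pres4 (hn : 4 ≤ n) :
    Subgroup.map (T n).subtype (Subgroup.normalClosure {t : T n | (t : IA n) ∈ Rel4 n}) =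
      Subgroup.normalClosure (C n : Set (IA n)) ⊓ T n := by
  apply le_antisymm
  · rintro _ ⟨t, ht, rfl⟩
    exact ⟨NN_le hn ht, t.2⟩
  · rintro φ ⟨h1, h2⟩
    refine ⟨⟨φ, h2⟩, ?_, rfl⟩
    change (⟨φ, h2⟩ : T n) ∈ NN n
    rw [← QuotientGroup.eq_one_iff]
    change mkT n ⟨φ, h2⟩ = 1
    apply (sysT hn).det hn (mk_mem_KK hn h2)
    intro c
    change PhT hn c _ = 1
    rw [PhT_mk]
    exact Phi_C c h1

end Pool.Agent.H78.IADetPres4
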