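import Mathlib
import Pool.Agent.H78.IADetPres4

/-! Structure of `T(n) / (C̄(n) ∩ T(n))` for `n ≥ 4` (THEOREM DET, MP_0edd48_al). -/

set_option autoImplicit false

namespace Pool.Agent.H78.IADetStr4

open FreeGroup (of)
open scoped commutatorElement
open Pool.Agent.H76.IADet Pool.Agent.H78.IADetPres4

variable {n : ℕ}

section abstract_

variable {G : Type} [Group G] (S : Sys n G)

theorem ZZ_eq (hK : S.KK = ⊤) : commutator G = S.ZZ := by
  apply le_antisymm
  · have := S.comm_KK
    rw [hK] at this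
    exact this
  · rw [Sys.ZZ, Subgroup.closure_le]
    rintro z ⟨c, i, j, _, _, _, rfl⟩
    exact Subgroup.commutator_mem_commutator (Subgroup.mem_top _) (Subgroup.mem_top _)

theorem ZZ_center (hK : S.KK = ⊤) : commutator G ≤ Subgroup.center G := by
  rw [ZZ_eq S hK]
  intro z hz
  rw [Subgroup.mem_center_iff]
  intro g
  exact (S.Z_comm hz (by rw [hK]; exact Subgroup.mem_top g)).eq

/-- the coordinates on the abelianization -/
noncomputable def xc : G →* Multiplicative (Ix n → ℤ) where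
  toFun g := Multiplicative.ofAdd (fun t => (S.Ph t.1.2.2 g).x t.1.2.1 t.1.1)
  map_one' := by
    apply Multiplicative.toAdd.injective
    funext t
    change (S.Ph t.1.2.2 1).x t.1.2.1 t.1.1 = 0
    rw [map_one]; rfl
  map_mul' g h := by
    apply Multiplicative.toAdd.injective
    funext t
    change (S.Ph t.1.2.2 (g * h)).x t.1.2.1 t.1.1 =
      (S.Ph t.1.2.2 g).x t.1.2.1 t.1.1 + (S.Ph t.1.2.2 h).x t.1.2.1 t.1.1
    rw [map_mul, E.mul_x]

theorem x_ku (s t : Ix n) : (S.Ph t.1.2.2 (S.ku s)).x t.1.2.1 t.1.1 = if s = t then 1 else 0 := by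
  obtain ⟨⟨i, j, l⟩, h1, h2, h3⟩ := s
  obtain ⟨⟨a, b, d⟩, h1', h2', h3'⟩ := t
  change (S.Ph d (S.k i j l)).x b a = _
  simp only at h1 h2 h3 h1' h2' h3'
  rw [S.Ph_k d _ _ _ h1 (Ne.symm h3) h2.ne]
  simp only [Subtype.mk.injEq, Prod.mk.injEq]
  by_cases e : i = a ∧ j = b ∧ l = d
  · obtain ⟨rfl, rfl, rfl⟩ := e
    simp
  · rw [if_neg e]
    have e1 : ¬ (a = i ∧ b = j ∧ l = d) := fun h => e ⟨h.1.symm, h.2.1.symm, h.2.2⟩
    have e2 : ¬ (a = i ∧ b = l ∧ j = d) := by
      rintro ⟨_, rfl, rfl⟩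
      exact absurd h2' (not_lt.mpr h2.le)
    rw [if_neg e1, if_neg e2]

theorem xc_ku (s : Ix n) : xc S (S.ku s) = Multiplicative.ofAdd (Pi.single s (1 : ℤ)) := by
  apply Multiplicative.toAdd.injective
  funext t
  change (S.Ph t.1.2.2 (S.ku s)).x t.1.2.1 t.1.1 = (Pi.single s (1 : ℤ) : Ix n → ℤ) t
  rw [x_ku, Pi.single_apply]
  by_cases h : s = t
  · subst h; simp
  · rw [if_neg h, if_neg (Ne.symm h)]

theorem xc_surj : Function.Surjective (xc S) := by
  intro e
  -- it suffices that the range is everything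
  have key : ∀ f : Ix n → ℤ, Multiplicative.ofAdd f ∈ (xc S).range := by
    intro f
    have h1 : f = ∑ s, (f s) • (Pi.single s (1 : ℤ) : Ix n → ℤ) := by
      funext t
      rw [Finset.sum_apply, Finset.sum_eq_single t]
      · simp
      · intro s _ hs
        simp [Ne.symm hs]
      · intro h; exact absurd (Finset.mem_univ _) h
    rw [h1, ofAdd_sum]
    apply Subgroup.prod_mem
    intro s _
    rw [ofAdd_zsmul, ← xc_ku S s, ← map_zpow]
    exact ⟨_, rfl⟩
  exact key (Multiplicative.toAdd e)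

theorem xc_ker (hK : S.KK = ⊤) : (xc S).ker = commutator G := by
  apply le_antisymm
  · intro g hg
    have h0 : ∀ t : Ix n, (S.Ph t.1.2.2 g).x t.1.2.1 t.1.1 = 0 := by
      intro t
      have := congrArg Multiplicative.toAdd hg
      exact congrFun this t
    have hKK : Subgroup.closure (Set.range S.ku) = ⊤ := hK
    have := coords S.ku (fun t g => (S.Ph t.1.2.2 g).x t.1.2.1 t.1.1) 1 one_ne_zero
      (by
        intro t x _ y _
        rw [map_mul, E.mul_x])
      (fun s t => x_ku S s t) (g := g) (by rw [hKK]; exact Subgroup.mem_top _) h0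
    rw [hKK] at this
    exact this
  · exact Abelianization.commutator_subset_ker _

theorem ab_equiv (hK : S.KK = ⊤) :
    Nonempty (Abelianization G ≃* Multiplicative (Ix n → ℤ)) := by
  have h1 := QuotientGroup.quotientKerEquivOfSurjective (xc S) (xc_surj S)
  have h2 : Abelianization G ≃* G ⧸ (xc S).ker :=
    QuotientGroup.quotientMulEquivOfEq (xc_ker S hK).symm
  exact ⟨h2.trans h1⟩

theorem ZZ_equiv (hn : 4 ≤ n) :
    Nonempty (Multiplicative (Jx hn → ℤ) ≃* S.ZZ) := by
  let _ : CommGroup S.ZZ :=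
    { (inferInstance : Group S.ZZ) with
      mul_comm := fun a b => Subtype.ext (S.Z_comm b.2 (S.Z_KK a.2)).eq }
  let u : Jx hn → S.ZZ := fun t => ⟨S.zu hn t, S.zu_mem hn t⟩
  let F : Multiplicative (Jx hn → ℤ) →* S.ZZ :=
    { toFun := fun e => ∏ t, u t ^ (Multiplicative.toAdd e t)
      map_one' := by simp
      map_mul' := fun e f => by
        rw [← Finset.prod_mul_distrib]
        exact Finset.prod_congr rfl (fun t _ => by
          rw [toAdd_mul, Pi.add_apply, zpow_add]) }
  -- the coordinates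
  have dmul : ∀ (c i : Fin n) (x y : S.ZZ), (S.Ph c (x * y : S.ZZ)).d i =
      (S.Ph c x).d i + (S.Ph c y).d i := by
    intro c i x y
    change (S.Ph c (x.1 * y.1)).d i = _
    rw [map_mul, E.mul_d]
    simp only [S.Z_x x.2, zero_mul, Finset.sum_const_zero, mul_zero, add_zero]
  let D : (c i : Fin n) → S.ZZ →* Multiplicative ℤ := fun c i =>
    { toFun := fun x => Multiplicative.ofAdd ((S.Ph c x).d i)
      map_one' := by
        change Multiplicative.ofAdd ((S.Ph c (1 : G)).d i) = 1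
        rw [map_one]; rfl
      map_mul' := fun x y => by
        change Multiplicative.ofAdd ((S.Ph c (x * y : S.ZZ)).d i) = _
        rw [dmul]; rfl }
  have Du : ∀ s t : Jx hn, D t.1.1 t.1.2 (u s) = Multiplicative.ofAdd (if s = t then -2 else 0) := by
    rintro ⟨⟨c, i⟩, h1, h2⟩ ⟨⟨c', i'⟩, h1', h2'⟩
    change Multiplicative.ofAdd ((S.Ph c' (S.H c i (bb hn c))).d i') = _
    congr 1
    simp only at h1 h2 h1' h2'
    simp only [Subtype.mk.injEq, Prod.mk.injEq]
    by_cases hc : c = c'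
    · subst hc
      rw [S.Ph_H_self c h2 h1 (bb_ne hn c), if_neg h2']
      by_cases hi : i' = i
      · subst hi; simp
      · rw [if_neg hi, if_neg (fun h => hi h.2.symm)]
    · rw [S.Ph_H_ne (Ne.symm hc) h2 h1 (bb_ne hn c), if_neg (fun h => hc h.1)]
  have DF : ∀ (e : Multiplicative (Jx hn → ℤ)) (t : Jx hn),
      D t.1.1 t.1.2 (F e) = Multiplicative.ofAdd (Multiplicative.toAdd e t * (-2)) := by
    intro e t
    change D t.1.1 t.1.2 (∏ s, u s ^ (Multiplicative.toAdd e s)) = _
    rw [map_prod, Finset.prod_eq_single t]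
    · rw [map_zpow, Du, if_pos rfl, ← ofAdd_zsmul, smul_eq_mul]
    · intro s _ hs
      rw [map_zpow, Du, if_neg hs, ofAdd_zero, one_zpow]
    · intro h; exact absurd (Finset.mem_univ _) h
  have inj : Function.Injective F := by
    rw [injective_iff_map_eq_one]
    intro e he
    apply Multiplicative.toAdd.injective
    funext t
    have h1 := DF e t
    rw [he, map_one] at h1
    have h2 : Multiplicative.toAdd e t * (-2) = 0 := (Multiplicative.ofAdd.injective h1).symm
    have h3 : Multiplicative.toAdd e t = 0 := by omega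
    exact h3
  have surj : Function.Surjective F := by
    have key : ∀ z ∈ Subgroup.closure (Set.range (S.zu hn)), ∀ (hz : z ∈ S.ZZ),
        (⟨z, hz⟩ : S.ZZ) ∈ F.range := by
      intro z hz
      refine Subgroup.closure_induction (p := fun z _ => ∀ (hz : z ∈ S.ZZ),
        (⟨z, hz⟩ : S.ZZ) ∈ F.range) ?_ ?_ ?_ ?_ hz
      · rintro x ⟨t, rfl⟩ hx
        refine ⟨Multiplicative.ofAdd (Pi.single t 1), ?_⟩
        change ∏ s, u s ^ ((Pi.single t (1 : ℤ) : Jx hn → ℤ) s) = u t
        rw [Finset.prod_eq_single t]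
        · simp
        · intro s _ hs; simp [hs]
        · intro h; exact absurd (Finset.mem_univ _) h
      · intro hz
        exact one_mem _
      · intro x y hx hy h1 h2 hz
        have hle : Subgroup.closure (Set.range (S.zu hn)) ≤ S.ZZ := by
          rw [Subgroup.closure_le]
          rintro z ⟨t, rfl⟩
          exact S.zu_mem hn t
        have : (⟨x * y, hz⟩ : S.ZZ) = ⟨x, hle hx⟩ * ⟨y, hle hy⟩ := rfl
        rw [this]
        exact mul_mem (h1 _) (h2 _)
      · intro x hx h1 hz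
        have hle : Subgroup.closure (Set.range (S.zu hn)) ≤ S.ZZ := by
          rw [Subgroup.closure_le]
          rintro z ⟨t, rfl⟩
          exact S.zu_mem hn t
        have : (⟨x⁻¹, hz⟩ : S.ZZ) = (⟨x, hle hx⟩)⁻¹ := rfl
        rw [this]
        exact inv_mem (h1 _)
    rintro ⟨z, hz⟩
    exact key z (S.Z_le hn hz) hz
  exact ⟨MulEquiv.ofBijective F ⟨inj, surj⟩⟩

end abstract_

/-- `T(n) / (C̄(n) ∩ T(n))` -/
abbrev TQ (n : ℕ) := T n ⧸ (Subgroup.normalClosure (C n : Set (IA n))).subgroupOf (T n)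

theorem NN_eq (hn : 4 ≤ n) :
    NN n = (Subgroup.normalClosure (C n : Set (IA n))).subgroupOf (T n) := by
  apply le_antisymm
  · exact NN_le hn
  · intro t ht
    have h : (t : IA n) ∈ Subgroup.normalClosure (C n : Set (IA n)) ⊓ T n := ⟨ht, t.2⟩
    rw [← pres4 hn] at h
    obtain ⟨s, hs, hst⟩ := h
    have : s = t := Subtype.ext hst
    rw [← this]
    exact hs

theorem KK_top (hn : 4 ≤ n) : (sysT hn).KK = ⊤ := by
  rw [eq_top_iff]
  intro g _
  obtain ⟨t, rfl⟩ := QuotientGroup.mk_surjective g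
  exact mk_mem_KK hn t.2

/-- **Structure for `n ≥ 4`**: the quotient `T(n)/(C̄(n) ∩ T(n))` has free abelian abelianization
with basis the classes of the generators `K_{ijk}`, its commutator subgroup is central and free
abelian. -/
theorem structure4 (hn : 4 ≤ n) :
    commutator (TQ n) ≤ Subgroup.center (TQ n) ∧
    Nonempty (Abelianization (TQ n) ≃* Multiplicative (Ix n → ℤ)) ∧
    Nonempty (commutator (TQ n) ≃* Multiplicative (Jx hn → ℤ)) := by
  have e : T n ⧸ NN n ≃* TQ n := QuotientGroup.quotientMulEquivOfEq (NN_eq hn)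
  have h1 := ZZ_center (sysT hn) (KK_top hn)
  obtain ⟨h2⟩ := ab_equiv (sysT hn) (KK_top hn)
  obtain ⟨h3⟩ := ZZ_equiv (sysT hn) hn
  have h4 := ZZ_eq (sysT hn) (KK_top hn)
  have hc : Subgroup.map e.toMonoidHom (commutator (T n ⧸ NN n)) = commutator (TQ n) := by
    rw [commutator_def, commutator_def, Subgroup.map_commutator]
    have : Subgroup.map e.toMonoidHom ⊤ = ⊤ := by
      rw [← MonoidHom.range_eq_map]
      exact MonoidHom.range_eq_top.2 e.surjective
    rw [this]
  refine ⟨?_, ⟨(e.symm.abelianizationCongr).trans h2⟩, ?_⟩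
  · rw [← hc]
    rintro _ ⟨z, hz, rfl⟩
    rw [Subgroup.mem_center_iff]
    intro g
    obtain ⟨g', rfl⟩ := e.surjective g
    have := (Subgroup.mem_center_iff.1 (h1 hz)) g'
    change e g' * e z = e z * e g'
    rw [← map_mul, ← map_mul, this]
  · rw [← hc, h4]
    exact ⟨(e.subgroupMap (sysT hn).ZZ).symm.trans h3.symm⟩

/-! ### the ranks -/

theorem card_pairs (s : Finset (Fin n)) :
    ((s ×ˢ s).filter (fun p => p.1 < p.2)).card = s.card.choose 2 := by
  have h1 : s.offDiag = (s ×ˢ s).filter (fun p => p.1 < p.2) ∪ (s ×ˢ s).filter (fun p => p.2 < p.1) := by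
    ext ⟨a, b⟩
    simp only [Finset.mem_offDiag, Finset.mem_union, Finset.mem_filter, Finset.mem_product]
    constructor
    · rintro ⟨ha, hb, hab⟩
      rcases lt_or_gt_of_ne hab with h | h
      · exact Or.inl ⟨⟨ha, hb⟩, h⟩
      · exact Or.inr ⟨⟨ha, hb⟩, h⟩
    · rintro (⟨⟨ha, hb⟩, h⟩ | ⟨⟨ha, hb⟩, h⟩)
      · exact ⟨ha, hb, h.ne⟩
      · exact ⟨ha, hb, h.ne'⟩
  have h2 : Disjoint ((s ×ˢ s).filter (fun p => p.1 < p.2))
      ((s ×ˢ s).filter (fun p => p.2 < p.1)) := by
    rw [Finset.disjoint_filter]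
    intro x _ h1 h2
    exact absurd h1 (not_lt.2 h2.le)
  have h3 : ((s ×ˢ s).filter (fun p => p.2 < p.1)).card =
      ((s ×ˢ s).filter (fun p => p.1 < p.2)).card := by
    apply Finset.card_bij (fun p _ => (p.2, p.1))
    · rintro ⟨a, b⟩ h
      simp only [Finset.mem_filter, Finset.mem_product] at h ⊢
      exact ⟨⟨h.1.2, h.1.1⟩, h.2⟩
    · rintro ⟨a, b⟩ _ ⟨c, d⟩ _ h
      simp only [Prod.mk.injEq] at h
      rw [h.1, h.2]
    · rintro ⟨a, b⟩ h
      simp only [Finset.mem_filter, Finset.mem_product] at h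
      exact ⟨(b, a), by simp only [Finset.mem_filter, Finset.mem_product]; exact ⟨⟨h.1.2, h.1.1⟩, h.2⟩, rfl⟩
  have h4 := congrArg Finset.card h1
  rw [Finset.card_union_of_disjoint h2, h3, Finset.offDiag_card] at h4
  rw [Nat.choose_two_right, Nat.mul_sub, mul_one, h4]
  omega

theorem card_Ix (n : ℕ) : Fintype.card (Ix n) = n * (n - 1).choose 2 := by
  rw [Fintype.card_subtype]
  have h1 : (Finset.univ.filter (fun t : Fin n × Fin n × Fin n =>
      t.1 ≠ t.2.1 ∧ t.2.1 < t.2.2 ∧ t.2.2 ≠ t.1)).card =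
      ∑ i : Fin n, (((Finset.univ.erase i) ×ˢ (Finset.univ.erase i)).filter
        (fun p : Fin n × Fin n => p.1 < p.2)).card := by
    rw [← Finset.card_sigma]
    apply Finset.card_bij (fun t _ => (⟨t.1, t.2⟩ : (_ : Fin n) × (Fin n × Fin n)))
    · rintro ⟨a, b, c⟩ h
      simp only [Finset.mem_filter, Finset.mem_univ, true_and] at h
      simp only [Finset.mem_sigma, Finset.mem_univ, true_and, Finset.mem_filter, Finset.mem_product,
        Finset.mem_erase, and_true]
      exact ⟨⟨Ne.symm h.1, h.2.2⟩, h.2.1⟩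
    · rintro ⟨a, b⟩ _ ⟨c, d⟩ _ h
      simp only [Sigma.mk.injEq, heq_eq_eq] at h
      rw [h.1, h.2]
    · rintro ⟨a, b, c⟩ h
      simp only [Finset.mem_sigma, Finset.mem_univ, true_and, Finset.mem_filter, Finset.mem_product,
        Finset.mem_erase, and_true] at h
      exact ⟨(a, b, c), by
        simp only [Finset.mem_filter, Finset.mem_univ, true_and]
        exact ⟨Ne.symm h.1.1, h.2, h.1.2⟩, rfl⟩
  rw [h1]
  simp only [card_pairs, Finset.card_erase_of_mem (Finset.mem_univ _), Finset.card_univ,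
    Fintype.card_fin, Finset.sum_const, smul_eq_mul]

theorem card_Jx (hn : 4 ≤ n) : Fintype.card (Jx hn) = n * (n - 2) := by
  rw [Fintype.card_subtype]
  have h1 : (Finset.univ.filter (fun t : Fin n × Fin n =>
      t.2 ≠ t.1 ∧ t.2 ≠ bb hn t.1)).card =
      ∑ c : Fin n, ((Finset.univ.erase c).erase (bb hn c)).card := by
    rw [← Finset.card_sigma]
    apply Finset.card_bij (fun t _ => (⟨t.1, t.2⟩ : (_ : Fin n) × Fin n))
    · rintro ⟨a, b⟩ h
      simp only [Finset.mem_filter, Finset.mem_univ, true_and] at h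
      simp only [Finset.mem_sigma, Finset.mem_univ, true_and, Finset.mem_erase, and_true]
      exact ⟨h.2, h.1⟩
    · rintro ⟨a, b⟩ _ ⟨c, d⟩ _ h
      simp only [Sigma.mk.injEq, heq_eq_eq] at h
      rw [h.1, h.2]
    · rintro ⟨a, b⟩ h
      simp only [Finset.mem_sigma, Finset.mem_univ, true_and, Finset.mem_erase, and_true] at h
      exact ⟨(a, b), by
        simp only [Finset.mem_filter, Finset.mem_univ, true_and]
        exact ⟨h.2, h.1⟩, rfl⟩
  rw [h1]
  have h2 : ∀ c : Fin n, ((Finset.univ.erase c).erase (bb hn c)).card = n - 2 := by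
    intro c
    rw [Finset.card_erase_of_mem (by simp [bb_ne hn c]), Finset.card_erase_of_mem (Finset.mem_univ _),
      Finset.card_univ, Fintype.card_fin]
    omega
  simp only [h2, Finset.sum_const, Finset.card_univ, Fintype.card_fin, smul_eq_mul]

/-- **Structure for `n ≥ 4`, with the ranks.** -/
theorem structure4' (hn : 4 ≤ n) :
    commutator (TQ n) ≤ Subgroup.center (TQ n) ∧
    Nonempty (Abelianization (TQ n) ≃* Multiplicative (Fin (n * (n - 1).choose 2) → ℤ)) ∧
    Nonempty (commutator (TQ n) ≃* Multiplicative (Fin (n * (n - 2)) → ℤ)) := by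
  obtain ⟨h1, ⟨h2⟩, ⟨h3⟩⟩ := structure4 hn
  have e1 : Ix n ≃ Fin (n * (n - 1).choose 2) :=
    (Fintype.equivFinOfCardEq (card_Ix n))
  have e2 : Jx hn ≃ Fin (n * (n - 2)) :=
    (Fintype.equivFinOfCardEq (card_Jx hn))
  refine ⟨h1, ⟨h2.trans ?_⟩, ⟨h3.trans ?_⟩⟩
  · exact AddEquiv.toMultiplicative (AddEquiv.arrowCongr e1 (AddEquiv.refl ℤ))
  · exact AddEquiv.toMultiplicative (AddEquiv.arrowCongr e2 (AddEquiv.refl ℤ))

end Pool.Agent.H78.IADetStr4
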