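import Mathlib
import Pool.Agent.H76.IADetRel3
import Pool.Agent.H78.IADetStr4

/-! Structure of `T(3) / (C̄(3) ∩ T(3))` (THEOREM DET, MP_0edd48_al). -/

set_option autoImplicit false

namespace Pool.Agent.H78.IADetStr3

open FreeGroup (of)
open scoped commutatorElement
open Pool.Agent.H76.IADet
open Pool.Agent.H78.IADetG (N normal_form N_add N_zero N_eq sh all_comm sh_comm)
open Pool.Agent.H42.IADetF (O ω)

/-- the abstract situation for `n = 3` -/
structure Sys3 (G : Type) [Group G] where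
  a : G
  b : G
  c : G
  top : Subgroup.closure ({a, b, c} : Set G) = ⊤
  hab : ∀ m : ℤ, Commute (a * b) (b ^ m * (a * b) * b ^ (-m))
  hac : ∀ m : ℤ, Commute (a * c) (c ^ m * (a * c) * c ^ (-m))
  hbc : ∀ m : ℤ, Commute (b * c) (c ^ m * (b * c) * c ^ (-m))
  pab : ⁅a, b⁆ * (b * ⁅a, b⁆ * b⁻¹) =
    (b ^ (3:ℤ) * ⁅a, b⁆ * b ^ (-3:ℤ)) * (b ^ (4:ℤ) * ⁅a, b⁆ * b ^ (-4:ℤ))
  pac : ⁅a, c⁆ * (c * ⁅a, c⁆ * c⁻¹) =
    (c ^ (3:ℤ) * ⁅a, c⁆ * c ^ (-3:ℤ)) * (c ^ (4:ℤ) * ⁅a, c⁆ * c ^ (-4:ℤ))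
  pbc : ⁅b, c⁆ * (c * ⁅b, c⁆ * c⁻¹) =
    (c ^ (3:ℤ) * ⁅b, c⁆ * c ^ (-3:ℤ)) * (c ^ (4:ℤ) * ⁅b, c⁆ * c ^ (-4:ℤ))
  ta : Commute a ⁅b, c⁆
  tb : Commute b ⁅a, c⁆
  tc : Commute c ⁅a, b⁆
  Φ : Fin 3 → G →* E 3
  Ψ : Fin 3 → G →* Equiv.Perm ℤ
  Θ : Fin 3 → G →* Equiv.Perm O
  fa : ∀ m, Φ m a = kv m 0 1 2
  fb : ∀ m, Φ m b = kv m 1 2 0
  fc : ∀ m, Φ m c = kv m 2 0 1
  g2a : ∀ z, Ψ 2 a z = 2 - z
  g2b : ∀ z, Ψ 2 b z = -z
  g2c : Ψ 2 c = 1
  g1a : ∀ z, Ψ 1 a z = 2 - z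
  g1c : ∀ z, Ψ 1 c z = -z
  g1b : Ψ 1 b = 1
  g0b : ∀ z, Ψ 0 b z = 2 - z
  g0c : ∀ z, Ψ 0 c z = -z
  g0a : Ψ 0 a = 1
  h2a : ∀ z, Θ 2 a z = 1 + ω * (z - 1)
  h2b : ∀ z, Θ 2 b z = ω ^ 2 * z
  h2c : Θ 2 c = 1
  h1a : ∀ z, Θ 1 a z = 1 + ω ^ 2 * (z - 1)
  h1c : ∀ z, Θ 1 c z = ω * z
  h1b : Θ 1 b = 1
  h0b : ∀ z, Θ 0 b z = 1 + ω * (z - 1)
  h0c : ∀ z, Θ 0 c z = ω ^ 2 * z
  h0a : Θ 0 a = 1

namespace Sys3

variable {G : Type} [Group G] (S : Sys3 G)

/-- the exponent group -/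
abbrev V := (Fin 4 → ℤ) × (Fin 4 → ℤ) × (Fin 4 → ℤ)

/-- the product of the three normal form elements -/
def P (v : V) : G := N S.a S.b v.1 * N S.a S.c v.2.1 * N S.b S.c v.2.2

theorem N_comm_of {p q r s : G} (h : ∀ i j, Commute (sh p q i) (sh r s j)) (α β : Fin 4 → ℤ) :
    Commute (N p q α) (N r s β) := by
  have z : ∀ i j : ℤ, ∀ m n : ℤ, Commute (sh p q i ^ m) (sh r s j ^ n) :=
    fun i j m n => ((h i j).zpow_left m).zpow_right n
  have w : ∀ i m : ℤ, Commute (sh p q i ^ m) (N r s β) := by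
    intro i m
    rw [N_eq]
    exact (((z _ _ _ _).mul_right (z _ _ _ _)).mul_right (z _ _ _ _)).mul_right (z _ _ _ _)
  rw [N_eq p q]
  exact (((w _ _).mul_left (w _ _)).mul_left (w _ _)).mul_left (w _ _)

theorem P_add (v w : V) : S.P (v + w) = S.P v * S.P w := by
  obtain ⟨_, _, _, E1, E2, E3⟩ := all_comm S.a S.b S.c S.hab S.hac S.hbc S.ta S.tb S.tc
  have c1 := N_comm_of E1
  have c2 := N_comm_of E2
  have c3 := N_comm_of E3
  change N S.a S.b (v.1 + w.1) * N S.a S.c (v.2.1 + w.2.1) * N S.b S.c (v.2.2 + w.2.2) = _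
  rw [N_add S.hab, N_add S.hac, N_add S.hbc]
  change _ = N S.a S.b v.1 * N S.a S.c v.2.1 * N S.b S.c v.2.2 *
    (N S.a S.b w.1 * N S.a S.c w.2.1 * N S.b S.c w.2.2)
  rw [((c2 w.1 v.2.2).symm.mul_right (c3 w.2.1 v.2.2).symm).mul_mul_mul_comm,
    (c1 w.1 v.2.1).symm.mul_mul_mul_comm]

/-- the homomorphism -/
def F : Multiplicative V →* G where
  toFun v := S.P (Multiplicative.toAdd v)
  map_one' := by
    change S.P 0 = 1
    unfold P
    simp [N_zero]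
  map_mul' v w := by
    rw [toAdd_mul, S.P_add]

theorem N1l {K : Type} [Group K] (χ : G →* K) (p q : G) (δ : Fin 4 → ℤ) (h : χ p = 1) :
    χ (N p q δ) = 1 := by
  rw [N]; simp [map_commutatorElement, h]

theorem N1r {K : Type} [Group K] (χ : G →* K) (p q : G) (δ : Fin 4 → ℤ) (h : χ q = 1) :
    χ (N p q δ) = 1 := by
  rw [N]; simp [map_commutatorElement, h]

theorem f2c : S.Φ 2 S.c = 1 := by
  rw [S.fc]; ext i j
  · simp [kv, E.one_x]
  · rfl

theorem f1b : S.Φ 1 S.b = 1 := by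
  rw [S.fb]; ext i j
  · simp [kv, E.one_x]
  · rfl

theorem f0a : S.Φ 0 S.a = 1 := by
  rw [S.fa]; ext i j
  · simp [kv, E.one_x]
  · rfl

theorem F_inj : Function.Injective S.F := by
  rw [injective_iff_map_eq_one]
  intro v hv
  obtain ⟨α, β, γ⟩ := v
  have hP : N S.a S.b α * N S.a S.c β * N S.b S.c γ = 1 := hv
  have hα : α = 0 := by
    refine pair_zero (P := S.a) (Q := S.b) (S.Φ 2) (S.Ψ 2) (S.Θ 2) 0 (a1 := 2) (b1 := 0) (e := ω)
      (f := ω ^ 2) (a2 := 1 - ω) (b2 := 0) ?_ (fun z => by rw [S.g2a]; ring)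
      (fun z => by rw [S.g2b]; ring) (by norm_num)
      (fun z => by rw [S.h2a]; ring) (fun z => by rw [S.h2b]; ring) (Or.inr rfl) ?_ ?_ ?_ ?_
    · rw [map_commutatorElement, E.comm_d, S.fa, S.fb]
      simp [kv]
    · exact three_ne
    · have := congrArg (S.Φ 2) hP
      rw [map_one, map_mul, map_mul, N1r (S.Φ 2) S.a S.c β S.f2c, N1r (S.Φ 2) S.b S.c γ S.f2c,
        mul_one, mul_one] at this
      exact this
    · have := congrArg (S.Ψ 2) hP
      rw [map_one, map_mul, map_mul, N1r (S.Ψ 2) S.a S.c β S.g2c, N1r (S.Ψ 2) S.b S.c γ S.g2c,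
        mul_one, mul_one] at this
      exact this
    · have := congrArg (S.Θ 2) hP
      rw [map_one, map_mul, map_mul, N1r (S.Θ 2) S.a S.c β S.h2c, N1r (S.Θ 2) S.b S.c γ S.h2c,
        mul_one, mul_one] at this
      exact this
  have hβ : β = 0 := by
    refine pair_zero (P := S.a) (Q := S.c) (S.Φ 1) (S.Ψ 1) (S.Θ 1) 0 (a1 := 2) (b1 := 0)
      (e := ω ^ 2) (f := ω) (a2 := 1 - ω ^ 2) (b2 := 0) ?_ (fun z => by rw [S.g1a]; ring)
      (fun z => by rw [S.g1c]; ring) (by norm_num)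
      (fun z => by rw [S.h1a]; ring) (fun z => by rw [S.h1c]; ring) (Or.inl rfl) three_ne' ?_ ?_ ?_
    · rw [map_commutatorElement, E.comm_d, S.fa, S.fc]
      simp [kv]
    · have := congrArg (S.Φ 1) hP
      rw [map_one, map_mul, map_mul, N1r (S.Φ 1) S.a S.b α S.f1b, N1l (S.Φ 1) S.b S.c γ S.f1b,
        mul_one, one_mul] at this
      exact this
    · have := congrArg (S.Ψ 1) hP
      rw [map_one, map_mul, map_mul, N1r (S.Ψ 1) S.a S.b α S.g1b, N1l (S.Ψ 1) S.b S.c γ S.g1b,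
        mul_one, one_mul] at this
      exact this
    · have := congrArg (S.Θ 1) hP
      rw [map_one, map_mul, map_mul, N1r (S.Θ 1) S.a S.b α S.h1b, N1l (S.Θ 1) S.b S.c γ S.h1b,
        mul_one, one_mul] at this
      exact this
  have hγ : γ = 0 := by
    refine pair_zero (P := S.b) (Q := S.c) (S.Φ 0) (S.Ψ 0) (S.Θ 0) 1 (a1 := 2) (b1 := 0) (e := ω)
      (f := ω ^ 2) (a2 := 1 - ω) (b2 := 0) ?_ (fun z => by rw [S.g0b]; ring)
      (fun z => by rw [S.g0c]; ring) (by norm_num)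
      (fun z => by rw [S.h0b]; ring) (fun z => by rw [S.h0c]; ring) (Or.inr rfl) three_ne ?_ ?_ ?_
    · rw [map_commutatorElement, E.comm_d, S.fb, S.fc]
      simp [kv]
    · have := congrArg (S.Φ 0) hP
      rw [map_one, map_mul, map_mul, N1l (S.Φ 0) S.a S.b α S.f0a, N1l (S.Φ 0) S.a S.c β S.f0a,
        one_mul, one_mul] at this
      exact this
    · have := congrArg (S.Ψ 0) hP
      rw [map_one, map_mul, map_mul, N1l (S.Ψ 0) S.a S.b α S.g0a, N1l (S.Ψ 0) S.a S.c β S.g0a,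
        one_mul, one_mul] at this
      exact this
    · have := congrArg (S.Θ 0) hP
      rw [map_one, map_mul, map_mul, N1l (S.Θ 0) S.a S.b α S.h0a, N1l (S.Θ 0) S.a S.c β S.h0a,
        one_mul, one_mul] at this
      exact this
  subst hα hβ hγ
  rfl

theorem N_mem_comm (p q : G) (α : Fin 4 → ℤ) : N p q α ∈ commutator G := by
  have h0 : ⁅p, q⁆ ∈ commutator G :=
    Subgroup.commutator_mem_commutator (Subgroup.mem_top _) (Subgroup.mem_top _)
  have hn : (commutator G).Normal := inferInstance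
  have hc : ∀ g : G, g * ⁅p, q⁆ * g⁻¹ ∈ commutator G := fun g => hn.conj_mem _ h0 g
  have h2 := hc (q ^ (2:ℤ))
  have h3 := hc (q ^ (3:ℤ))
  rw [← zpow_neg] at h2 h3
  rw [N]
  exact mul_mem (mul_mem (mul_mem (zpow_mem h0 _) (zpow_mem (hc q) _)) (zpow_mem h2 _))
    (zpow_mem h3 _)

/-- the coordinates on the abelianization -/
def ch : G →* Multiplicative (Fin 3 → ℤ) where
  toFun g := Multiplicative.ofAdd ![(S.Φ 2 g).x 1 0, -(S.Φ 2 g).x 0 1, (S.Φ 1 g).x 0 2]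
  map_one' := by
    apply Multiplicative.toAdd.injective
    change ![(S.Φ 2 1).x 1 0, -(S.Φ 2 1).x 0 1, (S.Φ 1 1).x 0 2] = 0
    rw [map_one, map_one]
    funext i
    fin_cases i <;> simp [E.one_x]
  map_mul' g h := by
    apply Multiplicative.toAdd.injective
    change ![(S.Φ 2 (g * h)).x 1 0, -(S.Φ 2 (g * h)).x 0 1, (S.Φ 1 (g * h)).x 0 2] =
      ![(S.Φ 2 g).x 1 0, -(S.Φ 2 g).x 0 1, (S.Φ 1 g).x 0 2] +
      ![(S.Φ 2 h).x 1 0, -(S.Φ 2 h).x 0 1, (S.Φ 1 h).x 0 2]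
    simp only [map_mul, E.mul_x]
    funext i
    fin_cases i
    · simp
    · simp; ring
    · simp

theorem ch_a : S.ch S.a = Multiplicative.ofAdd ![1, 0, 0] := by
  apply Multiplicative.toAdd.injective
  change ![(S.Φ 2 S.a).x 1 0, -(S.Φ 2 S.a).x 0 1, (S.Φ 1 S.a).x 0 2] = ![1, 0, 0]
  rw [S.fa, S.fa]
  simp [kv]

theorem ch_b : S.ch S.b = Multiplicative.ofAdd ![0, 1, 0] := by
  apply Multiplicative.toAdd.injective
  change ![(S.Φ 2 S.b).x 1 0, -(S.Φ 2 S.b).x 0 1, (S.Φ 1 S.b).x 0 2] = ![0, 1, 0]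
  rw [S.fb, S.fb]
  simp [kv]

theorem ch_c : S.ch S.c = Multiplicative.ofAdd ![0, 0, 1] := by
  apply Multiplicative.toAdd.injective
  change ![(S.Φ 2 S.c).x 1 0, -(S.Φ 2 S.c).x 0 1, (S.Φ 1 S.c).x 0 2] = ![0, 0, 1]
  rw [S.fc, S.fc]
  simp [kv]

theorem ch_nf (x y z : ℤ) (v : V) :
    S.ch (S.a ^ x * S.b ^ y * S.c ^ z * S.P v) = Multiplicative.ofAdd ![x, y, z] := by
  have hP : S.ch (S.P v) = 1 := by
    have h : ∀ g ∈ commutator G, S.ch g = 1 := fun g hg =>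
      (Abelianization.commutator_subset_ker S.ch) hg
    unfold P
    exact h _ (mul_mem (mul_mem (N_mem_comm _ _ _) (N_mem_comm _ _ _)) (N_mem_comm _ _ _))
  rw [map_mul, hP, mul_one, map_mul, map_mul, map_zpow, map_zpow, map_zpow, ch_a, ch_b, ch_c,
    ← ofAdd_zsmul, ← ofAdd_zsmul, ← ofAdd_zsmul, ← ofAdd_add, ← ofAdd_add]
  congr 1
  funext i
  fin_cases i <;> simp

theorem nf (g : G) : ∃ x y z : ℤ, ∃ v : V, g = S.a ^ x * S.b ^ y * S.c ^ z * S.P v := by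
  obtain ⟨x, y, z, α, β, γ, h⟩ := normal_form S.a S.b S.c S.hab S.hac S.hbc S.pab S.pac S.pbc
    S.ta S.tb S.tc g (by rw [S.top]; exact Subgroup.mem_top g)
  exact ⟨x, y, z, (α, β, γ), by rw [h]; unfold P; group⟩

theorem ch_surj : Function.Surjective S.ch := by
  intro e
  refine ⟨S.a ^ (Multiplicative.toAdd e 0) * S.b ^ (Multiplicative.toAdd e 1) *
    S.c ^ (Multiplicative.toAdd e 2) * S.P 0, ?_⟩
  rw [ch_nf]
  apply Multiplicative.toAdd.injective
  change ![Multiplicative.toAdd e 0, Multiplicative.toAdd e 1, Multiplicative.toAdd e 2] =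
    Multiplicative.toAdd e
  funext i
  fin_cases i <;> rfl

theorem ker_eq : S.ch.ker = S.F.range := by
  apply le_antisymm
  · intro g hg
    obtain ⟨x, y, z, v, rfl⟩ := S.nf g
    have h := MonoidHom.mem_ker.1 hg
    rw [ch_nf] at h
    have h2 : (![x, y, z] : Fin 3 → ℤ) = 0 := Multiplicative.ofAdd.injective h
    have hx : x = 0 := congrFun h2 0
    have hy : y = 0 := congrFun h2 1
    have hz : z = 0 := congrFun h2 2
    subst hx hy hz
    exact ⟨Multiplicative.ofAdd v, by simp [F]⟩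
  · rintro _ ⟨v, rfl⟩
    rw [MonoidHom.mem_ker]
    have := S.ch_nf 0 0 0 (Multiplicative.toAdd v)
    simp only [zpow_zero, one_mul] at this
    change S.ch (S.P (Multiplicative.toAdd v)) = 1
    rw [this]
    apply Multiplicative.toAdd.injective
    funext i
    change (![0, 0, 0] : Fin 3 → ℤ) i = 0
    fin_cases i <;> rfl

theorem ker_comm : S.ch.ker = commutator G := by
  apply le_antisymm
  · rw [ker_eq]
    rintro _ ⟨v, rfl⟩
    exact mul_mem (mul_mem (N_mem_comm _ _ _) (N_mem_comm _ _ _)) (N_mem_comm _ _ _)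
  · exact Abelianization.commutator_subset_ker _

include S in
theorem ab_equiv : Nonempty (Abelianization G ≃* Multiplicative (Fin 3 → ℤ)) := by
  have h1 := QuotientGroup.quotientKerEquivOfSurjective S.ch S.ch_surj
  have h2 : Abelianization G ≃* G ⧸ S.ch.ker :=
    QuotientGroup.quotientMulEquivOfEq S.ker_comm.symm
  exact ⟨h2.trans h1⟩

include S in
theorem comm_equiv : Nonempty (commutator G ≃* Multiplicative V) := by
  rw [← ker_comm S, ker_eq]
  exact ⟨(MonoidHom.ofInjective S.F_inj).symm⟩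

include S in
theorem not_nilpotent : ¬ Group.IsNilpotent G := by
  intro h
  rw [Subgroup.nilpotent_iff_lowerCentralSeries] at h
  obtain ⟨k, hk⟩ := h
  have key : ∀ k : ℕ, ∃ g ∈ (⊤ : Subgroup G).lowerCentralSeries k, ∃ v : ℤ, v ≠ 0 ∧ S.Ψ 2 g = tr v := by
    intro k
    induction k with
    | zero =>
      refine ⟨S.a * S.b, Subgroup.mem_top _, 2, by norm_num, ?_⟩
      ext z
      rw [map_mul, Equiv.Perm.mul_apply, S.g2b, S.g2a, tr_apply]; ring
    | succ k ih =>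
      obtain ⟨g, hg, v, hv, hgv⟩ := ih
      refine ⟨⁅g, S.b⁆, ?_, 2 * v, by omega, ?_⟩
      · exact Subgroup.commutator_mem_commutator hg (Subgroup.mem_top _)
      · rw [map_commutatorElement, hgv]
        rw [comm_aff (e := 1) (f := -1) (a := v) (b := 0)
          (fun z => by rw [tr_apply]; ring) (fun z => by rw [S.g2b]; ring)]
        congr 1; ring
  obtain ⟨g, hg, v, hv, hgv⟩ := key k
  rw [hk, Subgroup.mem_bot] at hg
  rw [hg, map_one] at hgv
  exact hv (tr_inj hgv.symm)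

end Sys3

/-! ### application to `T(3)/(C̄(3) ∩ T(3))` -/

open Pool.Agent.H78.IADetStr4 (TQ)
open Pool.Agent.H78.IADetPres4 (K K_mem_T mk_K)

/-- the embedding of `T/(C̄ ∩ T)` in `IA/C̄` -/
def io : TQ 3 →* Q 3 :=
  QuotientGroup.map _ _ (T 3).subtype (fun _ h => h)

theorem io_mk (t : T 3) : io (QuotientGroup.mk t) = (QuotientGroup.mk (t : IA 3) : Q 3) := rfl

theorem io_inj : Function.Injective io := by
  rw [injective_iff_map_eq_one]
  intro g hg
  obtain ⟨t, rfl⟩ := QuotientGroup.mk_surjective g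
  rw [io_mk, QuotientGroup.eq_one_iff] at hg
  rw [QuotientGroup.eq_one_iff]
  exact hg

/-- class of `K_{ijl}` -/
def kq (i j l : Fin 3) (h : i ≠ j ∧ i ≠ l ∧ j ≠ l) : TQ 3 :=
  QuotientGroup.mk (⟨K i j l, K_mem_T h.1 h.2.1 h.2.2⟩ : T 3)

theorem io_kq (i j l : Fin 3) (h : i ≠ j ∧ i ≠ l ∧ j ≠ l) : io (kq i j l h) = k i j l := mk_K i j l

/-- class of `K_{0;12}` -/
def aq : TQ 3 := kq 0 1 2 (by decide)
/-- class of `K_{1;20}` -/
def bq : TQ 3 := kq 1 2 0 (by decide)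
/-- class of `K_{2;01}` -/
def cq : TQ 3 := kq 2 0 1 (by decide)

theorem io_a : io aq = ka := io_kq _ _ _ _
theorem io_b : io bq = kb := io_kq _ _ _ _
theorem io_c : io cq = kc := io_kq _ _ _ _

theorem io_comm {g h : TQ 3} (H : Commute (io g) (io h)) : Commute g h := by
  apply io_inj
  rw [map_mul, map_mul]
  exact H.eq

theorem topq : Subgroup.closure ({aq, bq, cq} : Set (TQ 3)) = ⊤ := by
  rw [eq_top_iff]
  intro g _
  obtain ⟨t, rfl⟩ := QuotientGroup.mk_surjective g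
  have h1 : io (QuotientGroup.mk t) ∈ KK 3 := mk_T t.2
  have h2 := KK3 h1
  have h3 : Subgroup.map io (Subgroup.closure ({aq, bq, cq} : Set (TQ 3))) =
      Subgroup.closure ({k 0 1 2, k 1 2 0, k 2 0 1} : Set (Q 3)) := by
    rw [MonoidHom.map_closure, Set.image_insert_eq, Set.image_pair, io_a, io_b, io_c]
  rw [← h3] at h2
  obtain ⟨g', hg', e⟩ := h2
  have := io_inj e
  rw [← this]
  exact hg'

/-- the system of `T(3)/(C̄(3) ∩ T(3))` -/
noncomputable def sys : Sys3 (TQ 3) where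
  a := aq
  b := bq
  c := cq
  top := topq
  hab m := io_comm (by
    simp only [map_mul, map_zpow, io_a, io_b]; exact hab3 m)
  hac m := io_comm (by
    simp only [map_mul, map_zpow, io_a, io_c]; exact hac3 m)
  hbc m := io_comm (by
    simp only [map_mul, map_zpow, io_b, io_c]; exact hbc3 m)
  pab := io_inj (by
    simp only [map_mul, map_zpow, map_inv, map_commutatorElement, io_a, io_b]; exact pab3)
  pac := io_inj (by
    simp only [map_mul, map_zpow, map_inv, map_commutatorElement, io_a, io_c]; exact pac3)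
  pbc := io_inj (by
    simp only [map_mul, map_zpow, map_inv, map_commutatorElement, io_b, io_c]; exact pbc3)
  ta := io_comm (by simp only [map_commutatorElement, io_a, io_b, io_c]; exact ta3)
  tb := io_comm (by simp only [map_commutatorElement, io_a, io_b, io_c]; exact tb3)
  tc := io_comm (by simp only [map_commutatorElement, io_a, io_b, io_c]; exact tc3)
  Φ m := (PhiQ m).comp io
  Ψ m := (PsiQ m).comp io
  Θ m := (ThetaQ m).comp io
  fa m := by
    change PhiQ m (io aq) = _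
    rw [io_a]; exact PhiQ_k m (by decide) (by decide) (by decide)
  fb m := by
    change PhiQ m (io bq) = _
    rw [io_b]; exact PhiQ_k m (by decide) (by decide) (by decide)
  fc m := by
    change PhiQ m (io cq) = _
    rw [io_c]; exact PhiQ_k m (by decide) (by decide) (by decide)
  g2a z := by
    change PsiQ 2 (io aq) z = _
    rw [io_a, PsiQ_k]; exact vals.1 z
  g2b z := by
    change PsiQ 2 (io bq) z = _
    rw [io_b, PsiQ_k]; exact vals.2.1 z
  g2c := by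
    change PsiQ 2 (io cq) = _
    rw [io_c, PsiQ_k]; exact vals.2.2.1
  g1a z := by
    change PsiQ 1 (io aq) z = _
    rw [io_a, PsiQ_k]; exact vals.2.2.2.1 z
  g1c z := by
    change PsiQ 1 (io cq) z = _
    rw [io_c, PsiQ_k]; exact vals.2.2.2.2.1 z
  g1b := by
    change PsiQ 1 (io bq) = _
    rw [io_b, PsiQ_k]; exact vals.2.2.2.2.2.1
  g0b z := by
    change PsiQ 0 (io bq) z = _
    rw [io_b, PsiQ_k]; exact vals.2.2.2.2.2.2.1 z
  g0c z := by
    change PsiQ 0 (io cq) z = _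
    rw [io_c, PsiQ_k]; exact vals.2.2.2.2.2.2.2.1 z
  g0a := by
    change PsiQ 0 (io aq) = _
    rw [io_a, PsiQ_k]; exact vals.2.2.2.2.2.2.2.2
  h2a z := by
    change ThetaQ 2 (io aq) z = _
    rw [io_a, ThetaQ_k]; exact valsO.1 z
  h2b z := by
    change ThetaQ 2 (io bq) z = _
    rw [io_b, ThetaQ_k]; exact valsO.2.1 z
  h2c := by
    change ThetaQ 2 (io cq) = _
    rw [io_c, ThetaQ_k]; exact valsO.2.2.1
  h1a z := by
    change ThetaQ 1 (io aq) z = _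
    rw [io_a, ThetaQ_k]; exact valsO.2.2.2.1 z
  h1c z := by
    change ThetaQ 1 (io cq) z = _
    rw [io_c, ThetaQ_k]; exact valsO.2.2.2.2.1 z
  h1b := by
    change ThetaQ 1 (io bq) = _
    rw [io_b, ThetaQ_k]; exact valsO.2.2.2.2.2.1
  h0b z := by
    change ThetaQ 0 (io bq) z = _
    rw [io_b, ThetaQ_k]; exact valsO.2.2.2.2.2.2.1 z
  h0c z := by
    change ThetaQ 0 (io cq) z = _
    rw [io_c, ThetaQ_k]; exact valsO.2.2.2.2.2.2.2.1 z
  h0a := by
    change ThetaQ 0 (io aq) = _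
    rw [io_a, ThetaQ_k]; exact valsO.2.2.2.2.2.2.2.2

/-- **Structure for `n = 3`**: `T(3)/(C̄(3) ∩ T(3))` has abelianization `ℤ³`, commutator subgroup
`ℤ¹²`, and is not nilpotent. -/
theorem structure3 :
    Nonempty (Abelianization (TQ 3) ≃* Multiplicative (Fin 3 → ℤ)) ∧
    Nonempty (commutator (TQ 3) ≃* Multiplicative (Fin 12 → ℤ)) ∧
    ¬ Group.IsNilpotent (TQ 3) := by
  refine ⟨sys.ab_equiv, ?_, sys.not_nilpotent⟩
  obtain ⟨e⟩ := sys.comm_equiv
  refine ⟨e.trans (AddEquiv.toMultiplicative ?_)⟩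
  -- ℤ⁴ × ℤ⁴ × ℤ⁴ ≃ ℤ¹²
  have e1 : (Fin 4 ⊕ Fin 4) ≃ Fin 8 := finSumFinEquiv
  have e2 : (Fin 4 ⊕ Fin 8) ≃ Fin 12 := finSumFinEquiv
  have f1 : ((Fin 4 → ℤ) × (Fin 4 → ℤ)) ≃+ (Fin 8 → ℤ) :=
    (RingEquiv.sumArrowEquivProdArrow (Fin 4) (Fin 4) ℤ).symm.toAddEquiv.trans
      (AddEquiv.arrowCongr e1 (AddEquiv.refl ℤ))
  have f2 : ((Fin 4 → ℤ) × (Fin 8 → ℤ)) ≃+ (Fin 12 → ℤ) :=
    (RingEquiv.sumArrowEquivProdArrow (Fin 4) (Fin 8) ℤ).symm.toAddEquiv.trans
      (AddEquiv.arrowCongr e2 (AddEquiv.refl ℤ))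
  exact (AddEquiv.prodCongr (AddEquiv.refl _) f1).trans f2

/-- **Normal form for `n = 3`**: with `a, b, c` the classes of `K_{0;12}, K_{1;20}, K_{2;01}`
every element of `T(3)/(C̄(3) ∩ T(3))` is uniquely `a^x b^y c^z` times a product of integer powers
of the twelve elements `q^i [p,q] q^{-i}`, `0 ≤ i ≤ 3`, `(p,q) = (a,b), (a,c), (b,c)`. -/
theorem normal_form3 (g : TQ 3) : ∃! w : ((ℤ × ℤ × ℤ) × ((Fin 4 → ℤ) × (Fin 4 → ℤ) × (Fin 4 → ℤ))),
    g = aq ^ w.1.1 * bq ^ w.1.2.1 * cq ^ w.1.2.2 *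
      (N aq bq w.2.1 * N aq cq w.2.2.1 * N bq cq w.2.2.2) := by
  obtain ⟨x, y, z, v, h⟩ := sys.nf g
  refine ⟨((x, y, z), v), h, ?_⟩
  rintro ⟨⟨x', y', z'⟩, v'⟩ h'
  have h1 := sys.ch_nf x y z v
  have h2 := sys.ch_nf x' y' z' v'
  have h3 : sys.a ^ x * sys.b ^ y * sys.c ^ z * sys.P v =
      sys.a ^ x' * sys.b ^ y' * sys.c ^ z' * sys.P v' := by
    rw [← h]; exact h'
  rw [← h3, h1] at h2
  have h4 : (![x, y, z] : Fin 3 → ℤ) = ![x', y', z'] := Multiplicative.ofAdd.injective h2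
  have hx : x = x' := congrFun h4 0
  have hy : y = y' := congrFun h4 1
  have hz : z = z' := congrFun h4 2
  subst hx hy hz
  have h5 : sys.P v = sys.P v' := mul_left_cancel h3
  have h6 : (Multiplicative.ofAdd v) = Multiplicative.ofAdd v' := sys.F_inj h5
  rw [Multiplicative.ofAdd.injective h6]

end Pool.Agent.H78.IADetStr3
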