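import Mathlib

set_option autoImplicit false
universe u

namespace Pool.Agent.H78

open Polynomial

/-- The two-dimensional nonabelian Lie algebra with coefficients in `S`. -/
def A2 (S : Type u) : Type u := S × S

section A2
variable {S : Type u} [CommRing S]

instance : AddCommGroup (A2 S) := inferInstanceAs (AddCommGroup (S × S))
instance {k : Type u} [CommRing k] [Module k S] : Module k (A2 S) :=
  inferInstanceAs (Module k (S × S))
instance : Bracket (A2 S) (A2 S) := ⟨fun u v => ((0 : S), u.1 * v.2 - v.1 * u.2)⟩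

@[simp] lemma A2.add_fst (u v : A2 S) : (u + v).1 = u.1 + v.1 := rfl
@[simp] lemma A2.add_snd (u v : A2 S) : (u + v).2 = u.2 + v.2 := rfl
@[simp] lemma A2.sub_fst (u v : A2 S) : (u - v).1 = u.1 - v.1 := rfl
@[simp] lemma A2.sub_snd (u v : A2 S) : (u - v).2 = u.2 - v.2 := rfl
@[simp] lemma A2.zero_fst : (0 : A2 S).1 = 0 := rfl
@[simp] lemma A2.zero_snd : (0 : A2 S).2 = 0 := rfl
@[simp] lemma A2.smul_fst {k : Type u} [CommRing k] [Module k S] (c : k) (u : A2 S) :
    (c • u).1 = c • u.1 := rfl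
@[simp] lemma A2.smul_snd {k : Type u} [CommRing k] [Module k S] (c : k) (u : A2 S) :
    (c • u).2 = c • u.2 := rfl
@[simp] lemma A2.lie_fst (u v : A2 S) : ⁅u, v⁆.1 = 0 := rfl
@[simp] lemma A2.lie_snd (u v : A2 S) : ⁅u, v⁆.2 = u.1 * v.2 - v.1 * u.2 := rfl
omit [CommRing S] in
lemma A2.ext' {u v : A2 S} (h1 : u.1 = v.1) (h2 : u.2 = v.2) : u = v := Prod.ext h1 h2
/-- constructor -/
def A2.mk' (x y : S) : A2 S := (x, y)
omit [CommRing S] in
@[simp] lemma A2.mk'_fst (x y : S) : (A2.mk' x y).1 = x := rfl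
omit [CommRing S] in
@[simp] lemma A2.mk'_snd (x y : S) : (A2.mk' x y).2 = y := rfl

instance : LieRing (A2 S) where
  add_lie x y z := by apply A2.ext' <;> simp; ring
  lie_add x y z := by apply A2.ext' <;> simp; ring
  lie_self x := by apply A2.ext' <;> simp
  leibniz_lie x y z := by apply A2.ext' <;> simp; ring

instance {k : Type u} [CommRing k] [Algebra k S] : LieAlgebra k (A2 S) where
  lie_smul c x y := by
    apply A2.ext'
    · simp
    · simp [smul_sub]

/-- Functoriality of `A2`. -/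
def A2.map {k : Type u} [CommRing k] {T : Type u} [CommRing T] [Algebra k S] [Algebra k T]
    (φ : S →ₐ[k] T) : A2 S →ₗ⁅k⁆ A2 T where
  toFun u := A2.mk' (φ u.1) (φ u.2)
  map_add' u v := by apply A2.ext' <;> simp
  map_smul' c u := by apply A2.ext' <;> simp
  map_lie' := by
    intro u v
    apply A2.ext' <;> simp

@[simp] lemma A2.map_fst {k : Type u} [CommRing k] {T : Type u} [CommRing T] [Algebra k S]
    [Algebra k T] (φ : S →ₐ[k] T) (u : A2 S) : (A2.map φ u).1 = φ u.1 := rfl
@[simp] lemma A2.map_snd {k : Type u} [CommRing k] {T : Type u} [CommRing T] [Algebra k S]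
    [Algebra k T] (φ : S →ₐ[k] T) (u : A2 S) : (A2.map φ u).2 = φ u.2 := rfl

end A2

section SD
variable (k : Type u) [Field k]

/-- The operator `l + t d/dt` on `k[l][t]`. -/
noncomputable def opA : k[X][X] →ₗ[k] k[X][X] where
  toFun f := C X * f + X * derivative f
  map_add' f g := by simp; ring
  map_smul' c f := by simp

/-- The operator `t` on `k[l][t]`. -/
noncomputable def opB : k[X][X] →ₗ[k] k[X][X] where
  toFun f := X * f
  map_add' f g := by ring
  map_smul' c f := by simp

@[simp] lemma opA_apply (f : k[X][X]) : opA k f = C X * f + X * derivative f := rfl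
@[simp] lemma opB_apply (f : k[X][X]) : opB k f = X * f := rfl

lemma opA_opB (f : k[X][X]) : opA k (opB k f) - opB k (opA k f) = opB k f := by
  simp; ring

/-- The semidirect product of the 2-dimensional Lie algebra with `k[l][t]`. -/
def SD : Type u := k × k × k[X][X]

variable {k}
noncomputable instance : AddCommGroup (SD k) := inferInstanceAs (AddCommGroup (k × k × k[X][X]))
noncomputable instance : Module k (SD k) := inferInstanceAs (Module k (k × k × k[X][X]))

/-- coordinates -/
def SD.x (u : SD k) : k := u.1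
/-- coordinates -/
def SD.y (u : SD k) : k := u.2.1
/-- coordinates -/
def SD.n (u : SD k) : k[X][X] := u.2.2
/-- constructor -/
def SD.mk' (x y : k) (n : k[X][X]) : SD k := (x, y, n)

@[simp] lemma SD.mk'_x (x y : k) (n : k[X][X]) : (SD.mk' x y n).x = x := rfl
@[simp] lemma SD.mk'_y (x y : k) (n : k[X][X]) : (SD.mk' x y n).y = y := rfl
@[simp] lemma SD.mk'_n (x y : k) (n : k[X][X]) : (SD.mk' x y n).n = n := rfl
@[simp] lemma SD.add_x (u v : SD k) : (u + v).x = u.x + v.x := rfl
@[simp] lemma SD.add_y (u v : SD k) : (u + v).y = u.y + v.y := rfl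
@[simp] lemma SD.add_n (u v : SD k) : (u + v).n = u.n + v.n := rfl
@[simp] lemma SD.sub_x (u v : SD k) : (u - v).x = u.x - v.x := rfl
@[simp] lemma SD.sub_y (u v : SD k) : (u - v).y = u.y - v.y := rfl
@[simp] lemma SD.sub_n (u v : SD k) : (u - v).n = u.n - v.n := rfl
@[simp] lemma SD.zero_x : (0 : SD k).x = 0 := rfl
@[simp] lemma SD.zero_y : (0 : SD k).y = 0 := rfl
@[simp] lemma SD.zero_n : (0 : SD k).n = 0 := rfl
@[simp] lemma SD.smul_x (c : k) (u : SD k) : (c • u).x = c * u.x := rfl
@[simp] lemma SD.smul_y (c : k) (u : SD k) : (c • u).y = c * u.y := rfl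
@[simp] lemma SD.smul_n (c : k) (u : SD k) : (c • u).n = c • u.n := rfl

lemma SD.ext' {u v : SD k} (h1 : u.x = v.x) (h2 : u.y = v.y) (h3 : u.n = v.n) : u = v :=
  Prod.ext h1 (Prod.ext h2 h3)

/-- The action of `x a + y b` on `k[l][t]`. -/
noncomputable def act (x y : k) (f : k[X][X]) : k[X][X] := x • opA k f + y • opB k f

noncomputable instance : Bracket (SD k) (SD k) :=
  ⟨fun u v => SD.mk' 0 (u.x * v.y - v.x * u.y) (act u.x u.y v.n - act v.x v.y u.n)⟩

@[simp] lemma SD.lie_x (u v : SD k) : ⁅u, v⁆.x = 0 := rfl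
@[simp] lemma SD.lie_y (u v : SD k) : ⁅u, v⁆.y = u.x * v.y - v.x * u.y := rfl
@[simp] lemma SD.lie_n (u v : SD k) : ⁅u, v⁆.n = act u.x u.y v.n - act v.x v.y u.n := rfl

noncomputable instance : LieRing (SD k) where
  add_lie x y z := by
    apply SD.ext'
    · simp
    · simp; ring
    · simp only [SD.lie_n, SD.add_x, SD.add_y, SD.add_n, act, map_add]
      module
  lie_add x y z := by
    apply SD.ext'
    · simp
    · simp; ring
    · simp only [SD.lie_n, SD.add_x, SD.add_y, SD.add_n, act, map_add]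
      module
  lie_self x := by
    apply SD.ext' <;> simp
  leibniz_lie x y z := by
    apply SD.ext'
    · simp
    · simp; ring
    · simp only [SD.lie_n, SD.lie_x, SD.lie_y, SD.add_n, act, map_add, map_sub,
        map_smul]
      have h := opA_opB k z.n
      have h2 := opA_opB k y.n
      have h3 := opA_opB k x.n
      rw [sub_eq_iff_eq_add] at h h2 h3
      rw [h, h2, h3]
      module

noncomputable instance : LieAlgebra k (SD k) where
  lie_smul c x y := by
    apply SD.ext'
    · simp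
    · simp; ring
    · simp only [SD.lie_n, SD.smul_x, SD.smul_y, SD.smul_n, act, map_smul]
      module

/-- projection -/
noncomputable def SD.proj : SD k →ₗ⁅k⁆ A2 k where
  toFun u := A2.mk' u.x u.y
  map_add' u v := rfl
  map_smul' c u := rfl
  map_lie' := by
    intro u v
    apply A2.ext' <;> rfl

/-- The endomorphism attached to an endomorphism of `k[l][t]` commuting with the action. -/
noncomputable def SD.mapN (R : k[X][X] →ₗ[k] k[X][X]) (hA : ∀ f, R (opA k f) = opA k (R f))
    (hB : ∀ f, R (opB k f) = opB k (R f)) : SD k →ₗ⁅k⁆ SD k where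
  toFun u := SD.mk' u.x u.y (R u.n)
  map_add' u v := by apply SD.ext' <;> simp
  map_smul' c u := by apply SD.ext' <;> simp
  map_lie' := by
    intro u v
    apply SD.ext'
    · simp
    · simp
    · simp only [SD.lie_n, SD.mk'_n, SD.mk'_x, SD.mk'_y, act, map_add, map_sub, map_smul, hA, hB]

/-- The endomorphism attached to a derivation. -/
noncomputable def SD.twist (f g : k[X][X]) (h : opA k g - opB k f = g) : SD k →ₗ⁅k⁆ SD k where
  toFun u := SD.mk' u.x u.y (u.n - (u.x • f + u.y • g))
  map_add' u v := by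
    apply SD.ext'
    · simp
    · simp
    · simp only [SD.add_n, SD.mk'_n, SD.add_x, SD.add_y]; module
  map_smul' c u := by
    apply SD.ext'
    · simp
    · simp
    · simp only [SD.smul_n, SD.mk'_n, SD.smul_x, SD.smul_y, RingHom.id_apply]; module
  map_lie' := by
    intro u v
    apply SD.ext'
    · simp
    · simp
    · simp only [SD.lie_n, SD.lie_x, SD.lie_y, SD.mk'_n, SD.mk'_x, SD.mk'_y, act, map_add, map_sub,
        map_smul]
      rw [sub_eq_iff_eq_add] at h
      rw [h]
      module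

/-- Shift `l ↦ l + i` on coefficients. -/
noncomputable def sh (i : ℕ) : k[X] →ₐ[k] k[X] := Polynomial.aeval (X + C (i : k))

/-- Shift `l ↦ l + i` on coefficients. -/
noncomputable def shift (i : ℕ) : k[X][X] →ₐ[k] k[X][X] := Polynomial.mapAlgHom (sh i)

lemma shift_coeff (i n : ℕ) (f : k[X][X]) : (shift i f).coeff n = sh i (f.coeff n) := by
  simp [shift, coeff_map]

lemma shift_X (i : ℕ) : shift i (X : k[X][X]) = X := by
  simp [shift]

lemma shift_CX (i : ℕ) : shift i (C X : k[X][X]) = C X + C (C (i : k)) := by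
  simp [shift, sh]

lemma shift_derivative (i : ℕ) (f : k[X][X]) : shift i (derivative f) = derivative (shift i f) := by
  simp only [shift, coe_mapAlgHom]
  exact (derivative_map f _).symm

/-- Right multiplication. -/
noncomputable def rmul (ρ : k[X][X]) : k[X][X] →ₗ[k] k[X][X] :=
  ∑ i ∈ ρ.support, (LinearMap.mulLeft k (C (ρ.coeff i) * X ^ i)) ∘ₗ (shift i).toLinearMap

lemma rmul_apply (ρ f : k[X][X]) :
    rmul ρ f = ∑ i ∈ ρ.support, C (ρ.coeff i) * X ^ i * shift i f := by
  simp [rmul, LinearMap.sum_apply, mul_assoc]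

lemma rmul_one (ρ : k[X][X]) : rmul ρ 1 = ρ := by
  rw [rmul_apply]
  conv_rhs => rw [ρ.as_sum_support_C_mul_X_pow]
  simp

lemma rmul_opB (ρ f : k[X][X]) : rmul ρ (opB k f) = opB k (rmul ρ f) := by
  rw [rmul_apply, opB_apply, opB_apply, rmul_apply, Finset.mul_sum]
  refine Finset.sum_congr rfl fun i _ => ?_
  rw [map_mul, shift_X]
  ring

lemma rmul_opA (ρ f : k[X][X]) : rmul ρ (opA k f) = opA k (rmul ρ f) := by
  rw [rmul_apply, rmul_apply, map_sum]
  refine Finset.sum_congr rfl fun i _ => ?_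
  rw [opA_apply, opA_apply, map_add, map_mul, map_mul, shift_X, shift_CX, shift_derivative,
    derivative_mul, derivative_C_mul_X_pow]
  rcases i with _ | i
  · simp; ring
  · simp only [Nat.cast_add, Nat.cast_one, map_add, map_one, Nat.add_sub_cancel, map_mul,
      map_natCast]
    ring

lemma rmul_coeff (ρ f : k[X][X]) (n : ℕ) :
    (rmul ρ f).coeff n =
      ∑ i ∈ ρ.support, if i ≤ n then ρ.coeff i * sh i (f.coeff (n - i)) else 0 := by
  rw [rmul_apply, finsetSum_coeff]
  refine Finset.sum_congr rfl fun i _ => ?_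
  rw [mul_assoc, coeff_C_mul, coeff_X_pow_mul']
  split_ifs with h
  · rw [shift_coeff]
  · simp

lemma sh_injective (i : ℕ) : Function.Injective (sh (k := k) i) := by
  intro f g h
  have key : ∀ f : k[X], (sh (k := k) i f).comp (X - C (i : k)) = f := by
    intro f
    simp only [sh]
    rw [← comp_eq_aeval, comp_assoc]
    simp
  rw [← key f, ← key g, h]

lemma rmul_top (ρ f : k[X][X]) (hρ : ρ ≠ 0) :
    (rmul ρ f).coeff (ρ.natDegree + f.natDegree) = ρ.leadingCoeff * sh ρ.natDegree f.leadingCoeff := by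
  rw [rmul_coeff]
  rw [Finset.sum_eq_single ρ.natDegree]
  · simp
  · intro i hi hne
    have hlt : i < ρ.natDegree := lt_of_le_of_ne (le_natDegree_of_mem_supp i hi) hne
    rw [if_pos (by omega)]
    rw [coeff_eq_zero_of_natDegree_lt (p := f) (by omega)]
    simp
  · intro h
    exact absurd (natDegree_mem_support_of_nonzero hρ) h

/-- The equation of the dual module. -/
def Rel (n₁ n₂ : k[X][X]) : Prop := n₁ - opA k n₁ + n₂ + opB k n₂ = 0

lemma rel1 : Rel (k := k) (C X + X * C (X - 1)) (C (X ^ 2 - X)) := by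
  unfold Rel
  simp
  ring

lemma rel2 : Rel (k := k) ((1 + X) ^ 2) (C (X - 1) + X * C (X + 1)) := by
  unfold Rel
  simp only [opA_apply, opB_apply, sq, derivative_mul, derivative_one, derivative_X,
    map_sub, map_add, map_one]
  ring

/-- The dual module is not free of rank one on a single element. -/
lemma not_generated (m₁ m₂ : k[X][X]) (hm : Rel m₁ m₂)
    (h : ∀ n₁ n₂ : k[X][X], Rel n₁ n₂ → ∃ ρ : k[X][X], rmul ρ m₁ = n₁ ∧ rmul ρ m₂ = n₂) :
    False := by
  obtain ⟨ρ, -, h1⟩ := h _ _ rel1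
  obtain ⟨ρ', -, h2⟩ := h _ _ rel2
  have hX : (X ^ 2 - X : k[X]) ≠ 0 := by
    intro h0
    have := congrArg (fun f => coeff f 2) h0
    simp [coeff_X] at this
  have hρ0 : ρ ≠ 0 := by
    rintro rfl
    rw [rmul_apply] at h1
    simp at h1
    exact hX (by simpa using (C_eq_zero.mp (by simpa using h1.symm)))
  have hm0 : m₂ ≠ 0 := by
    rintro rfl
    rw [map_zero] at h1
    exact hX (C_eq_zero.mp h1.symm)
  have hdeg : ρ.natDegree + m₂.natDegree = 0 := by
    by_contra hne
    have h3 := rmul_top ρ m₂ hρ0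
    rw [h1, coeff_C, if_neg hne] at h3
    rcases mul_eq_zero.mp h3.symm with h4 | h4
    · exact hρ0 (leadingCoeff_eq_zero.mp h4)
    · have : m₂.leadingCoeff = 0 := sh_injective _ (by rw [h4, map_zero])
      exact hm0 (leadingCoeff_eq_zero.mp this)
  have hm2 : m₂.natDegree = 0 := by omega
  obtain ⟨μ, hμ⟩ := natDegree_eq_zero.mp hm2
  subst hμ
  -- coefficient of t in `h2`
  have h5 := congrArg (fun f => coeff f 1) h2
  simp only [rmul_coeff, coeff_add, coeff_X_mul, coeff_C_succ, coeff_C_zero, zero_add] at h5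
  have h6 : ρ'.coeff 1 * sh 1 μ = X + 1 := by
    rw [← h5]
    by_cases hs : (1 : ℕ) ∈ ρ'.support
    · rw [Finset.sum_eq_single 1]
      · simp
      · intro i hi hne
        rcases Nat.lt_or_ge 1 i with h7 | h7
        · rw [if_neg (by omega)]
        · have : i = 0 := by omega
          subst this
          simp
      · intro hh; exact absurd hs hh
    · rw [notMem_support_iff.mp hs, zero_mul]
      symm
      apply Finset.sum_eq_zero
      intro i hi
      have hne : i ≠ 1 := by rintro rfl; exact hs hi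
      rcases Nat.lt_or_ge 1 i with h7 | h7
      · rw [if_neg (by omega)]
      · have : i = 0 := by omega
        subst this
        simp
  have h7 := congrArg (eval 0) h6
  have h8 : eval 0 (sh 1 μ) = eval 1 μ := by
    simp [sh, ← comp_eq_aeval, eval_comp]
  rw [eval_mul, h8] at h7
  simp at h7
  -- constant coefficient of the relation
  have h9 := congrArg (fun f => coeff f 0) hm
  simp only [coeff_add, coeff_sub, opA_apply, opB_apply, mul_coeff_zero, coeff_X_zero, zero_mul,
    coeff_C_zero, add_zero, coeff_zero] at h9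
  have h10 := congrArg (eval 1) h9
  simp at h10
  rw [h10, mul_zero] at h7
  exact zero_ne_one h7

end SD

section Key

variable {k : Type u} [Field k]

/-- `B` has the presentation `⟨a, b, p, q | [a,b] = b, p - [a,p] + q + [b,q] = 0⟩`. -/
structure PresP (k : Type u) [Field k] (B : Type u) [LieRing B] [LieAlgebra k B] (a b p q : B) :
    Prop where
  rel1 : ⁅a, b⁆ = b
  rel2 : p - ⁅a, p⁆ + q + ⁅b, q⁆ = 0
  ex : ∀ (M : Type u) [LieRing M] [LieAlgebra k M] (a' b' p' q' : M), ⁅a', b'⁆ = b' →
    p' - ⁅a', p'⁆ + q' + ⁅b', q'⁆ = 0 →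
      ∃ g : B →ₗ⁅k⁆ M, g a = a' ∧ g b = b' ∧ g p = p' ∧ g q = q'
  uniq : ∀ (M : Type u) [LieRing M] [LieAlgebra k M] (g g' : B →ₗ⁅k⁆ M), g a = g' a → g b = g' b →
    g p = g' p → g q = g' q → g = g'

/-- `B` has the presentation `⟨c, e, d | [c,e] = e⟩`. -/
structure PresF (k : Type u) [Field k] (B : Type u) [LieRing B] [LieAlgebra k B] (c e d : B) :
    Prop where
  rel : ⁅c, e⁆ = e
  ex : ∀ (M : Type u) [LieRing M] [LieAlgebra k M] (x y z : M), ⁅x, y⁆ = y →
      ∃ g : B →ₗ⁅k⁆ M, g c = x ∧ g e = y ∧ g d = z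
  uniq : ∀ (M : Type u) [LieRing M] [LieAlgebra k M] (g g' : B →ₗ⁅k⁆ M), g c = g' c → g e = g' e →
    g d = g' d → g = g'

variable {B : Type u} [LieRing B] [LieAlgebra k B]

/-- The case where the images are normalised. -/
lemma key_normalised {a b p q c e d : B} (hP : PresP k B a b p q) (hF : PresF k B c e d)
    (π : B →ₗ⁅k⁆ A2 k) (ha : π a = A2.mk' 1 0) (hb : π b = A2.mk' 0 1) (hp : π p = 0)
    (hq : π q = 0) (hc : π c = A2.mk' 1 0) (he : π e = A2.mk' 0 1) (hd : π d = 0) : False := by
  -- the homomorphisms `f_n`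
  have hf : ∀ n₁ n₂ : k[X][X], Rel n₁ n₂ → ∃ f : B →ₗ⁅k⁆ SD k, f a = SD.mk' 1 0 0 ∧
      f b = SD.mk' 0 1 0 ∧ f p = SD.mk' 0 0 n₁ ∧ f q = SD.mk' 0 0 n₂ := by
    intro n₁ n₂ hn
    apply hP.ex
    · apply SD.ext' <;> simp [act]
    · apply SD.ext'
      · simp
      · simp
      · simp only [SD.add_n, SD.sub_n, SD.lie_n, SD.mk'_n, SD.mk'_x, SD.mk'_y, SD.zero_n, act]
        simp only [one_smul, zero_smul, add_zero, sub_zero, zero_add]
        exact hn
  choose! f hfa hfb hfp hfq using hf
  -- homomorphisms over `π`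
  have hproj : ∀ g : B →ₗ⁅k⁆ SD k, (SD.proj.comp g = π) → ∀ z : B, (g z).x = (π z).1 ∧
      (g z).y = (π z).2 := by
    intro g hg z
    rw [← hg]
    exact ⟨rfl, rfl⟩
  have hover : ∀ n₁ n₂ : k[X][X], Rel n₁ n₂ → SD.proj.comp (f n₁ n₂) = π := by
    intro n₁ n₂ hn
    apply hP.uniq
    · rw [LieHom.comp_apply, hfa _ _ hn, ha]; rfl
    · rw [LieHom.comp_apply, hfb _ _ hn, hb]; rfl
    · rw [LieHom.comp_apply, hfp _ _ hn, hp]; rfl
    · rw [LieHom.comp_apply, hfq _ _ hn, hq]; rfl
  have htw : ∀ g : B →ₗ⁅k⁆ SD k, SD.proj.comp g = π → opA k (g e).n - opB k (g c).n = (g e).n := by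
    intro g hg
    have h1 := congrArg SD.n (congrArg g hF.rel)
    rw [LieHom.map_lie, SD.lie_n, (hproj g hg c).1, (hproj g hg c).2, (hproj g hg e).1,
      (hproj g hg e).2, hc, he] at h1
    simpa only [act, A2.mk'_fst, A2.mk'_snd, one_smul, zero_smul, add_zero, zero_add] using h1
  have htwab : ∀ g : B →ₗ⁅k⁆ SD k, SD.proj.comp g = π →
      opA k (g b).n - opB k (g a).n = (g b).n := by
    intro g hg
    have h1 := congrArg SD.n (congrArg g hP.rel1)
    rw [LieHom.map_lie, SD.lie_n, (hproj g hg a).1, (hproj g hg a).2, (hproj g hg b).1,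
      (hproj g hg b).2, ha, hb] at h1
    simpa only [act, A2.mk'_fst, A2.mk'_snd, one_smul, zero_smul, add_zero, zero_add] using h1
  -- injectivity
  have hinj : ∀ n₁ n₂ n₁' n₂' : k[X][X], Rel n₁ n₂ → Rel n₁' n₂' →
      (f n₁ n₂ d).n = (f n₁' n₂' d).n → n₁ = n₁' ∧ n₂ = n₂' := by
    intro n₁ n₂ n₁' n₂' hn hn' hΦ
    have hg := hover n₁ n₂ hn
    have hg' := hover n₁' n₂' hn'
    have heq : (SD.twist _ _ (htw _ hg)).comp (f n₁ n₂) =
        (SD.twist _ _ (htw _ hg')).comp (f n₁' n₂') := by
      apply hF.uniq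
      · simp only [LieHom.comp_apply]
        apply SD.ext'
        · change (f n₁ n₂ c).x = (f n₁' n₂' c).x
          rw [(hproj _ hg c).1, (hproj _ hg' c).1]
        · change (f n₁ n₂ c).y = (f n₁' n₂' c).y
          rw [(hproj _ hg c).2, (hproj _ hg' c).2]
        · change (f n₁ n₂ c).n - ((f n₁ n₂ c).x • (f n₁ n₂ c).n + (f n₁ n₂ c).y • (f n₁ n₂ e).n) =
            (f n₁' n₂' c).n - ((f n₁' n₂' c).x • (f n₁' n₂' c).n + (f n₁' n₂' c).y • (f n₁' n₂' e).n)
          rw [(hproj _ hg c).1, (hproj _ hg' c).1, (hproj _ hg c).2, (hproj _ hg' c).2, hc]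
          simp
      · simp only [LieHom.comp_apply]
        apply SD.ext'
        · change (f n₁ n₂ e).x = (f n₁' n₂' e).x
          rw [(hproj _ hg e).1, (hproj _ hg' e).1]
        · change (f n₁ n₂ e).y = (f n₁' n₂' e).y
          rw [(hproj _ hg e).2, (hproj _ hg' e).2]
        · change (f n₁ n₂ e).n - ((f n₁ n₂ e).x • (f n₁ n₂ c).n + (f n₁ n₂ e).y • (f n₁ n₂ e).n) =
            (f n₁' n₂' e).n - ((f n₁' n₂' e).x • (f n₁' n₂' c).n + (f n₁' n₂' e).y • (f n₁' n₂' e).n)
          rw [(hproj _ hg e).1, (hproj _ hg' e).1, (hproj _ hg e).2, (hproj _ hg' e).2, he]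
          simp
      · simp only [LieHom.comp_apply]
        apply SD.ext'
        · change (f n₁ n₂ d).x = (f n₁' n₂' d).x
          rw [(hproj _ hg d).1, (hproj _ hg' d).1]
        · change (f n₁ n₂ d).y = (f n₁' n₂' d).y
          rw [(hproj _ hg d).2, (hproj _ hg' d).2]
        · change (f n₁ n₂ d).n - ((f n₁ n₂ d).x • (f n₁ n₂ c).n + (f n₁ n₂ d).y • (f n₁ n₂ e).n) =
            (f n₁' n₂' d).n - ((f n₁' n₂' d).x • (f n₁' n₂' c).n + (f n₁' n₂' d).y • (f n₁' n₂' e).n)
          rw [(hproj _ hg d).1, (hproj _ hg' d).1, (hproj _ hg d).2, (hproj _ hg' d).2, hd, hΦ]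
          simp
    have h1 := congrArg SD.n (LieHom.congr_fun heq p)
    have h2 := congrArg SD.n (LieHom.congr_fun heq q)
    simp only [LieHom.comp_apply, hfp _ _ hn, hfp _ _ hn', hfq _ _ hn, hfq _ _ hn'] at h1 h2
    simp only [SD.twist, LieHom.coe_mk] at h1 h2
    simpa using And.intro h1 h2
  -- surjectivity at `1`
  obtain ⟨m₁, m₂, hm, hm1⟩ : ∃ m₁ m₂ : k[X][X], Rel m₁ m₂ ∧ (f m₁ m₂ d).n = 1 := by
    obtain ⟨g, hgc, hge, hgd⟩ := hF.ex (SD k) (SD.mk' 1 0 0) (SD.mk' 0 1 0) (SD.mk' 0 0 1)
      (by apply SD.ext' <;> simp [act])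
    have hg : SD.proj.comp g = π := by
      apply hF.uniq
      · rw [LieHom.comp_apply, hgc, hc]; rfl
      · rw [LieHom.comp_apply, hge, he]; rfl
      · rw [LieHom.comp_apply, hgd, hd]; rfl
    have hrel : Rel (g p).n (g q).n := by
      have h1 := congrArg SD.n (congrArg g hP.rel2)
      simp only [map_add, map_sub, LieHom.map_lie, map_zero, SD.add_n, SD.sub_n, SD.lie_n,
        (hproj g hg a).1, (hproj g hg a).2, (hproj g hg b).1, (hproj g hg b).2,
        (hproj g hg p).1, (hproj g hg p).2, (hproj g hg q).1, (hproj g hg q).2, ha, hb, hp, hq,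
        A2.mk'_fst, A2.mk'_snd, A2.zero_fst, A2.zero_snd, act, one_smul, zero_smul, add_zero,
        zero_add, sub_zero, SD.zero_n] at h1
      exact h1
    refine ⟨(g p).n, (g q).n, hrel, ?_⟩
    have heq : (SD.twist _ _ (htwab _ hg)).comp g = f (g p).n (g q).n := by
      apply hP.uniq
      · rw [hfa _ _ hrel]
        simp only [LieHom.comp_apply]
        apply SD.ext'
        · change (g a).x = _
          rw [(hproj _ hg a).1, ha]; rfl
        · change (g a).y = _
          rw [(hproj _ hg a).2, ha]; rfl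
        · change (g a).n - ((g a).x • (g a).n + (g a).y • (g b).n) = _
          rw [(hproj _ hg a).1, (hproj _ hg a).2, ha]
          simp
      · rw [hfb _ _ hrel]
        simp only [LieHom.comp_apply]
        apply SD.ext'
        · change (g b).x = _
          rw [(hproj _ hg b).1, hb]; rfl
        · change (g b).y = _
          rw [(hproj _ hg b).2, hb]; rfl
        · change (g b).n - ((g b).x • (g a).n + (g b).y • (g b).n) = _
          rw [(hproj _ hg b).1, (hproj _ hg b).2, hb]
          simp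
      · rw [hfp _ _ hrel]
        simp only [LieHom.comp_apply]
        apply SD.ext'
        · change (g p).x = _
          rw [(hproj _ hg p).1, hp]; rfl
        · change (g p).y = _
          rw [(hproj _ hg p).2, hp]; rfl
        · change (g p).n - ((g p).x • (g a).n + (g p).y • (g b).n) = _
          rw [(hproj _ hg p).1, (hproj _ hg p).2, hp]
          simp
      · rw [hfq _ _ hrel]
        simp only [LieHom.comp_apply]
        apply SD.ext'
        · change (g q).x = _
          rw [(hproj _ hg q).1, hq]; rfl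
        · change (g q).y = _
          rw [(hproj _ hg q).2, hq]; rfl
        · change (g q).n - ((g q).x • (g a).n + (g q).y • (g b).n) = _
          rw [(hproj _ hg q).1, (hproj _ hg q).2, hq]
          simp
    rw [← heq]
    change (g d).n - ((g d).x • (g a).n + (g d).y • (g b).n) = 1
    rw [hgd]
    simp
  -- conclusion
  apply not_generated m₁ m₂ hm
  intro n₁ n₂ hn
  set ρ := (f n₁ n₂ d).n with hρ
  have hrel' : Rel (rmul ρ m₁) (rmul ρ m₂) := by
    unfold Rel
    rw [← rmul_opA, ← rmul_opB, ← map_sub, ← map_add, ← map_add]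
    have : m₁ - opA k m₁ + m₂ + opB k m₂ = 0 := hm
    rw [this, map_zero]
  have hcomp : (SD.mapN (rmul ρ) (rmul_opA ρ) (rmul_opB ρ)).comp (f m₁ m₂) =
      f (rmul ρ m₁) (rmul ρ m₂) := by
    apply hP.uniq
    · rw [LieHom.comp_apply, hfa _ _ hm, hfa _ _ hrel']
      apply SD.ext' <;> simp [SD.mapN]
    · rw [LieHom.comp_apply, hfb _ _ hm, hfb _ _ hrel']
      apply SD.ext' <;> simp [SD.mapN]
    · rw [LieHom.comp_apply, hfp _ _ hm, hfp _ _ hrel']
      apply SD.ext' <;> simp [SD.mapN]
    · rw [LieHom.comp_apply, hfq _ _ hm, hfq _ _ hrel']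
      apply SD.ext' <;> simp [SD.mapN]
  have hval : (f (rmul ρ m₁) (rmul ρ m₂) d).n = ρ := by
    rw [← hcomp]
    change rmul ρ ((f m₁ m₂ d).n) = ρ
    rw [hm1, rmul_one]
  obtain ⟨h1, h2⟩ := hinj _ _ _ _ hn hrel' (by rw [hval])
  exact ⟨ρ, h1.symm, h2.symm⟩

omit [LieRing B] [LieAlgebra k B] in
lemma PresF.change [LieRing B] [LieAlgebra k B] {c e d : B} (hF : PresF k B c e d)
    (y s t r : k) (hy : y ≠ 0) :
    PresF k B (c - s • (y⁻¹ • e)) (y⁻¹ • e)
      (d - t • (c - s • (y⁻¹ • e)) - r • (y⁻¹ • e)) := by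
  refine ⟨?_, ?_, ?_⟩
  · rw [sub_lie, smul_lie, lie_smul, lie_self, smul_zero, sub_zero, hF.rel]
  · intro M _ _ x₁ x₂ x₃ hx12
    obtain ⟨g, hgc, hge, hgd⟩ := hF.ex M (x₁ + s • x₂) (y • x₂)
      (x₃ + t • x₁ + r • x₂) (by
        rw [add_lie, lie_smul, lie_smul, smul_lie, lie_self, hx12]; simp)
    have h7 : g (y⁻¹ • e) = x₂ := by
      rw [map_smul, hge, smul_smul, inv_mul_cancel₀ hy, one_smul]
    have h8 : g (c - s • (y⁻¹ • e)) = x₁ := by
      rw [map_sub, map_smul, h7, hgc]; simp
    refine ⟨g, h8, h7, ?_⟩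
    rw [map_sub, map_sub, map_smul, map_smul, h7, h8, hgd]
    abel
  · intro M _ _ g g' h7 h8 h9
    have e1 : g e = g' e := by
      rw [map_smul, map_smul] at h8
      exact smul_right_injective _ (inv_ne_zero hy) h8
    have e2 : g c = g' c := by
      simp only [map_sub, map_smul, e1] at h7
      exact sub_left_inj.mp h7
    have e3 : g d = g' d := by
      simp only [map_sub, map_smul, e1, e2] at h9
      exact sub_left_inj.mp (sub_left_inj.mp h9)
    exact hF.uniq M g g' e2 e1 e3

/-- The two presentations are incompatible. -/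
lemma key {a b p q c e d : B} (hP : PresP k B a b p q) (hF : PresF k B c e d) : False := by
  obtain ⟨π, ha, hb, hp, hq⟩ := hP.ex (A2 k) (A2.mk' 1 0) (A2.mk' 0 1) 0 0
    (by apply A2.ext' <;> simp) (by simp)
  have hrel := congrArg π hF.rel
  rw [LieHom.map_lie] at hrel
  have h1 : (π e).1 = 0 := by
    have := congrArg Prod.fst hrel
    exact this.symm
  have h2 : (π c).1 * (π e).2 = (π e).2 := by
    have := congrArg Prod.snd hrel
    have h3 : (π c).1 * (π e).2 - (π e).1 * (π c).2 = (π e).2 := this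
    rw [h1] at h3
    simpa using h3
  by_cases hy : (π e).2 = 0
  · -- degenerate case
    have hπe : π e = 0 := A2.ext' h1 hy
    obtain ⟨g, hgc, hge, hgd⟩ := hF.ex (A2 k[X])
      (A2.mk' (C (π c).1 * X) (C (π c).2 * X)) 0 (A2.mk' (C (π d).1 * X) (C (π d).2 * X))
      (by simp)
    have e1 : (A2.map (aeval (1 : k) : k[X] →ₐ[k] k)).comp g = π := by
      apply hF.uniq
      · rw [LieHom.comp_apply, hgc]; apply A2.ext' <;> simp
      · rw [LieHom.comp_apply, hge, hπe]; simp
      · rw [LieHom.comp_apply, hgd]; apply A2.ext' <;> simp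
    have e0 : (A2.map (aeval (0 : k) : k[X] →ₐ[k] k)).comp g = 0 := by
      apply hF.uniq
      · rw [LieHom.comp_apply, hgc]; apply A2.ext' <;> simp
      · rw [LieHom.comp_apply, hge]; simp
      · rw [LieHom.comp_apply, hgd]; apply A2.ext' <;> simp
    have hga0 : eval 0 (g a).1 = 0 := by
      have := congrArg Prod.fst (LieHom.congr_fun e0 a)
      rw [LieHom.comp_apply] at this
      change aeval (0 : k) (g a).1 = 0 at this
      rwa [coe_aeval_eq_eval] at this
    have hgb1 : eval 1 (g b).2 = 1 := by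
      have := congrArg Prod.snd (LieHom.congr_fun e1 b)
      rw [LieHom.comp_apply, hb] at this
      change aeval (1 : k) (g b).2 = 1 at this
      rwa [coe_aeval_eq_eval] at this
    have hr := congrArg g hP.rel1
    rw [LieHom.map_lie] at hr
    have h3 : (g b).1 = 0 := (congrArg Prod.fst hr).symm
    have h4 : (g a).1 * (g b).2 - (g b).1 * (g a).2 = (g b).2 := congrArg Prod.snd hr
    rw [h3, zero_mul, sub_zero] at h4
    have h5 : ((g a).1 - 1) * (g b).2 = 0 := by rw [sub_mul, h4, one_mul, sub_self]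
    rcases mul_eq_zero.mp h5 with h6 | h6
    · rw [sub_eq_zero] at h6
      rw [h6] at hga0
      simp at hga0
    · rw [h6] at hgb1
      simp at hgb1
  · have hx : (π c).1 = 1 := by
      have : ((π c).1 - 1) * (π e).2 = 0 := by rw [sub_mul, h2, one_mul, sub_self]
      rcases mul_eq_zero.mp this with h | h
      · exact sub_eq_zero.mp h
      · exact absurd h hy
    set y := (π e).2 with hydef
    -- new generators
    have hF' := hF.change y (π c).2 (π d).1 (π d).2 hy
    have h7 : π (y⁻¹ • e) = A2.mk' 0 1 := by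
      rw [map_smul]
      apply A2.ext'
      · simp [h1]
      · simp only [A2.smul_snd, A2.mk'_snd, smul_eq_mul]
        exact inv_mul_cancel₀ hy
    have h8 : π (c - (π c).2 • (y⁻¹ • e)) = A2.mk' 1 0 := by
      rw [map_sub, map_smul, h7]
      apply A2.ext'
      · simp [hx]
      · simp
    refine key_normalised hP hF' π ha hb hp hq h8 h7 ?_
    rw [map_sub, map_sub, map_smul, map_smul, h7, h8]
    apply A2.ext'
    · simp
    · simp

end Key

end Pool.Agent.H78
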