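import Pool.Agent.H78.LieKey

set_option autoImplicit false
universe u

namespace Pool.Agent.H78

open LieSubalgebra

variable {k : Type u} [Field k]

section General

variable {L : Type u} [LieRing L] [LieAlgebra k L]

lemma hom_ext_lieSpan {M : Type u} [LieRing M] [LieAlgebra k M] {s : Set L}
    {T : LieSubalgebra k L} (hT : T = lieSpan k L s) (f g : T →ₗ⁅k⁆ M)
    (h : ∀ x (hx : x ∈ T), x ∈ s → f ⟨x, hx⟩ = g ⟨x, hx⟩) : f = g := by
  subst hT
  ext ⟨x, hx⟩
  induction hx using lieSpan_induction with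
  | mem x hx => exact h x _ hx
  | zero =>
    have : (⟨0, LieSubalgebra.zero_mem _⟩ : lieSpan k L s) = 0 := rfl
    rw [this, map_zero, map_zero]
  | add x y hx hy h1 h2 =>
    have : (⟨x + y, LieSubalgebra.add_mem _ hx hy⟩ : lieSpan k L s) = ⟨x, hx⟩ + ⟨y, hy⟩ := rfl
    rw [this, map_add, map_add, h1, h2]
  | smul c x hx h1 =>
    have : (⟨c • x, LieSubalgebra.smul_mem _ c hx⟩ : lieSpan k L s) = c • ⟨x, hx⟩ := rfl
    rw [this, map_smul, map_smul, h1]
  | lie x y hx hy h1 h2 =>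
    have : (⟨⁅x, y⁆, LieSubalgebra.lie_mem _ hx hy⟩ : lieSpan k L s) = ⁅(⟨x, hx⟩ : lieSpan k L s),
      (⟨y, hy⟩ : lieSpan k L s)⁆ := rfl
    rw [this, LieHom.map_lie, LieHom.map_lie, h1, h2]

/-- Free product decomposition of a subalgebra `T`. -/
def IsFP {I : Type u} (A : I → LieSubalgebra k L) (T : LieSubalgebra k L) : Prop :=
  (∀ i, A i ≠ ⊥) ∧ ∃ h : ∀ i, A i ≤ T,
      ∀ (M : Type u) [LieRing M] [LieAlgebra k M] (f : ∀ i, ↥(A i) →ₗ⁅k⁆ M),
        ∃! g : ↥T →ₗ⁅k⁆ M, ∀ i, g.comp (LieSubalgebra.inclusion (h i)) = f i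

variable {I : Type u} {A : I → LieSubalgebra k L} {T : LieSubalgebra k L}

lemma IsFP.le (hA : IsFP A T) (i : I) : A i ≤ T := hA.2.choose i

lemma IsFP.uniq (hA : IsFP A T) (M : Type u) [LieRing M] [LieAlgebra k M] (g g' : T →ₗ⁅k⁆ M)
    (h : ∀ i x (hx : x ∈ T), x ∈ A i → g ⟨x, hx⟩ = g' ⟨x, hx⟩) : g = g' := by
  obtain ⟨_, hle, hu⟩ := hA
  obtain ⟨g0, -, hg0⟩ := hu M (fun i => g.comp (LieSubalgebra.inclusion (hle i)))
  rw [hg0 g (fun i => rfl), hg0 g' (fun i => ?_)]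
  ext ⟨x, hx⟩
  exact (h i x (hle i hx) hx).symm

lemma IsFP.ex (hA : IsFP A T) (M : Type u) [LieRing M] [LieAlgebra k M]
    (f : ∀ i, ↥(A i) →ₗ⁅k⁆ M) : ∃ g : T →ₗ⁅k⁆ M, ∀ i x (hx : x ∈ T) (hxi : x ∈ A i),
      g ⟨x, hx⟩ = f i ⟨x, hxi⟩ := by
  obtain ⟨_, hle, hu⟩ := hA
  obtain ⟨g0, hg0, -⟩ := hu M f
  refine ⟨g0, fun i x hx hxi => ?_⟩
  exact LieHom.congr_fun (hg0 i) ⟨x, hxi⟩

lemma IsFP.retract (hA : IsFP A T) (i : I) : ∃ r : T →ₗ⁅k⁆ L,
    (∀ x (hx : x ∈ T), x ∈ A i → r ⟨x, hx⟩ = x) ∧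
    (∀ i', i' ≠ i → ∀ x (hx : x ∈ T), x ∈ A i' → r ⟨x, hx⟩ = 0) := by
  classical
  obtain ⟨r, hr⟩ := hA.ex L (Function.update (fun i' => (0 : A i' →ₗ⁅k⁆ L)) i (A i).incl)
  refine ⟨r, fun x hx hxi => ?_, fun i' hne x hx hxi => ?_⟩
  · rw [hr i x hx hxi, Function.update_self]; rfl
  · rw [hr i' x hx hxi, Function.update_of_ne hne]; rfl

lemma IsFP.disj (hA : IsFP A T) {i i' : I} (hne : i' ≠ i) {x : L} (hx : x ∈ A i)
    (hx' : x ∈ A i') : x = 0 := by
  obtain ⟨r, h1, h2⟩ := hA.retract i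
  rw [← h1 x (hA.le i hx) hx, h2 i' hne x (hA.le i hx) hx']

lemma IsFP.nonempty (hA : IsFP A T) (hT : T ≠ ⊥) : Nonempty I := by
  by_contra hI
  apply hT
  have : T.incl = 0 := hA.uniq L _ _ (fun i => absurd ⟨i⟩ hI)
  rw [LieSubalgebra.eq_bot_iff]
  intro x hx
  have h1 := LieHom.congr_fun this ⟨x, hx⟩
  exact h1

lemma IsFP.eq_of_subsingleton (hA : IsFP A T) (i : I) (hi : ∀ i', i' = i) : A i = T := by
  apply le_antisymm (hA.le i)
  intro x hx
  obtain ⟨g, hg⟩ := hA.ex (A i) (fun i' => LieSubalgebra.inclusion (by rw [hi i']))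
  have : (A i).incl.comp g = T.incl := by
    apply hA.uniq
    intro i' y hy hyi
    rw [LieHom.comp_apply, hg i' y hy hyi]
    rfl
  have h2 := LieHom.congr_fun this ⟨x, hx⟩
  rw [LieHom.comp_apply] at h2
  have h3 : x = (g ⟨x, hx⟩ : L) := h2.symm
  rw [h3]
  exact (g ⟨x, hx⟩).2

lemma ne_bot_exists {K : LieSubalgebra k L} (h : K ≠ ⊥) : ∃ x ∈ K, x ≠ 0 := by
  by_contra hcon
  push Not at hcon
  apply h
  rw [LieSubalgebra.eq_bot_iff]
  exact hcon

lemma mem_lieSpan_one {y x : L} (hx : x ∈ lieSpan k L {y}) : ∃ c : k, x = c • y := by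
  have h := coe_lieSpan_eq_span_of_forall_lie_eq_zero (R := k) (s := {y}) (by simp)
  have h2 : x ∈ (lieSpan k L {y}).toSubmodule := hx
  rw [h, Submodule.mem_span_singleton] at h2
  obtain ⟨c, hc⟩ := h2
  exact ⟨c, hc.symm⟩

/-- A one-dimensional algebra is indecomposable. -/
lemma IsFP.one (hA : IsFP A T) {y : L} (hy : y ≠ 0) (hT : T = lieSpan k L {y}) :
    ∃ i, (∀ i', i' = i) ∧ A i = T := by
  have hT0 : T ≠ ⊥ := by
    intro h
    have : y ∈ T := by rw [hT]; exact subset_lieSpan rfl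
    rw [h] at this
    exact hy this
  obtain ⟨i⟩ := hA.nonempty hT0
  have hmem : ∀ i, y ∈ A i := by
    intro i
    obtain ⟨x, hx, hx0⟩ := ne_bot_exists (hA.1 i)
    have : x ∈ lieSpan k L {y} := by rw [← hT]; exact hA.le i hx
    obtain ⟨c, rfl⟩ := mem_lieSpan_one this
    have hc : c ≠ 0 := by rintro rfl; simp at hx0
    have h3 := (A i).smul_mem c⁻¹ hx
    rwa [smul_smul, inv_mul_cancel₀ hc, one_smul] at h3
  have huniq : ∀ i', i' = i := by
    intro i'
    by_contra hne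
    exact hy (hA.disj hne (hmem i) (hmem i'))
  exact ⟨i, huniq, hA.eq_of_subsingleton i huniq⟩

lemma mem_lieSpan_two {a b x : L} (hab : ⁅a, b⁆ = b) (hx : x ∈ lieSpan k L {a, b}) :
    ∃ s t : k, x = s • a + t • b := by
  have hba : ⁅b, a⁆ = -b := by rw [← lie_skew, hab]
  induction hx using lieSpan_induction with
  | mem x hx =>
    rcases hx with rfl | hx
    · exact ⟨1, 0, by simp⟩
    · have : x = b := hx
      subst this
      exact ⟨0, 1, by simp⟩
  | zero => exact ⟨0, 0, by simp⟩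
  | add x y hx hy h1 h2 =>
    obtain ⟨s, t, rfl⟩ := h1
    obtain ⟨s', t', rfl⟩ := h2
    exact ⟨s + s', t + t', by module⟩
  | smul c x hx h1 =>
    obtain ⟨s, t, rfl⟩ := h1
    exact ⟨c * s, c * t, by module⟩
  | lie x y hx hy h1 h2 =>
    obtain ⟨s, t, rfl⟩ := h1
    obtain ⟨s', t', rfl⟩ := h2
    refine ⟨0, s * t' - t * s', ?_⟩
    simp only [add_lie, lie_add, smul_lie, lie_smul, lie_self, hab, hba]
    module

/-- The two-dimensional nonabelian algebra is indecomposable. -/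
lemma IsFP.two (hA : IsFP A T) {a b : L} (hab : ⁅a, b⁆ = b) (hb : b ≠ 0)
    (hT : T = lieSpan k L {a, b}) : ∃ i, (∀ i', i' = i) ∧ A i = T := by
  have haT : a ∈ T := by rw [hT]; exact subset_lieSpan (by simp)
  have hbT : b ∈ T := by rw [hT]; exact subset_lieSpan (by simp)
  have hT0 : T ≠ ⊥ := by
    intro h
    rw [h] at hbT
    exact hb hbT
  obtain ⟨i⟩ := hA.nonempty hT0
  have huniq : ∀ i', i' = i := by
    intro i'
    by_contra hne
    obtain ⟨u, hu, hu0⟩ := ne_bot_exists (hA.1 i)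
    obtain ⟨v, hv, hv0⟩ := ne_bot_exists (hA.1 i')
    have huT := hA.le i hu
    have hvT := hA.le i' hv
    obtain ⟨s, t, hst⟩ := mem_lieSpan_two hab (by rw [← hT]; exact huT)
    obtain ⟨s', t', hst'⟩ := mem_lieSpan_two hab (by rw [← hT]; exact hvT)
    obtain ⟨r, hr1, hr2⟩ := hA.retract i
    obtain ⟨r', hr1', hr2'⟩ := hA.retract i'
    have hru := hr1 u huT hu
    have hrv := hr2 i' hne v hvT hv
    have hru' := hr2' i (Ne.symm hne) u huT hu
    have hrv' := hr1' v hvT hv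
    -- cross relation
    have e1 : s • v - s' • u = (s * t' - s' * t) • b := by rw [hst, hst']; module
    have e2 : t' • u - t • v = (s * t' - s' * t) • a := by rw [hst, hst']; module
    have hr_v' : ∀ c c' : k, r (c • ⟨v, hvT⟩ - c' • ⟨u, huT⟩) = -(c' • u) := by
      intro c c'
      rw [map_sub, map_smul, map_smul, hrv, hru]; simp
    have hr'_v' : ∀ c c' : k, r' (c • ⟨v, hvT⟩ - c' • ⟨u, huT⟩) = c • v := by
      intro c c'
      rw [map_sub, map_smul, map_smul, hrv', hru']; simp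
    by_cases hδ : s * t' - s' * t = 0
    · rw [hδ, zero_smul] at e1 e2
      have e3 : (s • ⟨v, hvT⟩ - s' • ⟨u, huT⟩ : T) = 0 := Subtype.ext e1
      have e4 : (t • ⟨v, hvT⟩ - t' • ⟨u, huT⟩ : T) = 0 := by
        apply Subtype.ext
        have : t • v - t' • u = 0 := by rw [← neg_eq_zero, ← e2]; abel
        exact this
      have h1 := hr_v' s s'
      have h2 := hr'_v' s s'
      have h3 := hr_v' t t'
      have h4 := hr'_v' t t'
      rw [e3, map_zero] at h1 h2
      rw [e4, map_zero] at h3 h4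
      have hs : s = 0 := by
        rcases smul_eq_zero.mp h2.symm with h | h
        · exact h
        · exact absurd h hv0
      have ht : t = 0 := by
        rcases smul_eq_zero.mp h4.symm with h | h
        · exact h
        · exact absurd h hv0
      apply hu0
      rw [hst, hs, ht]; simp
    · -- `b` is a combination
      set δ := s * t' - s' * t with hδdef
      have hbr : (⁅(⟨u, huT⟩ : T), (⟨v, hvT⟩ : T)⁆ : T) =
          s • ⟨v, hvT⟩ - s' • ⟨u, huT⟩ := by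
        apply Subtype.ext
        have : ⁅u, v⁆ = s • v - s' • u := by
          rw [e1, hst, hst']
          have hba : ⁅b, a⁆ = -b := by rw [← lie_skew, hab]
          simp only [add_lie, lie_add, smul_lie, lie_smul, lie_self, hab, hba]
          module
        exact this
      have h1 := hr_v' s s'
      have h2 := hr'_v' s s'
      rw [← hbr, LieHom.map_lie, hru, hrv, lie_zero] at h1
      rw [← hbr, LieHom.map_lie, hru', hrv', zero_lie] at h2
      have hs : s = 0 := by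
        rcases smul_eq_zero.mp h2.symm with h | h
        · exact h
        · exact absurd h hv0
      have hs' : s' = 0 := by
        rcases smul_eq_zero.mp (neg_eq_zero.mp h1.symm) with h | h
        · exact h
        · exact absurd h hu0
      apply hδ
      rw [hδdef, hs, hs']; ring
  exact ⟨i, huniq, hA.eq_of_subsingleton i huniq⟩

end General

section Construction

variable (k)

/-- The relation ideal. -/
noncomputable def relI : LieIdeal k (FreeLieAlgebra k (Fin 4)) :=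
  LieSubmodule.lieSpan k (FreeLieAlgebra k (Fin 4))
    {⁅FreeLieAlgebra.of k (0 : Fin 4), FreeLieAlgebra.of k (1 : Fin 4)⁆ -
      FreeLieAlgebra.of k (1 : Fin 4)}

/-- The Lie algebra `⟨a, b, y, z | [a, b] = b⟩`. -/
abbrev L0 : Type u := FreeLieAlgebra k (Fin 4) ⧸ relI k

/-- The quotient map. -/
noncomputable def qm : FreeLieAlgebra k (Fin 4) →ₗ⁅k⁆ L0 k where
  toFun x := LieSubmodule.Quotient.mk x
  map_add' _ _ := rfl
  map_smul' _ _ := rfl
  map_lie' := rfl

/-- Generators. -/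
noncomputable def gn (i : Fin 4) : L0 k := qm k (FreeLieAlgebra.of k i)

lemma L0_rel : ⁅gn k 0, gn k 1⁆ = gn k 1 := by
  rw [← sub_eq_zero]
  unfold gn
  rw [← LieHom.map_lie, ← map_sub]
  exact (LieSubmodule.Quotient.mk_eq_zero' (N := relI k)).mpr
    (LieSubmodule.subset_lieSpan rfl)

variable {k}

lemma L0_uniq {M : Type u} [LieRing M] [LieAlgebra k M] (g g' : L0 k →ₗ⁅k⁆ M)
    (h : ∀ i, g (gn k i) = g' (gn k i)) : g = g' := by
  have h1 : g.comp (qm k) = g'.comp (qm k) := FreeLieAlgebra.hom_ext h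
  ext x
  obtain ⟨y, rfl⟩ := Submodule.Quotient.mk_surjective _ x
  exact LieHom.congr_fun h1 y

lemma L0_ex {M : Type u} [LieRing M] [LieAlgebra k M] (a b y z : M) (hab : ⁅a, b⁆ = b) :
    ∃ g : L0 k →ₗ⁅k⁆ M, g (gn k 0) = a ∧ g (gn k 1) = b ∧ g (gn k 2) = y ∧ g (gn k 3) = z := by
  let F : FreeLieAlgebra k (Fin 4) →ₗ⁅k⁆ M := FreeLieAlgebra.lift k ![a, b, y, z]
  have hker : relI k ≤ F.ker := by
    unfold relI
    rw [LieSubmodule.lieSpan_le]
    intro x hx
    have hx' : x = ⁅FreeLieAlgebra.of k (0 : Fin 4), FreeLieAlgebra.of k (1 : Fin 4)⁆ -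
      FreeLieAlgebra.of k (1 : Fin 4) := hx
    subst hx'
    change _ ∈ F.ker
    rw [LieHom.mem_ker, map_sub, LieHom.map_lie]
    simp [F, hab]
  let G : L0 k →ₗ[k] M := Submodule.liftQ (relI k).toSubmodule (F : FreeLieAlgebra k (Fin 4) →ₗ[k] M)
    (fun x hx => by
      have := hker hx
      rw [LieHom.mem_ker] at this
      exact this)
  let g : L0 k →ₗ⁅k⁆ M :=
    { G with
      map_lie' := by
        intro x y
        obtain ⟨x, rfl⟩ := Submodule.Quotient.mk_surjective _ x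
        obtain ⟨y, rfl⟩ := Submodule.Quotient.mk_surjective _ y
        exact F.map_lie x y }
  have hg : ∀ i, g (gn k i) = F (FreeLieAlgebra.of k i) := fun i => rfl
  refine ⟨g, ?_, ?_, ?_, ?_⟩ <;> rw [hg] <;> simp [F]

variable (k)

/-- `x = (1 - a) y + (1 + b) z`. -/
noncomputable def gx : L0 k := gn k 2 - ⁅gn k 0, gn k 2⁆ + gn k 3 + ⁅gn k 1, gn k 3⁆
/-- `p = y - (1 + b) x`. -/
noncomputable def gp : L0 k := gn k 2 - gx k - ⁅gn k 1, gx k⁆
/-- `q = z - a x`. -/
noncomputable def gq : L0 k := gn k 3 - ⁅gn k 0, gx k⁆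

lemma rel_pq : gp k - ⁅gn k 0, gp k⁆ + gq k + ⁅gn k 1, gq k⁆ = 0 := by
  have h : ⁅gn k 0, ⁅gn k 1, gx k⁆⁆ = ⁅gn k 1, gx k⁆ + ⁅gn k 1, ⁅gn k 0, gx k⁆⁆ := by
    rw [leibniz_lie, L0_rel]
  have hx : gx k = gn k 2 - ⁅gn k 0, gn k 2⁆ + gn k 3 + ⁅gn k 1, gn k 3⁆ := rfl
  unfold gp gq
  simp only [lie_sub]
  rw [h]
  nth_rewrite 1 [hx]
  abel

/-- The first decomposition. -/
noncomputable def A1 (i : ULift.{u} (Fin 2)) : LieSubalgebra k (L0 k) :=
  if i.down = 0 then lieSpan k _ {gn k 0, gn k 1, gp k, gq k} else lieSpan k _ {gx k}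

/-- The second decomposition. -/
noncomputable def A2' (i : ULift.{u} (Fin 3)) : LieSubalgebra k (L0 k) :=
  if i.down = 0 then lieSpan k _ {gn k 0, gn k 1} else
    if i.down = 1 then lieSpan k _ {gn k 2} else lieSpan k _ {gn k 3}


lemma A1_zero : A1 k ⟨0⟩ = lieSpan k _ {gn k 0, gn k 1, gp k, gq k} := by simp [A1]
lemma A1_one : A1 k ⟨1⟩ = lieSpan k _ {gx k} := by simp [A1]
lemma A2'_zero : A2' k ⟨0⟩ = lieSpan k _ {gn k 0, gn k 1} := by simp [A2']
lemma A2'_one : A2' k ⟨1⟩ = lieSpan k _ {gn k 2} := by simp [A2']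
lemma A2'_two : A2' k ⟨2⟩ = lieSpan k _ {gn k 3} := by simp [A2']

lemma gn1_ne : gn k 1 ≠ 0 := by
  intro h
  obtain ⟨g, -, h1, -, -⟩ := L0_ex (k := k) (A2.mk' (1 : k) 0) (A2.mk' 0 1) 0 0
    (by apply A2.ext' <;> simp)
  rw [h, map_zero] at h1
  have := congrArg Prod.snd h1
  exact zero_ne_one this

lemma gn2_ne : gn k 2 ≠ 0 := by
  intro h
  obtain ⟨g, -, -, h1, -⟩ := L0_ex (k := k) (0 : A2 k) 0 (A2.mk' (1 : k) 0) 0 (by simp)
  rw [h, map_zero] at h1
  have := congrArg Prod.fst h1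
  exact zero_ne_one this

lemma gn3_ne : gn k 3 ≠ 0 := by
  intro h
  obtain ⟨g, -, -, -, h1⟩ := L0_ex (k := k) (0 : A2 k) 0 0 (A2.mk' (1 : k) 0) (by simp)
  rw [h, map_zero] at h1
  have := congrArg Prod.fst h1
  exact zero_ne_one this

lemma gx_ne : gx k ≠ 0 := by
  intro h
  obtain ⟨g, h0, h1, h2, h3⟩ := L0_ex (k := k) (0 : A2 k) 0 (A2.mk' (1 : k) 0) 0 (by simp)
  have h4 : g (gx k) = A2.mk' (1 : k) 0 := by
    unfold gx
    simp [h0, h1, h2, h3, LieHom.map_lie]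
  rw [h, map_zero] at h4
  have := congrArg Prod.fst h4
  exact zero_ne_one this

lemma ne_bot_of_mem {L : Type u} [LieRing L] [LieAlgebra k L] {K : LieSubalgebra k L} {x : L}
    (hx : x ∈ K) (h0 : x ≠ 0) : K ≠ ⊥ := by
  rintro rfl
  exact h0 hx

/-- The first decomposition is a free product decomposition. -/
lemma fp1 : IsFP (A1 k) ⊤ := by
  have hm0 : gn k 0 ∈ A1 k ⟨0⟩ := by rw [A1_zero]; exact subset_lieSpan (by simp)
  have hm1 : gn k 1 ∈ A1 k ⟨0⟩ := by rw [A1_zero]; exact subset_lieSpan (by simp)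
  have hmp : gp k ∈ A1 k ⟨0⟩ := by rw [A1_zero]; exact subset_lieSpan (by simp)
  have hmq : gq k ∈ A1 k ⟨0⟩ := by rw [A1_zero]; exact subset_lieSpan (by simp)
  have hmx : gx k ∈ A1 k ⟨1⟩ := by rw [A1_one]; exact subset_lieSpan (by simp)
  refine ⟨?_, fun i => le_top, ?_⟩
  · rintro ⟨i⟩
    fin_cases i
    · exact ne_bot_of_mem k hm1 (gn1_ne k)
    · exact ne_bot_of_mem k hmx (gx_ne k)
  · intro M _ _ f
    -- the values
    set a := f ⟨0⟩ ⟨gn k 0, hm0⟩ with ha
    set b := f ⟨0⟩ ⟨gn k 1, hm1⟩ with hb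
    set p := f ⟨0⟩ ⟨gp k, hmp⟩ with hp
    set q := f ⟨0⟩ ⟨gq k, hmq⟩ with hq
    set x := f ⟨1⟩ ⟨gx k, hmx⟩ with hx
    have hab : ⁅a, b⁆ = b := by
      rw [ha, hb, ← LieHom.map_lie]
      congr 1
      exact Subtype.ext (L0_rel k)
    have hpq : p - ⁅a, p⁆ + q + ⁅b, q⁆ = 0 := by
      rw [hp, ha, hq, hb, ← LieHom.map_lie, ← LieHom.map_lie, ← map_sub, ← map_add, ← map_add]
      rw [← map_zero (f ⟨0⟩)]
      congr 1
      exact Subtype.ext (rel_pq k)
    obtain ⟨g, g0, g1, g2, g3⟩ := L0_ex (k := k) a b (p + x + ⁅b, x⁆) (q + ⁅a, x⁆) hab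
    have hgx : g (gx k) = x := by
      unfold gx
      simp only [map_add, map_sub, LieHom.map_lie, g0, g1, g2, g3, lie_add]
      have h : ⁅a, ⁅b, x⁆⁆ = ⁅b, x⁆ + ⁅b, ⁅a, x⁆⁆ := by
        rw [leibniz_lie, hab]
      rw [h]
      have h2 : p + x + ⁅b, x⁆ - (⁅a, p⁆ + ⁅a, x⁆ + (⁅b, x⁆ + ⁅b, ⁅a, x⁆⁆)) + (q + ⁅a, x⁆) +
        (⁅b, q⁆ + ⁅b, ⁅a, x⁆⁆) = (p - ⁅a, p⁆ + q + ⁅b, q⁆) + x := by abel
      rw [h2, hpq, zero_add]
    have hgp : g (gp k) = p := by
      unfold gp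
      simp only [map_sub, LieHom.map_lie, g1, g2, hgx]
      abel
    have hgq : g (gq k) = q := by
      unfold gq
      simp only [map_sub, LieHom.map_lie, g0, g3, hgx]
      abel
    refine ⟨g.comp (⊤ : LieSubalgebra k (L0 k)).incl, ?_, ?_⟩
    · rintro ⟨i⟩
      fin_cases i
      · apply hom_ext_lieSpan (A1_zero k)
        intro y hy hys
        rcases hys with rfl | rfl | rfl | hys
        · exact g0
        · exact g1
        · exact hgp
        · have : y = gq k := hys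
          subst this
          exact hgq
      · apply hom_ext_lieSpan (A1_one k)
        intro y hy hys
        have : y = gx k := hys
        subst this
        exact hgx
    · intro g' hg'
      have h0 := fun y hy => LieHom.congr_fun (hg' ⟨0⟩) (⟨y, hy⟩ : A1 k ⟨0⟩)
      have h1 := fun y hy => LieHom.congr_fun (hg' ⟨1⟩) (⟨y, hy⟩ : A1 k ⟨1⟩)
      let T : L0 k →ₗ⁅k⁆ (⊤ : LieSubalgebra k (L0 k)) :=
        { toFun := fun y => ⟨y, LieSubalgebra.mem_top y⟩
          map_add' := fun _ _ => rfl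
          map_smul' := fun _ _ => rfl
          map_lie' := rfl }
      have hT0 : g' (T (gn k 0)) = a := h0 _ hm0
      have hT1 : g' (T (gn k 1)) = b := h0 _ hm1
      have hTp : g' (T (gp k)) = p := h0 _ hmp
      have hTq : g' (T (gq k)) = q := h0 _ hmq
      have hTx : g' (T (gx k)) = x := h1 _ hmx
      have hT2 : g' (T (gn k 2)) = p + x + ⁅b, x⁆ := by
        have : gn k 2 = gp k + gx k + ⁅gn k 1, gx k⁆ := by unfold gp; abel
        rw [this]
        simp only [map_add, LieHom.map_lie, hTp, hTx, hT1]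
      have hT3 : g' (T (gn k 3)) = q + ⁅a, x⁆ := by
        have : gn k 3 = gq k + ⁅gn k 0, gx k⁆ := by unfold gq; abel
        rw [this]
        simp only [map_add, LieHom.map_lie, hTq, hTx, hT0]
      have hc : g'.comp T = g := by
        apply L0_uniq
        intro i
        rw [LieHom.comp_apply]
        fin_cases i
        · exact hT0.trans g0.symm
        · exact hT1.trans g1.symm
        · exact hT2.trans g2.symm
        · exact hT3.trans g3.symm
      ext ⟨y, hy⟩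
      exact LieHom.congr_fun hc y

/-- The second decomposition is a free product decomposition. -/
lemma fp2 : IsFP (A2' k) ⊤ := by
  have hm0 : gn k 0 ∈ A2' k ⟨0⟩ := by rw [A2'_zero]; exact subset_lieSpan (by simp)
  have hm1 : gn k 1 ∈ A2' k ⟨0⟩ := by rw [A2'_zero]; exact subset_lieSpan (by simp)
  have hm2 : gn k 2 ∈ A2' k ⟨1⟩ := by rw [A2'_one]; exact subset_lieSpan (by simp)
  have hm3 : gn k 3 ∈ A2' k ⟨2⟩ := by rw [A2'_two]; exact subset_lieSpan (by simp)
  refine ⟨?_, fun i => le_top, ?_⟩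
  · rintro ⟨i⟩
    fin_cases i
    · exact ne_bot_of_mem k hm1 (gn1_ne k)
    · exact ne_bot_of_mem k hm2 (gn2_ne k)
    · exact ne_bot_of_mem k hm3 (gn3_ne k)
  · intro M _ _ f
    set a := f ⟨0⟩ ⟨gn k 0, hm0⟩ with ha
    set b := f ⟨0⟩ ⟨gn k 1, hm1⟩ with hb
    have hab : ⁅a, b⁆ = b := by
      rw [ha, hb, ← LieHom.map_lie]
      congr 1
      exact Subtype.ext (L0_rel k)
    obtain ⟨g, g0, g1, g2, g3⟩ := L0_ex (k := k) a b (f ⟨1⟩ ⟨gn k 2, hm2⟩) (f ⟨2⟩ ⟨gn k 3, hm3⟩) hab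
    refine ⟨g.comp (⊤ : LieSubalgebra k (L0 k)).incl, ?_, ?_⟩
    · rintro ⟨i⟩
      fin_cases i
      · apply hom_ext_lieSpan (A2'_zero k)
        intro y hy hys
        rcases hys with rfl | hys
        · exact g0
        · have : y = gn k 1 := hys
          subst this
          exact g1
      · apply hom_ext_lieSpan (A2'_one k)
        intro y hy hys
        have : y = gn k 2 := hys
        subst this
        exact g2
      · apply hom_ext_lieSpan (A2'_two k)
        intro y hy hys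
        have : y = gn k 3 := hys
        subst this
        exact g3
    · intro g' hg'
      have h0 := fun y hy => LieHom.congr_fun (hg' ⟨0⟩) (⟨y, hy⟩ : A2' k ⟨0⟩)
      have h1 := fun y hy => LieHom.congr_fun (hg' ⟨1⟩) (⟨y, hy⟩ : A2' k ⟨1⟩)
      have h2 := fun y hy => LieHom.congr_fun (hg' ⟨2⟩) (⟨y, hy⟩ : A2' k ⟨2⟩)
      let T : L0 k →ₗ⁅k⁆ (⊤ : LieSubalgebra k (L0 k)) :=
        { toFun := fun y => ⟨y, LieSubalgebra.mem_top y⟩
          map_add' := fun _ _ => rfl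
          map_smul' := fun _ _ => rfl
          map_lie' := rfl }
      have hc : g'.comp T = g := by
        apply L0_uniq
        intro i
        rw [LieHom.comp_apply]
        fin_cases i
        · exact (h0 _ hm0).trans g0.symm
        · exact (h0 _ hm1).trans g1.symm
        · exact (h1 _ hm2).trans g2.symm
        · exact (h2 _ hm3).trans g3.symm
      ext ⟨y, hy⟩
      exact LieHom.congr_fun hc y

/-- The first factor of the first decomposition has the presentation `PresP`. -/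
lemma presP_A1 (h0 : gn k 0 ∈ A1 k ⟨0⟩) (h1 : gn k 1 ∈ A1 k ⟨0⟩) (hp : gp k ∈ A1 k ⟨0⟩)
    (hq : gq k ∈ A1 k ⟨0⟩) :
    PresP k (A1 k ⟨0⟩) ⟨gn k 0, h0⟩ ⟨gn k 1, h1⟩ ⟨gp k, hp⟩ ⟨gq k, hq⟩ := by
  refine ⟨Subtype.ext (L0_rel k), Subtype.ext (rel_pq k), ?_, ?_⟩
  · intro M _ _ a b p q hab hpq
    obtain ⟨g, g0, g1, g2, g3⟩ := L0_ex (k := k) a b p q hab
    have hgx : g (gx k) = 0 := by
      unfold gx
      simp only [map_add, map_sub, LieHom.map_lie, g0, g1, g2, g3]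
      exact hpq
    refine ⟨g.comp (A1 k ⟨0⟩).incl, g0, g1, ?_, ?_⟩
    · change g (gp k) = p
      unfold gp
      simp [map_sub, LieHom.map_lie, g2, hgx]
    · change g (gq k) = q
      unfold gq
      simp [map_sub, LieHom.map_lie, g3, hgx]
  · intro M _ _ g g' e0 e1 e2 e3
    apply hom_ext_lieSpan (A1_zero k)
    intro y hy hys
    rcases hys with rfl | rfl | rfl | hys
    · exact e0
    · exact e1
    · exact e2
    · have : y = gq k := hys
      subst this
      exact e3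

/-- The conclusion of the refinement statement. -/
def HasIsoRef {L : Type u} [LieRing L] [LieAlgebra k L] {I I' : Type u}
    (A : I → LieSubalgebra k L) (A' : I' → LieSubalgebra k L) : Prop :=
  ∃ (J : Type u) (B : J → LieSubalgebra k L) (p : J → I)
      (J' : Type u) (B' : J' → LieSubalgebra k L) (p' : J' → I'),
      (∀ i : I, IsFP (fun j : {j : J // p j = i} => B j.1) (A i)) ∧
      (∀ i : I', IsFP (fun j : {j : J' // p' j = i} => B' j.1) (A' i)) ∧
      ∃ σ : J ≃ J', ∀ j : J, Nonempty (↥(B j) ≃ₗ⁅k⁆ ↥(B' (σ j)))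


lemma lie_zero_of_le_one {L : Type u} [LieRing L] [LieAlgebra k L] {x c d : L}
    (hc : c ∈ lieSpan k L {x}) (hd : d ∈ lieSpan k L {x}) : ⁅c, d⁆ = 0 := by
  obtain ⟨s, rfl⟩ := mem_lieSpan_one hc
  obtain ⟨t, rfl⟩ := mem_lieSpan_one hd
  simp

/-- There are no isomorphic refinements. -/
theorem no_ref : ¬ HasIsoRef k (A1 k) (A2' k) := by
  rintro ⟨J, B, p, J', B', p', hB, hB', σ, hσ⟩
  obtain ⟨⟨j'0, hj'0⟩, u0, e0⟩ := (hB' ⟨0⟩).two (L0_rel k) (gn1_ne k) (A2'_zero k)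
  obtain ⟨⟨j'1, hj'1⟩, u1, e1⟩ := (hB' ⟨1⟩).one (gn2_ne k) (A2'_one k)
  obtain ⟨⟨j'2, hj'2⟩, u2, e2⟩ := (hB' ⟨2⟩).one (gn3_ne k) (A2'_two k)
  obtain ⟨⟨j1, hj1⟩, ux, ex⟩ := (hB ⟨1⟩).one (gx_ne k) (A1_one k)
  obtain ⟨j0, rfl⟩ := σ.surjective j'0
  obtain ⟨jd1, rfl⟩ := σ.surjective j'1
  obtain ⟨jd2, rfl⟩ := σ.surjective j'2
  simp only at e0 e1 e2 ex
  have u0' : ∀ j, p' (σ j) = ⟨0⟩ → j = j0 := fun j hj =>
    σ.injective (congrArg Subtype.val (u0 ⟨σ j, hj⟩))
  have u1' : ∀ j, p' (σ j) = ⟨1⟩ → j = jd1 := fun j hj =>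
    σ.injective (congrArg Subtype.val (u1 ⟨σ j, hj⟩))
  have u2' : ∀ j, p' (σ j) = ⟨2⟩ → j = jd2 := fun j hj =>
    σ.injective (congrArg Subtype.val (u2 ⟨σ j, hj⟩))
  have ux' : ∀ j, p j = ⟨1⟩ → j = j1 := fun j hj => congrArg Subtype.val (ux ⟨j, hj⟩)
  have hm0 : gn k 0 ∈ B' (σ j0) := by rw [e0, A2'_zero]; exact subset_lieSpan (by simp)
  have hm1 : gn k 1 ∈ B' (σ j0) := by rw [e0, A2'_zero]; exact subset_lieSpan (by simp)
  obtain ⟨ε0⟩ := hσ j0
  -- generators `c`, `e` of `B j0`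
  set c : B j0 := ε0.symm ⟨gn k 0, hm0⟩ with hc
  set e : B j0 := ε0.symm ⟨gn k 1, hm1⟩ with he
  have hce : ⁅c, e⁆ = e := by
    rw [hc, he, ← LieEquiv.map_lie]
    congr 1
    exact Subtype.ext (L0_rel k)
  have he0 : e ≠ 0 := by
    intro h
    have h1 : ε0 e = 0 := by rw [h]; exact ε0.toLieHom.map_zero
    rw [he, LieEquiv.apply_symm_apply] at h1
    exact gn1_ne k (congrArg Subtype.val h1)
  have hj01 : j0 ≠ j1 := by
    rintro rfl
    have h1 : (c : L0 k) ∈ lieSpan k (L0 k) {gx k} := by rw [← A1_one, ← ex]; exact c.2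
    have h2 : (e : L0 k) ∈ lieSpan k (L0 k) {gx k} := by rw [← A1_one, ← ex]; exact e.2
    have h3 := lie_zero_of_le_one k h1 h2
    apply he0
    rw [← hce]
    exact Subtype.ext h3
  have hcases : ∀ j, p j = ⟨0⟩ ∨ p j = ⟨1⟩ := by
    intro j
    generalize p j = i
    rcases i with ⟨i⟩
    fin_cases i
    · exact Or.inl rfl
    · exact Or.inr rfl
  have hcases' : ∀ j, p' j = ⟨0⟩ ∨ p' j = ⟨1⟩ ∨ p' j = ⟨2⟩ := by
    intro j
    generalize p' j = i
    rcases i with ⟨i⟩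
    fin_cases i
    · exact Or.inl rfl
    · exact Or.inr (Or.inl rfl)
    · exact Or.inr (Or.inr rfl)
  have hpj0 : p j0 = ⟨0⟩ := by
    rcases hcases j0 with h | h
    · exact h
    · exact absurd (ux' _ h) hj01
  have hne01 : (⟨0⟩ : ULift.{u} (Fin 2)) ≠ ⟨1⟩ := by
    intro h; exact absurd (congrArg ULift.down h) (by decide)
  have hne12 : (⟨1⟩ : ULift.{u} (Fin 3)) ≠ ⟨2⟩ := by
    intro h; exact absurd (congrArg ULift.down h) (by decide)
  obtain ⟨j2, y, hpj2, hy, hBj2, hall⟩ : ∃ (j2 : J) (y : L0 k), p j2 = ⟨0⟩ ∧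
      (y = gn k 2 ∨ y = gn k 3) ∧ B' (σ j2) = lieSpan k _ {y} ∧
      ∀ j, p j = ⟨0⟩ → j = j0 ∨ j = j2 := by
    rcases hcases' (σ j1) with h | h | h
    · exact absurd (u0' _ h).symm hj01
    · have h1 := u1' _ h
      subst h1
      refine ⟨jd2, gn k 3, ?_, Or.inr rfl, e2.trans (A2'_two k), ?_⟩
      · rcases hcases jd2 with h2 | h2
        · exact h2
        · exfalso
          have h3 := ux' _ h2
          rw [h3] at hj'2
          exact hne12 (hj'1.symm.trans hj'2)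
      · intro j hj
        rcases hcases' (σ j) with h2 | h2 | h2
        · exact Or.inl (u0' _ h2)
        · exfalso
          have h3 := u1' _ h2
          rw [h3] at hj
          exact hne01 (hj.symm.trans hj1)
        · exact Or.inr (u2' _ h2)
    · have h1 := u2' _ h
      subst h1
      refine ⟨jd1, gn k 2, ?_, Or.inl rfl, e1.trans (A2'_one k), ?_⟩
      · rcases hcases jd1 with h2 | h2
        · exact h2
        · exfalso
          have h3 := ux' _ h2
          rw [h3] at hj'1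
          exact hne12 (hj'1.symm.trans hj'2)
      · intro j hj
        rcases hcases' (σ j) with h2 | h2 | h2
        · exact Or.inl (u0' _ h2)
        · exact Or.inr (u1' _ h2)
        · exfalso
          have h3 := u2' _ h2
          rw [h3] at hj
          exact hne01 (hj.symm.trans hj1)
  have hmy : y ∈ B' (σ j2) := by rw [hBj2]; exact subset_lieSpan rfl
  have ε : ∀ j, (↥(B j) ≃ₗ⁅k⁆ ↥(B' (σ j))) := fun j => (hσ j).some
  -- `d`
  set d : B j2 := (ε j2).symm ⟨y, hmy⟩ with hd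
  set c' : B j0 := (ε j0).symm ⟨gn k 0, hm0⟩ with hc'
  set e' : B j0 := (ε j0).symm ⟨gn k 1, hm1⟩ with he'
  have hce' : ⁅c', e'⁆ = e' := by
    rw [hc', he', ← LieEquiv.map_lie]
    congr 1
    exact Subtype.ext (L0_rel k)
  have hA := hB ⟨0⟩
  have hle0 : B j0 ≤ A1 k ⟨0⟩ := hA.le ⟨j0, hpj0⟩
  have hle2 : B j2 ≤ A1 k ⟨0⟩ := hA.le ⟨j2, hpj2⟩
  have hF : PresF k (A1 k ⟨0⟩) ⟨c', hle0 c'.2⟩ ⟨e', hle0 e'.2⟩ ⟨d, hle2 d.2⟩ := by
    refine ⟨?_, ?_, ?_⟩
    · have h : ⁅(c' : L0 k), (e' : L0 k)⁆ = (e' : L0 k) := congrArg Subtype.val hce'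
      exact Subtype.ext h
    · intro M _ _ x₁ x₂ x₃ h12
      obtain ⟨g, g0, g1, g2, g3⟩ := L0_ex (k := k) x₁ x₂ x₃ x₃ h12
      have hgy : g y = x₃ := by rcases hy with rfl | rfl <;> assumption
      obtain ⟨G, hG⟩ := hA.ex M
        (fun j => g.comp ((B' (σ j.1)).incl.comp (ε j.1).toLieHom))
      refine ⟨G, ?_, ?_, ?_⟩
      · rw [hG ⟨j0, hpj0⟩ _ _ c'.2]
        change g ((ε j0) c' : L0 k) = x₁
        rw [hc', LieEquiv.apply_symm_apply, g0]
      · rw [hG ⟨j0, hpj0⟩ _ _ e'.2]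
        change g ((ε j0) e' : L0 k) = x₂
        rw [he', LieEquiv.apply_symm_apply, g1]
      · rw [hG ⟨j2, hpj2⟩ _ _ d.2]
        change g ((ε j2) d : L0 k) = x₃
        rw [hd, LieEquiv.apply_symm_apply, hgy]
    · intro M _ _ g g' h1 h2 h3
      apply hA.uniq
      rintro ⟨j, hj⟩ x hx hxj
      rcases hall j hj with rfl | rfl
      · have key : (g.comp (LieSubalgebra.inclusion hle0)).comp (ε j).symm.toLieHom =
            (g'.comp (LieSubalgebra.inclusion hle0)).comp (ε j).symm.toLieHom := by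
          apply hom_ext_lieSpan (e0.trans (A2'_zero k))
          intro z hz hzs
          rcases hzs with rfl | hzs
          · exact h1
          · have : z = gn k 1 := hzs
            subst this
            exact h2
        have h4 := LieHom.congr_fun key (ε j ⟨x, hxj⟩)
        simp only [LieHom.comp_apply] at h4
        have h5 : (ε j).symm.toLieHom (ε j ⟨x, hxj⟩) = ⟨x, hxj⟩ := (ε j).symm_apply_apply _
        rw [h5] at h4
        exact h4
      · have key : (g.comp (LieSubalgebra.inclusion hle2)).comp (ε j).symm.toLieHom =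
            (g'.comp (LieSubalgebra.inclusion hle2)).comp (ε j).symm.toLieHom := by
          apply hom_ext_lieSpan hBj2
          intro z hz hzs
          have : z = y := hzs
          subst this
          exact h3
        have h4 := LieHom.congr_fun key (ε j ⟨x, hxj⟩)
        simp only [LieHom.comp_apply] at h4
        have h5 : (ε j).symm.toLieHom (ε j ⟨x, hxj⟩) = ⟨x, hxj⟩ := (ε j).symm_apply_apply _
        rw [h5] at h4
        exact h4
  have h0 : gn k 0 ∈ A1 k ⟨0⟩ := by rw [A1_zero]; exact subset_lieSpan (by simp)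
  have h1 : gn k 1 ∈ A1 k ⟨0⟩ := by rw [A1_zero]; exact subset_lieSpan (by simp)
  have h2 : gp k ∈ A1 k ⟨0⟩ := by rw [A1_zero]; exact subset_lieSpan (by simp)
  have h3 : gq k ∈ A1 k ⟨0⟩ := by rw [A1_zero]; exact subset_lieSpan (by simp)
  exact key (presP_A1 k h0 h1 h2 h3) hF

end Construction

end Pool.Agent.H78
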