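import Pool.Agent.H78.So3Class

set_option autoImplicit false

namespace Pool.Agent.H78.So3

open HahnSeries

noncomputable section

lemma rrel_iff (E R : Fin 3 → V) (u v w x y z : ℂ) : RRel E R u v w x y z ↔
    br (E 0) (R 0) = (-u) • R 1 + w • R 2 ∧
    br (E 2) (R 2) = u • R 1 + (-v) • R 0 ∧
    br (E 1) (R 1) = (-w) • R 2 + v • R 0 ∧
    br (E 2) (R 0) + br (E 0) (R 2) = x • R 1 + v • R 2 + (-w) • R 0 ∧
    br (E 0) (R 1) + br (E 1) (R 0) = (-v) • R 1 + y • R 2 + u • R 0 ∧
    br (E 1) (R 2) + br (E 2) (R 1) = w • R 1 + (-u) • R 2 + z • R 0 := by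
  have hz : ∀ X : V, (0 : ℂ) • X = 0 := V_zero_smul
  constructor
  · rintro ⟨h1, h2⟩
    have a0 := congrFun h1 0
    have a1 := congrFun h1 1
    have a2 := congrFun h1 2
    have b0 := congrFun h2 0
    have b1 := congrFun h2 1
    have b2 := congrFun h2 2
    simp only [mcol, matA, matC, Fin.sum_univ_three, Matrix.cons_val_zero, Matrix.cons_val_one,
      Matrix.of_apply, Matrix.cons_val, hz, add_zero, zero_add] at a0 a1 a2 b0 b1 b2
    exact ⟨a0, a1, a2, b0, b1, b2⟩
  · rintro ⟨a0, a1, a2, b0, b1, b2⟩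
    constructor
    · funext i
      fin_cases i <;>
        simp only [mcol, matA, Fin.sum_univ_three, Matrix.cons_val_zero, Matrix.cons_val_one,
          Matrix.of_apply, Matrix.cons_val, hz, add_zero, zero_add, Fin.zero_eta, Fin.mk_one,
          Fin.reduceFinMk]
      · exact a0
      · exact a1
      · exact a2
    · funext i
      fin_cases i <;>
        simp only [mcol, matC, Fin.sum_univ_three, Matrix.cons_val_zero, Matrix.cons_val_one,
          Matrix.of_apply, Matrix.cons_val, Fin.zero_eta, Fin.mk_one, Fin.reduceFinMk]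
      · exact b0
      · exact b1
      · exact b2

/-! ### coefficients of products -/

lemma coeff2 {f g : LS} (hf : Ge (-1) f) (hg : Ge (-1) g) :
    (f * g).coeff (-2) = f.coeff (-1) * g.coeff (-1) := by
  have := hf.mul_coeff hg
  norm_num at this
  exact this

lemma coeff1 {f g : LS} (hf : Ge (-1) f) (hg : Ge (-1) g) :
    (f * g).coeff (-1) = f.coeff (-1) * g.coeff 0 + f.coeff 0 * g.coeff (-1) := by
  have := hf.mul_coeff_succ hg
  norm_num at this
  exact this

lemma coeff33 {f g : LS} (hf : Ge (-1) f) (hg : Ge (-2) g) :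
    (f * g).coeff (-3) = f.coeff (-1) * g.coeff (-2) := by
  have := hf.mul_coeff hg
  norm_num at this
  exact this

lemma coeff32 {f g : LS} (hf : Ge (-1) f) (hg : Ge (-2) g) :
    (f * g).coeff (-2) = f.coeff (-1) * g.coeff (-1) + f.coeff 0 * g.coeff (-2) := by
  have := hf.mul_coeff_succ hg
  norm_num at this
  exact this

lemma ge_smul {n : ℤ} {f : LS} (c : ℂ) (h : Ge n f) : Ge n (c • f) := by
  intro m hm
  rw [coeff_smul, h m hm]; simp

lemma RRel.smul {E R : Fin 3 → V} {u v w x y z : ℂ} (h : RRel E R u v w x y z) (q : LS) :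
    RRel E (fun i => q • R i) u v w x y z := by
  rw [rrel_iff] at *
  obtain ⟨a0, a1, a2, b0, b1, b2⟩ := h
  have hc : ∀ (c : ℂ) (X : V), c • (q • X) = q • (c • X) := by
    intro c X; rw [csmul_eq, csmul_eq, V_smul_smul, V_smul_smul, mul_comm]
  simp only [br_smul_right, hc]
  refine ⟨?_, ?_, ?_, ?_, ?_, ?_⟩
  · rw [a0]; simp only [V_smul_add]
  · rw [a1]; simp only [V_smul_add]
  · rw [a2]; simp only [V_smul_add]
  · rw [← V_smul_add, b0]; simp only [V_smul_add]
  · rw [← V_smul_add, b1]; simp only [V_smul_add]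
  · rw [← V_smul_add, b2]; simp only [V_smul_add]

lemma RRel.sub {E R R' : Fin 3 → V} {u v w x y z : ℂ} (h : RRel E R u v w x y z)
    (h' : RRel E R' u v w x y z) : RRel E (fun i => R i - R' i) u v w x y z := by
  rw [rrel_iff] at *
  obtain ⟨a0, a1, a2, b0, b1, b2⟩ := h
  obtain ⟨a0', a1', a2', b0', b1', b2'⟩ := h'
  simp only [br_sub_right, smul_sub]
  refine ⟨?_, ?_, ?_, ?_, ?_, ?_⟩
  · rw [a0, a0']; abel
  · rw [a1, a1']; abel
  · rw [a2, a2']; abel
  · calc br (E 2) (R 0) - br (E 2) (R' 0) + (br (E 0) (R 2) - br (E 0) (R' 2))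
        = (br (E 2) (R 0) + br (E 0) (R 2)) - (br (E 2) (R' 0) + br (E 0) (R' 2)) := by abel
      _ = _ := by rw [b0, b0']; abel
  · calc br (E 0) (R 1) - br (E 0) (R' 1) + (br (E 1) (R 0) - br (E 1) (R' 0))
        = (br (E 0) (R 1) + br (E 1) (R 0)) - (br (E 0) (R' 1) + br (E 1) (R' 0)) := by abel
      _ = _ := by rw [b1, b1']; abel
  · calc br (E 1) (R 2) - br (E 1) (R' 2) + (br (E 2) (R 1) - br (E 2) (R' 1))
        = (br (E 1) (R 2) + br (E 2) (R 1)) - (br (E 1) (R' 2) + br (E 2) (R' 1)) := by abel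
      _ = _ := by rw [b2, b2']; abel

/-- A solution of the homogeneous relations with vanishing first coordinate is zero. -/
lemma RRel.eq_zero {E T : Fin 3 → V} {u v w x y z : ℂ}
    (hE : ∀ i, E i - lam (-1) • e i ∈ taylor) (h : RRel E T u v w x y z) (h0 : T 0 0 = 0) :
    ∀ i, T i = 0 := by
  rw [rrel_iff] at h
  obtain ⟨a0, a1, a2, b0, b1, b2⟩ := h
  have hgeE : ∀ i, GeV (-1) (E i) := fun i => ge_neg_one (hE i)
  -- one step
  have step : ∀ m : ℤ, (∀ i, GeV m (T i)) → ∀ i, GeV (m + 1) (T i) := by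
    intro m hm
    have hprod : ∀ i j k l, (E i j * T k l).coeff (-1 + m) =
        (if j = i then 1 else 0) * (T k l).coeff m := by
      intro i j k l
      rw [(hgeE i j).mul_coeff (hm k l), coeff_neg_one (hE i) j]
    have hlow : ∀ k l, (T k l).coeff (-1 + m) = 0 := fun k l => hm k l _ (by omega)
    have f1 := fun l => congrArg (fun s : LS => s.coeff (-1 + m)) (congrFun a0 l)
    have f2 := fun l => congrArg (fun s : LS => s.coeff (-1 + m)) (congrFun a1 l)
    have f3 := fun l => congrArg (fun s : LS => s.coeff (-1 + m)) (congrFun a2 l)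
    have f4 := fun l => congrArg (fun s : LS => s.coeff (-1 + m)) (congrFun b0 l)
    have f5 := fun l => congrArg (fun s : LS => s.coeff (-1 + m)) (congrFun b1 l)
    have t02 := f1 1
    have t01 := f1 2
    have t21 := f2 0
    have t20 := f2 1
    have t12 := f3 0
    have t10 := f3 2
    have t22 := f4 1
    have t11 := f5 2
    simp only [br0, br1, br2, Pi.add_apply, Pi.smul_apply, coeff_add, coeff_sub, coeff_smul,
      hprod, hlow, smul_zero, add_zero] at t02 t01 t21 t20 t12 t10 t22 t11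
    simp [h0] at t02 t01 t21 t20 t12 t10 t22 t11
    have hall : ∀ i j, (T i j).coeff m = 0 := by
      intro i j
      fin_cases i <;> fin_cases j <;> simp [*]
    intro i j n hn
    rcases eq_or_lt_of_le (Int.le_of_lt_add_one hn) with h | h
    · rw [h]; exact hall i j
    · exact hm i j n h
  obtain ⟨N0, hN0⟩ := exists_geV (T 0)
  obtain ⟨N1, hN1⟩ := exists_geV (T 1)
  obtain ⟨N2, hN2⟩ := exists_geV (T 2)
  have hbase : ∀ i, GeV (-((N0 + N1 + N2 : ℕ) : ℤ)) (T i) := by
    intro i
    fin_cases i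
    · exact hN0.mono (by push_cast; omega)
    · exact hN1.mono (by push_cast; omega)
    · exact hN2.mono (by push_cast; omega)
  have hallm : ∀ n : ℕ, ∀ i, GeV (-((N0 + N1 + N2 : ℕ) : ℤ) + n) (T i) := by
    intro n
    induction n with
    | zero => intro i; simpa using hbase i
    | succ n ih =>
      intro i
      have := step _ ih i
      have e1 : -((N0 + N1 + N2 : ℕ) : ℤ) + ((n + 1 : ℕ) : ℤ) =
        -((N0 + N1 + N2 : ℕ) : ℤ) + (n : ℤ) + 1 := by push_cast; ring
      rw [e1]; exact this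
  intro i
  funext j
  ext n
  have := hallm (n + (N0 + N1 + N2 : ℕ) + 1).toNat i j n (by omega)
  simpa using this

/-- A solution proportional to another. -/
lemma RRel.proportional {E R R0 : Fin 3 → V} {u v w x y z : ℂ}
    (hE : ∀ i, E i - lam (-1) • e i ∈ taylor) (h0 : Admissible E R0 u v w x y z)
    (h : Admissible E R u v w x y z) :
    ∃ Q : PowerSeries ℂ, PowerSeries.constantCoeff Q = 1 ∧ ∀ i, R i = (Q : LS) • R0 i := by
  have k0 : Ge (-1) (R0 0 0) := ge_neg_one (h0.1 0) 0
  have k1 : Ge (-1) (R 0 0) := ge_neg_one (h.1 0) 0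
  obtain ⟨g0, hg0⟩ := k0.exists
  obtain ⟨g1, hg1⟩ := k1.exists
  have hconst : ∀ (X : V) (g : PowerSeries ℂ), X - lam (-1) • e 0 ∈ taylor →
      X 0 = lam (-1) * (g : LS) → PowerSeries.constantCoeff g = 1 := by
    intro X g hX hXg
    have h1 := coeff_neg_one hX 0
    rw [hXg, lam_coeff, if_pos rfl] at h1
    have h3 : (-1 : ℤ) - (-1) = ((0 : ℕ) : ℤ) := by norm_num
    rw [h3, coe_coeff] at h1
    simpa using h1
  have c0 := hconst _ g0 (h0.1 0) hg0
  have c1 := hconst _ g1 (h.1 0) hg1
  have hinv : g0 * g0⁻¹ = 1 := PowerSeries.mul_inv_cancel g0 (by rw [c0]; exact one_ne_zero)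
  refine ⟨g1 * g0⁻¹, by simp [c0, c1], ?_⟩
  have hT := RRel.sub h.2 (RRel.smul h0.2 (((g1 * g0⁻¹ : PowerSeries ℂ)) : LS))
  have hz := RRel.eq_zero hE hT (by
    change R 0 0 - ((g1 * g0⁻¹ : PowerSeries ℂ) : LS) * R0 0 0 = 0
    rw [hg0, hg1]
    have e1 : ((g1 * g0⁻¹ : PowerSeries ℂ) : LS) * (lam (-1) * (g0 : LS)) =
        lam (-1) * ((g1 * (g0 * g0⁻¹) : PowerSeries ℂ) : LS) := by
      simp only [PowerSeries.coe_mul]; ring
    rw [e1, hinv, mul_one, sub_self])
  intro i
  exact sub_eq_zero.mp (hz i)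

/-- constant terms -/
def cst (E : Fin 3 → V) (i j : Fin 3) : ℂ := (E i j).coeff 0

section Consts
variable {U : Submodule ℂ V} (hU : Factoring U) {E : Fin 3 → V} (hE : IsE U E)
include hU hE

lemma span_E {X : V} (hX : X ∈ U) (hk : GeV (-1) X) :
    X = ∑ i, (X i).coeff (-1) • E i := by
  rw [← sub_eq_zero]
  apply hU.eq_zero
  · exact U.sub_mem hX (Submodule.sum_mem _ fun i _ => U.smul_mem _ (hE i).1)
  · have hk' : GeV (-((0 + 1 : ℕ) : ℤ)) X := by simpa using hk
    have hm : ∀ i, GeV (-((0 : ℕ) : ℤ)) (E i - lam (-((0 : ℕ) : ℤ) - 1) • e i) := by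
      intro i; simpa using mem_taylor.mp (hE i).2
    have := reduce_pole hk' hm
    rw [mem_taylor]
    simpa using this

omit hU in
lemma duality {R : Fin 3 → V} (hR : IsR U R) (i j : Fin 3) : (R j i).coeff 0 = -(cst E i j) := by
  have h := mem_perp_one.mp (hR j).1 (E i) (hE i).1
  have hgeE : ∀ i, GeV (-1) (E i) := fun i => ge_neg_one (hE i).2
  have hgeR : ∀ i, GeV (-1) (R i) := fun i => ge_neg_one (hR i).2
  have hprod : ∀ l, (R j l * E i l).coeff (-1) =
      (if l = j then 1 else 0) * (E i l).coeff 0 + (R j l).coeff 0 * (if l = i then 1 else 0) := by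
    intro l
    rw [coeff1 (hgeR j l) (hgeE i l), coeff_neg_one (hR j).2 l, coeff_neg_one (hE i).2 l]
  unfold res dot at h
  rw [coeff_add, coeff_add, hprod, hprod, hprod] at h
  unfold cst
  fin_cases i <;> fin_cases j <;> simp at h ⊢ <;> linear_combination h

/-- The triple `R⁰` satisfies the admissibility relations. -/
lemma rrel_of_isR {R : Fin 3 → V} (hR : IsR U R) :
    RRel E R (cst E 0 2 + cst E 2 0) (cst E 1 2 + cst E 2 1) (cst E 0 1 + cst E 1 0)
      (2 * (cst E 0 0 - cst E 2 2)) (2 * (cst E 1 1 - cst E 0 0))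
      (2 * (cst E 2 2 - cst E 1 1)) := by
  have hgeE : ∀ i, GeV (-1) (E i) := fun i => ge_neg_one (hE i).2
  have hgeR : ∀ i, GeV (-1) (R i) := fun i => ge_neg_one (hR i).2
  have hprod2 : ∀ i j k l, (E i j * R k l).coeff (-2) =
      (if j = i then 1 else 0) * (if l = k then 1 else 0) := by
    intro i j k l
    rw [coeff2 (hgeE i j) (hgeR k l), coeff_neg_one (hE i).2 j, coeff_neg_one (hR k).2 l]
  have hprod1 : ∀ i j k l, (E i j * R k l).coeff (-1) =
      (if j = i then 1 else 0) * (-(cst E l k)) + cst E i j * (if l = k then 1 else 0) := by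
    intro i j k l
    rw [coeff1 (hgeE i j) (hgeR k l), coeff_neg_one (hE i).2 j, coeff_neg_one (hR k).2 l,
      duality hE hR]
    rfl
  have hR1 : ∀ k l, (R k l).coeff (-1) = if l = k then 1 else 0 := fun k l =>
    coeff_neg_one (hR k).2 l
  have hR2 : ∀ k l, (R k l).coeff (-2) = 0 := fun k l => hgeR k l _ (by norm_num)
  have htay : ∀ X : V, GeV (-2) X → (∀ j, (X j).coeff (-2) = 0) → (∀ j, (X j).coeff (-1) = 0) →
      X ∈ taylor := by
    intro X h1 h2 h3 j n hn
    rcases lt_trichotomy n (-2) with h | h | h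
    · exact h1 j n h
    · rw [h]; exact h2 j
    · have : n = -1 := by omega
      rw [this]; exact h3 j
  have hge : ∀ i k, GeV (-2) (br (E i) (R k)) := by
    intro i k
    have := GeV.br (hgeE i) (hgeR k)
    simpa using this
  have hge1 : ∀ (c : ℂ) k, GeV (-2) (c • R k) := by
    intro c k j
    exact (ge_smul c (hgeR k j)).mono (by norm_num)
  have hmem : ∀ i k, br (E i) (R k) ∈ perp 1 U := fun i k => br_mem_perp hU (hR k).1 (hE i).1
  have hmem1 : ∀ (c : ℂ) k, c • R k ∈ perp 1 U := fun c k => Submodule.smul_mem _ _ (hR k).1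
  rw [rrel_iff]
  refine ⟨?_, ?_, ?_, ?_, ?_, ?_⟩
  · rw [← sub_eq_zero]
    apply perp_inf_taylor hU
    · exact Submodule.sub_mem _ (hmem _ _) (Submodule.add_mem _ (hmem1 _ _) (hmem1 _ _))
    · apply htay
      · exact (hge _ _).sub ((hge1 _ _).add (hge1 _ _))
      · intro j
        fin_cases j <;> simp [br0, br1, br2, hprod2, hR2]
      · intro j
        fin_cases j <;> simp [br0, br1, br2, hprod1, hR1] <;> ring
  · rw [← sub_eq_zero]
    apply perp_inf_taylor hU
    · exact Submodule.sub_mem _ (hmem _ _) (Submodule.add_mem _ (hmem1 _ _) (hmem1 _ _))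
    · apply htay
      · exact (hge _ _).sub ((hge1 _ _).add (hge1 _ _))
      · intro j
        fin_cases j <;> simp [br0, br1, br2, hprod2, hR2]
      · intro j
        fin_cases j <;> simp [br0, br1, br2, hprod1, hR1] <;> ring
  · rw [← sub_eq_zero]
    apply perp_inf_taylor hU
    · exact Submodule.sub_mem _ (hmem _ _) (Submodule.add_mem _ (hmem1 _ _) (hmem1 _ _))
    · apply htay
      · exact (hge _ _).sub ((hge1 _ _).add (hge1 _ _))
      · intro j
        fin_cases j <;> simp [br0, br1, br2, hprod2, hR2]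
      · intro j
        fin_cases j <;> simp [br0, br1, br2, hprod1, hR1] <;> ring
  · rw [← sub_eq_zero]
    apply perp_inf_taylor hU
    · exact Submodule.sub_mem _ (Submodule.add_mem _ (hmem _ _) (hmem _ _))
        (Submodule.add_mem _ (Submodule.add_mem _ (hmem1 _ _) (hmem1 _ _)) (hmem1 _ _))
    · apply htay
      · exact ((hge _ _).add (hge _ _)).sub (((hge1 _ _).add (hge1 _ _)).add (hge1 _ _))
      · intro j
        fin_cases j <;> simp [br0, br1, br2, hprod2, hR2]
      · intro j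
        fin_cases j <;> simp [br0, br1, br2, hprod1, hR1] <;> ring
  · rw [← sub_eq_zero]
    apply perp_inf_taylor hU
    · exact Submodule.sub_mem _ (Submodule.add_mem _ (hmem _ _) (hmem _ _))
        (Submodule.add_mem _ (Submodule.add_mem _ (hmem1 _ _) (hmem1 _ _)) (hmem1 _ _))
    · apply htay
      · exact ((hge _ _).add (hge _ _)).sub (((hge1 _ _).add (hge1 _ _)).add (hge1 _ _))
      · intro j
        fin_cases j <;> simp [br0, br1, br2, hprod2, hR2]
      · intro j
        fin_cases j <;> simp [br0, br1, br2, hprod1, hR1] <;> ring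
  · rw [← sub_eq_zero]
    apply perp_inf_taylor hU
    · exact Submodule.sub_mem _ (Submodule.add_mem _ (hmem _ _) (hmem _ _))
        (Submodule.add_mem _ (Submodule.add_mem _ (hmem1 _ _) (hmem1 _ _)) (hmem1 _ _))
    · apply htay
      · exact ((hge _ _).add (hge _ _)).sub (((hge1 _ _).add (hge1 _ _)).add (hge1 _ _))
      · intro j
        fin_cases j <;> simp [br0, br1, br2, hprod2, hR2]
      · intro j
        fin_cases j <;> simp [br0, br1, br2, hprod1, hR1] <;> ring

end Consts

end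

end Pool.Agent.H78.So3
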