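import Pool.Agent.H78.So3Defs

set_option autoImplicit false

namespace Pool.Agent.H78.So3

open HahnSeries

noncomputable section

/-- The commutator of the matrices is again the matrix of a vector. -/
lemma toMat_br (x y : V) : toMat (br x y) = toMat x * toMat y - toMat y * toMat x := by
  apply Matrix.ext
  intro i j
  fin_cases i <;> fin_cases j <;> simp [toMat, br] <;> ring1

lemma br0 (x y : V) : br x y 0 = x 2 * y 1 - x 1 * y 2 := by
  simp [toMat, br]; ring

lemma br1 (x y : V) : br x y 1 = x 0 * y 2 - x 2 * y 0 := by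
  simp [toMat, br]; ring

lemma br2 (x y : V) : br x y 2 = x 1 * y 0 - x 0 * y 1 := by
  simp [toMat, br]; ring

/-! ### order -/

/-- order at least `n`. -/
def Ge (n : ℤ) (f : LS) : Prop := ∀ m < n, f.coeff m = 0

lemma Ge.exists {n : ℤ} {f : LS} (h : Ge n f) : ∃ g : PowerSeries ℂ, f = lam n * (g : LS) := by
  refine ⟨PowerSeries.mk fun k => f.coeff (n + k), ?_⟩
  ext m
  rw [lam, coeff_single_mul, one_mul]
  rw [PowerSeries.coeff_coe]
  split_ifs with hm
  · exact h m (by omega)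
  · rw [PowerSeries.coeff_mk]
    congr 1
    omega

lemma coe_coeff (g : PowerSeries ℂ) (n : ℕ) : ((g : LS)).coeff (n : ℤ) = PowerSeries.coeff n g := by
  simp

lemma coe_coeff_neg (g : PowerSeries ℂ) {n : ℤ} (hn : n < 0) : ((g : LS)).coeff n = 0 := by
  rw [PowerSeries.coeff_coe, if_pos hn]

lemma lam_coeff (n : ℤ) (f : LS) (m : ℤ) : (lam n * f).coeff m = f.coeff (m - n) := by
  rw [lam, coeff_single_mul, one_mul]

lemma lam_mul (m n : ℤ) : lam m * lam n = lam (m + n) := by
  simp [lam]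

lemma lam_zero : lam 0 = 1 := rfl

lemma ge_coe (g : PowerSeries ℂ) (n : ℤ) : Ge n (lam n * (g : LS)) := by
  intro m hm
  rw [lam_coeff, coe_coeff_neg g (by omega)]

lemma Ge.mul {a b : ℤ} {f g : LS} (hf : Ge a f) (hg : Ge b g) : Ge (a + b) (f * g) := by
  obtain ⟨f', rfl⟩ := hf.exists
  obtain ⟨g', rfl⟩ := hg.exists
  have : lam a * (f' : LS) * (lam b * (g' : LS)) = lam (a + b) * ((f' * g' : PowerSeries ℂ) : LS) := by
    rw [PowerSeries.coe_mul, ← lam_mul]; ring
  rw [this]
  exact ge_coe _ _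

lemma Ge.mul_coeff {a b : ℤ} {f g : LS} (hf : Ge a f) (hg : Ge b g) :
    (f * g).coeff (a + b) = f.coeff a * g.coeff b := by
  obtain ⟨f', rfl⟩ := hf.exists
  obtain ⟨g', rfl⟩ := hg.exists
  have : lam a * (f' : LS) * (lam b * (g' : LS)) = lam (a + b) * ((f' * g' : PowerSeries ℂ) : LS) := by
    rw [PowerSeries.coe_mul, ← lam_mul]; ring
  rw [this, lam_coeff, lam_coeff, lam_coeff]
  have h0 : ∀ x : ℤ, x - x = ((0 : ℕ) : ℤ) := by intro x; simp
  rw [h0, h0, h0, coe_coeff, coe_coeff, coe_coeff]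
  simp

lemma Ge.mul_coeff_succ {a b : ℤ} {f g : LS} (hf : Ge a f) (hg : Ge b g) :
    (f * g).coeff (a + b + 1) = f.coeff a * g.coeff (b + 1) + f.coeff (a + 1) * g.coeff b := by
  obtain ⟨f', rfl⟩ := hf.exists
  obtain ⟨g', rfl⟩ := hg.exists
  have : lam a * (f' : LS) * (lam b * (g' : LS)) = lam (a + b) * ((f' * g' : PowerSeries ℂ) : LS) := by
    rw [PowerSeries.coe_mul, ← lam_mul]; ring
  rw [this]
  simp only [lam_coeff]
  have h0 : ∀ x : ℤ, x - x = ((0 : ℕ) : ℤ) := by intro x; simp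
  have h1 : ∀ x : ℤ, x + 1 - x = ((1 : ℕ) : ℤ) := by intro x; simp
  rw [h0, h0, h1, h1, h1, coe_coeff, coe_coeff, coe_coeff, coe_coeff, coe_coeff]
  rw [PowerSeries.coeff_mul]
  simp [Finset.Nat.antidiagonal_succ]

lemma Ge.add {n : ℤ} {f g : LS} (hf : Ge n f) (hg : Ge n g) : Ge n (f + g) := by
  intro m hm; simp [hf m hm, hg m hm]

lemma Ge.sub {n : ℤ} {f g : LS} (hf : Ge n f) (hg : Ge n g) : Ge n (f - g) := by
  intro m hm; simp [hf m hm, hg m hm]

lemma Ge.mono {n m : ℤ} {f : LS} (hf : Ge n f) (h : m ≤ n) : Ge m f :=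
  fun k hk => hf k (lt_of_lt_of_le hk h)

lemma ge_lam (n : ℤ) : Ge n (lam n) := by
  intro m hm
  rw [lam, coeff_single_of_ne (ne_of_lt hm)]

lemma exists_ge (f : LS) : ∃ n : ℕ, Ge (-n) f := by
  refine ⟨f.order.natAbs, fun m hm => ?_⟩
  by_contra h
  have := order_le_of_coeff_ne_zero h
  omega

/-- order at least `n`, for vectors. -/
def GeV (n : ℤ) (x : V) : Prop := ∀ i, Ge n (x i)

lemma mem_taylor {x : V} : x ∈ taylor ↔ GeV 0 x := Iff.rfl

lemma GeV.br {a b : ℤ} {x y : V} (hx : GeV a x) (hy : GeV b y) : GeV (a + b) (br x y) := by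
  intro i
  fin_cases i
  · change Ge _ (So3.br x y 0)
    rw [br0]; exact ((hx 2).mul (hy 1)).sub ((hx 1).mul (hy 2))
  · change Ge _ (So3.br x y 1)
    rw [br1]; exact ((hx 0).mul (hy 2)).sub ((hx 2).mul (hy 0))
  · change Ge _ (So3.br x y 2)
    rw [br2]; exact ((hx 1).mul (hy 0)).sub ((hx 0).mul (hy 1))

lemma GeV.dot {a b : ℤ} {x y : V} (hx : GeV a x) (hy : GeV b y) : Ge (a + b) (dot x y) :=
  (((hx 0).mul (hy 0)).add ((hx 1).mul (hy 1))).add ((hx 2).mul (hy 2))

lemma GeV.add {n : ℤ} {x y : V} (hx : GeV n x) (hy : GeV n y) : GeV n (x + y) :=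
  fun i => (hx i).add (hy i)

lemma GeV.sub {n : ℤ} {x y : V} (hx : GeV n x) (hy : GeV n y) : GeV n (x - y) :=
  fun i => (hx i).sub (hy i)

lemma GeV.mono {n m : ℤ} {x : V} (hx : GeV n x) (h : m ≤ n) : GeV m x := fun i => (hx i).mono h

lemma GeV.smul {n m : ℤ} {f : LS} {x : V} (hf : Ge n f) (hx : GeV m x) : GeV (n + m) (f • x) :=
  fun i => hf.mul (hx i)

lemma exists_geV (x : V) : ∃ n : ℕ, GeV (-n) x := by
  obtain ⟨n0, h0⟩ := exists_ge (x 0)
  obtain ⟨n1, h1⟩ := exists_ge (x 1)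
  obtain ⟨n2, h2⟩ := exists_ge (x 2)
  refine ⟨n0 + n1 + n2, fun i => ?_⟩
  fin_cases i
  · exact h0.mono (by push_cast; omega)
  · exact h1.mono (by push_cast; omega)
  · exact h2.mono (by push_cast; omega)

lemma geV_e (i : Fin 3) : GeV 0 (e i) := by
  intro j m hm
  unfold e
  by_cases h : j = i
  · subst h
    rw [Pi.single_eq_same]
    exact ge_lam 0 m hm
  · rw [Pi.single_eq_of_ne h]; simp

/-! ### bilinearity -/

lemma br_add_left (x x' y : V) : br (x + x') y = br x y + br x' y := by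
  funext i; fin_cases i <;> simp only [Pi.add_apply, Fin.zero_eta, Fin.mk_one, Fin.reduceFinMk,
    br0, br1, br2] <;> ring

lemma br_add_right (x y y' : V) : br x (y + y') = br x y + br x y' := by
  funext i; fin_cases i <;> simp only [Pi.add_apply, Fin.zero_eta, Fin.mk_one, Fin.reduceFinMk,
    br0, br1, br2] <;> ring

lemma br_sub_left (x x' y : V) : br (x - x') y = br x y - br x' y := by
  funext i; fin_cases i <;> simp only [Pi.sub_apply, Fin.zero_eta, Fin.mk_one, Fin.reduceFinMk,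
    br0, br1, br2] <;> ring

lemma br_sub_right (x y y' : V) : br x (y - y') = br x y - br x y' := by
  funext i; fin_cases i <;> simp only [Pi.sub_apply, Fin.zero_eta, Fin.mk_one, Fin.reduceFinMk,
    br0, br1, br2] <;> ring

lemma br_smul_left (f : LS) (x y : V) : br (f • x) y = f • br x y := by
  funext i; fin_cases i <;> simp only [Pi.smul_apply, smul_eq_mul, Fin.zero_eta, Fin.mk_one,
    Fin.reduceFinMk, br0, br1, br2] <;> ring

lemma br_smul_right (f : LS) (x y : V) : br x (f • y) = f • br x y := by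
  funext i; fin_cases i <;> simp only [Pi.smul_apply, smul_eq_mul, Fin.zero_eta, Fin.mk_one,
    Fin.reduceFinMk, br0, br1, br2] <;> ring

lemma csmul_eq (c : ℂ) (x : V) : c • x = (HahnSeries.C c : LS) • x := by
  funext i; simp

lemma br_csmul_left (c : ℂ) (x y : V) : br (c • x) y = c • br x y := by
  rw [csmul_eq, csmul_eq, br_smul_left]

lemma br_csmul_right (c : ℂ) (x y : V) : br x (c • y) = c • br x y := by
  rw [csmul_eq, csmul_eq, br_smul_right]

lemma br_zero_right (x : V) : br x 0 = 0 := by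
  funext i; fin_cases i <;> simp [br0, br1, br2]

lemma smul_neg_V (f : LS) (x : V) : f • (-x) = -(f • x) := by
  funext i; simp only [Pi.smul_apply, Pi.neg_apply, smul_eq_mul]; ring

lemma dot_br (x y z : V) : dot (br x y) z = - dot y (br x z) := by
  simp only [dot, br0, br1, br2]; ring

lemma dot_add_left (x x' y : V) : dot (x + x') y = dot x y + dot x' y := by
  simp only [dot, Pi.add_apply]; ring

lemma dot_add_right (x y y' : V) : dot x (y + y') = dot x y + dot x y' := by
  simp only [dot, Pi.add_apply]; ring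

lemma dot_sub_left (x x' y : V) : dot (x - x') y = dot x y - dot x' y := by
  simp only [dot, Pi.sub_apply]; ring

lemma dot_sub_right (x y y' : V) : dot x (y - y') = dot x y - dot x y' := by
  simp only [dot, Pi.sub_apply]; ring

lemma dot_smul_left (f : LS) (x y : V) : dot (f • x) y = f * dot x y := by
  simp only [dot, Pi.smul_apply, smul_eq_mul]; ring

lemma dot_smul_right (f : LS) (x y : V) : dot x (f • y) = f * dot x y := by
  simp only [dot, Pi.smul_apply, smul_eq_mul]; ring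

lemma dot_e_right (x : V) (i : Fin 3) : dot x (e i) = x i := by
  fin_cases i <;> simp [dot, e]

lemma dot_e_left (x : V) (i : Fin 3) : dot (e i) x = x i := by
  fin_cases i <;> simp [dot, e]

lemma br_e01 : br (e 0) (e 1) = - e 2 := by
  funext i; fin_cases i <;> simp [br0, br1, br2, e]
lemma br_e12 : br (e 1) (e 2) = - e 0 := by
  funext i; fin_cases i <;> simp [br0, br1, br2, e]
lemma br_e20 : br (e 2) (e 0) = - e 1 := by
  funext i; fin_cases i <;> simp [br0, br1, br2, e]

/-- membership in `perp 1 U` -/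
lemma mem_perp_one {U : Submodule ℂ V} {X : V} :
    X ∈ perp 1 U ↔ ∀ Y ∈ U, res (dot X Y) = 0 := by
  constructor
  · intro h Y hY
    have := h Y hY
    simpa using this
  · intro h Y hY
    have := h Y hY
    simpa using this

lemma mem_perp {P : PowerSeries ℂ} {U : Submodule ℂ V} {X : V} :
    X ∈ perp P U ↔ (P : LS) • X ∈ perp 1 U := by
  rw [mem_perp_one]
  constructor
  · intro h Y hY
    rw [dot_smul_left]; exact h Y hY
  · intro h Y hY
    have := h Y hY
    rwa [dot_smul_left] at this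

/-- `R_i ∈ U^⊥` with `R_i = e_i/λ + O(1)`. -/
def IsR (U : Submodule ℂ V) (R : Fin 3 → V) : Prop :=
  ∀ i, R i ∈ perp 1 U ∧ R i - lam (-1) • e i ∈ taylor

section Factor
variable {U : Submodule ℂ V} (hU : Factoring U)
include hU

lemma Factoring.exists_sub (z : V) : ∃ x ∈ U, x - z ∈ taylor := by
  have h : z ∈ taylor ⊔ U := by rw [hU.compl.sup_eq_top]; trivial
  obtain ⟨t, ht, x, hx, rfl⟩ := Submodule.mem_sup.mp h
  refine ⟨x, hx, ?_⟩
  have : x - (t + x) = -t := by abel
  rw [this]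
  exact taylor.neg_mem ht

lemma Factoring.eq_zero {x : V} (hx : x ∈ U) (ht : x ∈ taylor) : x = 0 := by
  have : x ∈ taylor ⊓ U := ⟨ht, hx⟩
  rw [hU.compl.inf_eq_bot] at this
  exact this

lemma perp_inf_taylor {X : V} (hX : X ∈ perp 1 U) (ht : X ∈ taylor) : X = 0 := by
  have key : ∀ n : ℕ, ∀ j, (X j).coeff (n : ℤ) = 0 := by
    intro n
    induction n using Nat.strong_induction_on with
    | _ n ih =>
      intro j
      have hge : GeV n X := by
        intro i m hm
        rcases lt_or_ge m 0 with h | h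
        · exact ht i m h
        · obtain ⟨m', rfl⟩ := Int.eq_ofNat_of_zero_le h
          exact ih m' (by exact_mod_cast hm) i
      obtain ⟨Y, hY, hYt⟩ := hU.exists_sub (lam (-(n : ℤ) - 1) • e j)
      have h1 := mem_perp_one.mp hX Y hY
      have h2 : dot X Y = lam (-(n : ℤ) - 1) * X j + dot X (Y - lam (-(n : ℤ) - 1) • e j) := by
        rw [dot_sub_right, dot_smul_right, dot_e_right]; ring
      have h3 : Ge (0 + 0) (dot X (Y - lam (-(n : ℤ) - 1) • e j)) :=
        GeV.dot (mem_taylor.mp ht) (mem_taylor.mp hYt)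
      unfold res at h1
      rw [h2, coeff_add, lam_coeff, h3 (-1) (by norm_num), add_zero] at h1
      have : (-1 : ℤ) - (-(n : ℤ) - 1) = n := by ring
      rwa [this] at h1
  funext i
  ext m
  rcases lt_or_ge m 0 with h | h
  · exact ht i m h
  · obtain ⟨m', rfl⟩ := Int.eq_ofNat_of_zero_le h
    simpa using key m' i

lemma br_mem_perp {X Y : V} (hX : X ∈ perp 1 U) (hY : Y ∈ U) : br Y X ∈ perp 1 U := by
  rw [mem_perp_one] at *
  intro Z hZ
  rw [dot_br]
  have := hX _ (hU.lie_mem Y hY Z hZ)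
  simp only [res, coeff_neg] at *
  rw [this, neg_zero]

omit hU in
lemma modGen_le {R : Fin 3 → V} {N : Submodule ℂ V} (h1 : ∀ i, R i ∈ N)
    (h2 : ∀ Y ∈ U, ∀ X ∈ N, br Y X ∈ N) : modGen U R ≤ N := sInf_le ⟨h1, h2⟩

omit hU in
lemma gen_mem (R : Fin 3 → V) (i : Fin 3) : R i ∈ modGen U R := by
  rw [modGen, Submodule.mem_sInf]
  intro N hN
  exact hN.1 i

omit hU in
lemma br_mem_modGen {R : Fin 3 → V} {X Y : V} (hX : X ∈ modGen U R) (hY : Y ∈ U) :
    br Y X ∈ modGen U R := by
  rw [modGen, Submodule.mem_sInf] at *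
  intro N hN
  exact hN.2 Y hY X (hX N hN)

lemma modGen_le_perp {R : Fin 3 → V} (hR : IsR U R) : modGen U R ≤ perp 1 U :=
  modGen_le (fun i => (hR i).1) (fun _ hY _ hX => br_mem_perp hU hX hY)

/-- Leading terms in a module generated by elements `R_i = e_i/λ + O(1)`. -/
lemma leading_terms {R : Fin 3 → V} (hR : ∀ i, R i - lam (-1) • e i ∈ taylor) (k : ℕ) :
    ∀ i, ∃ m ∈ modGen U R, GeV (-(k : ℤ)) (m - lam (-(k : ℤ) - 1) • e i) := by
  induction k with
  | zero =>
    intro i
    refine ⟨R i, gen_mem R i, ?_⟩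
    simpa using mem_taylor.mp (hR i)
  | succ k ih =>
    -- step
    have step : ∀ j i : Fin 3, ∃ m ∈ modGen U R,
        GeV (-((k + 1 : ℕ) : ℤ)) (m - lam (-((k + 1 : ℕ) : ℤ) - 1) • br (e j) (e i)) := by
      intro j i
      obtain ⟨Y, hY, hYt⟩ := hU.exists_sub (lam (-1) • e j)
      obtain ⟨m, hm, hmt⟩ := ih i
      refine ⟨br Y m, br_mem_modGen hm hY, ?_⟩
      set T := Y - lam (-1) • e j with hT
      set m' := m - lam (-(k : ℤ) - 1) • e i with hm'
      have e1 : Y = lam (-1) • e j + T := by rw [hT]; abel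
      have e2 : m = lam (-(k : ℤ) - 1) • e i + m' := by rw [hm']; abel
      have e3 : br Y m - lam (-((k + 1 : ℕ) : ℤ) - 1) • br (e j) (e i) =
          lam (-1) • br (e j) m' + lam (-(k : ℤ) - 1) • br T (e i) + br T m' := by
        rw [e1, e2, br_add_left, br_add_right, br_add_right, br_smul_left, br_smul_left,
          br_smul_right, br_smul_right, smul_smul, lam_mul]
        have : (-1 : ℤ) + (-(k : ℤ) - 1) = -((k + 1 : ℕ) : ℤ) - 1 := by push_cast; ring
        rw [this]
        abel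
      rw [e3]
      have g1 : GeV (-1 + (0 + -(k : ℤ))) (lam (-1) • br (e j) m') :=
        GeV.smul (ge_lam _) (GeV.br (geV_e j) hmt)
      have g2 : GeV ((-(k : ℤ) - 1) + (0 + 0)) (lam (-(k : ℤ) - 1) • br T (e i)) :=
        GeV.smul (ge_lam _) (GeV.br (mem_taylor.mp hYt) (geV_e i))
      have g3 : GeV (0 + -(k : ℤ)) (br T m') := GeV.br (mem_taylor.mp hYt) hmt
      refine ((g1.mono ?_).add (g2.mono ?_)).add (g3.mono ?_) <;> push_cast <;> omega
    have neg : ∀ i, (∃ m ∈ modGen U R, GeV (-((k + 1 : ℕ) : ℤ))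
        (m - lam (-((k + 1 : ℕ) : ℤ) - 1) • (- e i))) →
        ∃ m ∈ modGen U R, GeV (-((k + 1 : ℕ) : ℤ)) (m - lam (-((k + 1 : ℕ) : ℤ) - 1) • e i) := by
      rintro i ⟨m, hm, h⟩
      refine ⟨-m, Submodule.neg_mem _ hm, ?_⟩
      have : -m - lam (-((k + 1 : ℕ) : ℤ) - 1) • e i =
        -(m - lam (-((k + 1 : ℕ) : ℤ) - 1) • (- e i)) := by
        rw [smul_neg_V]; abel
      rw [this]
      intro j n hn
      simp only [Pi.neg_apply, coeff_neg, neg_eq_zero]
      exact h j n hn
    intro i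
    apply neg
    fin_cases i
    · have := step 1 2; rwa [br_e12] at this
    · have := step 2 0; rwa [br_e20] at this
    · have := step 0 1; rwa [br_e01] at this

omit hU in
/-- Reduction of the pole order. -/
lemma reduce_pole {k : ℕ} {X : V} (hX : GeV (-((k + 1 : ℕ) : ℤ)) X) {m : Fin 3 → V}
    (hm : ∀ i, GeV (-(k : ℤ)) (m i - lam (-(k : ℤ) - 1) • e i)) :
    GeV (-(k : ℤ)) (X - ∑ i, (X i).coeff (-(k : ℤ) - 1) • m i) := by
  have h1 : X - ∑ i, (X i).coeff (-(k : ℤ) - 1) • m i =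
      (X - ∑ i, (X i).coeff (-(k : ℤ) - 1) • (lam (-(k : ℤ) - 1) • e i)) -
      ∑ i, (X i).coeff (-(k : ℤ) - 1) • (m i - lam (-(k : ℤ) - 1) • e i) := by
    simp only [smul_sub, Finset.sum_sub_distrib]; abel
  rw [h1]
  apply GeV.sub
  · intro j n hn
    have h2 : (X - ∑ i, (X i).coeff (-(k : ℤ) - 1) • (lam (-(k : ℤ) - 1) • e i)) j =
        X j - (X j).coeff (-(k : ℤ) - 1) • lam (-(k : ℤ) - 1) := by
      rw [Fin.sum_univ_three]
      fin_cases j <;> simp [e]
    rw [h2]
    rcases eq_or_ne n (-(k : ℤ) - 1) with rfl | hne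
    · simp [lam]
    · have h3 : n < -((k + 1 : ℕ) : ℤ) := by push_cast; omega
      rw [coeff_sub, hX j n h3, coeff_smul, lam, coeff_single_of_ne hne]
      simp
  · rw [Fin.sum_univ_three]
    have h4 : ∀ i, GeV (-(k : ℤ)) ((X i).coeff (-(k : ℤ) - 1) • (m i - lam (-(k : ℤ) - 1) • e i)) := by
      intro i j n hn
      have := hm i j n hn
      simp only [Pi.smul_apply, coeff_smul] at *
      rw [this, smul_zero]
    exact ((h4 0).add (h4 1)).add (h4 2)

/-- The module generated by `R⁰` is the orthogonal complement. -/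
lemma modGen_eq_perp {R : Fin 3 → V} (hR : IsR U R) : modGen U R = perp 1 U := by
  apply le_antisymm (modGen_le_perp hU hR)
  have key : ∀ k : ℕ, ∀ X ∈ perp 1 U, GeV (-(k : ℤ)) X → X ∈ modGen U R := by
    intro k
    induction k with
    | zero =>
      intro X hX h
      have : X = 0 := perp_inf_taylor hU hX (mem_taylor.mpr (by simpa using h))
      rw [this]; exact Submodule.zero_mem _
    | succ k ih =>
      intro X hX h
      choose m hm hmt using leading_terms hU (fun i => (hR i).2) k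
      have h1 := reduce_pole h hmt
      have hs : ∑ i, (X i).coeff (-(k : ℤ) - 1) • m i ∈ modGen U R :=
        Submodule.sum_mem _ fun i _ => Submodule.smul_mem _ _ (hm i)
      have h2 := ih _ (Submodule.sub_mem _ hX (modGen_le_perp hU hR hs)) h1
      have : X = (X - ∑ i, (X i).coeff (-(k : ℤ) - 1) • m i) +
        ∑ i, (X i).coeff (-(k : ℤ) - 1) • m i := by abel
      rw [this]
      exact Submodule.add_mem _ h2 hs
  intro X hX
  obtain ⟨k, hk⟩ := exists_geV X
  exact key k X hX hk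

end Factor

end

end Pool.Agent.H78.So3
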