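import Pool.Agent.H78.So3Main

set_option autoImplicit false

namespace Pool.Agent.H78.So3

open HahnSeries

noncomputable section

lemma V_add_smul (f g : LS) (x : V) : (f + g) • x = f • x + g • x := by
  funext i; simp only [Pi.smul_apply, Pi.add_apply, smul_eq_mul]; ring

lemma V_sub_smul (f g : LS) (x : V) : (f - g) • x = f • x - g • x := by
  funext i; simp only [Pi.smul_apply, Pi.sub_apply, smul_eq_mul]; ring

lemma V_neg_smul (f : LS) (x : V) : (-f) • x = -(f • x) := by
  funext i; simp only [Pi.smul_apply, Pi.neg_apply, smul_eq_mul]; ring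

lemma V_smul_add (f : LS) (x y : V) : f • (x + y) = f • x + f • y := by
  funext i; simp only [Pi.smul_apply, Pi.add_apply, smul_eq_mul]; ring

lemma V_smul_sub (f : LS) (x y : V) : f • (x - y) = f • x - f • y := by
  funext i; simp only [Pi.smul_apply, Pi.sub_apply, smul_eq_mul]; ring

lemma V_zero_smul (x : V) : (0 : ℂ) • x = 0 := by
  rw [csmul_eq]; funext i; simp

lemma V_eq_zero_of_smul {f : LS} (hf : f ≠ 0) {x : V} (h : f • x = 0) : x = 0 := by
  funext i
  have h1 : f * x i = 0 := congrFun h i
  exact (mul_eq_zero.mp h1).resolve_left hf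

lemma V_smul_smul (f g : LS) (x : V) : f • (g • x) = (f * g) • x := by
  funext i; simp only [Pi.smul_apply, smul_eq_mul]; ring

lemma V_one_smul (x : V) : (1 : LS) • x = x := by
  funext i; simp

lemma ge_taylor {x : V} (hx : x ∈ taylor) (i : Fin 3) : Ge 0 (x i) := hx i

lemma comp_eq (X : V) (i : Fin 3) : (X - lam (-1) • e i) i = X i - lam (-1) := by
  simp [e]

lemma comp_ne (X : V) {i j : Fin 3} (h : j ≠ i) : (X - lam (-1) • e i) j = X j := by
  simp [e, h]

lemma lam_ne_zero (n : ℤ) : lam n ≠ 0 := by
  intro h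
  have := congrArg (fun f : LS => f.coeff n) h
  simp [lam] at this

lemma lam_coeff_self (n : ℤ) : (lam n).coeff n = 1 := by simp [lam]

lemma lam_coeff_ne {n m : ℤ} (h : m ≠ n) : (lam n).coeff m = 0 := by
  rw [lam, coeff_single_of_ne h]

/-- For `X = e_i/λ + O(1)`. -/
lemma coeff_neg_one {X : V} {i : Fin 3} (h : X - lam (-1) • e i ∈ taylor) (j : Fin 3) :
    (X j).coeff (-1) = if j = i then 1 else 0 := by
  split_ifs with hji
  · subst hji
    have h1 := h j (-1) (by norm_num)
    rw [comp_eq, coeff_sub, lam_coeff_self, sub_eq_zero] at h1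
    exact h1
  · have h1 := h j (-1) (by norm_num)
    rwa [comp_ne _ hji] at h1

lemma ge_neg_one {X : V} {i : Fin 3} (h : X - lam (-1) • e i ∈ taylor) : GeV (-1) X := by
  intro j m hm
  by_cases hji : j = i
  · subst hji
    have h1 := h j m (by omega)
    rw [comp_eq, coeff_sub, lam_coeff_ne (by omega), sub_zero] at h1
    exact h1
  · have h1 := h j m (by omega)
    rwa [comp_ne _ hji] at h1

lemma ge_zero_of_ne {X : V} {i j : Fin 3} (h : X - lam (-1) • e i ∈ taylor) (hji : j ≠ i) :
    Ge 0 (X j) := by
  intro m hm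
  have h1 := h j m hm
  rwa [comp_ne _ hji] at h1

lemma e_smul_ne {f : LS} {i : Fin 3} (h : f • e i = 0) : f = 0 := by
  have := congrFun h i
  simpa [e] using this

section Main
variable {U : Submodule ℂ V} (hU : Factoring U)
include hU

/-- First half of the classification. -/
lemma forward {R : Fin 3 → V} (hR : IsR U R) (S P : PowerSeries ℂ)
    (h : modGen U (fun i => R i + (S : LS) • e i) = perp P U) :
    S = 0 ∨ ∃ f : LS, ∀ i, R i = f • e i := by
  have hmem : ∀ i, (P : LS) • (R i + (S : LS) • e i) ∈ perp 1 U := by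
    intro i
    rw [← mem_perp, ← h]
    exact gen_mem (U := U) (fun i => R i + (S : LS) • e i) i
  have hP0 : P ≠ 0 := by
    rintro rfl
    apply modGen_ne_top hU (fun i => R i + (S : LS) • e i)
    rw [h, eq_top_iff]
    intro X _
    rw [mem_perp]
    simp
  have hP0' : (P : LS) ≠ 0 := by
    intro h0
    apply hP0
    exact HahnSeries.ofPowerSeries_injective (by rw [h0, map_zero])
  have hSt : ∀ i, (S : LS) • e i ∈ taylor := by
    intro i
    rw [mem_taylor]
    have := GeV.smul (ge_power S) (geV_e i)
    simpa using this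
  have hR' : ∀ i, (R i + (S : LS) • e i) - lam (-1) • e i ∈ taylor := by
    intro i
    have : (R i + (S : LS) • e i) - lam (-1) • e i = (R i - lam (-1) • e i) + (S : LS) • e i := by
      abel
    rw [this]
    exact taylor.add_mem (hR i).2 (hSt i)
  set c := PowerSeries.constantCoeff P with hc
  -- decompose `P = c + λ P'`
  obtain ⟨P', hP'⟩ : ∃ P' : PowerSeries ℂ, P = PowerSeries.C c + PowerSeries.X * P' := by
    refine ⟨PowerSeries.mk fun n => PowerSeries.coeff (n + 1) P, ?_⟩
    ext n
    rcases n with _ | n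
    · simp [hc]
    · simp [PowerSeries.coeff_succ_X_mul]
  have hPc : (P : LS) = HahnSeries.C c + lam 1 * (P' : LS) := by
    conv_lhs => rw [hP']
    rw [PowerSeries.coe_add, PowerSeries.coe_mul, PowerSeries.coe_C, PowerSeries.coe_X]
    rfl
  have htay : ∀ i, (P : LS) • (R i + (S : LS) • e i) - c • R i ∈ taylor := by
    intro i
    have e1 : (P : LS) • (R i + (S : LS) • e i) - c • R i =
        c • ((S : LS) • e i) + (lam 1 * (P' : LS)) • (R i + (S : LS) • e i) := by
      rw [csmul_eq c (R i), csmul_eq c ((S : LS) • e i), hPc, V_add_smul, V_smul_add (C c : LS)]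
      abel
    rw [e1]
    apply taylor.add_mem
    · exact taylor.smul_mem _ (hSt i)
    · rw [mem_taylor]
      have := GeV.smul ((ge_lam 1).mul (ge_power P')) (ge_neg_one (hR' i))
      simpa using this
  have hzero : ∀ i, (P : LS) • (R i + (S : LS) • e i) = c • R i := by
    intro i
    rw [← sub_eq_zero]
    apply perp_inf_taylor hU _ (htay i)
    exact Submodule.sub_mem _ (hmem i) (Submodule.smul_mem _ _ (hR i).1)
  by_cases hc0 : c = 0
  · exfalso
    have h1 := hzero 0
    rw [hc0, V_zero_smul] at h1
    have h2 := V_eq_zero_of_smul hP0' h1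
    have h3 := coeff_neg_one (hR' 0) 0
    rw [h2] at h3
    simp at h3
  by_cases hPc' : (P : LS) = C c
  · left
    have h1 := hzero 0
    rw [hPc', csmul_eq, V_smul_add, add_eq_left, V_smul_smul] at h1
    have h2 := e_smul_ne h1
    have h3 : (C c : LS) ≠ 0 := by rwa [← hPc']
    have h4 := (mul_eq_zero.mp h2).resolve_left h3
    exact HahnSeries.ofPowerSeries_injective (by rw [h4, map_zero])
  · right
    refine ⟨-((P : LS) * (S : LS)) / ((P : LS) - C c), fun i => ?_⟩
    have h1 := hzero i
    rw [csmul_eq, V_smul_add, V_smul_smul] at h1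
    have h2 : ((P : LS) - C c) • R i = (-((P : LS) * (S : LS))) • e i := by
      rw [V_sub_smul, V_neg_smul, ← h1]
      abel
    have h3 : (P : LS) - C c ≠ 0 := sub_ne_zero.mpr hPc'
    have h4 : R i = ((P : LS) - C c)⁻¹ • (((P : LS) - C c) • R i) := by
      rw [V_smul_smul, inv_mul_cancel₀ h3, V_one_smul]
    rw [h4, h2, V_smul_smul, div_eq_inv_mul]

/-- Second half of the classification. -/
lemma backward {R : Fin 3 → V} (hR : IsR U R) (S : PowerSeries ℂ)
    (h : S = 0 ∨ ∃ f : LS, ∀ i, R i = f • e i) :
    ∃ P : PowerSeries ℂ, modGen U (fun i => R i + (S : LS) • e i) = perp P U := by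
  rcases h with rfl | ⟨f, hf⟩
  · refine ⟨1, ?_⟩
    rw [← modGen_eq_perp hU hR]
    congr 1
    funext i
    simp
  · -- `f = λ⁻¹ g`
    have hf1 : Ge (-1) f := by
      have := ge_neg_one (hR 0).2 0
      rw [hf 0] at this
      simpa [e] using this
    obtain ⟨g, hg⟩ := hf1.exists
    have hg0 : PowerSeries.constantCoeff g = 1 := by
      have h1 := coeff_neg_one (hR 0).2 0
      rw [hf 0] at h1
      have h2 : (f • e 0) 0 = f := by simp [e]
      rw [h2, hg, lam_coeff, if_pos rfl] at h1
      have h3 : (-1 : ℤ) - (-1) = ((0 : ℕ) : ℤ) := by norm_num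
      rw [h3, coe_coeff] at h1
      simpa using h1
    have hgi : g * g⁻¹ = 1 := PowerSeries.mul_inv_cancel g (by rw [hg0]; exact one_ne_zero)
    set Q : PowerSeries ℂ := 1 + S * (PowerSeries.X * g⁻¹) with hQ
    have hQ0 : PowerSeries.constantCoeff Q = 1 := by simp [hQ]
    have hQi : Q⁻¹ * Q = 1 := by
      rw [mul_comm]; exact PowerSeries.mul_inv_cancel Q (by rw [hQ0]; exact one_ne_zero)
    refine ⟨Q⁻¹, ?_⟩
    rw [← modGen_scale hU hR hQi]
    congr 1
    funext i
    rw [hf i, ← V_add_smul, V_smul_smul]
    congr 1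
    rw [hQ, PowerSeries.coe_add, PowerSeries.coe_one, PowerSeries.coe_mul, PowerSeries.coe_mul,
      PowerSeries.coe_X, hg]
    have h1 : (g : LS) * ((g⁻¹ : PowerSeries ℂ) : LS) = 1 := by
      rw [← PowerSeries.coe_mul, hgi, PowerSeries.coe_one]
    have h2 : lam 1 * lam (-1) = 1 := by rw [lam_mul]; rfl
    have h3 : (single 1 (1 : ℂ) : LS) = lam 1 := rfl
    rw [h3]
    calc lam (-1) * (g : LS) + (S : LS) = lam (-1) * (g : LS) +
          (S : LS) * ((lam 1 * lam (-1)) * ((g : LS) * ((g⁻¹ : PowerSeries ℂ) : LS))) := by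
          rw [h1, h2]; ring
      _ = _ := by ring


/-- If `R_i = f e_i` then `E_i = h e_i`. -/
lemma E_of_R {E R : Fin 3 → V} (hE : IsE U E) (hR : IsR U R) {f : LS}
    (hf : ∀ i, R i = f • e i) : ∃ h : LS, ∀ i, E i = h • e i := by
  have hf1 : Ge (-1) f := by
    have := ge_neg_one (hR 0).2 0
    rw [hf 0] at this
    simpa [e] using this
  have hfr : f.coeff (-1) = 1 := by
    have h1 := coeff_neg_one (hR 0).2 0
    rw [hf 0] at h1
    have h2 : (f • e 0) 0 = f := by simp [e]
    rwa [h2, if_pos rfl] at h1
  -- taylor vectors `v` with `f v ∈ U^⊥` are constant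
  have hconst : ∀ v : V, v ∈ taylor → f • v ∈ perp 1 U → ∀ j, v j = C ((v j).coeff 0) := by
    intro v hv hfv j
    have h1 : f • (v - ∑ i, (C ((v i).coeff 0) : LS) • e i) = 0 := by
      apply perp_inf_taylor hU
      · rw [V_smul_sub]
        apply Submodule.sub_mem _ hfv
        have h2 : f • (∑ i, (C ((v i).coeff 0) : LS) • e i) = ∑ i, ((v i).coeff 0) • R i := by
          simp only [Fin.sum_univ_three, V_smul_add, hf, csmul_eq, V_smul_smul, mul_comm f]
        rw [h2]
        exact Submodule.sum_mem _ fun i _ => Submodule.smul_mem _ _ (hR i).1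
      · rw [mem_taylor]
        have h3 : GeV 1 (v - ∑ i, (C ((v i).coeff 0) : LS) • e i) := by
          intro l m hm
          have h4 : (v - ∑ i, (C ((v i).coeff 0) : LS) • e i) l = v l - C ((v l).coeff 0) := by
            rw [Fin.sum_univ_three]
            fin_cases l <;> simp [e]
          rw [h4]
          rcases lt_trichotomy m 0 with h | rfl | h
          · rw [coeff_sub, hv l m h]
            simp [C_apply, coeff_single_of_ne (ne_of_lt h)]
          · simp [C_apply]
          · omega
        have := GeV.smul hf1 h3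
        simpa using this
    have hf0 : f ≠ 0 := by
      rintro rfl
      simp at hfr
    have h5 := V_eq_zero_of_smul hf0 h1
    have h6 := congrFun h5 j
    have h7 : (v - ∑ i, (C ((v i).coeff 0) : LS) • e i) j = v j - C ((v j).coeff 0) := by
      rw [Fin.sum_univ_three]
      fin_cases j <;> simp [e]
    rw [h7] at h6
    exact sub_eq_zero.mp h6
  -- residues
  have hres : ∀ i j, res (f * E i j) = 0 := by
    intro i j
    have := mem_perp_one.mp (hR j).1 (E i) (hE i).1
    rwa [hf, dot_smul_left, dot_e_left] at this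
  have hresC : ∀ c : ℂ, res (f * (C c : LS)) = c := by
    intro c
    unfold res
    rw [mul_comm, HahnSeries.C_mul_eq_smul, coeff_smul, hfr]
    simp
  have hmem : ∀ i j, f • br (E i) (e j) ∈ perp 1 U := by
    intro i j
    rw [← br_smul_right, ← hf]
    exact br_mem_perp hU (hR j).1 (hE i).1
  -- off-diagonal entries
  have hoff : ∀ i j, j ≠ i → E i j = 0 := by
    intro i j hji
    -- the vector `[E_i, e_i]` is Taylor
    have ht : br (E i) (e i) ∈ taylor := by
      have e1 : E i = lam (-1) • e i + (E i - lam (-1) • e i) := by abel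
      have e2 : br (e i) (e i) = 0 := by
        funext l; fin_cases l <;> simp [br0, br1, br2, mul_comm]
      rw [e1, br_add_left, br_smul_left, e2]
      rw [mem_taylor]
      have := GeV.br (mem_taylor.mp (hE i).2) (geV_e i)
      have h0 : lam (-1) • (0 : V) = 0 := by funext l; simp
      rw [h0, zero_add]
      simpa using this
    have hc := hconst _ ht (hmem i i)
    -- read off the component
    have hcomp : ∃ c : ℂ, E i j = C c := by
      have key : ∀ l, ∃ c : ℂ, br (E i) (e i) l = C c := fun l => ⟨_, hc l⟩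
      have key' : ∀ l, ∃ c : ℂ, -(br (E i) (e i) l) = C c := fun l =>
        ⟨-(br (E i) (e i) l).coeff 0, by rw [map_neg, ← hc l]⟩
      fin_cases i <;> fin_cases j
      · exact absurd rfl hji
      · obtain ⟨c, h⟩ := key 2
        refine ⟨c, ?_⟩
        rw [← h]; simp [br2, e]
      · obtain ⟨c, h⟩ := key' 1
        refine ⟨c, ?_⟩
        rw [← h]; simp [br1, e]
      · obtain ⟨c, h⟩ := key' 2
        refine ⟨c, ?_⟩
        rw [← h]; simp [br2, e]
      · exact absurd rfl hji
      · obtain ⟨c, h⟩ := key 0
        refine ⟨c, ?_⟩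
        rw [← h]; simp [br0, e]
      · obtain ⟨c, h⟩ := key 1
        refine ⟨c, ?_⟩
        rw [← h]; simp [br1, e]
      · obtain ⟨c, h⟩ := key' 0
        refine ⟨c, ?_⟩
        rw [← h]; simp [br0, e]
      · exact absurd rfl hji
    obtain ⟨c, hc⟩ := hcomp
    have h1 := hres i j
    rw [hc, hresC] at h1
    rw [hc, h1, map_zero]
  -- diagonal entries
  have hdiag : ∀ i j, i ≠ j → E i i = E j j := by
    intro i j hij
    have ht : br (E i) (e j) + br (E j) (e i) ∈ taylor := by
      have e1 : E i = lam (-1) • e i + (E i - lam (-1) • e i) := by abel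
      have e1' : E j = lam (-1) • e j + (E j - lam (-1) • e j) := by abel
      have e2 : br (e i) (e j) = - br (e j) (e i) := by
        funext l; fin_cases l <;> simp [br0, br1, br2] <;> ring
      have e3 : br (E i) (e j) + br (E j) (e i) =
          br (E i - lam (-1) • e i) (e j) + br (E j - lam (-1) • e j) (e i) := by
        rw [br_sub_left, br_sub_left, br_smul_left, br_smul_left, e2, smul_neg_V]
        abel
      rw [e3, mem_taylor]
      have h1 := GeV.br (mem_taylor.mp (hE i).2) (geV_e j)
      have h2 := GeV.br (mem_taylor.mp (hE j).2) (geV_e i)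
      simp only [add_zero] at h1 h2
      exact h1.add h2
    have hm : f • (br (E i) (e j) + br (E j) (e i)) ∈ perp 1 U := by
      rw [V_smul_add]
      exact Submodule.add_mem _ (hmem i j) (hmem j i)
    have hc := hconst _ ht hm
    have hcomp : ∃ c : ℂ, E i i - E j j = C c := by
      have key : ∀ l, ∃ c : ℂ, (br (E i) (e j) + br (E j) (e i)) l = C c := fun l => ⟨_, hc l⟩
      have key' : ∀ l, ∃ c : ℂ, -((br (E i) (e j) + br (E j) (e i)) l) = C c := fun l =>
        ⟨-((br (E i) (e j) + br (E j) (e i)) l).coeff 0, by rw [map_neg, ← hc l]⟩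
      fin_cases i <;> fin_cases j
      · exact absurd rfl hij
      · obtain ⟨c, h⟩ := key' 2
        refine ⟨c, ?_⟩
        rw [← h]; simp [br2, e]; ring
      · obtain ⟨c, h⟩ := key 1
        refine ⟨c, ?_⟩
        rw [← h]; simp [br1, e]; ring
      · obtain ⟨c, h⟩ := key 2
        refine ⟨c, ?_⟩
        rw [← h]; simp [br2, e]; ring
      · exact absurd rfl hij
      · obtain ⟨c, h⟩ := key' 0
        refine ⟨c, ?_⟩
        rw [← h]; simp [br0, e]; ring
      · obtain ⟨c, h⟩ := key' 1
        refine ⟨c, ?_⟩
        rw [← h]; simp [br1, e]; ring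
      · obtain ⟨c, h⟩ := key 0
        refine ⟨c, ?_⟩
        rw [← h]; simp [br0, e]; ring
      · exact absurd rfl hij
    obtain ⟨c, hc'⟩ := hcomp
    have h1 : res (f * (E i i - E j j)) = 0 := by
      rw [mul_sub]
      have h2 := hres i i
      have h3 := hres j j
      simp only [res, coeff_sub] at *
      rw [h2, h3, sub_zero]
    rw [hc', hresC] at h1
    rw [h1, map_zero, sub_eq_zero] at hc'
    exact hc'
  refine ⟨E 0 0, fun i => ?_⟩
  funext j
  by_cases hji : j = i
  · subst hji
    have : (E 0 0 • e j) j = E 0 0 := by simp [e]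
    rw [this]
    by_cases h0 : j = 0
    · rw [h0]
    · exact hdiag j 0 h0
  · rw [hoff i j hji]
    simp [e, hji]

/-- If `E_i = h e_i` then `R_i = f e_i`. -/
lemma R_of_E {E R : Fin 3 → V} (hE : IsE U E) (hR : IsR U R) {h : LS}
    (hh : ∀ i, E i = h • e i) : ∃ f : LS, ∀ i, R i = f • e i := by
  have hh1 : Ge (-1) h := by
    have := ge_neg_one (hE 0).2 0
    rw [hh 0] at this
    simpa [e] using this
  have hh2 : Ge 0 (h - lam (-1)) := by
    have h1 := (hE 0).2 0
    rw [comp_eq, hh 0] at h1
    have h2 : (h • e 0) 0 = h := by simp [e]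
    rw [h2] at h1
    exact h1
  -- powers of `h`
  have hpow : ∀ k : ℕ, ∀ i, h ^ (k + 1) • e i ∈ U := by
    intro k
    induction k with
    | zero => intro i; simpa [← hh] using (hE i).1
    | succ k ih =>
      have step : ∀ i j, h ^ (k + 1 + 1) • br (e j) (e i) ∈ U := by
        intro i j
        have h1 := hU.lie_mem _ (hE j).1 _ (ih i)
        rw [hh, br_smul_left, br_smul_right, V_smul_smul] at h1
        rwa [pow_succ' h (k + 1)]
      have hneg : ∀ i, h ^ (k + 1 + 1) • (- e i) ∈ U → h ^ (k + 1 + 1) • e i ∈ U := by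
        intro i h1
        rw [smul_neg_V] at h1
        exact (U.neg_mem_iff).mp h1
      intro i
      apply hneg
      fin_cases i
      · have := step 2 1; rwa [br_e12] at this
      · have := step 0 2; rwa [br_e20] at this
      · have := step 1 0; rwa [br_e01] at this
  have hlead : ∀ k : ℕ, Ge (-(k : ℤ)) (h ^ (k + 1) - lam (-(k : ℤ) - 1)) := by
    intro k
    induction k with
    | zero => simpa using hh2
    | succ k ih =>
      have e1 : h ^ (k + 1 + 1) - lam (-((k + 1 : ℕ) : ℤ) - 1) =
          h * (h ^ (k + 1) - lam (-(k : ℤ) - 1)) + (h - lam (-1)) * lam (-(k : ℤ) - 1) := by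
        have : lam (-((k + 1 : ℕ) : ℤ) - 1) = lam (-1) * lam (-(k : ℤ) - 1) := by
          rw [lam_mul]; congr 1; push_cast; ring
        rw [this]; ring
      rw [e1]
      have g1 := hh1.mul ih
      have g2 := hh2.mul (ge_lam (-(k : ℤ) - 1))
      exact (g1.mono (by push_cast; omega)).add (g2.mono (by push_cast; omega))
  -- orthogonality to all powers implies orthogonality to `U`
  have horth : ∀ Z : V, (∀ k i, res (dot Z (h ^ (k + 1) • e i)) = 0) → Z ∈ perp 1 U := by
    intro Z hZ
    rw [mem_perp_one]
    have key : ∀ k : ℕ, ∀ X ∈ U, GeV (-(k : ℤ)) X → res (dot Z X) = 0 := by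
      intro k
      induction k with
      | zero =>
        intro X hX hk
        have : X = 0 := hU.eq_zero hX (mem_taylor.mpr (by simpa using hk))
        rw [this]; simp [dot, res]
      | succ k ih =>
        intro X hX hk
        have hm : ∀ i, GeV (-(k : ℤ)) (h ^ (k + 1) • e i - lam (-(k : ℤ) - 1) • e i) := by
          intro i
          rw [← V_sub_smul]
          have := GeV.smul (hlead k) (geV_e i)
          simpa using this
        have h1 := reduce_pole hk hm
        have hs : ∑ i, (X i).coeff (-(k : ℤ) - 1) • (h ^ (k + 1) • e i) ∈ U :=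
          Submodule.sum_mem _ fun i _ => Submodule.smul_mem _ _ (hpow k i)
        have h2 := ih _ (U.sub_mem hX hs) h1
        have h3 : X = (X - ∑ i, (X i).coeff (-(k : ℤ) - 1) • (h ^ (k + 1) • e i)) +
          ∑ i, (X i).coeff (-(k : ℤ) - 1) • (h ^ (k + 1) • e i) := by abel
        have hlin : ∀ (c : ℂ) (y : V), res (dot Z (c • y)) = c * res (dot Z y) := by
          intro c y
          rw [csmul_eq, dot_smul_right]
          simp [res]
        have hadd : ∀ (y z : V), res (dot Z (y + z)) = res (dot Z y) + res (dot Z z) := by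
          intro y z
          rw [dot_add_right]; simp [res]
        rw [h3, hadd, h2, Fin.sum_univ_three, hadd, hadd, hlin, hlin, hlin, hZ, hZ, hZ]
        simp
    intro X hX
    obtain ⟨k, hk⟩ := exists_geV X
    exact key k X hX hk
  have hRr : ∀ l j k, res (h ^ (k + 1) * R l j) = 0 := by
    intro l j k
    have := mem_perp_one.mp (hR l).1 _ (hpow k j)
    rwa [dot_smul_right, dot_e_right] at this
  -- Taylor scalars orthogonal to all powers vanish
  have hz : ∀ s : LS, Ge 0 s → (∀ k : ℕ, res (h ^ (k + 1) * s) = 0) → s = 0 := by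
    intro s hs hk
    have h1 : s • e 0 ∈ perp 1 U := by
      apply horth
      intro k i
      rw [dot_smul_right, dot_e_right]
      by_cases hi : i = 0
      · subst hi
        have : (s • e 0) 0 = s := by simp [e]
        rw [this]; exact hk k
      · have : (s • e 0) i = 0 := by simp [e, hi]
        rw [this]; simp [res]
    have h2 : s • e 0 = 0 := by
      apply perp_inf_taylor hU h1
      rw [mem_taylor]
      have := GeV.smul hs (geV_e 0)
      simpa using this
    exact e_smul_ne h2
  have hoff : ∀ i j, j ≠ i → R i j = 0 := fun i j hji =>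
    hz _ (ge_zero_of_ne (hR i).2 hji) (fun k => hRr i j k)
  have hdiag : ∀ i, R i i = R 0 0 := by
    intro i
    rw [← sub_eq_zero]
    apply hz
    · have h1 := (hR i).2 i
      have h2 := (hR 0).2 0
      rw [comp_eq] at h1 h2
      have e1 : R i i - R 0 0 = (R i i - lam (-1)) - (R 0 0 - lam (-1)) := by abel
      rw [e1]
      exact Ge.sub h1 h2
    · intro k
      rw [mul_sub]
      have h2 := hRr i i k
      have h3 := hRr 0 0 k
      simp only [res, coeff_sub] at *
      rw [h2, h3, sub_zero]
  refine ⟨R 0 0, fun i => ?_⟩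
  funext j
  by_cases hji : j = i
  · subst hji
    have : (R 0 0 • e j) j = R 0 0 := by simp [e]
    rw [this]; exact hdiag j
  · rw [hoff i j hji]
    simp [e, hji]

end Main

end

end Pool.Agent.H78.So3
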