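import Mathlib

/-!
Definitions for problem MP_393361_al: factoring subalgebras of `so_3((λ))`.
An element of `so_3((λ))` is written in coordinates with respect to
`e_1 = E_12 - E_21`, `e_2 = E_13 - E_31`, `e_3 = E_23 - E_32`; the indices `1, 2, 3` of the problem
are the indices `0, 1, 2` here.
-/

set_option autoImplicit false

namespace Pool.Agent.H78.So3

open HahnSeries

noncomputable section

/-- Scalar formal Laurent series over `ℂ`. -/
abbrev LS : Type := LaurentSeries ℂ

/-- `so_3((λ))` in the basis `e_1, e_2, e_3` (indices `0, 1, 2`): the vector `x` stands for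
`x 0 • e_1 + x 1 • e_2 + x 2 • e_3`. -/
abbrev V : Type := Fin 3 → LS

/-- The matrix `x 0 (E_12 - E_21) + x 1 (E_13 - E_31) + x 2 (E_23 - E_32)`. -/
def toMat (x : V) : Matrix (Fin 3) (Fin 3) LS :=
  !![0, x 0, x 1; -x 0, 0, x 2; -x 1, -x 2, 0]

/-- The Lie bracket of `so_3((λ))`: coordinates of the commutator of the two matrices. -/
def br (x y : V) : V :=
  ![(toMat x * toMat y - toMat y * toMat x) 0 1,
    (toMat x * toMat y - toMat y * toMat x) 0 2,
    (toMat x * toMat y - toMat y * toMat x) 1 2]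

/-- The constant basis vector `e_{i+1}`. -/
def e (i : Fin 3) : V := Pi.single i 1

/-- The variable `λ` to the power `n`. -/
def lam (n : ℤ) : LS := single n (1 : ℂ)

/-- The pairing `(x, y) = ∑ x_i y_i`. -/
def dot (x y : V) : LS := x 0 * y 0 + x 1 * y 1 + x 2 * y 2

/-- The residue. -/
def res (f : LS) : ℂ := f.coeff (-1)

/-- The Taylor series `so_3[[λ]]`. -/
def taylor : Submodule ℂ V where
  carrier := {x | ∀ i, ∀ n : ℤ, n < 0 → (x i).coeff n = 0}
  zero_mem' := by intro i n _; simp
  add_mem' := by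
    intro x y hx hy i n hn
    simp [hx i n hn, hy i n hn]
  smul_mem' := by
    intro c x hx i n hn
    simp [hx i n hn]

/-- Factoring subalgebras: Lie subalgebras complementary to the Taylor series. -/
structure Factoring (U : Submodule ℂ V) : Prop where
  lie_mem : ∀ x ∈ U, ∀ y ∈ U, br x y ∈ U
  compl : IsCompl taylor U

/-- The `U`-module generated by the triple `R`. -/
def modGen (U : Submodule ℂ V) (R : Fin 3 → V) : Submodule ℂ V :=
  sInf {N | (∀ i, R i ∈ N) ∧ ∀ Y ∈ U, ∀ X ∈ N, br Y X ∈ N}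

/-- The orthogonal complement with respect to `res P (X, Y)`. -/
def perp (P : PowerSeries ℂ) (U : Submodule ℂ V) : Submodule ℂ V where
  carrier := {X | ∀ Y ∈ U, res ((P : LS) * dot X Y) = 0}
  zero_mem' := by intro Y _; simp [dot, res]
  add_mem' := by
    intro X X' h h' Y hY
    have h1 := h Y hY
    have h2 := h' Y hY
    have : (P : LS) * dot (X + X') Y = P * dot X Y + P * dot X' Y := by
      simp only [dot, Pi.add_apply]; ring
    rw [this]
    simp only [res, coeff_add] at *
    rw [h1, h2, add_zero]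
  smul_mem' := by
    intro c X h Y hY
    have h1 := h Y hY
    have : (P : LS) * dot (c • X) Y = c • (P * dot X Y) := by
      simp only [dot, Pi.smul_apply, ← HahnSeries.C_mul_eq_smul]
      ring
    rw [this]
    simp only [res, coeff_smul] at *
    rw [h1, smul_zero]

/-- `E_i ∈ U` with `E_i = e_i/λ + O(1)`. -/
def IsE (U : Submodule ℂ V) (E : Fin 3 → V) : Prop :=
  ∀ i, E i ∈ U ∧ E i - lam (-1) • e i ∈ taylor

/-- The matrix `A` of the problem. -/
def matA (u v w : ℂ) : Matrix (Fin 3) (Fin 3) ℂ := !![-u, w, 0; u, 0, -v; 0, -w, v]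

/-- The matrix `C` of the problem. -/
def matC (u v w x y z : ℂ) : Matrix (Fin 3) (Fin 3) ℂ := !![x, v, -w; -v, y, u; w, -u, z]

/-- A constant matrix applied to a column of three elements of `so_3((λ))`. -/
def mcol (M : Matrix (Fin 3) (Fin 3) ℂ) (T : Fin 3 → V) : Fin 3 → V := fun i => ∑ j, M i j • T j

/-- The relations between the `E_i` defining the constants `u, v, w, x, y, z`. -/
def URel (E : Fin 3 → V) (u v w x y z : ℂ) : Prop :=
  ∃ B D : Matrix (Fin 3) (Fin 3) ℂ,
    ![br (E 0) (br (E 1) (E 2)), br (E 2) (br (E 0) (E 1)), br (E 1) (br (E 2) (E 0))] =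
      mcol (matA u v w) ![br (E 2) (E 0), br (E 0) (E 1), br (E 1) (E 2)] +
        mcol B ![E 1, E 2, E 0] ∧
    ![br (E 2) (br (E 1) (E 2)) + br (E 0) (br (E 0) (E 1)),
      br (E 0) (br (E 2) (E 0)) + br (E 1) (br (E 1) (E 2)),
      br (E 1) (br (E 0) (E 1)) + br (E 2) (br (E 2) (E 0))] =
      mcol (matC u v w x y z) ![br (E 2) (E 0), br (E 0) (E 1), br (E 1) (E 2)] +
        mcol D ![E 1, E 2, E 0]

/-- The homogeneous relations of an admissible triple. -/
def RRel (E R : Fin 3 → V) (u v w x y z : ℂ) : Prop :=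
  ![br (E 0) (R 0), br (E 2) (R 2), br (E 1) (R 1)] = mcol (matA u v w) ![R 1, R 2, R 0] ∧
  ![br (E 2) (R 0) + br (E 0) (R 2), br (E 0) (R 1) + br (E 1) (R 0),
    br (E 1) (R 2) + br (E 2) (R 1)] = mcol (matC u v w x y z) ![R 1, R 2, R 0]

/-- Admissible triples. -/
def Admissible (E R : Fin 3 → V) (u v w x y z : ℂ) : Prop :=
  (∀ i, R i - lam (-1) • e i ∈ taylor) ∧ RRel E R u v w x y z

end

end Pool.Agent.H78.So3
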