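import Pool.Agent.H78.So3URel

set_option autoImplicit false

namespace Pool.Agent.H78.So3

open HahnSeries

noncomputable section

/-- degree at most `n` -/
def Le (n : ℤ) (f : LS) : Prop := ∀ m > n, f.coeff m = 0

lemma Le.mul {a b : ℤ} {f g : LS} (hf : Le a f) (hg : Le b g) : Le (a + b) (f * g) := by
  intro m hm
  rw [coeff_mul]
  apply Finset.sum_eq_zero
  intro ij hij
  rw [Finset.mem_addAntidiagonal] at hij
  by_cases h1 : a < ij.1
  · rw [hf _ h1, zero_mul]
  · have h2 : b < ij.2 := by
      have := hij.2.2
      omega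
    rw [hg _ h2, mul_zero]

lemma Le.sub {a : ℤ} {f g : LS} (hf : Le a f) (hg : Le a g) : Le a (f - g) := by
  intro m hm
  rw [coeff_sub, hf m hm, hg m hm, sub_zero]

lemma Le.mono {a b : ℤ} {f : LS} (hf : Le a f) (h : a ≤ b) : Le b f := fun m hm =>
  hf m (by omega)

/-- The example: `x_0, x_2` polynomials in `1/λ` without constant term, and `x_1` a polynomial in
`1/λ` whose constant term equals its residue. -/
def exU : Submodule ℂ V where
  carrier := {x | Le (-1) (x 0) ∧ Le (-1) (x 2) ∧ Le 0 (x 1) ∧ (x 1).coeff 0 = (x 1).coeff (-1)}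
  zero_mem' := by
    refine ⟨?_, ?_, ?_, ?_⟩
    · intro m _; simp
    · intro m _; simp
    · intro m _; simp
    · simp
  add_mem' := by
    rintro x y ⟨h1, h2, h3, h4⟩ ⟨k1, k2, k3, k4⟩
    refine ⟨?_, ?_, ?_, ?_⟩
    · intro m hm; simp [h1 m hm, k1 m hm]
    · intro m hm; simp [h2 m hm, k2 m hm]
    · intro m hm; simp [h3 m hm, k3 m hm]
    · simp [h4, k4]
  smul_mem' := by
    rintro c x ⟨h1, h2, h3, h4⟩
    refine ⟨?_, ?_, ?_, ?_⟩
    · intro m hm; simp [h1 m hm]
    · intro m hm; simp [h2 m hm]
    · intro m hm; simp [h3 m hm]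
    · simp [h4]

/-- The part of strictly negative degree. -/
def negPart (f : LS) : LS where
  coeff n := if n < 0 then f.coeff n else 0
  isPWO_support' := f.isPWO_support.mono (by
    intro n hn
    rw [Function.mem_support] at hn
    rw [mem_support]
    intro h
    apply hn
    rw [h, ite_self])

lemma negPart_coeff (f : LS) (n : ℤ) : (negPart f).coeff n = if n < 0 then f.coeff n else 0 := rfl

lemma negPart_le (f : LS) : Le (-1) (negPart f) := by
  intro m hm
  rw [negPart_coeff, if_neg (by omega)]

lemma exU_factoring : Factoring exU := by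
  constructor
  · rintro x ⟨h1, h2, h3, h4⟩ y ⟨k1, k2, k3, k4⟩
    have hz : Le (-2) (br x y 1) := by
      rw [br1]
      exact (h1.mul k2).sub (h2.mul k1)
    refine ⟨?_, ?_, hz.mono (by norm_num), ?_⟩
    · rw [br0]
      exact ((h2.mul k3).mono (by norm_num)).sub ((h3.mul k2).mono (by norm_num))
    · rw [br2]
      exact ((h3.mul k1).mono (by norm_num)).sub ((h1.mul k3).mono (by norm_num))
    · rw [hz 0 (by norm_num), hz (-1) (by norm_num)]
  · constructor
    · rw [Submodule.disjoint_def]
      rintro x hx ⟨h1, h2, h3, h4⟩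
      have hneg : ∀ i, ∀ n : ℤ, n < 0 → (x i).coeff n = 0 := hx
      funext i
      ext n
      simp only [Pi.zero_apply, coeff_zero]
      rcases lt_trichotomy n 0 with hn | hn | hn
      · exact hneg i n hn
      · subst hn
        fin_cases i
        · exact h1 0 (by norm_num)
        · change (x 1).coeff 0 = 0
          rw [h4]; exact hneg 1 _ (by norm_num)
        · exact h2 0 (by norm_num)
      · fin_cases i
        · exact h1 n (by omega)
        · exact h3 n (by omega)
        · exact h2 n (by omega)
    · rw [codisjoint_iff, eq_top_iff]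
      intro x _
      rw [Submodule.mem_sup]
      let y : V := ![negPart (x 0), negPart (x 1) + HahnSeries.C ((x 1).coeff (-1)), negPart (x 2)]
      have hy : y ∈ exU := by
        refine ⟨negPart_le _, negPart_le _, ?_, ?_⟩
        · intro m hm
          change (negPart (x 1) + HahnSeries.C ((x 1).coeff (-1))).coeff m = 0
          rw [coeff_add, negPart_coeff, if_neg (by omega), C_apply, coeff_single_of_ne (by omega),
            add_zero]
        · change (negPart (x 1) + HahnSeries.C ((x 1).coeff (-1))).coeff 0 =
            (negPart (x 1) + HahnSeries.C ((x 1).coeff (-1))).coeff (-1)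
          rw [coeff_add, coeff_add, negPart_coeff, negPart_coeff, if_neg (by norm_num),
            if_pos (by norm_num), C_apply, coeff_single_same,
            coeff_single_of_ne (show (-1 : ℤ) ≠ 0 by norm_num)]
          ring
      refine ⟨x - y, ?_, y, hy, by abel⟩
      intro i n hn
      rw [Pi.sub_apply, coeff_sub, sub_eq_zero]
      fin_cases i
      · change (x 0).coeff n = (negPart (x 0)).coeff n
        rw [negPart_coeff, if_pos hn]
      · change (x 1).coeff n = (negPart (x 1) + HahnSeries.C ((x 1).coeff (-1))).coeff n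
        rw [coeff_add, negPart_coeff, if_pos hn, C_apply, coeff_single_of_ne (by omega), add_zero]
      · change (x 2).coeff n = (negPart (x 2)).coeff n
        rw [negPart_coeff, if_pos hn]

lemma le_lam (n : ℤ) : Le n (lam n) := by
  intro m hm
  exact lam_coeff_ne (by omega)

lemma exU_not_scalar : ∀ E, IsE exU E → ¬ ∃ h : LS, ∀ i, E i = h • e i := by
  rintro E hE ⟨h, hh⟩
  have h0 : ∀ i, (h • e i) i = h := by intro i; simp [e]
  -- coefficient of `λ^0`
  have h1 : h.coeff 0 = 0 := by
    have := (hE 0).1.1 0 (by norm_num)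
    rwa [hh 0, h0] at this
  have h2 : h.coeff 0 = h.coeff (-1) := by
    have := (hE 1).1.2.2.2
    rwa [hh 1, h0] at this
  have h3 : h.coeff (-1) = 1 := by
    have := coeff_neg_one (hE 0).2 0
    rw [hh 0, h0] at this
    simpa using this
  rw [h1, h3] at h2
  exact zero_ne_one h2

end

end Pool.Agent.H78.So3
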