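import Pool.Agent.H78.So3Ex

set_option autoImplicit false

namespace Pool.Agent.H78.So3

open HahnSeries

noncomputable section

section
variable {U : Submodule ℂ V} (hU : Factoring U)
include hU

lemma existsUnique_E : ∃! E, IsE U E := by
  obtain ⟨E, hE⟩ := exists_IsE hU
  exact ⟨E, hE, fun E' hE' => IsE.unique hU hE' hE⟩

lemma existsUnique_consts {E : Fin 3 → V} (hE : IsE U E) :
    ∃! c : Fin 6 → ℂ, URel E (c 0) (c 1) (c 2) (c 3) (c 4) (c 5) := by
  refine ⟨![cst E 0 2 + cst E 2 0, cst E 1 2 + cst E 2 1, cst E 0 1 + cst E 1 0,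
    2 * (cst E 0 0 - cst E 2 2), 2 * (cst E 1 1 - cst E 0 0), 2 * (cst E 2 2 - cst E 1 1)],
    urel_exists hU hE, ?_⟩
  intro c hc
  obtain ⟨h0, h1, h2, h3, h4, h5⟩ := urel_unique hE hc
  funext i
  fin_cases i
  · exact h0
  · exact h1
  · exact h2
  · exact h3
  · exact h4
  · exact h5

lemma admissible_iff_isR {E R : Fin 3 → V} (hE : IsE U E) {u v w x y z : ℂ}
    (hc : URel E u v w x y z) :
    (Admissible E R u v w x y z ∧ ∀ i, R i ∈ perp 1 U) ↔ IsR U R := by
  obtain ⟨rfl, rfl, rfl, rfl, rfl, rfl⟩ := urel_unique hE hc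
  constructor
  · rintro ⟨h1, h2⟩ i
    exact ⟨h2 i, h1.1 i⟩
  · intro hR
    exact ⟨⟨fun i => (hR i).2, rrel_of_isR hU hE hR⟩, fun i => (hR i).1⟩

lemma admissible_iff {E R0 : Fin 3 → V} (hE : IsE U E) {u v w x y z : ℂ}
    (hc : URel E u v w x y z) (hR0 : IsR U R0) (R : Fin 3 → V) :
    Admissible E R u v w x y z ↔
      ∃ Q : PowerSeries ℂ, PowerSeries.constantCoeff Q = 1 ∧ ∀ i, R i = (Q : LS) • R0 i := by
  have h0 := ((admissible_iff_isR hU hE hc).mpr hR0).1
  constructor
  · intro h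
    exact RRel.proportional (fun i => (hE i).2) h0 h
  · rintro ⟨Q, hQ, hR⟩
    have hR' : R = fun i => (Q : LS) • R0 i := funext hR
    subst hR'
    refine ⟨?_, RRel.smul h0.2 _⟩
    intro i
    -- `Q = 1 + X Q'`
    have hX : PowerSeries.X ∣ (Q - 1) := by
      rw [PowerSeries.X_dvd_iff]; simp [hQ]
    obtain ⟨Q', hQ'⟩ := hX
    have hQe : Q = 1 + PowerSeries.X * Q' := by rw [← hQ']; ring
    have e1 : (Q : LS) • R0 i - lam (-1) • e i =
        (R0 i - lam (-1) • e i) + ((lam 1 * (Q' : LS)) • R0 i) := by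
      have : (Q : LS) = 1 + lam 1 * (Q' : LS) := by
        rw [hQe, PowerSeries.coe_add, PowerSeries.coe_one, PowerSeries.coe_mul,
          PowerSeries.coe_X]
        rfl
      rw [this, V_add_smul, V_one_smul]
      abel
    rw [e1]
    refine Submodule.add_mem _ (hR0 i).2 ?_
    rw [mem_taylor]
    have := GeV.smul (ge_coe Q' 1) (ge_neg_one (hR0 i).2)
    simpa using this

/-- Existence and uniqueness of the basic admissible triple. -/
lemma existsUnique_R0 {E : Fin 3 → V} (hE : IsE U E) {u v w x y z : ℂ}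
    (hc : URel E u v w x y z) :
    ∃! R, Admissible E R u v w x y z ∧ ∀ i, R i ∈ perp 1 U := by
  obtain ⟨R, hR⟩ := exists_IsR hU
  refine ⟨R, (admissible_iff_isR hU hE hc).mpr hR, ?_⟩
  intro R' hR'
  exact IsR.unique hU ((admissible_iff_isR hU hE hc).mp hR') hR

/-- The module generated by an admissible triple. -/
lemma modGen_admissible {E : Fin 3 → V} (hE : IsE U E) {u v w x y z : ℂ}
    (hc : URel E u v w x y z) {R : Fin 3 → V} (hR : Admissible E R u v w x y z) :
    ∃ P : PowerSeries ℂ, PowerSeries.constantCoeff P = 1 ∧ modGen U R = perp P U := by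
  obtain ⟨R0, hR0⟩ := exists_IsR hU
  obtain ⟨Q, hQ, h⟩ := (admissible_iff hU hE hc hR0 R).mp hR
  have hR' : R = fun i => (Q : LS) • R0 i := funext h
  have hQi : Q⁻¹ * Q = 1 := by
    rw [mul_comm]; exact PowerSeries.mul_inv_cancel Q (by rw [hQ]; exact one_ne_zero)
  refine ⟨Q⁻¹, by simp [hQ], ?_⟩
  rw [hR']
  exact modGen_scale hU hR0 hQi

/-- Uniqueness of the form. -/
lemma perp_injective {P P' : PowerSeries ℂ} (hP : PowerSeries.constantCoeff P = 1)
    (hP' : PowerSeries.constantCoeff P' = 1) (h : perp P U = perp P' U) : P = P' := by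
  obtain ⟨R0, hR0⟩ := exists_IsR hU
  have hi : P⁻¹ * P = 1 := by
    rw [mul_comm]; exact PowerSeries.mul_inv_cancel P (by rw [hP]; exact one_ne_zero)
  have hi2 : P * P⁻¹ = 1 := PowerSeries.mul_inv_cancel P (by rw [hP]; exact one_ne_zero)
  -- `P⁻¹ R0 ∈ perp P U`
  have h1 : ∀ i, ((P⁻¹ : PowerSeries ℂ) : LS) • R0 i ∈ perp P' U := by
    intro i
    rw [← h, mem_perp, V_smul_smul, ← PowerSeries.coe_mul, hi2, PowerSeries.coe_one, V_one_smul]
    exact (hR0 i).1
  set Q : PowerSeries ℂ := P' * P⁻¹ with hQ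
  have hQ0 : PowerSeries.constantCoeff Q = 1 := by simp [hQ, hP, hP']
  have h2 : ∀ i, (Q : LS) • R0 i ∈ perp 1 U := by
    intro i
    have := h1 i
    rw [mem_perp, V_smul_smul, ← PowerSeries.coe_mul] at this
    exact this
  -- so `Q R0 - R0` is a Taylor element of the complement
  have hX : PowerSeries.X ∣ (Q - 1) := by
    rw [PowerSeries.X_dvd_iff]; simp [hQ0]
  obtain ⟨Q', hQ'⟩ := hX
  have hQe : Q = 1 + PowerSeries.X * Q' := by rw [← hQ']; ring
  have hQc : (Q : LS) = 1 + lam 1 * (Q' : LS) := by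
    rw [hQe, PowerSeries.coe_add, PowerSeries.coe_one, PowerSeries.coe_mul, PowerSeries.coe_X]
    rfl
  have h3 : (lam 1 * (Q' : LS)) • R0 0 = 0 := by
    apply perp_inf_taylor hU
    · have e1 : (lam 1 * (Q' : LS)) • R0 0 = (Q : LS) • R0 0 - R0 0 := by
        rw [hQc, V_add_smul, V_one_smul]; abel
      rw [e1]
      exact Submodule.sub_mem _ (h2 0) (hR0 0).1
    · rw [mem_taylor]
      have := GeV.smul (ge_coe Q' 1) (ge_neg_one (hR0 0).2)
      simpa using this
  have h4 : lam 1 * (Q' : LS) = 0 := by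
    by_contra hne
    have h5 := V_eq_zero_of_smul hne h3
    have h6 := coeff_neg_one (hR0 0).2 0
    rw [h5] at h6
    simp at h6
  have h5 : (Q : LS) = 1 := by rw [hQc, h4, add_zero]
  have h6 : Q = 1 := by
    apply HahnSeries.ofPowerSeries_injective (Γ := ℤ) (R := ℂ)
    rw [map_one]
    exact h5
  have h7 : P' * (P⁻¹ * P) = 1 * P := by rw [← mul_assoc, ← hQ, h6]
  rw [hi, mul_one, one_mul] at h7
  exact h7.symm

/-- Classification for the triples `R0 + S e`. -/
lemma classification {E : Fin 3 → V} (hE : IsE U E) {R : Fin 3 → V} (hR : IsR U R)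
    (S : PowerSeries ℂ) :
    (∃ P : PowerSeries ℂ, modGen U (fun i => R i + (S : LS) • e i) = perp P U) ↔
      (S = 0 ∨ ∃ h : LS, ∀ i, E i = h • e i) := by
  constructor
  · rintro ⟨P, hP⟩
    rcases forward hU hR S P hP with h | ⟨f, hf⟩
    · exact Or.inl h
    · exact Or.inr (E_of_R hU hE hR hf)
  · rintro (h | ⟨h, hh⟩)
    · exact backward hU hR S (Or.inl h)
    · exact backward hU hR S (Or.inr (R_of_E hU hE hR hh))

end

end

end Pool.Agent.H78.So3
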