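import Pool.Agent.H78.So3Basic

set_option autoImplicit false

namespace Pool.Agent.H78.So3

open HahnSeries

noncomputable section

lemma ge_power (S : PowerSeries ℂ) : Ge 0 (S : LS) := by
  have := ge_coe S 0
  rwa [lam_zero, one_mul] at this

lemma ge_zero_exists {f : LS} (h : Ge 0 f) : ∃ g : PowerSeries ℂ, f = (g : LS) := by
  obtain ⟨g, hg⟩ := h.exists
  exact ⟨g, by rw [hg, lam_zero, one_mul]⟩

section Ex
variable {U : Submodule ℂ V} (hU : Factoring U)
include hU

lemma exists_IsE : ∃ E, IsE U E := by
  choose E hE hEt using fun i => hU.exists_sub (lam (-1) • e i)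
  exact ⟨E, fun i => ⟨hE i, hEt i⟩⟩

lemma IsE.unique {E E' : Fin 3 → V} (hE : IsE U E) (hE' : IsE U E') : E = E' := by
  funext i
  rw [← sub_eq_zero]
  apply hU.eq_zero (U.sub_mem (hE i).1 (hE' i).1)
  have : E i - E' i = (E i - lam (-1) • e i) - (E' i - lam (-1) • e i) := by abel
  rw [this]
  exact taylor.sub_mem (hE i).2 (hE' i).2

lemma IsR.unique {R R' : Fin 3 → V} (hR : IsR U R) (hR' : IsR U R') : R = R' := by
  funext i
  rw [← sub_eq_zero]
  apply perp_inf_taylor hU (Submodule.sub_mem _ (hR i).1 (hR' i).1)
  have : R i - R' i = (R i - lam (-1) • e i) - (R' i - lam (-1) • e i) := by abel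
  rw [this]
  exact taylor.sub_mem (hR i).2 (hR' i).2

/-- Elements of `U` are determined by, and linear in, their principal parts. -/
lemma mem_U_expand {k : ℕ} {Y : ℕ → Fin 3 → V}
    (hY : ∀ k i, Y k i ∈ U ∧ Y k i - lam (-(k : ℤ) - 1) • e i ∈ taylor) {X : V}
    (hX : X ∈ U) (hk : GeV (-(k : ℤ)) X) :
    X = ∑ l ∈ Finset.range k, ∑ i, (X i).coeff (-(l : ℤ) - 1) • Y l i := by
  rw [← sub_eq_zero]
  apply hU.eq_zero
  · exact U.sub_mem hX (Submodule.sum_mem _ fun l _ => Submodule.sum_mem _ fun i _ =>
      U.smul_mem _ (hY l i).1)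
  · have h1 : X - ∑ l ∈ Finset.range k, ∑ i, (X i).coeff (-(l : ℤ) - 1) • Y l i =
        (X - ∑ l ∈ Finset.range k, ∑ i, (X i).coeff (-(l : ℤ) - 1) • (lam (-(l : ℤ) - 1) • e i)) -
        ∑ l ∈ Finset.range k, ∑ i, (X i).coeff (-(l : ℤ) - 1) •
          (Y l i - lam (-(l : ℤ) - 1) • e i) := by
      simp only [smul_sub, Finset.sum_sub_distrib]; abel
    rw [h1]
    apply taylor.sub_mem
    · intro j n hn
      have h2 : (X - ∑ l ∈ Finset.range k, ∑ i, (X i).coeff (-(l : ℤ) - 1) •
          (lam (-(l : ℤ) - 1) • e i)) j =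
          X j - ∑ l ∈ Finset.range k, (X j).coeff (-(l : ℤ) - 1) • lam (-(l : ℤ) - 1) := by
        rw [Pi.sub_apply, Finset.sum_apply]
        congr 1
        apply Finset.sum_congr rfl
        intro l _
        rw [Fin.sum_univ_three]
        fin_cases j <;> simp [e]
      rw [h2, coeff_sub, coeff_sum]
      rcases lt_or_ge n (-(k : ℤ)) with h | h
      · rw [hk j n h]
        rw [Finset.sum_eq_zero, sub_zero]
        intro l hl
        have hl' := Finset.mem_range.mp hl
        rw [coeff_smul, lam, coeff_single_of_ne (by omega), smul_zero]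
      · obtain ⟨l, hl⟩ : ∃ l : ℕ, n = -(l : ℤ) - 1 := ⟨(-n - 1).toNat, by omega⟩
        subst hl
        have hl' : l ∈ Finset.range k := by rw [Finset.mem_range]; omega
        rw [Finset.sum_eq_single_of_mem l hl']
        · simp [lam]
        · intro l' _ hne
          rw [coeff_smul, lam, coeff_single_of_ne (by omega), smul_zero]
    · exact Submodule.sum_mem _ fun l _ => Submodule.sum_mem _ fun i _ =>
        taylor.smul_mem _ (hY l i).2

lemma exists_IsR : ∃ R, IsR U R := by
  choose Y hY hYt using fun (k : ℕ) (i : Fin 3) => hU.exists_sub (lam (-(k : ℤ) - 1) • e i)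
  -- the Taylor part of `R_i`
  let Z : Fin 3 → V := fun i j => ((PowerSeries.mk fun k => -((Y k j) i).coeff 0 : PowerSeries ℂ) : LS)
  have hZ : ∀ i, Z i ∈ taylor := fun i j => ge_power _
  have hZc : ∀ i j (k : ℕ), (Z i j).coeff (k : ℤ) = -((Y k j) i).coeff 0 := by
    intro i j k
    simp only [Z]
    rw [coe_coeff, PowerSeries.coeff_mk]
  refine ⟨fun i => lam (-1) • e i + Z i, fun i => ⟨?_, ?_⟩⟩
  · rw [mem_perp_one]
    -- first for the basis
    have hb : ∀ k j, res (dot (lam (-1) • e i + Z i) (Y k j)) = 0 := by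
      intro k j
      have e1 : dot (lam (-1) • e i + Z i) (Y k j) = lam (-1) * (Y k j) i +
          (lam (-(k : ℤ) - 1) * Z i j + dot (Z i) (Y k j - lam (-(k : ℤ) - 1) • e j)) := by
        rw [dot_sub_right, dot_smul_right, dot_e_right, dot_add_left, dot_smul_left, dot_e_left]
        ring
      have h3 : Ge (0 + 0) (dot (Z i) (Y k j - lam (-(k : ℤ) - 1) • e j)) :=
        GeV.dot (mem_taylor.mp (hZ i)) (mem_taylor.mp (hYt k j))
      unfold res
      rw [e1, coeff_add, coeff_add, lam_coeff, lam_coeff, h3 (-1) (by norm_num), add_zero]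
      have h4 : (-1 : ℤ) - (-(k : ℤ) - 1) = k := by ring
      rw [h4, hZc]
      simp
    intro X hX
    obtain ⟨k, hk⟩ := exists_geV X
    rw [mem_U_expand hU (fun k i => ⟨hY k i, hYt k i⟩) hX hk]
    have hlin : ∀ (c : ℂ) (x y : V), res (dot x (c • y)) = c * res (dot x y) := by
      intro c x y
      rw [csmul_eq, dot_smul_right]
      simp [res]
    have hadd : ∀ (x y z : V), res (dot x (y + z)) = res (dot x y) + res (dot x z) := by
      intro x y z
      rw [dot_add_right]; simp [res]
    have hzero : ∀ (x : V), res (dot x 0) = 0 := by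
      intro x; simp [res, dot]
    let φ : V →+ ℂ :=
      { toFun := fun y => res (dot (lam (-1) • e i + Z i) y)
        map_zero' := hzero _
        map_add' := hadd _ }
    change φ _ = 0
    rw [map_sum]
    apply Finset.sum_eq_zero
    intro l _
    rw [map_sum]
    apply Finset.sum_eq_zero
    intro j _
    change res (dot (lam (-1) • e i + Z i) (_ • Y l j)) = 0
    rw [hlin, hb, mul_zero]
  · have : lam (-1) • e i + Z i - lam (-1) • e i = Z i := by abel
    rw [this]; exact hZ i

end Ex

/-! ### scaling -/

section Scale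
variable {U : Submodule ℂ V} (hU : Factoring U)
include hU

lemma modGen_scale {R : Fin 3 → V} (hR : IsR U R) {P Q : PowerSeries ℂ} (hPQ : P * Q = 1) :
    modGen U (fun i => (Q : LS) • R i) = perp P U := by
  have hPQ' : (P : LS) * (Q : LS) = 1 := by
    rw [← PowerSeries.coe_mul, hPQ, PowerSeries.coe_one]
  apply le_antisymm
  · apply modGen_le
    · intro i
      rw [mem_perp, smul_smul, hPQ', one_smul]
      exact (hR i).1
    · intro Y hY X hX
      rw [mem_perp] at *
      rw [← br_smul_right]
      exact br_mem_perp hU hX hY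
  · intro X hX
    rw [mem_perp, ← modGen_eq_perp hU hR] at hX
    -- the submodule of all `Z` with `Q Z` in the left-hand side
    let N : Submodule ℂ V :=
      { carrier := {Z | (Q : LS) • Z ∈ modGen U (fun i => (Q : LS) • R i)}
        zero_mem' := by
          change (Q : LS) • (0 : V) ∈ modGen U (fun i => (Q : LS) • R i)
          rw [smul_zero]; exact Submodule.zero_mem _
        add_mem' := by
          intro a b ha hb
          change (Q : LS) • (a + b) ∈ modGen U (fun i => (Q : LS) • R i)
          rw [smul_add]; exact Submodule.add_mem _ ha hb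
        smul_mem' := by
          intro c a ha
          change (Q : LS) • (c • a) ∈ modGen U (fun i => (Q : LS) • R i)
          have : (Q : LS) • (c • a) = c • ((Q : LS) • a) := by
            rw [csmul_eq, csmul_eq, smul_smul, smul_smul, mul_comm]
          rw [this]; exact Submodule.smul_mem _ _ ha }
    have hN : modGen U R ≤ N := by
      apply modGen_le
      · intro i
        exact gen_mem (U := U) (fun i => (Q : LS) • R i) i
      · intro Y hY Z hZ
        change (Q : LS) • br Y Z ∈ modGen U (fun i => (Q : LS) • R i)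
        rw [← br_smul_right]
        exact br_mem_modGen hZ hY
    have h1 : (Q : LS) • ((P : LS) • X) ∈ modGen U (fun i => (Q : LS) • R i) := hN hX
    rwa [smul_smul, mul_comm, hPQ', one_smul] at h1

/-- `U`-modules generated by three elements are proper (countable dimension). -/
lemma modGen_ne_top (R : Fin 3 → V) : modGen U R ≠ ⊤ := by
  choose Y hY hYt using fun (k : ℕ) (i : Fin 3) => hU.exists_sub (lam (-(k : ℤ) - 1) • e i)
  let w : List (ℕ × Fin 3) → Fin 3 → V := fun l j => l.foldr (fun a x => br (Y a.1 a.2) x) (R j)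
  let T : Set V := Set.range (fun a : List (ℕ × Fin 3) × Fin 3 => w a.1 a.2)
  have hT : T.Countable := Set.countable_range _
  have hclosed : ∀ k i, ∀ X ∈ Submodule.span ℂ T, br (Y k i) X ∈ Submodule.span ℂ T := by
    intro k i X hX
    induction hX using Submodule.span_induction with
    | mem x hx =>
      obtain ⟨⟨l, j⟩, rfl⟩ := hx
      exact Submodule.subset_span ⟨((k, i) :: l, j), rfl⟩
    | zero => rw [br_zero_right]; exact Submodule.zero_mem _
    | add x y _ _ hx hy => rw [br_add_right]; exact Submodule.add_mem _ hx hy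
    | smul c x _ hx => rw [br_csmul_right]; exact Submodule.smul_mem _ _ hx
  have hle : modGen U R ≤ Submodule.span ℂ T := by
    apply modGen_le
    · intro i
      exact Submodule.subset_span ⟨([], i), rfl⟩
    · intro Z hZ X hX
      obtain ⟨k, hk⟩ := exists_geV Z
      rw [mem_U_expand hU (fun k i => ⟨hY k i, hYt k i⟩) hZ hk]
      -- linearity in the first argument
      let φ : V →ₗ[ℂ] V :=
        { toFun := fun y => br y X
          map_add' := fun a b => br_add_left a b X
          map_smul' := fun c a => br_csmul_left c a X }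
      change φ _ ∈ _
      rw [map_sum]
      refine Submodule.sum_mem _ fun l _ => ?_
      rw [map_sum]
      refine Submodule.sum_mem _ fun i _ => ?_
      rw [map_smul]
      exact Submodule.smul_mem _ _ (hclosed l i X hX)
  intro htop
  rw [htop, top_le_iff] at hle
  have h1 : Module.rank ℂ V ≤ Cardinal.aleph0 := by
    have h2 : Module.rank ℂ (Submodule.span ℂ T) ≤ Cardinal.mk T := rank_span_le T
    rw [hle, rank_top] at h2
    exact h2.trans (Cardinal.mk_le_aleph0_iff.mpr hT)
  let ψ : (ℕ → ℂ) →ₗ[ℂ] V :=
    { toFun := fun f => fun _ => ((PowerSeries.mk f : PowerSeries ℂ) : LS)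
      map_add' := by
        intro f g
        funext i
        change (((PowerSeries.mk (f + g) : PowerSeries ℂ)) : LS) =
          ((PowerSeries.mk f : PowerSeries ℂ) : LS) + ((PowerSeries.mk g : PowerSeries ℂ) : LS)
        rw [← PowerSeries.coe_add]
        congr 1
      map_smul' := by
        intro c f
        funext i
        change (((PowerSeries.mk (c • f) : PowerSeries ℂ)) : LS) =
          c • ((PowerSeries.mk f : PowerSeries ℂ) : LS)
        rw [← PowerSeries.coe_smul]
        congr 1 }
  have hψ : Function.Injective ψ := by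
    intro f g hfg
    funext n
    have h3 := congrFun hfg 0
    have h4 := congrArg (fun s : LS => s.coeff (n : ℤ)) h3
    simp only [ψ, LinearMap.coe_mk, AddHom.coe_mk] at h4
    rw [coe_coeff, coe_coeff, PowerSeries.coeff_mk, PowerSeries.coeff_mk] at h4
    exact h4
  have h5 := LinearMap.rank_le_of_injective ψ hψ
  rw [rank_fun_infinite] at h5
  have h6 : Cardinal.aleph0 < Cardinal.mk (ℕ → ℂ) := by
    calc Cardinal.aleph0 < Cardinal.continuum := Cardinal.aleph0_lt_continuum
      _ = Cardinal.mk ℂ := Cardinal.mk_complex.symm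
      _ ≤ Cardinal.mk (ℕ → ℂ) := Cardinal.mk_le_of_injective (f := fun c => fun _ => c)
          (fun a b h => congrFun h 0)
  exact absurd (h5.trans h1) (not_le.mpr h6)

end Scale

end

end Pool.Agent.H78.So3
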