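import Pool.Agent.H78.So3Adm

set_option autoImplicit false

namespace Pool.Agent.H78.So3

open HahnSeries

noncomputable section

section
variable {U : Submodule ℂ V} (hU : Factoring U) {E : Fin 3 → V} (hE : IsE U E)
include hU hE

omit hU in
lemma pge (a b : Fin 3) : GeV (-2) (br (E a) (E b)) := by
  have := GeV.br (ge_neg_one (hE a).2) (ge_neg_one (hE b).2)
  simpa using this

omit hU in
lemma hprod1E (i j k l : Fin 3) : (E i j * E k l).coeff (-1) =
      (if j = i then 1 else 0) * cst E k l + cst E i j * (if l = k then 1 else 0) := by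
  have hgeE : ∀ i, GeV (-1) (E i) := fun i => ge_neg_one (hE i).2
  rw [coeff1 (hgeE i j) (hgeE k l), coeff_neg_one (hE i).2 j, coeff_neg_one (hE k).2 l]
  rfl

omit hU in
lemma hprod2E (i j k l : Fin 3) : (E i j * E k l).coeff (-2) =
      (if j = i then 1 else 0) * (if l = k then 1 else 0) := by
  have hgeE : ∀ i, GeV (-1) (E i) := fun i => ge_neg_one (hE i).2
  rw [coeff2 (hgeE i j) (hgeE k l), coeff_neg_one (hE i).2 j, coeff_neg_one (hE k).2 l]

omit hU in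
lemma tprod3 (i j a b l : Fin 3) : (E i j * br (E a) (E b) l).coeff (-3) =
    (if j = i then 1 else 0) * (br (E a) (E b) l).coeff (-2) := by
  rw [coeff33 (ge_neg_one (hE i).2 j) (pge hE a b l), coeff_neg_one (hE i).2 j]

omit hU in
lemma tprod2 (i j a b l : Fin 3) : (E i j * br (E a) (E b) l).coeff (-2) =
    (if j = i then 1 else 0) * (br (E a) (E b) l).coeff (-1) +
      cst E i j * (br (E a) (E b) l).coeff (-2) := by
  rw [coeff32 (ge_neg_one (hE i).2 j) (pge hE a b l), coeff_neg_one (hE i).2 j]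
  rfl

omit hU in
lemma tge (i a b : Fin 3) : GeV (-3) (br (E i) (br (E a) (E b))) := by
  have := GeV.br (ge_neg_one (hE i).2) (pge hE a b)
  simpa using this

omit hU in
lemma pc2_0 (a b : Fin 3) : (br (E a) (E b) 0).coeff (-2) =
    (if 2 = a then 1 else 0) * (if 1 = b then 1 else 0) -
      (if 1 = a then 1 else 0) * (if 2 = b then 1 else 0) := by
  rw [br0, coeff_sub, hprod2E hE, hprod2E hE]
omit hU in
lemma pc2_1 (a b : Fin 3) : (br (E a) (E b) 1).coeff (-2) =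
    (if 0 = a then 1 else 0) * (if 2 = b then 1 else 0) -
      (if 2 = a then 1 else 0) * (if 0 = b then 1 else 0) := by
  rw [br1, coeff_sub, hprod2E hE, hprod2E hE]
omit hU in
lemma pc2_2 (a b : Fin 3) : (br (E a) (E b) 2).coeff (-2) =
    (if 1 = a then 1 else 0) * (if 0 = b then 1 else 0) -
      (if 0 = a then 1 else 0) * (if 1 = b then 1 else 0) := by
  rw [br2, coeff_sub, hprod2E hE, hprod2E hE]
omit hU in
lemma pc1_0 (a b : Fin 3) : (br (E a) (E b) 0).coeff (-1) =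
    ((if 2 = a then 1 else 0) * cst E b 1 + cst E a 2 * (if 1 = b then 1 else 0)) -
      ((if 1 = a then 1 else 0) * cst E b 2 + cst E a 1 * (if 2 = b then 1 else 0)) := by
  rw [br0, coeff_sub, hprod1E hE, hprod1E hE]
omit hU in
lemma pc1_1 (a b : Fin 3) : (br (E a) (E b) 1).coeff (-1) =
    ((if 0 = a then 1 else 0) * cst E b 2 + cst E a 0 * (if 2 = b then 1 else 0)) -
      ((if 2 = a then 1 else 0) * cst E b 0 + cst E a 2 * (if 0 = b then 1 else 0)) := by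
  rw [br1, coeff_sub, hprod1E hE, hprod1E hE]
omit hU in
lemma pc1_2 (a b : Fin 3) : (br (E a) (E b) 2).coeff (-1) =
    ((if 1 = a then 1 else 0) * cst E b 0 + cst E a 1 * (if 0 = b then 1 else 0)) -
      ((if 0 = a then 1 else 0) * cst E b 1 + cst E a 0 * (if 1 = b then 1 else 0)) := by
  rw [br2, coeff_sub, hprod1E hE, hprod1E hE]
omit hU in
lemma tc3_0 (i a b : Fin 3) : (br (E i) (br (E a) (E b)) 0).coeff (-3) =
    (if 2 = i then 1 else 0) * (br (E a) (E b) 1).coeff (-2) -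
      (if 1 = i then 1 else 0) * (br (E a) (E b) 2).coeff (-2) := by
  rw [br0, coeff_sub, tprod3 hE, tprod3 hE]
omit hU in
lemma tc3_1 (i a b : Fin 3) : (br (E i) (br (E a) (E b)) 1).coeff (-3) =
    (if 0 = i then 1 else 0) * (br (E a) (E b) 2).coeff (-2) -
      (if 2 = i then 1 else 0) * (br (E a) (E b) 0).coeff (-2) := by
  rw [br1, coeff_sub, tprod3 hE, tprod3 hE]
omit hU in
lemma tc3_2 (i a b : Fin 3) : (br (E i) (br (E a) (E b)) 2).coeff (-3) =
    (if 1 = i then 1 else 0) * (br (E a) (E b) 0).coeff (-2) -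
      (if 0 = i then 1 else 0) * (br (E a) (E b) 1).coeff (-2) := by
  rw [br2, coeff_sub, tprod3 hE, tprod3 hE]
omit hU in
lemma tc2_0 (i a b : Fin 3) : (br (E i) (br (E a) (E b)) 0).coeff (-2) =
    ((if 2 = i then 1 else 0) * (br (E a) (E b) 1).coeff (-1) +
      cst E i 2 * (br (E a) (E b) 1).coeff (-2)) -
      ((if 1 = i then 1 else 0) * (br (E a) (E b) 2).coeff (-1) +
        cst E i 1 * (br (E a) (E b) 2).coeff (-2)) := by
  rw [br0, coeff_sub, tprod2 hE, tprod2 hE]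
omit hU in
lemma tc2_1 (i a b : Fin 3) : (br (E i) (br (E a) (E b)) 1).coeff (-2) =
    ((if 0 = i then 1 else 0) * (br (E a) (E b) 2).coeff (-1) +
      cst E i 0 * (br (E a) (E b) 2).coeff (-2)) -
      ((if 2 = i then 1 else 0) * (br (E a) (E b) 0).coeff (-1) +
        cst E i 2 * (br (E a) (E b) 0).coeff (-2)) := by
  rw [br1, coeff_sub, tprod2 hE, tprod2 hE]
omit hU in
lemma tc2_2 (i a b : Fin 3) : (br (E i) (br (E a) (E b)) 2).coeff (-2) =
    ((if 1 = i then 1 else 0) * (br (E a) (E b) 0).coeff (-1) +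
      cst E i 1 * (br (E a) (E b) 0).coeff (-2)) -
      ((if 0 = i then 1 else 0) * (br (E a) (E b) 1).coeff (-1) +
        cst E i 0 * (br (E a) (E b) 1).coeff (-2)) := by
  rw [br2, coeff_sub, tprod2 hE, tprod2 hE]

lemma fold_E (X : V) (hX : X ∈ U) (hge : GeV (-3) X) (h3 : ∀ j, (X j).coeff (-3) = 0)
    (h2 : ∀ j, (X j).coeff (-2) = 0) :
    X = (X 1).coeff (-1) • E 1 + (X 2).coeff (-1) • E 2 + (X 0).coeff (-1) • E 0 := by
  have hk : GeV (-1) X := by
    intro j n hn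
    rcases lt_trichotomy n (-3) with h | h | h
    · exact hge j n h
    · rw [h]; exact h3 j
    · have : n = -2 := by omega
      rw [this]; exact h2 j
  have h := span_E hU hE hX hk
  rw [Fin.sum_univ_three] at h
  conv_lhs => rw [h]
  abel

/-- Existence of the constants. -/
lemma urel_exists : URel E (cst E 0 2 + cst E 2 0) (cst E 1 2 + cst E 2 1)
    (cst E 0 1 + cst E 1 0) (2 * (cst E 0 0 - cst E 2 2)) (2 * (cst E 1 1 - cst E 0 0))
      (2 * (cst E 2 2 - cst E 1 1)) := by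
  have hm2 : ∀ a b, br (E a) (E b) ∈ U := fun a b => hU.lie_mem _ (hE a).1 _ (hE b).1
  have hm3 : ∀ i a b, br (E i) (br (E a) (E b)) ∈ U := fun i a b => hU.lie_mem _ (hE i).1 _ (hm2 a b)
  have hg3 : ∀ i a b, GeV (-3) (br (E i) (br (E a) (E b))) := fun i a b => tge hE i a b
  have hg2 : ∀ (c : ℂ) a b, GeV (-3) (c • br (E a) (E b)) := fun c a b j =>
    (ge_smul c (pge hE a b j)).mono (by norm_num)
  have hm2' : ∀ (c : ℂ) a b, c • br (E a) (E b) ∈ U := fun c a b => U.smul_mem _ (hm2 a b)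
  have hb3 : ∀ a b l, (br (E a) (E b) l).coeff (-3) = 0 := fun a b l =>
    pge hE a b l _ (by norm_num)
  -- the six remainders
  have key : ∀ X Y : V, X ∈ U → Y ∈ U → GeV (-3) X → GeV (-3) Y →
      (∀ j, (X j).coeff (-3) = (Y j).coeff (-3)) → (∀ j, (X j).coeff (-2) = (Y j).coeff (-2)) →
      ∃ c : Fin 3 → ℂ, X = Y + (c 0 • E 1 + c 1 • E 2 + c 2 • E 0) := by
    intro X Y hX hY gX gY h3 h2
    refine ⟨![((X - Y) 1).coeff (-1), ((X - Y) 2).coeff (-1), ((X - Y) 0).coeff (-1)], ?_⟩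
    have h := fold_E hU hE (X - Y) (U.sub_mem hX hY) (gX.sub gY)
      (fun j => by simp [h3 j]) (fun j => by simp [h2 j])
    simp only [Matrix.cons_val_zero, Matrix.cons_val_one, Matrix.cons_val]
    rw [← h]; abel
  set u := cst E 0 2 + cst E 2 0 with hu
  set v := cst E 1 2 + cst E 2 1 with hv
  set w := cst E 0 1 + cst E 1 0 with hw
  set x := 2 * (cst E 0 0 - cst E 2 2) with hx
  set y := 2 * (cst E 1 1 - cst E 0 0) with hy
  set z := 2 * (cst E 2 2 - cst E 1 1) with hz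
  obtain ⟨b0, hb0⟩ := key (br (E 0) (br (E 1) (E 2)))
    ((-u) • br (E 2) (E 0) + w • br (E 0) (E 1)) (hm3 _ _ _)
    (U.add_mem (hm2' _ _ _) (hm2' _ _ _)) (hg3 _ _ _) ((hg2 _ _ _).add (hg2 _ _ _))
    (by
      intro j
      fin_cases j <;> simp [tc3_0 hE, tc3_1 hE, tc3_2 hE, hb3, pc2_0 hE, pc2_1 hE, pc2_2 hE])
    (by
      intro j
      fin_cases j <;> simp [tc2_0 hE, tc2_1 hE, tc2_2 hE, pc2_0 hE, pc2_1 hE, pc2_2 hE,
        pc1_0 hE, pc1_1 hE, pc1_2 hE, hu, hv, hw] <;> ring)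
  obtain ⟨b1, hb1⟩ := key (br (E 2) (br (E 0) (E 1)))
    (u • br (E 2) (E 0) + (-v) • br (E 1) (E 2)) (hm3 _ _ _)
    (U.add_mem (hm2' _ _ _) (hm2' _ _ _)) (hg3 _ _ _) ((hg2 _ _ _).add (hg2 _ _ _))
    (by
      intro j
      fin_cases j <;> simp [tc3_0 hE, tc3_1 hE, tc3_2 hE, hb3, pc2_0 hE, pc2_1 hE, pc2_2 hE])
    (by
      intro j
      fin_cases j <;> simp [tc2_0 hE, tc2_1 hE, tc2_2 hE, pc2_0 hE, pc2_1 hE, pc2_2 hE,
        pc1_0 hE, pc1_1 hE, pc1_2 hE, hu, hv, hw] <;> ring)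
  obtain ⟨b2, hb2⟩ := key (br (E 1) (br (E 2) (E 0)))
    ((-w) • br (E 0) (E 1) + v • br (E 1) (E 2)) (hm3 _ _ _)
    (U.add_mem (hm2' _ _ _) (hm2' _ _ _)) (hg3 _ _ _) ((hg2 _ _ _).add (hg2 _ _ _))
    (by
      intro j
      fin_cases j <;> simp [tc3_0 hE, tc3_1 hE, tc3_2 hE, hb3, pc2_0 hE, pc2_1 hE, pc2_2 hE])
    (by
      intro j
      fin_cases j <;> simp [tc2_0 hE, tc2_1 hE, tc2_2 hE, pc2_0 hE, pc2_1 hE, pc2_2 hE,
        pc1_0 hE, pc1_1 hE, pc1_2 hE, hu, hv, hw] <;> ring)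
  obtain ⟨d0, hd0⟩ := key (br (E 2) (br (E 1) (E 2)) + br (E 0) (br (E 0) (E 1)))
    (x • br (E 2) (E 0) + v • br (E 0) (E 1) + (-w) • br (E 1) (E 2))
    (U.add_mem (hm3 _ _ _) (hm3 _ _ _))
    (U.add_mem (U.add_mem (hm2' _ _ _) (hm2' _ _ _)) (hm2' _ _ _))
    ((hg3 _ _ _).add (hg3 _ _ _)) (((hg2 _ _ _).add (hg2 _ _ _)).add (hg2 _ _ _))
    (by
      intro j
      fin_cases j <;> simp [tc3_0 hE, tc3_1 hE, tc3_2 hE, hb3, pc2_0 hE, pc2_1 hE, pc2_2 hE])
    (by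
      intro j
      fin_cases j <;> simp [tc2_0 hE, tc2_1 hE, tc2_2 hE, pc2_0 hE, pc2_1 hE, pc2_2 hE,
        pc1_0 hE, pc1_1 hE, pc1_2 hE, hu, hv, hw, hx] <;> ring)
  obtain ⟨d1, hd1⟩ := key (br (E 0) (br (E 2) (E 0)) + br (E 1) (br (E 1) (E 2)))
    ((-v) • br (E 2) (E 0) + y • br (E 0) (E 1) + u • br (E 1) (E 2))
    (U.add_mem (hm3 _ _ _) (hm3 _ _ _))
    (U.add_mem (U.add_mem (hm2' _ _ _) (hm2' _ _ _)) (hm2' _ _ _))
    ((hg3 _ _ _).add (hg3 _ _ _)) (((hg2 _ _ _).add (hg2 _ _ _)).add (hg2 _ _ _))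
    (by
      intro j
      fin_cases j <;> simp [tc3_0 hE, tc3_1 hE, tc3_2 hE, hb3, pc2_0 hE, pc2_1 hE, pc2_2 hE])
    (by
      intro j
      fin_cases j <;> simp [tc2_0 hE, tc2_1 hE, tc2_2 hE, pc2_0 hE, pc2_1 hE, pc2_2 hE,
        pc1_0 hE, pc1_1 hE, pc1_2 hE, hu, hv, hw, hy] <;> ring)
  obtain ⟨d2, hd2⟩ := key (br (E 1) (br (E 0) (E 1)) + br (E 2) (br (E 2) (E 0)))
    (w • br (E 2) (E 0) + (-u) • br (E 0) (E 1) + z • br (E 1) (E 2))
    (U.add_mem (hm3 _ _ _) (hm3 _ _ _))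
    (U.add_mem (U.add_mem (hm2' _ _ _) (hm2' _ _ _)) (hm2' _ _ _))
    ((hg3 _ _ _).add (hg3 _ _ _)) (((hg2 _ _ _).add (hg2 _ _ _)).add (hg2 _ _ _))
    (by
      intro j
      fin_cases j <;> simp [tc3_0 hE, tc3_1 hE, tc3_2 hE, hb3, pc2_0 hE, pc2_1 hE, pc2_2 hE])
    (by
      intro j
      fin_cases j <;> simp [tc2_0 hE, tc2_1 hE, tc2_2 hE, pc2_0 hE, pc2_1 hE, pc2_2 hE,
        pc1_0 hE, pc1_1 hE, pc1_2 hE, hu, hv, hw, hz] <;> ring)
  refine ⟨Matrix.of ![b0, b1, b2], Matrix.of ![d0, d1, d2], ?_, ?_⟩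
  · funext i
    fin_cases i <;>
      simp only [mcol, matA, Fin.sum_univ_three, Matrix.cons_val_zero, Matrix.cons_val_one,
        Matrix.of_apply, Matrix.cons_val, V_zero_smul, add_zero, zero_add, Fin.zero_eta,
        Fin.mk_one, Fin.reduceFinMk, Pi.add_apply]
    · exact hb0
    · exact hb1
    · exact hb2
  · funext i
    fin_cases i <;>
      simp only [mcol, matC, Fin.sum_univ_three, Matrix.cons_val_zero, Matrix.cons_val_one,
        Matrix.of_apply, Matrix.cons_val, Fin.zero_eta,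
        Fin.mk_one, Fin.reduceFinMk, Pi.add_apply]
    · exact hd0
    · exact hd1
    · exact hd2

omit hU in
/-- Uniqueness of the constants. -/
lemma urel_unique {u v w x y z : ℂ} (h : URel E u v w x y z) :
    u = cst E 0 2 + cst E 2 0 ∧ v = cst E 1 2 + cst E 2 1 ∧ w = cst E 0 1 + cst E 1 0 ∧
    x = 2 * (cst E 0 0 - cst E 2 2) ∧ y = 2 * (cst E 1 1 - cst E 0 0) ∧
    z = 2 * (cst E 2 2 - cst E 1 1) := by
  obtain ⟨B, D, h1, h2⟩ := h
  have hE2 : ∀ i j, (E i j).coeff (-2) = 0 := fun i j => ge_neg_one (hE i).2 j _ (by norm_num)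
  have a0 := congrFun h1 0
  have a1 := congrFun h1 1
  have b0 := congrFun h2 0
  have b1 := congrFun h2 1
  have b2 := congrFun h2 2
  simp only [mcol, matA, matC, Fin.sum_univ_three, Matrix.cons_val_zero, Matrix.cons_val_one,
      Matrix.of_apply, Matrix.cons_val, V_zero_smul, add_zero, zero_add, Pi.add_apply]
      at a0 a1 b0 b1 b2
  have a01 := congrArg (fun s : LS => s.coeff (-2)) (congrFun a0 1)
  have a02 := congrArg (fun s : LS => s.coeff (-2)) (congrFun a0 2)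
  have a10 := congrArg (fun s : LS => s.coeff (-2)) (congrFun a1 0)
  have b01 := congrArg (fun s : LS => s.coeff (-2)) (congrFun b0 1)
  have b12 := congrArg (fun s : LS => s.coeff (-2)) (congrFun b1 2)
  have b20 := congrArg (fun s : LS => s.coeff (-2)) (congrFun b2 0)
  simp [tc2_0 hE, tc2_1 hE, tc2_2 hE, pc2_0 hE, pc2_1 hE, pc2_2 hE,
        pc1_0 hE, pc1_1 hE, pc1_2 hE, hE2] at a01 a02 a10 b01 b12 b20
  refine ⟨?_, ?_, ?_, ?_, ?_, ?_⟩
  · linear_combination -a01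
  · linear_combination -a10
  · linear_combination a02
  · linear_combination b01
  · linear_combination b12
  · linear_combination b20

end

end

end Pool.Agent.H78.So3
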