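import Mathlib

set_option autoImplicit false

namespace Pool.Agent.H78.WordMap

/-- The word map of `w` on the group `G`: it sends `(g, h)` to `w(g, h)`. -/
def wordMap (w : FreeGroup (Fin 2)) (G : Type*) [Group G] : G × G → G :=
  fun gh => FreeGroup.lift ![gh.1, gh.2] w

/-- The word map of `w` is not surjective on `PSL_2` of a field with `q` elements. -/
def NonSurjOn (w : FreeGroup (Fin 2)) (q : ℕ) : Prop :=
  ∀ (F : Type) [Field F] [Fintype F], Fintype.card F = q →
    ¬ Function.Surjective (wordMap w (Matrix.ProjectiveSpecialLinearGroup (Fin 2) F))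

/-- `w` is a proper power. -/
def IsProperPower (w : FreeGroup (Fin 2)) : Prop :=
  ∃ (v : FreeGroup (Fin 2)) (k : ℕ), 2 ≤ k ∧ w = v ^ k

end Pool.Agent.H78.WordMap
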