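import Pool.Agent.H78.WordDefs

set_option autoImplicit false

namespace Pool.Agent.H78.WordMap

open Matrix

/-! ### Two matrices of determinant one with equal traces -/

section Algebra

variable {R : Type*} [CommRing R]

/-- The combination `a + b X + c Z + d XZ`. -/
def ev (X Z : Matrix (Fin 2) (Fin 2) R) (a b c d : R) : Matrix (Fin 2) (Fin 2) R :=
  a • 1 + b • X + c • Z + d • (X * Z)

variable {X Z : Matrix (Fin 2) (Fin 2) R} {t v : R}

lemma sq_rel (hdet : X.det = 1) : X * X = X.trace • X - 1 := by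
  rw [Matrix.det_fin_two] at hdet
  ext i j
  fin_cases i <;> fin_cases j <;>
    simp [Matrix.mul_apply, Fin.sum_univ_two, Matrix.trace_fin_two]
  · linear_combination -hdet
  · ring
  · ring
  · linear_combination -hdet

lemma zx_rel (X Z : Matrix (Fin 2) (Fin 2) R) :
    Z * X = Z.trace • X + X.trace • Z + ((X * Z).trace - X.trace * Z.trace) • 1 - X * Z := by
  ext i j
  fin_cases i <;> fin_cases j <;>
    simp [Matrix.mul_apply, Fin.sum_univ_two, Matrix.trace_fin_two] <;> ring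

variable (hX : X * X = t • X - 1) (hZ : Z * Z = t • Z - 1)
  (hZX : Z * X = t • X + t • Z + (v - t * t) • 1 - X * Z)

include hX hZ hZX

omit hZ in
lemma xzx : X * Z * X = -t • 1 + v • X + Z := by
  have h1 : X * Z * X = X * (Z * X) := by rw [mul_assoc]
  have h2 : X * (X * Z) = (X * X) * Z := by rw [mul_assoc]
  rw [h1, hZX]
  simp only [mul_sub, mul_add, mul_smul_comm, mul_one, h2, hX, sub_mul, smul_mul_assoc, one_mul]
  module

omit hX hZX in
lemma xzz : X * Z * Z = t • (X * Z) - X := by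
  rw [mul_assoc, hZ, mul_sub, mul_smul_comm, mul_one]

omit hZ in
lemma stepX {P : Matrix (Fin 2) (Fin 2) R} {a b c d a' b' c' d' : R} (h : P = ev X Z a b c d)
    (ha : a' = -b + c * (v - t * t) - d * t) (hb : b' = a + b * t + c * t + d * v)
    (hc : c' = c * t + d) (hd : d' = -c) : P * X = ev X Z a' b' c' d' := by
  rw [h, ha, hb, hc, hd]
  simp only [ev, add_mul, smul_mul_assoc, one_mul, xzx hX hZX]
  rw [hX, hZX]
  module

omit hX hZX in
lemma stepZ {P : Matrix (Fin 2) (Fin 2) R} {a b c d a' b' c' d' : R} (h : P = ev X Z a b c d)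
    (ha : a' = -c) (hb : b' = -d) (hc : c' = a + c * t) (hd : d' = b + d * t) :
    P * Z = ev X Z a' b' c' d' := by
  rw [h, ha, hb, hc, hd]
  simp only [ev, add_mul, smul_mul_assoc, one_mul, xzz hZ]
  rw [hZ]
  module

omit hX hZ hZX in
lemma trace_ev (hx : X.trace = t) (hz : Z.trace = t) (hv : (X * Z).trace = v) (a b c d : R) :
    (ev X Z a b c d).trace = 2 * a + t * b + t * c + v * d := by
  simp only [ev, Matrix.trace_add, Matrix.trace_smul, hx, hz, hv, smul_eq_mul]
  simp
  ring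

end Algebra

section Trace

variable {R : Type*} [CommRing R] {X Z : Matrix (Fin 2) (Fin 2) R}

/-- The trace of the word `X^6 Z^2 X^2 Z^3 X Z`. -/
lemma trace_word (dX : X.det = 1) (dZ : Z.det = 1) {t v : R} (hx : X.trace = t) (hz : Z.trace = t)
    (hv : (X * Z).trace = v) :
    (X * X * X * X * X * X * Z * Z * X * X * Z * Z * Z * X * Z).trace =
      (t + t * v + t ^ 3 * v) ^ 3 + (t + t * v + t ^ 3 * v) + 2 *
      (- 2*t^9*v^2 + 2*t^9*v - 4*t^7*v^3 + 9*t^7*v^2 - 10*t^7*v - 2*t^7 + 2*t^5*v^3 - 20*t^5*v^2 + 14*t^5*v + 9*t^5 - 2*t^3*v^3 + 9*t^3*v^2 - 11*t^3*v - 12*t^3 - 2*t*v^2 + t*v + 3*t) := by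
  have hX : X * X = t • X - 1 := by rw [sq_rel dX, hx]
  have hZ : Z * Z = t • Z - 1 := by rw [sq_rel dZ, hz]
  have hZX : Z * X = t • X + t • Z + (v - t * t) • 1 - X * Z := by
    rw [zx_rel X Z, hx, hz, hv]
  have h1 : X = ev X Z 0 1 0 0 := by simp [ev]
  have h2 := stepX hX hZX h1 (a' := - 1) (b' := t)
    (c' := 0) (d' := 0) (by ring) (by ring) (by ring) (by ring)
  have h3 := stepX hX hZX h2 (a' := - t) (b' := t^2 - 1)
    (c' := 0) (d' := 0) (by ring) (by ring) (by ring) (by ring)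
  have h4 := stepX hX hZX h3 (a' := - t^2 + 1) (b' := t^3 - 2*t)
    (c' := 0) (d' := 0) (by ring) (by ring) (by ring) (by ring)
  have h5 := stepX hX hZX h4 (a' := - t^3 + 2*t) (b' := t^4 - 3*t^2 + 1)
    (c' := 0) (d' := 0) (by ring) (by ring) (by ring) (by ring)
  have h6 := stepX hX hZX h5 (a' := - t^4 + 3*t^2 - 1) (b' := t^5 - 4*t^3 + 3*t)
    (c' := 0) (d' := 0) (by ring) (by ring) (by ring) (by ring)
  have h7 := stepZ hZ h6 (a' := 0) (b' := 0)
    (c' := - t^4 + 3*t^2 - 1) (d' := t^5 - 4*t^3 + 3*t) (by ring) (by ring) (by ring) (by ring)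
  have h8 := stepZ hZ h7 (a' := t^4 - 3*t^2 + 1) (b' := - t^5 + 4*t^3 - 3*t)
    (c' := - t^5 + 3*t^3 - t) (d' := t^6 - 4*t^4 + 3*t^2) (by ring) (by ring) (by ring) (by ring)
  have h9 := stepX hX hZX h8 (a' := - t^5*v + 2*t^5 + 3*t^3*v - 6*t^3 - t*v + 3*t) (b' := t^6*v - 2*t^6 - 4*t^4*v + 8*t^4 + 3*t^2*v - 7*t^2 + 1)
    (c' := - t^4 + 2*t^2) (d' := t^5 - 3*t^3 + t) (by ring) (by ring) (by ring) (by ring)
  have h10 := stepX hX hZX h9 (a' := - t^6*v + 2*t^6 + 3*t^4*v - 7*t^4 - t^2*v + 6*t^2 - 1) (b' := t^7*v - 2*t^7 - 4*t^5*v + 9*t^5 + 3*t^3*v - 11*t^3 + 4*t)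
    (c' := - t^3 + t) (d' := t^4 - 2*t^2) (by ring) (by ring) (by ring) (by ring)
  have h11 := stepZ hZ h10 (a' := t^3 - t) (b' := - t^4 + 2*t^2)
    (c' := - t^6*v + 2*t^6 + 3*t^4*v - 8*t^4 - t^2*v + 7*t^2 - 1) (d' := t^7*v - 2*t^7 - 4*t^5*v + 10*t^5 + 3*t^3*v - 13*t^3 + 4*t) (by ring) (by ring) (by ring) (by ring)
  have h12 := stepZ hZ h11 (a' := t^6*v - 2*t^6 - 3*t^4*v + 8*t^4 + t^2*v - 7*t^2 + 1) (b' := - t^7*v + 2*t^7 + 4*t^5*v - 10*t^5 - 3*t^3*v + 13*t^3 - 4*t)
    (c' := - t^7*v + 2*t^7 + 3*t^5*v - 8*t^5 - t^3*v + 8*t^3 - 2*t) (d' := t^8*v - 2*t^8 - 4*t^6*v + 10*t^6 + 3*t^4*v - 14*t^4 + 6*t^2) (by ring) (by ring) (by ring) (by ring)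
  have h13 := stepZ hZ h12 (a' := t^7*v - 2*t^7 - 3*t^5*v + 8*t^5 + t^3*v - 8*t^3 + 2*t) (b' := - t^8*v + 2*t^8 + 4*t^6*v - 10*t^6 - 3*t^4*v + 14*t^4 - 6*t^2)
    (c' := - t^8*v + 2*t^8 + 4*t^6*v - 10*t^6 - 4*t^4*v + 16*t^4 + t^2*v - 9*t^2 + 1) (d' := t^9*v - 2*t^9 - 5*t^7*v + 12*t^7 + 7*t^5*v - 24*t^5 - 3*t^3*v + 19*t^3 - 4*t) (by ring) (by ring) (by ring) (by ring)
  have h14 := stepX hX hZX h13 (a' := - t^8*v^2 + 4*t^8*v - 4*t^8 + 4*t^6*v^2 - 17*t^6*v + 18*t^6 - 4*t^4*v^2 + 21*t^4*v - 24*t^4 + t^2*v^2 - 9*t^2*v + 9*t^2 + v) (b' := t^9*v^2 - 4*t^9*v + 4*t^9 - 5*t^7*v^2 + 21*t^7*v - 22*t^7 + 7*t^5*v^2 - 34*t^5*v + 38*t^5 - 3*t^3*v^2 + 21*t^3*v - 23*t^3 - 4*t*v + 3*t)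
    (c' := - t^7*v + 2*t^7 + 3*t^5*v - 8*t^5 - 2*t^3*v + 10*t^3 - 3*t) (d' := t^8*v - 2*t^8 - 4*t^6*v + 10*t^6 + 4*t^4*v - 16*t^4 - t^2*v + 9*t^2 - 1) (by ring) (by ring) (by ring) (by ring)
  have h15 := stepZ hZ h14 (a' := t^7*v - 2*t^7 - 3*t^5*v + 8*t^5 + 2*t^3*v - 10*t^3 + 3*t) (b' := - t^8*v + 2*t^8 + 4*t^6*v - 10*t^6 - 4*t^4*v + 16*t^4 + t^2*v - 9*t^2 + 1)
    (c' := - t^8*v^2 + 3*t^8*v - 2*t^8 + 4*t^6*v^2 - 14*t^6*v + 10*t^6 - 4*t^4*v^2 + 19*t^4*v - 14*t^4 + t^2*v^2 - 9*t^2*v + 6*t^2 + v) (d' := t^9*v^2 - 3*t^9*v + 2*t^9 - 5*t^7*v^2 + 17*t^7*v - 12*t^7 + 7*t^5*v^2 - 30*t^5*v + 22*t^5 - 3*t^3*v^2 + 20*t^3*v - 14*t^3 - 4*t*v + 2*t) (by ring) (by ring) (by ring) (by ring)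
  rw [h15, trace_ev hx hz hv]
  ring

end Trace

/-! ### The word map in characteristic two -/

section WordMapPart

open Matrix.SpecialLinearGroup

/-- The word `x^6 y^b x^2 y^(-b) x^2 y^b x^3 y^(-b) x y^b x y^(-b)`. -/
def wd (b : ℕ) : FreeGroup (Fin 2) :=
  FreeGroup.of 0 ^ 6 * FreeGroup.of 1 ^ b * FreeGroup.of 0 ^ 2 * (FreeGroup.of 1 ^ b)⁻¹ *
    FreeGroup.of 0 ^ 2 * FreeGroup.of 1 ^ b * FreeGroup.of 0 ^ 3 * (FreeGroup.of 1 ^ b)⁻¹ *
    FreeGroup.of 0 * FreeGroup.of 1 ^ b * FreeGroup.of 0 * (FreeGroup.of 1 ^ b)⁻¹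

lemma lift_wd (b : ℕ) {G : Type*} [Group G] (x y : G) :
    FreeGroup.lift ![x, y] (wd b) =
      x * x * x * x * x * x * (y ^ b * x * (y ^ b)⁻¹) * (y ^ b * x * (y ^ b)⁻¹) * x * x *
        (y ^ b * x * (y ^ b)⁻¹) * (y ^ b * x * (y ^ b)⁻¹) * (y ^ b * x * (y ^ b)⁻¹) * x *
        (y ^ b * x * (y ^ b)⁻¹) := by
  simp only [wd, map_mul, map_pow, map_inv, FreeGroup.lift_apply_of, Matrix.cons_val_zero,
    Matrix.cons_val_one]
  generalize y ^ b = u
  simp only [pow_succ, pow_zero, one_mul, mul_assoc, inv_mul_cancel_left]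

/-- The trace of the word in characteristic two is `z^3 + z`. -/
lemma trace_wd (b : ℕ) {F : Type*} [Field F] [CharP F 2]
    (x y : Matrix.SpecialLinearGroup (Fin 2) F) :
    ∃ z : F, ((FreeGroup.lift ![x, y] (wd b) : Matrix.SpecialLinearGroup (Fin 2) F) :
      Matrix (Fin 2) (Fin 2) F).trace = z ^ 3 + z := by
  set Z : Matrix.SpecialLinearGroup (Fin 2) F := y ^ b * x * (y ^ b)⁻¹ with hZ
  have htr : (Z : Matrix (Fin 2) (Fin 2) F).trace = (x : Matrix (Fin 2) (Fin 2) F).trace := by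
    have h1 : (Z : Matrix (Fin 2) (Fin 2) F) = ((y ^ b : Matrix.SpecialLinearGroup (Fin 2) F) :
        Matrix (Fin 2) (Fin 2) F) * (x : Matrix (Fin 2) (Fin 2) F) *
        (((y ^ b)⁻¹ : Matrix.SpecialLinearGroup (Fin 2) F) : Matrix (Fin 2) (Fin 2) F) := by
      rw [hZ, Matrix.SpecialLinearGroup.coe_mul, Matrix.SpecialLinearGroup.coe_mul]
    have h2 : (((y ^ b)⁻¹ : Matrix.SpecialLinearGroup (Fin 2) F) : Matrix (Fin 2) (Fin 2) F) *
        ((y ^ b : Matrix.SpecialLinearGroup (Fin 2) F) : Matrix (Fin 2) (Fin 2) F) = 1 := by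
      rw [← Matrix.SpecialLinearGroup.coe_mul, inv_mul_cancel, Matrix.SpecialLinearGroup.coe_one]
    rw [h1, Matrix.trace_mul_comm, ← mul_assoc, h2, one_mul]
  have h2 : (2 : F) = 0 := CharTwo.two_eq_zero
  have h3 := trace_word (X := (x : Matrix (Fin 2) (Fin 2) F))
    (Z := (Z : Matrix (Fin 2) (Fin 2) F)) x.2 Z.2 rfl htr rfl
  rw [h2, zero_mul, add_zero] at h3
  have h4 : ((FreeGroup.lift ![x, y] (wd b) : Matrix.SpecialLinearGroup (Fin 2) F) :
      Matrix (Fin 2) (Fin 2) F) = (x : Matrix (Fin 2) (Fin 2) F) * x * x * x * x * x * Z * Z *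
        x * x * Z * Z * Z * x * Z := by
    rw [lift_wd, ← hZ]
    simp only [Matrix.SpecialLinearGroup.coe_mul]
  rw [h4]
  exact ⟨_, h3⟩

lemma center_trivial {F : Type*} [Field F] [CharP F 2] {c : Matrix.SpecialLinearGroup (Fin 2) F}
    (hc : c ∈ Subgroup.center (Matrix.SpecialLinearGroup (Fin 2) F)) : c = 1 := by
  rw [Matrix.SpecialLinearGroup.mem_center_iff] at hc
  obtain ⟨r, hr, hrc⟩ := hc
  have h2 : (2 : F) = 0 := CharTwo.two_eq_zero
  have h3 : (r - 1) ^ 2 = 0 := by
    have : r ^ 2 = 1 := by simpa using hr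
    linear_combination this - (r - 1) * h2
  have h4 : r = 1 := by
    have := (pow_eq_zero_iff (two_ne_zero)).mp h3
    exact sub_eq_zero.mp this
  apply Subtype.ext
  rw [← hrc, h4]
  simp

/-- A finite field of characteristic two has an element that is not of the form `z^3 + z`. -/
lemma exists_not_cube_trace (F : Type*) [Field F] [Finite F] [CharP F 2] :
    ∃ τ : F, ∀ z : F, z ^ 3 + z ≠ τ := by
  by_contra hcon
  have hs : Function.Surjective (fun z : F => z ^ 3 + z) := by
    intro τ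
    by_contra hn
    exact hcon ⟨τ, fun z hz => hn ⟨z, hz⟩⟩
  have hi := Finite.injective_iff_surjective.mpr hs
  have h2 : (2 : F) = 0 := CharTwo.two_eq_zero
  have : (1 : F) = 0 := by
    apply hi
    change (1 : F) ^ 3 + 1 = 0 ^ 3 + 0
    linear_combination h2
  exact one_ne_zero this

theorem not_surjective (b : ℕ) (F : Type*) [Field F] [Finite F] [CharP F 2] :
    ¬ Function.Surjective (wordMap (wd b) (Matrix.ProjectiveSpecialLinearGroup (Fin 2) F)) := by
  intro hs
  obtain ⟨τ, hτ⟩ := exists_not_cube_trace F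
  have h2 : (2 : F) = 0 := CharTwo.two_eq_zero
  let g : Matrix.SpecialLinearGroup (Fin 2) F := ⟨!![τ, 1; 1, 0], by
    rw [Matrix.det_fin_two_of]; linear_combination -h2⟩
  obtain ⟨⟨a, c⟩, hac⟩ := hs (QuotientGroup.mk g)
  obtain ⟨x, rfl⟩ := QuotientGroup.mk_surjective a
  obtain ⟨y, rfl⟩ := QuotientGroup.mk_surjective c
  have h3 : wordMap (wd b) (Matrix.ProjectiveSpecialLinearGroup (Fin 2) F)
      (QuotientGroup.mk x, QuotientGroup.mk y) =
      QuotientGroup.mk (FreeGroup.lift ![x, y] (wd b)) := by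
    have h4 : (FreeGroup.lift ![(QuotientGroup.mk x : Matrix.ProjectiveSpecialLinearGroup (Fin 2) F),
        QuotientGroup.mk y]) = (QuotientGroup.mk' _).comp (FreeGroup.lift ![x, y]) := by
      ext i
      fin_cases i <;> simp
    unfold wordMap
    change FreeGroup.lift ![(QuotientGroup.mk x : Matrix.ProjectiveSpecialLinearGroup (Fin 2) F),
        QuotientGroup.mk y] (wd b) = _
    rw [h4]
    rfl
  rw [h3, QuotientGroup.eq] at hac
  have h5 := center_trivial hac
  have h6 : FreeGroup.lift ![x, y] (wd b) = g := by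
    have := inv_mul_eq_one.mp h5
    exact this
  obtain ⟨z, hz⟩ := trace_wd b x y
  rw [h6] at hz
  apply hτ z
  rw [← hz]
  simp [g, Matrix.trace_fin_two]

end WordMapPart

/-! ### The reduced spelling -/

section Spelling

open FreeGroup

/-- The list of letters of `wd b`. -/
def wl (b : ℕ) : List (Fin 2 × Bool) :=
  List.replicate 6 (0, true) ++ (List.replicate b (1, true) ++ (List.replicate 2 (0, true) ++
    (List.replicate b (1, false) ++ (List.replicate 2 (0, true) ++ (List.replicate b (1, true) ++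
    (List.replicate 3 (0, true) ++ (List.replicate b (1, false) ++ (List.replicate 1 (0, true) ++
    (List.replicate b (1, true) ++ (List.replicate 1 (0, true) ++ List.replicate b (1, false)))))))))))

lemma mk_replicate (i : Fin 2) (c : Bool) (n : ℕ) :
    (mk (List.replicate n (i, c)) : FreeGroup (Fin 2)) = (mk [(i, c)]) ^ n := by
  induction n with
  | zero => rfl
  | succ n ih =>
    rw [List.replicate_succ, ← List.singleton_append, ← FreeGroup.mul_mk, ih, pow_succ']

lemma mk_true (i : Fin 2) : (mk [(i, true)] : FreeGroup (Fin 2)) = of i := rfl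

lemma mk_false (i : Fin 2) : (mk [(i, false)] : FreeGroup (Fin 2)) = (of i)⁻¹ := rfl

lemma mk_wl (b : ℕ) : (mk (wl b) : FreeGroup (Fin 2)) = wd b := by
  simp only [wl, ← FreeGroup.mul_mk, mk_replicate, mk_true, mk_false, wd, inv_pow, pow_one,
    mul_assoc]

lemma chain_replicate {α : Type*} {r : α → α → Prop} {a : α} (haa : r a a) (n : ℕ) {l : List α}
    (hl : l.IsChain r) (h : ∀ c ∈ l.head?, r a c) : (List.replicate n a ++ l).IsChain r := by
  induction n with
  | zero => simpa using hl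
  | succ n ih =>
    rw [List.replicate_succ, List.cons_append, List.isChain_cons]
    refine ⟨?_, ih⟩
    intro c hc
    cases n with
    | zero => exact h c (by simpa using hc)
    | succ n =>
      rw [List.replicate_succ, List.cons_append, List.head?_cons, Option.mem_some_iff] at hc
      rw [← hc]; exact haa

lemma head_replicate {α : Type*} {a : α} {n : ℕ} (hn : 1 ≤ n) (l : List α) :
    (List.replicate n a ++ l).head? = some a := by
  obtain ⟨m, rfl⟩ : ∃ m, n = m + 1 := ⟨n - 1, by omega⟩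
  simp [List.replicate_succ]

lemma wl_reduced {b : ℕ} (hb : 1 ≤ b) : FreeGroup.IsReduced (wl b) := by
  unfold wl FreeGroup.IsReduced
  have hlast : (List.replicate b ((1 : Fin 2), false)).IsChain
      (fun a b => a.1 = b.1 → a.2 = b.2) := by
    have := chain_replicate (r := fun a b : Fin 2 × Bool => a.1 = b.1 → a.2 = b.2)
      (a := ((1 : Fin 2), false)) (by simp) b (l := []) (by simp) (by simp)
    simpa using this
  have hhead : (List.replicate b ((1 : Fin 2), false)).head? = some (1, false) := by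
    have := head_replicate hb (a := ((1 : Fin 2), false)) []
    simpa using this
  refine chain_replicate (by simp) 6 ?_ (by rw [head_replicate hb]; simp)
  refine chain_replicate (by simp) b ?_ (by rw [head_replicate (by norm_num)]; simp)
  refine chain_replicate (by simp) 2 ?_ (by rw [head_replicate hb]; simp)
  refine chain_replicate (by simp) b ?_ (by rw [head_replicate (by norm_num)]; simp)
  refine chain_replicate (by simp) 2 ?_ (by rw [head_replicate hb]; simp)
  refine chain_replicate (by simp) b ?_ (by rw [head_replicate (by norm_num)]; simp)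
  refine chain_replicate (by simp) 3 ?_ (by rw [head_replicate hb]; simp)
  refine chain_replicate (by simp) b ?_ (by rw [head_replicate (by norm_num)]; simp)
  refine chain_replicate (by simp) 1 ?_ (by rw [head_replicate hb]; simp)
  refine chain_replicate (by simp) b ?_ (by rw [head_replicate (by norm_num)]; simp)
  exact chain_replicate (by simp) 1 hlast (by rw [hhead]; simp)

lemma toWord_wd {b : ℕ} (hb : 1 ≤ b) : (wd b).toWord = wl b := by
  rw [← mk_wl, toWord_mk, (wl_reduced hb).reduce_eq]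

lemma norm_wd {b : ℕ} (hb : 1 ≤ b) : (wd b).norm = 15 + 6 * b := by
  rw [FreeGroup.norm, toWord_wd hb]
  simp [wl]
  ring

lemma not_power {b : ℕ} (hb : 1 ≤ b) (u : FreeGroup (Fin 2)) (k : ℕ) (hk : 2 ≤ k) :
    wd b ≠ u ^ k := by
  intro h
  have h1 := congrArg toWord h
  rw [toWord_wd hb, toWord_pow, reduceCyclically.reduce_flatten_replicate isReduced_toWord,
    if_neg (by omega)] at h1
  set C := reduceCyclically u.toWord with hC
  set J := reduceCyclically.conjugator u.toWord with hJ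
  -- the conjugator is trivial
  have hfirst : (wl b).head? = some (0, true) := by simp [wl]
  have hlast : (wl b).getLast? = some (1, false) := by
    obtain ⟨m, rfl⟩ : ∃ m, b = m + 1 := ⟨b - 1, by omega⟩
    have e0 : List.replicate (m + 1) ((1 : Fin 2), false) =
        List.replicate m ((1 : Fin 2), false) ++ [(1, false)] := List.replicate_succ'
    unfold wl
    rw [e0]
    simp only [← List.append_assoc]
    exact List.getLast?_concat
  have hJ0 : J = [] := by
    rcases J with _ | ⟨a, J'⟩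
    · rfl
    · exfalso
      rw [h1] at hfirst hlast
      have e1 : a = (0, true) := by simpa using hfirst
      have e3 : (a :: J') ++ (List.replicate k C).flatten ++ invRev (a :: J') =
          ((a :: J') ++ (List.replicate k C).flatten ++ invRev J') ++ [(a.1, !a.2)] := by
        simp [invRev]
      have e2 : (a.1, !a.2) = ((1 : Fin 2), false) := by
        rw [e3, List.getLast?_concat] at hlast
        exact Option.some_injective _ hlast
      rw [e1] at e2
      simp at e2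
  rw [hJ0] at h1
  have h2 : wl b = (List.replicate k C).flatten := by simpa [invRev] using h1
  -- counting letters
  have c0 : (wl b).count ((0 : Fin 2), true) = 15 := by
    simp [wl, List.count_append, List.count_replicate]
  have c1 : (wl b).count ((1 : Fin 2), true) = 3 * b := by
    simp [wl, List.count_append, List.count_replicate]
    ring
  have d0 : (wl b).count ((0 : Fin 2), true) = k * C.count ((0 : Fin 2), true) := by
    rw [h2, List.count_flatten]; simp
  have d1 : (wl b).count ((1 : Fin 2), true) = k * C.count ((1 : Fin 2), true) := by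
    rw [h2, List.count_flatten]; simp
  have p1 : C <+: wl b := by
    rw [h2]
    obtain ⟨m, rfl⟩ : ∃ m, k = m + 1 := ⟨k - 1, by omega⟩
    rw [List.replicate_succ, List.flatten_cons]
    exact List.prefix_append _ _
  have p2 : List.replicate 6 ((0 : Fin 2), true) <+: wl b := List.prefix_append _ _
  rcases List.prefix_or_prefix_of_prefix p1 p2 with hp | hp
  · have := hp.sublist.count_le ((1 : Fin 2), true)
    have e0 : (List.replicate 6 ((0 : Fin 2), true)).count ((1 : Fin 2), true) = 0 := by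
      simp [List.count_replicate]
    rw [e0] at this
    have e1 : C.count ((1 : Fin 2), true) = 0 := by omega
    rw [e1, c1] at d1
    omega
  · have := hp.sublist.count_le ((0 : Fin 2), true)
    have e0 : (List.replicate 6 ((0 : Fin 2), true)).count ((0 : Fin 2), true) = 6 := by
      simp [List.count_replicate]
    rw [e0] at this
    rw [c0] at d0
    generalize C.count ((0 : Fin 2), true) = c at d0 this
    have h7 : c ≤ 7 := by
      by_contra hc
      have : 2 * 8 ≤ k * c := Nat.mul_le_mul hk (by omega)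
      omega
    interval_cases c <;> omega

end Spelling

end Pool.Agent.H78.WordMap
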